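import Pool.Agent.Work.MP_b0c12c_pp.B_CGEa

/-! # Block CGE (helper98): the general theorem for a sequence with a level of distribution -/

set_option autoImplicit false

namespace Pool.PP

open Finset Filter

/-- The elementary inequalities for large `L`. -/
theorem CGE_large (C2 : ℝ) (z0 z1 J N : ℕ) (hC2 : 0 < C2) :
    ∀ᶠ L : ℝ in atTop, 1000 ≤ L ∧ (z0 : ℝ) ≤ L ∧ (z1 : ℝ) ≤ L ∧
      2 * L ^ 6 ≤ Real.exp (L / 1024) ∧ 14336 * (Real.log L / L) < (1 / 2 : ℝ) ^ J ∧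
      2 * C2 * L < L ^ 6 ∧ (2 * C2 * L + 1) ^ 3 * z0 ≤ L ^ 6 ∧
      4 * (2 + (2 * C2 * L + 1)) ^ N ≤ L ^ (N + 1) := by
  have h4 : ∀ᶠ L : ℝ in atTop, 2 * L ^ 6 ≤ Real.exp (L / 1024) := by
    have h := (isLittleO_pow_exp_pos_mul_atTop (b := 1 / 1024) 6 (by norm_num)).bound
      (c := 1 / 2) (by norm_num)
    filter_upwards [h, eventually_ge_atTop 0] with L hL h0
    rw [Real.norm_eq_abs, Real.norm_eq_abs, abs_of_nonneg (by positivity),
      abs_of_nonneg (Real.exp_pos _).le] at hL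
    rw [show L / 1024 = 1 / 1024 * L by ring]
    linarith
  have h5 : ∀ᶠ L : ℝ in atTop, 14336 * (Real.log L / L) < (1 / 2 : ℝ) ^ J := by
    have h := Real.isLittleO_log_id_atTop.bound (c := (1 / 2 : ℝ) ^ J / 28672) (by positivity)
    filter_upwards [h, eventually_ge_atTop 1] with L hL h0
    simp only [id, Real.norm_eq_abs] at hL
    rw [abs_of_nonneg (Real.log_nonneg h0), abs_of_nonneg (by linarith)] at hL
    have hL0 : 0 < L := by linarith
    have h1 : Real.log L / L ≤ (1 / 2 : ℝ) ^ J / 28672 := by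
      rw [div_le_iff₀ hL0]; exact hL
    have h2 : 0 < (1 / 2 : ℝ) ^ J := by positivity
    linarith
  filter_upwards [eventually_ge_atTop (1000 : ℝ), eventually_ge_atTop (z0 : ℝ),
    eventually_ge_atTop (z1 : ℝ), h4, h5, eventually_gt_atTop (2 * C2),
    eventually_ge_atTop ((2 * C2 + 1) ^ 3 * z0),
    eventually_ge_atTop (4 * (3 + 2 * C2) ^ N)] with L a1 a2 a3 a4 a5 a6 a7 a8
  have hL0 : 0 < L := by linarith
  have hL1 : 1 ≤ L := by linarith
  refine ⟨a1, a2, a3, a4, a5, ?_, ?_, ?_⟩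
  · calc 2 * C2 * L < L * L := by gcongr
      _ = L ^ 2 := by ring
      _ ≤ L ^ 6 := pow_le_pow_right₀ hL1 (by norm_num)
  · calc (2 * C2 * L + 1) ^ 3 * z0 ≤ ((2 * C2 + 1) * L) ^ 3 * z0 := by
          gcongr
          nlinarith
      _ = ((2 * C2 + 1) ^ 3 * z0) * L ^ 3 := by ring
      _ ≤ L * L ^ 3 := by gcongr
      _ = L ^ 4 := by ring
      _ ≤ L ^ 6 := pow_le_pow_right₀ hL1 (by norm_num)
  · calc 4 * (2 + (2 * C2 * L + 1)) ^ N ≤ 4 * ((3 + 2 * C2) * L) ^ N := by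
          gcongr
          nlinarith
      _ = (4 * (3 + 2 * C2) ^ N) * L ^ N := by rw [mul_pow]; ring
      _ ≤ L * L ^ N := by gcongr
      _ = L ^ (N + 1) := by ring

/-- The number of shifts. -/
theorem CGE_card (B : Finset ℤ) (X : ℝ) (hX : 0 ≤ X) (hB : ∀ h ∈ B, |(h : ℝ)| ≤ X) :
    (B.card : ℝ) ≤ 2 * X + 1 := by
  have h1 : B ⊆ Icc (-(⌊X⌋₊ : ℤ)) (⌊X⌋₊ : ℤ) := by
    intro h hh
    have h2 := abs_le.1 (hB h hh)
    have h3 : (⌊X⌋₊ : ℤ) = ⌊X⌋ := by
      rw [Int.natCast_floor_eq_floor hX]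
    rw [Finset.mem_Icc, h3]
    constructor
    · have : -h ≤ ⌊X⌋ := by
        rw [Int.le_floor]; push_cast; linarith [h2.1]
      linarith
    · rw [Int.le_floor]; exact h2.2
  have h4 := Finset.card_le_card h1
  rw [Int.card_Icc] at h4
  have h5 : ((⌊X⌋₊ : ℤ) + 1 - -(⌊X⌋₊ : ℤ)).toNat = 2 * ⌊X⌋₊ + 1 := by omega
  rw [h5] at h4
  have h6 : (B.card : ℝ) ≤ ((2 * ⌊X⌋₊ + 1 : ℕ) : ℝ) := by exact_mod_cast h4
  have h7 : (⌊X⌋₊ : ℝ) ≤ X := Nat.floor_le hX
  push_cast at h6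
  linarith

/-- The reciprocal of the number of classes. -/
theorem CGE_qc {π : Type} (pl : π → ℕ) (u : ℕ) (h : ∀ x, u ≤ pl x) :
    (fun x => 1 / ((Ico u (pl x)).card : ℝ)) = qc u pl := by
  funext x
  unfold qc
  rw [Nat.card_Ico, Nat.cast_sub (h x)]

/-- The level of distribution for the small and large primes together. -/
theorem CGE_lev (C2 : ℝ) (N' : ℕ) (L : ℝ) (w z I : ℕ) (u : ℕ) (hu : u ≤ 1) (B : Finset ℤ)
    (NN : Finset ℕ) (M : ℝ) (hM : 0 < M) (hL1 : 1000 ≤ L)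
    (hwL : (w : ℝ) ≤ L / 100)
    (hBc : (B.card : ℝ) ≤ 2 * C2 * L + 1)
    (hz : L ^ 6 ≤ z) (hI : ((z ^ 2 ^ I : ℕ) : ℝ) ≤ Real.exp (L / 1024))
    (hN : 4 * (2 + (2 * C2 * L + 1)) ^ N' ≤ L ^ (N' + 1))
    (hlev : ∀ (VV : Finset (Finset ℕ)),
      (∀ V ∈ VV, (∀ p ∈ V, p.Prime) ∧ ∏ p ∈ V, (p : ℝ) ≤ Real.exp (L / 8)) →
      ∀ a : Finset ℕ → ℕ → ℕ, (∀ V p, p.Prime → a V p ∈ Ico u p) →
      ∑ V ∈ VV, (2 ^ (N' + 1) : ℝ) ^ V.card *
        err (fun p : ℕ => p) (fun p => Ico u p) NN M (a V) V ≤ M / L ^ (N' + 1))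
    (a' : Finset (SP w ⊕ LP z I) → SP w ⊕ LP z I → ℕ)
    (ha' : ∀ V x, a' V x ∈ Sum.elim (fun y : SP w => Ico u (y : ℕ))
      (fun x : LP z I => Ico u (x : ℕ)) x) :
    ∑ V ∈ univ.filter (fun V : Finset (SP w ⊕ LP z I) =>
      ∏ x ∈ V, rr (fun x : LP z I => (x : ℕ)) x ≤ ((z : ℝ) ^ 2 ^ (I + 3)) ^ 8),
        (2 ^ N' : ℝ) ^ V.card *
          err (Sum.elim (fun y : SP w => (y : ℕ)) (fun x : LP z I => (x : ℕ)))
            (Sum.elim (fun y : SP w => Ico u (y : ℕ))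
              (fun x : LP z I => Ico u (x : ℕ))) NN M (a' V) V ≤
      M / (4 * (2 + (Fintype.card B : ℝ)) ^ N') := by
  have hL0 : 0 < L := by linarith
  have hSP : ∀ y : SP w, (y : ℕ).Prime ∧ (y : ℕ) ≤ w := by
    intro y
    have := y.2
    unfold SP at this
    rw [Finset.mem_filter, Finset.mem_Icc] at this
    exact ⟨this.2, this.1.2⟩
  have hLP : ∀ x : LP z I, (x : ℕ).Prime ∧ z < (x : ℕ) := by
    intro x
    have := x.2
    unfold LP at this
    rw [Finset.mem_filter, Finset.mem_Ioc] at this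
    exact ⟨this.2, this.1.1⟩
  have hwz : (w : ℝ) < z := by
    have h1 : L ≤ L ^ 6 := by
      calc L = L ^ 1 := (pow_one L).symm
        _ ≤ L ^ 6 := pow_le_pow_right₀ (by linarith) (by norm_num)
    linarith
  have hwz' : w < z := by exact_mod_cast hwz
  set pr : SP w ⊕ LP z I → ℕ :=
    Sum.elim (fun y : SP w => (y : ℕ)) (fun x : LP z I => (x : ℕ)) with hpr
  have hinj : Function.Injective pr := by
    rintro (y | x) (y' | x') h
    · simp only [hpr, Sum.elim_inl] at h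
      rw [Subtype.ext h]
    · simp only [hpr, Sum.elim_inl, Sum.elim_inr] at h
      have h1 := (hSP y).2
      have h2 := (hLP x').2
      omega
    · simp only [hpr, Sum.elim_inl, Sum.elim_inr] at h
      have h1 := (hSP y').2
      have h2 := (hLP x).2
      omega
    · simp only [hpr, Sum.elim_inr] at h
      rw [Subtype.ext h]
  have hprime : ∀ x, (pr x).Prime := by
    rintro (y | x)
    · exact (hSP y).1
    · exact (hLP x).1
  have hR : Sum.elim (fun y : SP w => Ico u (y : ℕ)) (fun x : LP z I => Ico u (x : ℕ)) =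
      fun x => Ico u (pr x) := by
    funext x
    rcases x with y | x <;> rfl
  rw [hR]
  rw [hR] at ha'
  set F : Finset (Finset (SP w ⊕ LP z I)) :=
    univ.filter (fun V : Finset (SP w ⊕ LP z I) =>
      ∏ x ∈ V, rr (fun x : LP z I => (x : ℕ)) x ≤ ((z : ℝ) ^ 2 ^ (I + 3)) ^ 8) with hF
  have hFX : ∀ V ∈ F, ∏ x ∈ V, (pr x : ℝ) ≤ Real.exp (L / 8) := by
    intro V hV
    rw [hF, Finset.mem_filter] at hV
    have h1 : ∏ x ∈ V, (pr x : ℝ) = (∏ y ∈ V.toLeft, (((y : SP w) : ℕ) : ℝ)) *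
        ∏ x ∈ V.toRight, (((x : LP z I) : ℕ) : ℝ) := by
      conv_lhs => rw [← Finset.toLeft_disjSum_toRight (u := V)]
      rw [Finset.prod_disjSum]
      rfl
    have h2 : ∏ x ∈ V, rr (fun x : LP z I => (x : ℕ)) x =
        ∏ x ∈ V.toRight, (((x : LP z I) : ℕ) : ℝ) := by
      conv_lhs => rw [← Finset.toLeft_disjSum_toRight (u := V)]
      rw [Finset.prod_disjSum]
      simp [rr]
    rw [h2] at hV
    rw [h1]
    have h3 := CGE_small w V.toLeft
    have h4 : ((z : ℝ) ^ 2 ^ (I + 3)) ^ 8 ≤ Real.exp (L / 16) := by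
      have e1 : ((z : ℝ) ^ 2 ^ (I + 3)) ^ 8 = (((z ^ 2 ^ I : ℕ) : ℝ)) ^ 64 := by
        push_cast
        rw [← pow_mul, ← pow_mul]
        congr 1
        rw [pow_add]; ring
      rw [e1]
      calc (((z ^ 2 ^ I : ℕ) : ℝ)) ^ 64 ≤ Real.exp (L / 1024) ^ 64 := by gcongr
        _ = Real.exp (L / 16) := by
          rw [← Real.exp_nat_mul]; congr 1; push_cast; ring
    have h5 : (4 : ℝ) ^ w ≤ Real.exp (L / 50) := by
      have e2 : (4 : ℝ) ^ w = Real.exp (w * Real.log 4) := by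
        rw [Real.exp_nat_mul, Real.exp_log (by norm_num)]
      have e4 : Real.log 4 ≤ 2 := by
        rw [show (4 : ℝ) = 2 ^ 2 by norm_num, Real.log_pow]
        have := Real.log_two_lt_d9
        push_cast
        linarith
      have e5 : (0 : ℝ) ≤ Real.log 4 := Real.log_nonneg (by norm_num)
      rw [e2]
      apply Real.exp_le_exp.2
      calc (w : ℝ) * Real.log 4 ≤ L / 100 * 2 := by gcongr
        _ = L / 50 := by ring
    calc (∏ y ∈ V.toLeft, (((y : SP w) : ℕ) : ℝ)) *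
        ∏ x ∈ V.toRight, (((x : LP z I) : ℕ) : ℝ) ≤ Real.exp (L / 50) * Real.exp (L / 16) := by
          apply mul_le_mul (h3.trans h5) (hV.2.trans h4) (by positivity) (Real.exp_pos _).le
      _ = Real.exp (L / 50 + L / 16) := by rw [Real.exp_add]
      _ ≤ Real.exp (L / 8) := Real.exp_le_exp.2 (by linarith)
  have hmain := CGE_err pr hinj hprime u hu NN M (Real.exp (L / 8)) (2 ^ (N' + 1))
    (M / L ^ (N' + 1)) hlev F hFX a' ha'
  have hmono : ∑ V ∈ F, (2 ^ N' : ℝ) ^ V.card *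
      err pr (fun x => Ico u (pr x)) NN M (a' V) V ≤
      ∑ V ∈ F, (2 ^ (N' + 1) : ℝ) ^ V.card *
        err pr (fun x => Ico u (pr x)) NN M (a' V) V := by
    refine Finset.sum_le_sum fun V _ => ?_
    have h0 : 0 ≤ err pr (fun x => Ico u (pr x)) NN M (a' V) V := by
      unfold err; exact abs_nonneg _
    have h1 : (2 ^ N' : ℝ) ≤ 2 ^ (N' + 1) := pow_le_pow_right₀ (by norm_num) (by omega)
    gcongr
  refine hmono.trans (hmain.trans ?_)
  have hcard : (Fintype.card B : ℝ) = B.card := by simp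
  rw [hcard]
  have h2 : 4 * (2 + (B.card : ℝ)) ^ N' ≤ L ^ (N' + 1) := by
    calc 4 * (2 + (B.card : ℝ)) ^ N' ≤ 4 * (2 + (2 * C2 * L + 1)) ^ N' := by gcongr
      _ ≤ L ^ (N' + 1) := hN
  gcongr

theorem p_CGE (h1 : Stmt_GEN) (h2 : Stmt_SVB) (h3 : Stmt_LOCP) (h4 : Stmt_BMR) (h5 : Stmt_COE)
    (h6 : Stmt_SIZ) (h7 : Stmt_EBJ) : Stmt_CGE := by
  classical
  intro C2 hC2
  obtain ⟨C1, hC1, hSV⟩ := h2 C2 hC2
  obtain ⟨J, z0, B0, hJ, hz0, hLOC⟩ := h3 (14336 * C1)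
  obtain ⟨Cb, z1, hz1, hBM⟩ := h4
  obtain ⟨N', hGEN⟩ := h1 J 3 hJ (by norm_num)
  refine ⟨N' + 1, 1 / (16 * (max B0 0 + 2)), by positivity, ?_⟩
  filter_upwards [hSV, CGE_large C2 z0 z1 J N' hC2] with L hSVL ⟨b1, b2, b3, b4, b5, b6, b7, b8⟩
  intro u hu B hB hB0 NN M hM hNN hlev
  have hL0 : 0 < L := by linarith
  have hL1 : 1 ≤ L := by linarith
  have hL6 : L ≤ L ^ 6 := by
    calc L = L ^ 1 := (pow_one L).symm
      _ ≤ L ^ 6 := pow_le_pow_right₀ hL1 (by norm_num)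
  have hlog0 : 0 < Real.log L := Real.log_pos (by linarith)
  obtain ⟨z, hz⟩ : ∃ z : ℕ, z = ⌈L ^ 6⌉₊ := ⟨_, rfl⟩
  have hzL : L ^ 6 ≤ z := by rw [hz]; exact Nat.le_ceil _
  have hzL' : (z : ℝ) < L ^ 6 + 1 := by rw [hz]; exact Nat.ceil_lt_add_one (by positivity)
  have hzLr : L ≤ z := hL6.trans hzL
  have hz2 : 2 ≤ z := by
    have : ((2 : ℕ) : ℝ) ≤ z := by push_cast; linarith
    exact_mod_cast this
  have hz0z : z0 ≤ z := by exact_mod_cast b2.trans hzLr
  have hz1z : z1 ≤ z := by exact_mod_cast b3.trans hzLr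
  have hzexp : (z : ℝ) ≤ Real.exp (L / 1024) := by linarith
  have hzlog : Real.log z ≤ 7 * Real.log L := by
    have e1 : (z : ℝ) ≤ L ^ 7 := by
      have : L ^ 7 = L ^ 6 * L := by ring
      rw [this]
      nlinarith
    calc Real.log z ≤ Real.log (L ^ 7) := Real.log_le_log (by linarith) e1
      _ = 7 * Real.log L := by rw [Real.log_pow]; norm_num
  obtain ⟨I, hI1, hI2⟩ := CGE_I z L hz2 hL0 hzexp hzlog
  have hJI : J ≤ I := by
    by_contra hcon
    push Not at hcon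
    have e1 : (1 / 2 : ℝ) ^ J ≤ (1 / 2 : ℝ) ^ I :=
      pow_le_pow_of_le_one (by norm_num) (by norm_num) hcon.le
    linarith
  obtain ⟨b, hPB⟩ := CGE_b z I hz2
  obtain ⟨w, hw⟩ : ∃ w : ℕ, w = ⌊L / 100⌋₊ := ⟨_, rfl⟩
  have hwL : (w : ℝ) ≤ L / 100 := by rw [hw]; exact Nat.floor_le (by positivity)
  have hSP : ∀ y : SP w, (y : ℕ).Prime ∧ (y : ℕ) ≤ w := by
    intro y
    have := y.2
    unfold SP at this
    rw [Finset.mem_filter, Finset.mem_Icc] at this
    exact ⟨this.2, this.1.2⟩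
  have hLP : ∀ x : LP z I, (x : ℕ).Prime ∧ z < (x : ℕ) ∧ (x : ℕ) ≤ z ^ 2 ^ I := by
    intro x
    have := x.2
    unfold LP at this
    rw [Finset.mem_filter, Finset.mem_Ioc] at this
    exact ⟨this.2, this.1.1, this.1.2⟩
  have hLPexp : ∀ x : LP z I, ((x : ℕ) : ℝ) ≤ Real.exp (L / 1024) := fun x =>
    le_trans (by exact_mod_cast (hLP x).2.2) hI1
  have hSPexp : ∀ y : SP w, ((y : ℕ) : ℝ) ≤ Real.exp (L / 1024) := by
    intro y
    have e1 : ((y : ℕ) : ℝ) ≤ w := by exact_mod_cast (hSP y).2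
    linarith
  have hBc : (B.card : ℝ) ≤ 2 * C2 * L + 1 := by
    have := CGE_card B (C2 * L) (by positivity) hB
    linarith
  have hcard : (Fintype.card B : ℝ) = B.card := by simp
  have hzx : ∀ x : LP z I, (z : ℝ) < ((x : ℕ) : ℝ) := fun x => by exact_mod_cast (hLP x).2.1
  -- divisibility of small integers by large primes
  have hdiv : ∀ (x : LP z I) (m : ℤ), |(m : ℝ)| < L ^ 6 → (((x : ℕ) : ℕ) : ℤ) ∣ m → m = 0 := by
    intro x m hm hd
    by_contra hne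
    have e1 := Int.le_of_dvd (abs_pos.2 hne) ((dvd_abs _ _).2 hd)
    have e2 : (((x : ℕ) : ℤ) : ℝ) ≤ ((|m| : ℤ) : ℝ) := by exact_mod_cast e1
    push_cast at e2
    have e3 := hzx x
    linarith
  have hqc : (fun x : LP z I => 1 / ((Ico u (x : ℕ)).card : ℝ)) =
      qc u (fun x : LP z I => (x : ℕ)) :=
    CGE_qc (fun x : LP z I => (x : ℕ)) u (fun x => by
      have := (hLP x).1.two_le
      change u ≤ (x : ℕ)
      omega)
  obtain ⟨hBlk, -, -⟩ := hBM z I hz1z (LP z I) (fun x : LP z I => (x : ℕ)) b hPB u hu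
  obtain ⟨hco, aρ, hρ1, hρ2⟩ := h5 (LP z I) (qc u (fun x : LP z I => (x : ℕ))) b I hBlk
  have hco' := fun s : Fin J => hco (I - 1 - s) (by have := s.2; omega)
  choose a ha1 ha2 using hco'
  obtain ⟨hs1, hs2⟩ := h6 (LP z I) z I (fun x : LP z I => (x : ℕ)) b hz2 hPB
  have hz1r : (1 : ℝ) ≤ z := by linarith
  have hfin := hGEN (SP w) (LP z I) B (fun y => (y : ℕ)) (fun x => (x : ℕ))
    (fun y => Ico u (y : ℕ)) (fun x => Ico u (x : ℕ)) (fun h => (h : ℤ)) b I a aρ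
    ((z : ℝ) ^ 2 ^ (I + 3)) M (C1 * (L / Real.log L)) (max B0 0) NN
    (fun y => ⟨1, Finset.mem_Ico.2 ⟨hu, (hSP y).1.one_lt⟩⟩)
    (fun y r hr => (Finset.mem_Ico.1 hr).2)
    (fun x => ⟨1, Finset.mem_Ico.2 ⟨hu, (hLP x).1.one_lt⟩⟩)
    (fun x r hr => (Finset.mem_Ico.1 hr).2)
    (by
      intro x h
      have hxpos : (0 : ℤ) < ((x : ℕ) : ℤ) := by exact_mod_cast (hLP x).1.pos
      have e1 := Int.emod_nonneg (-(h : ℤ)) hxpos.ne'
      have e2 := Int.emod_lt_of_pos (-(h : ℤ)) hxpos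
      change ((-(h : ℤ)) % ((x : ℕ) : ℤ)).toNat ∈ Ico u (x : ℕ)
      rw [Finset.mem_Ico]
      refine ⟨?_, by omega⟩
      rcases Nat.eq_zero_or_pos u with hu0 | hu0
      · omega
      · have hu1 : u = 1 := by omega
        have hh : (h : ℤ) ≠ 0 := fun h0 => hB0 hu1 (h0 ▸ h.2)
        have e3 : (-(h : ℤ)) % ((x : ℕ) : ℤ) ≠ 0 := by
          intro h0
          have h4 : ((x : ℕ) : ℤ) ∣ (h : ℤ) := by
            have := Int.dvd_of_emod_eq_zero h0
            rwa [dvd_neg] at this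
          have h5 : |((h : ℤ) : ℝ)| < L ^ 6 := by
            have := hB h h.2
            nlinarith [mul_pos hC2 hL0]
          exact hh (hdiv x h h5 h4)
        omega)
    (by
      intro x h h' hne hd
      have h5 : |(((h : ℤ) - (h' : ℤ) : ℤ) : ℝ)| < L ^ 6 := by
        have q1 := abs_le.1 (hB h h.2)
        have q2 := abs_le.1 (hB h' h'.2)
        push_cast
        rw [abs_lt]
        constructor <;> nlinarith [q1.1, q1.2, q2.1, q2.2]
      have h6 := hdiv x _ h5 hd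
      exact hne (Subtype.ext (by linarith)))
    (by
      intro n hn y
      rw [Finset.mem_Ico]
      refine ⟨?_, Nat.mod_lt _ (hSP y).1.pos⟩
      rcases Nat.eq_zero_or_pos u with hu0 | hu0
      · omega
      · have hu1 : u = 1 := by omega
        have := hNN hu1 n hn (y : ℕ) (hSP y).1 (hSPexp y)
        have e3 : n % (y : ℕ) ≠ 0 := fun h0 => this (Nat.dvd_of_mod_eq_zero h0)
        change u ≤ n % (y : ℕ)
        omega)
    (by
      intro n hn x
      rw [Finset.mem_Ico]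
      refine ⟨?_, Nat.mod_lt _ (hLP x).1.pos⟩
      rcases Nat.eq_zero_or_pos u with hu0 | hu0
      · omega
      · have hu1 : u = 1 := by omega
        have := hNN hu1 n hn (x : ℕ) (hLP x).1 (hLPexp x)
        have e3 : n % (x : ℕ) ≠ 0 := fun h0 => this (Nat.dvd_of_mod_eq_zero h0)
        change u ≤ n % (x : ℕ)
        omega)
    (one_le_pow₀ hz1r)
    (fun s U => (ha2 s U).1)
    (fun U => (hρ2 U).1.trans (by norm_num))
    (by
      intro s U hU
      have hsJ := s.2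
      have e1 := hs1 (I - 1 - s) (by omega) U ((ha2 s U).2 hU).1 ((ha2 s U).2 hU).2
      have e2 : ∏ x ∈ U, (((x : LP z I) : ℕ) : ℝ) ≤ (z : ℝ) ^ 2 ^ (I - 1 - (s : ℕ) + 4) := by
        exact_mod_cast e1
      refine e2.trans (le_of_eq ?_)
      have e3 : (2 : ℝ) ^ (I + 3) * (1 / 2 : ℝ) ^ (s : ℕ) =
          ((2 ^ (I - 1 - (s : ℕ) + 4) : ℕ) : ℝ) := by
        have : I + 3 = (I - 1 - (s : ℕ) + 4) + (s : ℕ) := by omega
        rw [this, pow_add]
        push_cast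
        rw [mul_assoc, ← mul_pow]
        norm_num
      rw [← Real.rpow_natCast (z : ℝ) (2 ^ (I + 3)), ← Real.rpow_mul (by linarith)]
      have e4 : ((2 ^ (I + 3) : ℕ) : ℝ) * (1 / 2 : ℝ) ^ (s : ℕ) =
          ((2 ^ (I - 1 - (s : ℕ) + 4) : ℕ) : ℝ) := by
        rw [← e3]; push_cast; ring
      rw [e4, Real.rpow_natCast])
    (by
      intro U hU
      have e1 := hs2 U ((hρ2 U).2 hU)
      exact_mod_cast e1)
    (by
      intro s T
      rw [hqc]
      exact ha1 s T)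
    hρ1
    (by
      intro s
      rw [hqc]
      have hsJ := s.2
      have hlt : I - 1 - (s : ℕ) < I := by omega
      have := (h7 (LP z I) (qc u (fun x : LP z I => (x : ℕ))) b (I - 1 - s) hBlk.nonneg
        (fun x => (hBlk.half x).trans (by norm_num)) (hBlk.lo _ hlt) (hBlk.hi _ hlt)).2
      intro h0
      linarith)
    hM (le_max_right _ _)
    (by
      intro ω hω
      have e1 := hSVL (fun p => if hp : p ∈ SP w then ω ⟨p, hp⟩ else 0)
        ((Sw (fun y : SP w => (y : ℕ)) (fun h : B => (h : ℤ)) ω).map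
          (Function.Embedding.subtype _)) (by
        intro h hh
        rw [Finset.mem_map] at hh
        obtain ⟨h', _, rfl⟩ := hh
        exact hB h' h'.2) (by
        intro h hh p hp hpL
        rw [Finset.mem_map] at hh
        obtain ⟨h', hh', rfl⟩ := hh
        unfold Sw at hh'
        rw [Finset.mem_filter] at hh'
        have hpS : p ∈ SP w := by
          unfold SP
          rw [Finset.mem_filter, Finset.mem_Icc]
          refine ⟨⟨hp.one_lt.le, ?_⟩, hp⟩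
          rw [hw]
          exact Nat.le_floor hpL
        have := hh'.2 ⟨p, hpS⟩
        simp only [dif_pos hpS]
        exact this)
      rwa [Finset.card_map] at e1)
    (by
      intro S hS
      rw [hqc]
      have e1 : (S.card : ℝ) * (1 / 2 : ℝ) ^ I ≤ 14336 * C1 := by
        calc (S.card : ℝ) * (1 / 2 : ℝ) ^ I ≤
            C1 * (L / Real.log L) * (14336 * (Real.log L / L)) := by gcongr
          _ = 14336 * C1 := by field_simp
      have e2 : Fintype.card B ^ 3 * z0 ≤ z := by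
        have e3 : ((Fintype.card B ^ 3 * z0 : ℕ) : ℝ) ≤ z := by
          push_cast
          rw [hcard]
          calc (B.card : ℝ) ^ 3 * z0 ≤ (2 * C2 * L + 1) ^ 3 * z0 := by gcongr
            _ ≤ L ^ 6 := b7
            _ ≤ z := hzL
        exact_mod_cast e3
      obtain ⟨f1, f2⟩ := hLOC z I u (LP z I) B (fun x : LP z I => (x : ℕ)) b S hz0z hJI hu hPB
        e1 e2
      exact ⟨f1, f2.trans (le_max_left _ _)⟩)
    (fun a' ha' => CGE_lev C2 N' L w z I u hu B NN M hM b1 hwL hBc hzL hI1 b8 hlev a' ha')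
  have hc : 1 / (16 * (max B0 0 + 2)) * M = M / (16 * (max B0 0 + 2)) := by ring
  rw [hc]
  refine hfin.trans ?_
  have hle : (NN.filter (fun n : ℕ => ∀ h : B, ∃ x : SP w ⊕ LP z I,
      ((Sum.elim (fun y : SP w => (y : ℕ)) (fun x : LP z I => (x : ℕ)) x : ℕ) : ℤ) ∣
        (n : ℤ) + (h : ℤ))).card ≤
      (NN.filter (fun n : ℕ => ∀ h ∈ B, ∃ p : ℕ, p.Prime ∧
      (p : ℝ) ≤ Real.exp (L / 1024) ∧ (p : ℤ) ∣ (n : ℤ) + h)).card := by
    apply Finset.card_le_card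
    intro n hn
    rw [Finset.mem_filter] at hn ⊢
    refine ⟨hn.1, fun h hh => ?_⟩
    obtain ⟨x, hx⟩ := hn.2 ⟨h, hh⟩
    rcases x with y | x
    · exact ⟨y, (hSP y).1, hSPexp y, hx⟩
    · exact ⟨x, (hLP x).1, hLPexp x, hx⟩
  have hle' : (((NN.filter (fun n : ℕ => ∀ h : B, ∃ x : SP w ⊕ LP z I,
      ((Sum.elim (fun y : SP w => (y : ℕ)) (fun x : LP z I => (x : ℕ)) x : ℕ) : ℤ) ∣
        (n : ℤ) + (h : ℤ))).card : ℕ) : ℝ) ≤
      (((NN.filter (fun n : ℕ => ∀ h ∈ B, ∃ p : ℕ, p.Prime ∧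
      (p : ℝ) ≤ Real.exp (L / 1024) ∧ (p : ℤ) ∣ (n : ℤ) + h)).card : ℕ) : ℝ) := by
    exact_mod_cast hle
  convert hle' using 3

end Pool.PP
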