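import Pool.Agent.Work.MP_b0c12c_pp.Transfer

/-! # Block CSW: Cauchy and Schwarz (helper86) -/

set_option autoImplicit false

namespace Pool.PP

open Finset

theorem p_CSW : Stmt_CSW := by
  intro NN G Θ F M C hG hM hC h1 h2 h3 h4
  classical
  have h5 : ∑ n ∈ NN, Θ n ≤ ∑ n ∈ G, F n ^ 2 := by
    rw [← sum_sdiff hG]
    have h6 : ∑ n ∈ NN \ G, Θ n ≤ 0 :=
      sum_nonpos fun n hn => h2 n (mem_sdiff.1 hn).1 (mem_sdiff.1 hn).2
    have h7 : ∑ n ∈ G, Θ n ≤ ∑ n ∈ G, F n ^ 2 := sum_le_sum fun n hn => h1 n (hG hn)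
    linarith
  have h6 : (∑ n ∈ G, F n ^ 2) ^ 2 ≤ G.card * ∑ n ∈ G, (F n ^ 2) ^ 2 :=
    sq_sum_le_card_mul_sum_sq
  have h7 : ∑ n ∈ G, (F n ^ 2) ^ 2 ≤ C * M := by
    refine le_trans ?_ h4
    have h8 : ∑ n ∈ G, (F n ^ 2) ^ 2 = ∑ n ∈ G, F n ^ 4 := sum_congr rfl fun n _ => by ring
    rw [h8]
    exact sum_le_sum_of_subset_of_nonneg hG fun n _ _ => by positivity
  have h8 : M / 4 ≤ ∑ n ∈ G, F n ^ 2 := h3.trans h5
  have h9 : (M / 4) ^ 2 ≤ G.card * (C * M) := by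
    calc (M / 4) ^ 2 ≤ (∑ n ∈ G, F n ^ 2) ^ 2 := by gcongr
      _ ≤ _ := h6
      _ ≤ G.card * (C * M) := mul_le_mul_of_nonneg_left h7 (Nat.cast_nonneg _)
  have h10 : M / 16 ≤ G.card * C := by
    have h11 : M * (M / 16) ≤ M * (G.card * C) := by nlinarith
    exact le_of_mul_le_mul_left h11 hM
  rw [div_le_iff₀ (by positivity)]
  have h12 : (0 : ℝ) ≤ G.card := Nat.cast_nonneg _
  nlinarith

end Pool.PP
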