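import Pool.Agent.Work.MP_b0c12c_pp.Transfer

/-! # Block EXA (helper7) -/

set_option autoImplicit false

namespace Pool.PP

open Finset Filter

theorem c0_mem {ι : Type} [Fintype ι] [DecidableEq ι] {J : ℕ} (κ : ι → Option (Fin J)) :
    0 ≤ c0 κ ∧ c0 κ ≤ 1 := by
  unfold c0
  split_ifs
  · exact ⟨zero_le_one, le_refl _⟩
  · exact ⟨le_refl _, zero_le_one⟩

theorem c0_lev {ι : Type} [Fintype ι] [DecidableEq ι] {J : ℕ} (κ : ι → Option (Fin J))
    (h : c0 κ ≠ 0) : lev κ ≤ 2 := by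
  by_contra h1
  apply h
  unfold c0
  rw [if_neg h1]

theorem lev_update {ι : Type} [Fintype ι] [DecidableEq ι] {J : ℕ} (κ : ι → Option (Fin J))
    (m : ι) (s : Fin J) (hm : κ m = none) : lev κ ≤ lev (Function.update κ m (some s)) := by
  unfold lev
  apply Finset.sum_le_sum
  intro h _
  by_cases hh : h = m
  · subst hh
    rw [Function.update_self, hm]
    simp only [lev1]
    positivity
  · rw [Function.update_of_ne hh]

theorem cm_abs {ι : Type} [Fintype ι] [DecidableEq ι] {J : ℕ} (hJ : 1 ≤ J) (m : ι)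
    (κ : ι → Option (Fin J)) : |cm m κ| ≤ 1 := by
  unfold cm
  split_ifs
  · have h1 := c0_mem κ
    have hJ' : (0 : ℝ) < J := by exact_mod_cast hJ
    have h2 : 0 ≤ ∑ s : Fin J, c0 (Function.update κ m (some s)) :=
      Finset.sum_nonneg fun s _ => (c0_mem _).1
    have h3 : ∑ s : Fin J, c0 (Function.update κ m (some s)) ≤ J := by
      calc ∑ s : Fin J, c0 (Function.update κ m (some s)) ≤ ∑ _s : Fin J, (1 : ℝ) :=
            Finset.sum_le_sum fun s _ => (c0_mem _).2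
        _ = J := by simp
    have h4 : 0 ≤ (1 / J : ℝ) * ∑ s : Fin J, c0 (Function.update κ m (some s)) := by
      positivity
    have h5 : (1 / J : ℝ) * ∑ s : Fin J, c0 (Function.update κ m (some s)) ≤ 1 := by
      rw [one_div, inv_mul_le_iff₀ hJ', mul_one]
      exact h3
    rw [abs_le]
    constructor <;> linarith
  · rw [abs_zero]
    exact zero_le_one

theorem cm_lev {ι : Type} [Fintype ι] [DecidableEq ι] {J : ℕ} (m : ι)
    (κ : ι → Option (Fin J)) (h : cm m κ ≠ 0) : lev κ ≤ 2 := by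
  by_contra h1
  apply h
  unfold cm
  split_ifs with hm
  · have h2 : c0 κ = 0 := by
      by_contra h3
      exact h1 (c0_lev κ h3)
    have h4 : ∀ s : Fin J, c0 (Function.update κ m (some s)) = 0 := by
      intro s
      by_contra h3
      exact h1 ((lev_update κ m s hm).trans (c0_lev _ h3))
    simp [h2, h4]
  · rfl

theorem p_EXA (h1 : Stmt_EXM) (h2 : Stmt_EXS) (h3 : Stmt_EXC) (h4 : Stmt_EXI) (h5 : Stmt_EXF) :
    Stmt_EXA := by
  intro J A hA
  obtain ⟨N₁, hN₁⟩ := h5 J A hA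
  obtain ⟨N₂, hN₂⟩ := pow_unbounded_of_one_lt A (one_lt_two)
  refine ⟨4 * N₁ + 7 + N₂, ?_⟩
  intro σ π ι _ _ _ _ _ _ pr q b I a aρ D hJ hpr hD haA haρ hsz hszρ hgs hrho
  set k : ℝ := (Fintype.card ι : ℝ) with hk
  have hk0 : 0 ≤ k := Nat.cast_nonneg _
  have hk2 : (1 : ℝ) ≤ 2 + k := by linarith
  have hA0 : 0 ≤ A := by linarith
  set K₁ : ℝ := (2 + k) ^ N₁ with hK₁
  set κ₁ : ℝ := (2 : ℝ) ^ N₁ with hκ₁
  have hK₁1 : 1 ≤ K₁ := one_le_pow₀ hk2
  have hκ₁1 : 1 ≤ κ₁ := one_le_pow₀ one_le_two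
  have hr : ∀ x : σ ⊕ π, 1 ≤ rr (σ := σ) pr x := by
    intro x
    rcases x with y | x
    · simp [rr]
    · simp only [rr, Sum.elim_inr]
      exact_mod_cast hpr x
  -- the functions `PF c`
  have hPF : ∀ c : (ι → Option (Fin J)) → ℝ, (∀ κ, |c κ| ≤ 1) → (∀ κ, c κ ≠ 0 → lev κ ≤ 2) →
      Ex (rr (σ := σ) pr) (fun t : ι → Finset (σ ⊕ π) => PF c (GG q b I J (Sset t) (lg t)))
        K₁ κ₁ (D ^ 2) := by
    intro c hc1 hc2
    have h6 := hN₁ σ π ι pr a D c hpr hD haA hsz hc1 hc2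
    have h7 : (fun t : ι → Finset (σ ⊕ π) => PF c (GG q b I J (Sset t) (lg t))) =
        (fun t : ι → Finset (σ ⊕ π) =>
          PF c (fun h s => open Classical in
            if h ∈ Sset t then ∑ U ∈ (lg t h).powerset, a s U else 0)) := by
      funext t
      congr 1
      funext h s
      unfold GG
      split_ifs with hh
      · exact hgs s (lg t h)
      · rfl
    rw [h7]
    exact h6
  have hFF : Ex (rr (σ := σ) pr)
      (fun t : ι → Finset (σ ⊕ π) => FF q b I J (Sset t) (lg t)) K₁ κ₁ (D ^ 2) :=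
    hPF c0 (fun κ => by rw [abs_of_nonneg (c0_mem κ).1]; exact (c0_mem κ).2) (fun κ => c0_lev κ)
  have hFm : ∀ m : ι, Ex (rr (σ := σ) pr)
      (fun t : ι → Finset (σ ⊕ π) => Fm q b I J (Sset t) m (lg t)) K₁ κ₁ (D ^ 2) := fun m =>
    hPF (cm m) (fun κ => cm_abs hJ m κ) (fun κ => cm_lev m κ)
  have hD2 : 0 ≤ D ^ 2 := by positivity
  -- squares
  have hsq : ∀ Φ : (ι → Finset (σ ⊕ π)) → ℝ, Ex (rr (σ := σ) pr) Φ K₁ κ₁ (D ^ 2) →
      Ex (rr (σ := σ) pr) (fun t => Φ t ^ 2) (K₁ ^ 2) ((1 + κ₁) ^ 2) (D ^ 4) := by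
    intro Φ hΦ
    have h8 := h1 (σ ⊕ π) ι (rr (σ := σ) pr) Φ Φ K₁ K₁ κ₁ κ₁ (D ^ 2) (D ^ 2) hr
      (by linarith) (by linarith) (by linarith) (by linarith) hD2 hD2 hΦ hΦ
    have e1 : (fun t : ι → Finset (σ ⊕ π) => Φ t ^ 2) = fun t => Φ t * Φ t := by
      funext t; ring
    have e2 : K₁ ^ 2 = K₁ * K₁ := by ring
    have e3 : (1 + κ₁) ^ 2 = (1 + κ₁) * (1 + κ₁) := by ring
    have e4 : D ^ 4 = D ^ 2 * D ^ 2 := by ring
    rw [e1, e2, e3, e4]
    exact h8
  have hFF2 := hsq _ hFF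
  set κ₂ : ℝ := (1 + κ₁) ^ 2 with hκ₂
  have hκ₂1 : 1 ≤ κ₂ := one_le_pow₀ (by linarith)
  have hκ₂le : κ₂ ≤ (2 : ℝ) ^ (2 * N₁ + 2) := by
    have e5 : (2 : ℝ) ^ (2 * N₁ + 2) = (κ₁ * 2) ^ 2 := by
      rw [hκ₁, ← pow_succ, ← pow_mul]
      congr 1
      ring
    rw [e5, hκ₂]
    apply pow_le_pow_left₀ (by linarith)
    linarith
  have hD4 : 0 ≤ D ^ 4 := by positivity
  constructor
  · -- the function `Psi`
    have hterm : ∀ m : ι, Ex (rr (σ := σ) pr)
        (fun t : ι → Finset (σ ⊕ π) => Fm q b I J (Sset t) m (lg t) ^ 2 *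
          (open Classical in if m ∈ Sset t then ∑ U ∈ (lg t m).powerset, aρ U else 0))
        (K₁ ^ 2 * A) ((1 + κ₂) * (1 + 1)) (D ^ 4 * D) := by
      intro m
      exact h1 (σ ⊕ π) ι (rr (σ := σ) pr) _ _ (K₁ ^ 2) A κ₂ 1 (D ^ 4) D hr
        (by positivity) hA0 (by linarith) zero_le_one hD4 (by linarith) (hsq _ (hFm m))
        (h4 σ π ι pr aρ A D m hA0 haρ hszρ)
    set κ₃ : ℝ := (1 + κ₂) * (1 + 1) with hκ₃
    have hκ₂₃ : κ₂ ≤ κ₃ := by rw [hκ₃]; linarith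
    have hDpow : D ^ 4 * D ≤ D ^ 8 := by
      have : D ^ 4 * D = D ^ 5 := by ring
      rw [this]
      exact pow_le_pow_right₀ hD (by norm_num)
    have hD48 : D ^ 4 ≤ D ^ 8 := pow_le_pow_right₀ hD (by norm_num)
    have hsum := h2 (σ ⊕ π) ι (Option ι) (rr (σ := σ) pr) univ
      (fun o => o.elim (1 : ℝ) (fun _ => -1))
      (fun o t => o.elim (FF q b I J (Sset t) (lg t) ^ 2)
        (fun m => Fm q b I J (Sset t) m (lg t) ^ 2 *
          (open Classical in if m ∈ Sset t then ∑ U ∈ (lg t m).powerset, aρ U else 0)))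
      (fun o => o.elim (K₁ ^ 2) (fun _ => K₁ ^ 2 * A)) κ₃ (D ^ 8) (by linarith)
      (by
        intro o _ _
        rcases o with _ | m
        · exact (h3 (σ ⊕ π) ι (rr (σ := σ) pr)).2 _ (K₁ ^ 2) (K₁ ^ 2) κ₂ κ₃ (D ^ 4) (D ^ 8)
            (by positivity) (le_refl _) (by linarith) hκ₂₃ hD48 hFF2
        · exact (h3 (σ ⊕ π) ι (rr (σ := σ) pr)).2 _ (K₁ ^ 2 * A) (K₁ ^ 2 * A) κ₃ κ₃
            (D ^ 4 * D) (D ^ 8) (by positivity) (le_refl _) (by linarith) (le_refl _) hDpow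
            (hterm m))
    have hPsi : (fun t : ι → Finset (σ ⊕ π) => Psi q b I J (Sset t) (lg t)) =
        fun t => ∑ o ∈ (univ : Finset (Option ι)), (o.elim (1 : ℝ) (fun _ => -1)) *
          (o.elim (FF q b I J (Sset t) (lg t) ^ 2)
            (fun m => Fm q b I J (Sset t) m (lg t) ^ 2 *
              (open Classical in if m ∈ Sset t then ∑ U ∈ (lg t m).powerset, aρ U else 0))) := by
      funext t
      rw [Fintype.sum_option]
      simp only [Option.elim_none, Option.elim_some, one_mul, neg_one_mul]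
      unfold Psi
      rw [Finset.sum_neg_distrib, ← sub_eq_add_neg]
      congr 1
      rw [← Finset.sum_filter_add_sum_filter_not univ (fun m => m ∈ Sset t)]
      have e6 : ∑ m ∈ univ.filter (fun m => ¬ m ∈ Sset t),
          Fm q b I J (Sset t) m (lg t) ^ 2 *
            (open Classical in if m ∈ Sset t then ∑ U ∈ (lg t m).powerset, aρ U else 0) = 0 := by
        apply Finset.sum_eq_zero
        intro m hm
        rw [if_neg (Finset.mem_filter.mp hm).2, mul_zero]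
      rw [e6, add_zero]
      have e7 : univ.filter (fun m => m ∈ Sset t) = Sset t := by
        ext m
        simp
      rw [e7]
      apply Finset.sum_congr rfl
      intro m hm
      rw [if_pos hm, hrho]
    rw [hPsi]
    refine (h3 (σ ⊕ π) ι (rr (σ := σ) pr)).2 _ _ _ κ₃ _ (D ^ 8) (D ^ 8) ?_ ?_ (by linarith)
      ?_ (le_refl _) hsum
    · apply Finset.sum_nonneg
      intro o _
      rcases o with _ | m
      · simp only [Option.elim_none]; positivity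
      · simp only [Option.elim_some]; positivity
    · rw [Fintype.sum_option]
      simp only [Option.elim_none, Option.elim_some, abs_one, abs_neg, one_mul,
        Finset.sum_const, Finset.card_univ, nsmul_eq_mul]
      rw [← hk]
      have e8 : K₁ ^ 2 + k * (K₁ ^ 2 * A) ≤ K₁ ^ 2 * ((2 + k) * A) := by
        have : 0 ≤ K₁ ^ 2 := by positivity
        have e9 : K₁ ^ 2 ≤ K₁ ^ 2 * A := le_mul_of_one_le_right this hA
        nlinarith
      have e10 : A ≤ (2 + k) ^ N₂ :=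
        hN₂.le.trans (pow_le_pow_left₀ (by norm_num) (by linarith) _)
      have e11 : K₁ ^ 2 = (2 + k) ^ (2 * N₁) := by rw [hK₁, ← pow_mul]; congr 1; ring
      calc K₁ ^ 2 + k * (K₁ ^ 2 * A) ≤ K₁ ^ 2 * ((2 + k) * A) := e8
        _ ≤ K₁ ^ 2 * ((2 + k) * (2 + k) ^ N₂) := by gcongr
        _ = (2 + k) ^ (2 * N₁ + 1 + N₂) := by rw [e11]; ring
        _ ≤ (2 + k) ^ (4 * N₁ + 7 + N₂) := pow_le_pow_right₀ hk2 (by omega)
    · calc κ₃ ≤ 2 ^ (2 * N₁ + 2) * 2 * 2 := by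
            rw [hκ₃]
            have : (1 : ℝ) ≤ 2 ^ (2 * N₁ + 2) := one_le_pow₀ one_le_two
            linarith
        _ = 2 ^ (2 * N₁ + 4) := by ring
        _ ≤ 2 ^ (4 * N₁ + 7 + N₂) := pow_le_pow_right₀ one_le_two (by omega)
  · have h8 := h1 (σ ⊕ π) ι (rr (σ := σ) pr) _ _ (K₁ ^ 2) (K₁ ^ 2) κ₂ κ₂ (D ^ 4) (D ^ 4) hr
      (by positivity) (by positivity) (by linarith) (by linarith) hD4 hD4 hFF2 hFF2
    have e1 : (fun t : ι → Finset (σ ⊕ π) => FF q b I J (Sset t) (lg t) ^ 4) =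
        fun t => FF q b I J (Sset t) (lg t) ^ 2 * FF q b I J (Sset t) (lg t) ^ 2 := by
      funext t; ring
    rw [e1]
    refine (h3 (σ ⊕ π) ι (rr (σ := σ) pr)).2 _ _ _ _ _ _ (D ^ 8) (by positivity) ?_
      (by positivity) ?_ (le_of_eq (by ring)) h8
    · calc K₁ ^ 2 * K₁ ^ 2 = (2 + k) ^ (4 * N₁) := by rw [hK₁]; ring
        _ ≤ (2 + k) ^ (4 * N₁ + 7 + N₂) := pow_le_pow_right₀ hk2 (by omega)
    · calc (1 + κ₂) * (1 + κ₂) ≤ (2 ^ (2 * N₁ + 2) * 2) * (2 ^ (2 * N₁ + 2) * 2) := by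
            have : (1 : ℝ) ≤ 2 ^ (2 * N₁ + 2) := one_le_pow₀ one_le_two
            have : 1 + κ₂ ≤ 2 ^ (2 * N₁ + 2) * 2 := by linarith
            gcongr
        _ = 2 ^ (4 * N₁ + 6) := by ring
        _ ≤ 2 ^ (4 * N₁ + 7 + N₂) := pow_le_pow_right₀ one_le_two (by omega)

end Pool.PP
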