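import Pool.Agent.Work.MP_b0c12c_pp.Transfer

/-! # Block EXC -/

set_option autoImplicit false

namespace Pool.PP

open Finset

theorem p_EXC : Stmt_EXC := by
  classical
  intro α ι _ _ _ _ r
  constructor
  · intro a κ D hκ hD
    refine ⟨fun u => if u = (fun _ => ∅) then a else 0, ?_, ?_, ?_⟩
    · intro t
      unfold val
      rw [Finset.sum_eq_single (fun _ : ι => (∅ : Finset α))]
      · simp
      · intro u _ hu
        simp [hu]
      · intro h
        exact absurd (Finset.mem_univ _) h
    · intro V
      have h1 : (∑ u : ι → Finset α, (if supp u = V then |(if u = (fun _ => ∅) then a else 0)| else 0))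
          = if supp (fun _ : ι => (∅ : Finset α)) = V then |a| else 0 := by
        rw [Finset.sum_eq_single (fun _ : ι => (∅ : Finset α))]
        · simp
        · intro u _ hu
          simp [hu]
        · intro h
          exact absurd (Finset.mem_univ _) h
      rw [h1]
      have h2 : supp (fun _ : ι => (∅ : Finset α)) = ∅ := by
        ext x
        simp [supp]
      rw [h2]
      split_ifs with h
      · rw [← h]
        simp
      · positivity
    · intro u hu
      have h3 : u = (fun _ => ∅) := by
        by_contra h
        simp [h] at hu
      rw [h3]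
      have h2 : supp (fun _ : ι => (∅ : Finset α)) = ∅ := by
        ext x
        simp [supp]
      rw [h2]
      simpa using hD
  · intro Ψ K K' κ κ' D D' hK hKK hκ hκκ hD hE
    obtain ⟨c, h1, h2, h3⟩ := hE
    refine ⟨c, h1, fun V => (h2 V).trans ?_, fun u hu => (h3 u hu).trans hD⟩
    exact mul_le_mul hKK (pow_le_pow_left₀ hκ hκκ _) (pow_nonneg hκ _) (hK.trans hKK)

end Pool.PP
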