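import Pool.Agent.Work.MP_b0c12c_pp.Transfer

set_option autoImplicit false

namespace Pool.PP

open Finset Filter

theorem p_EXF (hI : Stmt_EXI) (hP : Stmt_EXP) (hS : Stmt_EXS) (hC : Stmt_EXC) (hN : Stmt_NUK) :
    Stmt_EXF := by
  intro J A hA
  obtain ⟨N', hN'⟩ := pow_unbounded_of_one_lt (((1 + (J : ℝ)) * A) ^ (2 * 2 ^ J))
    (by norm_num : (1 : ℝ) < 2)
  refine ⟨2 * 2 ^ J + N' + 2 * (2 * 2 ^ J), ?_⟩
  intro σ π ι _ _ _ _ _ _ pr a D c hpr hD ha haD hc hclev
  classical
  have hA0 : (0 : ℝ) ≤ A := by linarith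
  have hD0 : (0 : ℝ) < D := by linarith
  have hrr : ∀ x : σ ⊕ π, 1 ≤ rr (σ := σ) pr x := by
    intro x
    rcases x with x | x
    · simp [rr]
    · simp only [rr, Sum.elim_inr]
      exact_mod_cast hpr x
  -- one choice
  have key : ∀ κ : ι → Option (Fin J), lev κ ≤ 2 →
      Ex (rr (σ := σ) pr) (fun t : ι → Finset (σ ⊕ π) =>
        ∏ h, fac (fun s : Fin J => if h ∈ Sset t then ∑ U ∈ (lg t h).powerset, a s U else 0)
          (κ h)) (A ^ (2 * 2 ^ J)) (4 ^ (2 * 2 ^ J)) (D ^ 2) := by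
    intro κ hκ
    set B : Finset ι := univ.filter (fun h => κ h ≠ none) with hB
    have hBcard : B.card ≤ 2 * 2 ^ J := (hN ι J).1 κ hκ
    have h1 : ∀ h ∈ B, Ex (rr (σ := σ) pr) (fun t : ι → Finset (σ ⊕ π) =>
        fac (fun s : Fin J => if h ∈ Sset t then ∑ U ∈ (lg t h).powerset, a s U else 0)
          (κ h)) A 1 (D ^ (lev1 (κ h))) := by
      intro h hh
      obtain ⟨s, hs⟩ := Option.ne_none_iff_exists'.mp (by simpa [hB] using hh : κ h ≠ none)
      have hJ : (1 : ℝ) ≤ J := by
        have : 0 < J := lt_of_le_of_lt (Nat.zero_le _) s.isLt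
        exact_mod_cast this
      have hx := hI σ π ι pr (fun U => -(a s U) / J) A (D ^ (lev1 (some s))) h hA0
        (fun U => by
          rw [abs_div, abs_neg, abs_of_nonneg (by linarith : (0 : ℝ) ≤ J)]
          exact (div_le_self (abs_nonneg _) hJ).trans (ha s U))
        (fun U hU => by
          refine haD s U ?_
          intro h0
          exact hU (by simp [h0]))
      rw [hs]
      convert hx using 2 with t
      simp only [fac]
      split_ifs
      · rw [← Finset.sum_neg_distrib, Finset.sum_div]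
      · simp
    have h2 := hP (σ ⊕ π) ι (rr (σ := σ) pr) B (fun h (t : ι → Finset (σ ⊕ π)) =>
        fac (fun s : Fin J => if h ∈ Sset t then ∑ U ∈ (lg t h).powerset, a s U else 0)
          (κ h)) (fun _ => A) (fun h => D ^ (lev1 (κ h))) hrr (fun _ _ => hA0)
        (fun h _ => Real.one_le_rpow hD (by
          cases κ h with
          | none => simp [lev1]
          | some s => simp only [lev1]; positivity)) h1
    have hfun : (fun t : ι → Finset (σ ⊕ π) =>
        ∏ h, fac (fun s : Fin J => if h ∈ Sset t then ∑ U ∈ (lg t h).powerset, a s U else 0)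
          (κ h)) = (fun t : ι → Finset (σ ⊕ π) =>
        ∏ h ∈ B, fac (fun s : Fin J => if h ∈ Sset t then ∑ U ∈ (lg t h).powerset, a s U else 0)
          (κ h)) := by
      funext t
      symm
      refine Finset.prod_subset (Finset.subset_univ _) ?_
      intro h _ hh
      have : κ h = none := by simpa [hB] using hh
      rw [this]
      rfl
    rw [hfun]
    refine (hC (σ ⊕ π) ι (rr (σ := σ) pr)).2 _ _ _ _ _ _ _ ?_ ?_ ?_ ?_ ?_ h2
    · exact Finset.prod_nonneg (fun _ _ => hA0)
    · rw [Finset.prod_const]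
      exact pow_le_pow_right₀ hA hBcard
    · positivity
    · exact pow_le_pow_right₀ (by norm_num) hBcard
    · rw [← Real.rpow_sum_of_pos hD0]
      have h3 : ∑ h ∈ B, lev1 (κ h) ≤ 2 := by
        refine le_trans ?_ hκ
        unfold lev
        refine Finset.sum_le_sum_of_subset_of_nonneg (Finset.subset_univ _) ?_
        intro h _ _
        cases κ h with
        | none => simp [lev1]
        | some s => simp only [lev1]; positivity
      calc D ^ (∑ h ∈ B, lev1 (κ h)) ≤ D ^ (2 : ℝ) := Real.rpow_le_rpow_of_exponent_le hD h3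
        _ = D ^ 2 := by norm_num
  -- the sum
  have hsum := hS (σ ⊕ π) ι (ι → Option (Fin J)) (rr (σ := σ) pr)
    (univ.filter (fun κ : ι → Option (Fin J) => lev κ ≤ 2)) c
    (fun κ (t : ι → Finset (σ ⊕ π)) =>
        ∏ h, fac (fun s : Fin J => if h ∈ Sset t then ∑ U ∈ (lg t h).powerset, a s U else 0)
          (κ h)) (fun _ => A ^ (2 * 2 ^ J)) (4 ^ (2 * 2 ^ J)) (D ^ 2) (by positivity)
    (fun κ hκ _ => key κ (by simpa using hκ))
  have hfun : (fun t : ι → Finset (σ ⊕ π) =>
      PF c (fun h s => if h ∈ Sset t then ∑ U ∈ (lg t h).powerset, a s U else 0)) =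
      (fun t : ι → Finset (σ ⊕ π) => ∑ κ ∈ univ.filter
        (fun κ : ι → Option (Fin J) => lev κ ≤ 2), c κ *
        ∏ h, fac (fun s : Fin J => if h ∈ Sset t then ∑ U ∈ (lg t h).powerset, a s U else 0)
          (κ h)) := by
    funext t
    unfold PF
    symm
    refine Finset.sum_subset (Finset.subset_univ _) ?_
    intro κ _ hκ
    have : c κ = 0 := by
      by_contra h0
      exact hκ (by simpa using hclev κ h0)
    rw [this, zero_mul]
  have hfin : Ex (rr (σ := σ) pr) (fun t : ι → Finset (σ ⊕ π) =>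
      PF c (fun h s => if h ∈ Sset t then ∑ U ∈ (lg t h).powerset, a s U else 0))
      ((2 + (Fintype.card ι : ℝ)) ^ (2 * 2 ^ J + N' + 2 * (2 * 2 ^ J)))
      (2 ^ (2 * 2 ^ J + N' + 2 * (2 * 2 ^ J))) (D ^ 2) := by
    rw [hfun]
    refine (hC (σ ⊕ π) ι (rr (σ := σ) pr)).2 _ _ _ _ _ _ _ ?_ ?_ ?_ ?_ le_rfl hsum
    · exact Finset.sum_nonneg (fun κ _ => mul_nonneg (abs_nonneg _) (by positivity))
    · have hm0 : (0 : ℝ) ≤ (Fintype.card ι : ℝ) := by positivity
      have hcard : ((univ.filter (fun κ : ι → Option (Fin J) => lev κ ≤ 2)).card : ℝ) ≤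
          (1 + (Fintype.card ι : ℝ) * J) ^ (2 * 2 ^ J) := by
        have := (hN ι J).2
        convert this
      calc ∑ κ ∈ univ.filter (fun κ : ι → Option (Fin J) => lev κ ≤ 2),
            |c κ| * A ^ (2 * 2 ^ J)
          ≤ ∑ κ ∈ univ.filter (fun κ : ι → Option (Fin J) => lev κ ≤ 2), A ^ (2 * 2 ^ J) := by
            refine Finset.sum_le_sum (fun κ _ => ?_)
            exact mul_le_of_le_one_left (by positivity) (hc κ)
        _ = ((univ.filter (fun κ : ι → Option (Fin J) => lev κ ≤ 2)).card : ℝ) *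
              A ^ (2 * 2 ^ J) := by rw [Finset.sum_const, nsmul_eq_mul]
        _ ≤ (1 + (Fintype.card ι : ℝ) * J) ^ (2 * 2 ^ J) * A ^ (2 * 2 ^ J) :=
            mul_le_mul_of_nonneg_right hcard (by positivity)
        _ ≤ ((1 + (J : ℝ)) * (2 + (Fintype.card ι : ℝ))) ^ (2 * 2 ^ J) * A ^ (2 * 2 ^ J) := by
            refine mul_le_mul_of_nonneg_right ?_ (by positivity)
            refine pow_le_pow_left₀ (by positivity) ?_ _
            have hJ0 : (0 : ℝ) ≤ J := by positivity
            nlinarith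
        _ = ((1 + (J : ℝ)) * A) ^ (2 * 2 ^ J) * (2 + (Fintype.card ι : ℝ)) ^ (2 * 2 ^ J) := by
            rw [mul_pow, mul_pow]; ring
        _ ≤ 2 ^ N' * (2 + (Fintype.card ι : ℝ)) ^ (2 * 2 ^ J) :=
            mul_le_mul_of_nonneg_right hN'.le (by positivity)
        _ ≤ (2 + (Fintype.card ι : ℝ)) ^ N' * (2 + (Fintype.card ι : ℝ)) ^ (2 * 2 ^ J) := by
            refine mul_le_mul_of_nonneg_right ?_ (by positivity)
            exact pow_le_pow_left₀ (by norm_num) (by linarith) _
        _ = (2 + (Fintype.card ι : ℝ)) ^ (2 * 2 ^ J + N') := by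
            rw [← pow_add, Nat.add_comm N']
        _ ≤ (2 + (Fintype.card ι : ℝ)) ^ (2 * 2 ^ J + N' + 2 * (2 * 2 ^ J)) :=
            pow_le_pow_right₀ (by linarith) (by omega)
    · positivity
    · calc (4 : ℝ) ^ (2 * 2 ^ J) = 2 ^ (2 * (2 * 2 ^ J)) := by
            rw [pow_mul (2 : ℝ) 2 (2 * 2 ^ J)]; norm_num
        _ ≤ 2 ^ (2 * 2 ^ J + N' + 2 * (2 * 2 ^ J)) :=
            pow_le_pow_right₀ (by norm_num) (by omega)
  convert hfin using 3

end Pool.PP
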