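import Pool.Agent.Work.MP_b0c12c_pp.Transfer

/-! # Block EXI (helper7) -/

set_option autoImplicit false

namespace Pool.PP

open Finset Filter

theorem sum_powerset_split {σ π : Type} [DecidableEq σ] [DecidableEq π]
    (T : Finset (σ ⊕ π)) (f : Finset σ → ℝ) (g : Finset π → ℝ) :
    ∑ U ∈ T.powerset, f U.toLeft * g U.toRight =
      (∑ V ∈ T.toLeft.powerset, f V) * ∑ U ∈ T.toRight.powerset, g U := by
  rw [Finset.sum_mul_sum, ← Finset.sum_product']
  symm
  apply Finset.sum_bij (fun (p : Finset σ × Finset π) _ => p.1.disjSum p.2)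
  · intro p hp
    rw [Finset.mem_product, Finset.mem_powerset, Finset.mem_powerset] at hp
    rw [Finset.mem_powerset, Finset.disjSum_subset]
    exact hp
  · intro p _ p' _ h
    have h1 := Finset.disjSum_inj.mp h
    exact Prod.ext h1.1 h1.2
  · intro U hU
    rw [Finset.mem_powerset] at hU
    refine ⟨(U.toLeft, U.toRight), ?_, Finset.toLeft_disjSum_toRight⟩
    rw [Finset.mem_product, Finset.mem_powerset, Finset.mem_powerset]
    exact ⟨Finset.toLeft_subset_toLeft hU, Finset.toRight_subset_toRight hU⟩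
  · intro p _
    simp

theorem p_EXI (h1 : Stmt_EXO) : Stmt_EXI := by
  intro σ π ι _ _ _ _ _ _ pr a A D h hA ha hD
  have hexo := h1 (σ ⊕ π) ι (rr (σ := σ) pr)
    (fun U => (-1 : ℝ) ^ U.toLeft.card * a U.toRight) A D h hA
    (by
      intro U
      rw [abs_mul, abs_pow, abs_neg, abs_one, one_pow, one_mul]
      exact ha _)
    (by
      intro U hU
      have hU' : a U.toRight ≠ 0 := by
        intro h0
        apply hU
        simp [h0]
      have h2 := hD _ hU'
      have h3 : ∏ x ∈ U, rr (σ := σ) pr x = ∏ x ∈ U.toRight, (pr x : ℝ) := by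
        rw [← Finset.toLeft_disjSum_toRight (u := U), Finset.prod_disjSum]
        simp [rr]
      rw [h3]
      exact h2)
  obtain ⟨c, hc1, hc2, hc3⟩ := hexo
  refine ⟨c, ?_, hc2, hc3⟩
  intro t
  rw [← hc1 t]
  simp only
  have h4 := sum_powerset_split (t h) (fun V => (-1 : ℝ) ^ V.card) a
  rw [h4]
  have h5 : (t h).toRight = lg t h := by
    ext x
    simp [lg]
  have h6 : ∑ V ∈ (t h).toLeft.powerset, (-1 : ℝ) ^ V.card =
      if (t h).toLeft = ∅ then 1 else 0 := by
    have h7 := Finset.sum_powerset_neg_one_pow_card (x := (t h).toLeft)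
    have h8 : ((∑ m ∈ (t h).toLeft.powerset, (-1 : ℤ) ^ m.card : ℤ) : ℝ) =
        ((if (t h).toLeft = ∅ then 1 else 0 : ℤ) : ℝ) := by rw [h7]
    push_cast at h8
    exact h8
  have h9 : h ∈ Sset t ↔ (t h).toLeft = ∅ := by
    rw [Finset.eq_empty_iff_forall_notMem]
    simp [Sset]
  rw [h6, h5]
  by_cases hh : h ∈ Sset t
  · rw [if_pos hh, if_pos (h9.mp hh), one_mul]
  · rw [if_neg hh, if_neg (fun h10 => hh (h9.mpr h10)), zero_mul]

end Pool.PP
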