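import Pool.Agent.Work.MP_b0c12c_pp.Transfer

/-! # Isolated primes: block EXM (helper63) -/

set_option autoImplicit false

namespace Pool.PP

open Finset Filter

theorem EXM_key {β : Type} [Fintype β] [DecidableEq β] (F : β → β → β) (g : β → β → ℝ)
    (f : β → ℝ) :
    ∑ w, f w * ∑ u, ∑ u', (if F u u' = w then g u u' else 0) =
      ∑ u, ∑ u', f (F u u') * g u u' := by
  simp_rw [Finset.mul_sum]
  rw [Finset.sum_comm]
  refine Finset.sum_congr rfl fun u _ => ?_
  rw [Finset.sum_comm]
  refine Finset.sum_congr rfl fun u' _ => ?_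
  rw [Finset.sum_eq_single (F u u')]
  · rw [if_pos rfl]
  · intro w _ hw
    rw [if_neg (fun h => hw h.symm), mul_zero]
  · intro h
    exact absurd (Finset.mem_univ _) h

theorem EXM_pow {α : Type} [DecidableEq α] (V : Finset α) (κ : ℝ) :
    ∑ T ∈ V.powerset, κ ^ T.card = (1 + κ) ^ V.card := by
  have h := Finset.prod_one_add (f := fun _ : α => κ) V
  rw [Finset.prod_const] at h
  rw [h]
  refine Finset.sum_congr rfl fun T _ => ?_
  rw [Finset.prod_const]

theorem p_EXM : Stmt_EXM := by
  intro α ι _ _ _ _ r Ψ Ψ' K K' κ κ' D D' hr hK hK' hκ hκ' hD hD' hE hE'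
  classical
  obtain ⟨c, hc, hcV, hcD⟩ := hE
  obtain ⟨c', hc', hcV', hcD'⟩ := hE'
  let un : (ι → Finset α) → (ι → Finset α) → (ι → Finset α) := fun u u' h => u h ∪ u' h
  have hsupp : ∀ u u', supp (un u u') = supp u ∪ supp u' := by
    intro u u'
    ext x
    simp only [supp, un, Finset.mem_biUnion, Finset.mem_union, Finset.mem_univ, true_and]
    constructor
    · rintro ⟨h, h1 | h1⟩
      · exact Or.inl ⟨h, h1⟩
      · exact Or.inr ⟨h, h1⟩
    · rintro (⟨h, h1⟩ | ⟨h, h1⟩)
      · exact ⟨h, Or.inl h1⟩
      · exact ⟨h, Or.inr h1⟩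
  refine ⟨fun w => ∑ u, ∑ u', if un u u' = w then c u * c' u' else 0, ?_, ?_, ?_⟩
  · intro t
    have h1 : val (fun w => ∑ u, ∑ u', if un u u' = w then c u * c' u' else 0) t =
        ∑ w : ι → Finset α, (if (∀ h, w h ⊆ t h) then (1 : ℝ) else 0) *
          ∑ u, ∑ u', (if un u u' = w then c u * c' u' else 0) := by
      unfold val
      refine Finset.sum_congr rfl fun w _ => ?_
      by_cases hw : ∀ h, w h ⊆ t h
      · rw [if_pos hw, if_pos hw, one_mul]
      · rw [if_neg hw, if_neg hw, zero_mul]
    rw [h1, EXM_key un (fun u u' => c u * c' u')]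
    show Ψ t * Ψ' t = _
    rw [hc t, hc' t]
    unfold val
    rw [Finset.sum_mul_sum]
    refine Finset.sum_congr rfl fun u _ => Finset.sum_congr rfl fun u' _ => ?_
    have hiff : (∀ h, un u u' h ⊆ t h) ↔ (∀ h, u h ⊆ t h) ∧ (∀ h, u' h ⊆ t h) := by
      constructor
      · intro H
        exact ⟨fun h => (Finset.union_subset_iff.1 (H h)).1,
          fun h => (Finset.union_subset_iff.1 (H h)).2⟩
      · intro H h
        exact Finset.union_subset (H.1 h) (H.2 h)
    by_cases hu : ∀ h, u h ⊆ t h
    · by_cases hu' : ∀ h, u' h ⊆ t h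
      · rw [if_pos hu, if_pos hu', if_pos (hiff.2 ⟨hu, hu'⟩), one_mul]
      · rw [if_neg hu', if_neg (fun H => hu' (hiff.1 H).2), mul_zero, zero_mul]
    · rw [if_neg hu, if_neg (fun H => hu (hiff.1 H).1), zero_mul, zero_mul]
  · intro V
    -- bound by the sum over pairs
    have h1 : ∑ w : ι → Finset α, (if supp w = V then
        |∑ u, ∑ u', if un u u' = w then c u * c' u' else 0| else 0) ≤
        ∑ w : ι → Finset α, (if supp w = V then (1 : ℝ) else 0) *
          ∑ u, ∑ u', (if un u u' = w then |c u| * |c' u'| else 0) := by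
      refine Finset.sum_le_sum fun w _ => ?_
      by_cases hw : supp w = V
      · rw [if_pos hw, if_pos hw, one_mul]
        refine (Finset.abs_sum_le_sum_abs _ _).trans (Finset.sum_le_sum fun u _ => ?_)
        refine (Finset.abs_sum_le_sum_abs _ _).trans (Finset.sum_le_sum fun u' _ => ?_)
        by_cases huw : un u u' = w
        · rw [if_pos huw, if_pos huw, abs_mul]
        · rw [if_neg huw, if_neg huw, abs_zero]
      · rw [if_neg hw, if_neg hw, zero_mul]
    rw [EXM_key un (fun u u' => |c u| * |c' u'|)] at h1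
    have h2 : ∑ u : ι → Finset α, ∑ u' : ι → Finset α,
        (if supp (un u u') = V then (1 : ℝ) else 0) * (|c u| * |c' u'|) ≤
        ∑ u : ι → Finset α, ∑ u' : ι → Finset α,
          (if supp u ⊆ V then |c u| else 0) * (if supp u' ⊆ V then |c' u'| else 0) := by
      refine Finset.sum_le_sum fun u _ => Finset.sum_le_sum fun u' _ => ?_
      by_cases hV : supp (un u u') = V
      · rw [hsupp] at hV
        have ha : supp u ⊆ V := hV ▸ Finset.subset_union_left
        have hb : supp u' ⊆ V := hV ▸ Finset.subset_union_right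
        rw [if_pos ha, if_pos hb, hsupp, if_pos hV, one_mul]
      · rw [if_neg hV, zero_mul]
        apply mul_nonneg
        · split_ifs
          · exact abs_nonneg _
          · exact le_rfl
        · split_ifs
          · exact abs_nonneg _
          · exact le_rfl
    have h3 : ∀ (d : (ι → Finset α) → ℝ) (L μ : ℝ),
        (∀ W : Finset α, ∑ u : ι → Finset α, (if supp u = W then |d u| else 0) ≤
          L * μ ^ W.card) →
        ∑ u : ι → Finset α, (if supp u ⊆ V then |d u| else 0) ≤ L * (1 + μ) ^ V.card := by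
      intro d L μ hd
      have e1 : ∑ u : ι → Finset α, (if supp u ⊆ V then |d u| else 0) =
          ∑ W ∈ V.powerset, ∑ u : ι → Finset α, (if supp u = W then |d u| else 0) := by
        rw [Finset.sum_comm]
        refine Finset.sum_congr rfl fun u _ => ?_
        by_cases hu : supp u ⊆ V
        · rw [if_pos hu, Finset.sum_eq_single (supp u)]
          · rw [if_pos rfl]
          · intro W _ hW
            rw [if_neg (fun h => hW h.symm)]
          · intro h
            exact absurd (Finset.mem_powerset.2 hu) h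
        · rw [if_neg hu]
          refine (Finset.sum_eq_zero fun W hW => ?_).symm
          rw [if_neg]
          intro h
          exact hu (h ▸ Finset.mem_powerset.1 hW)
      rw [e1]
      calc ∑ W ∈ V.powerset, ∑ u : ι → Finset α, (if supp u = W then |d u| else 0)
          ≤ ∑ W ∈ V.powerset, L * μ ^ W.card := Finset.sum_le_sum fun W _ => hd W
        _ = L * (1 + μ) ^ V.card := by rw [← Finset.mul_sum, EXM_pow]
    refine h1.trans (h2.trans ?_)
    rw [← Finset.sum_mul_sum]
    have h4 := h3 c K κ hcV
    have h5 := h3 c' K' κ' hcV'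
    calc (∑ u : ι → Finset α, if supp u ⊆ V then |c u| else 0) *
        (∑ u' : ι → Finset α, if supp u' ⊆ V then |c' u'| else 0)
        ≤ (K * (1 + κ) ^ V.card) * (K' * (1 + κ') ^ V.card) := by
          apply mul_le_mul h4 h5
          · refine Finset.sum_nonneg fun u _ => ?_
            split_ifs
            · exact abs_nonneg _
            · exact le_rfl
          · positivity
      _ = K * K' * ((1 + κ) * (1 + κ')) ^ V.card := by
          rw [mul_pow]
          ring
  · intro w hw
    obtain ⟨u, _, hu⟩ := Finset.exists_ne_zero_of_sum_ne_zero hw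
    obtain ⟨u', _, hu'⟩ := Finset.exists_ne_zero_of_sum_ne_zero hu
    have hw' : un u u' = w := by
      by_contra h
      rw [if_neg h] at hu'
      exact hu' rfl
    rw [if_pos hw'] at hu'
    have hcu : c u ≠ 0 := left_ne_zero_of_mul hu'
    have hcu' : c' u' ≠ 0 := right_ne_zero_of_mul hu'
    have e1 := hcD u hcu
    have e2 := hcD' u' hcu'
    rw [← hw', hsupp]
    have e3 := Finset.prod_union_inter (s₁ := supp u) (s₂ := supp u') (f := r)
    have e4 : 1 ≤ ∏ x ∈ supp u ∩ supp u', r x := by
      have h := Finset.prod_le_prod (s := supp u ∩ supp u') (f := fun _ => (1 : ℝ)) (g := r)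
        (fun _ _ => zero_le_one) (fun x _ => hr x)
      rwa [Finset.prod_const_one] at h
    have e5 : 0 ≤ ∏ x ∈ supp u ∪ supp u', r x :=
      Finset.prod_nonneg fun x _ => zero_le_one.trans (hr x)
    have e6 : 0 ≤ ∏ x ∈ supp u', r x := Finset.prod_nonneg fun x _ => zero_le_one.trans (hr x)
    calc ∏ x ∈ supp u ∪ supp u', r x
        ≤ (∏ x ∈ supp u ∪ supp u', r x) * ∏ x ∈ supp u ∩ supp u', r x :=
          le_mul_of_one_le_right e5 e4
      _ = (∏ x ∈ supp u, r x) * ∏ x ∈ supp u', r x := e3
      _ ≤ D * D' := mul_le_mul e1 e2 e6 hD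

end Pool.PP
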