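import Pool.Agent.Work.MP_b0c12c_pp.Transfer

/-! # Isolated primes, block EXO: expansions of functions of one shift (helper33) -/

set_option autoImplicit false

set_option linter.unusedSectionVars false

namespace Pool.PP

open Finset Filter

namespace EXO

variable {α ι : Type} [DecidableEq α] [DecidableEq ι]

/-- The monomial of the set `U` at the shift `h`. -/
def mon (h : ι) (U : Finset α) : ι → Finset α := Function.update (fun _ => ∅) h U

theorem mon_self (h : ι) (U : Finset α) : mon h U h = U := by
  simp [mon]

theorem mon_ne (h k : ι) (hk : k ≠ h) (U : Finset α) : mon h U k = ∅ := by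
  simp [mon, hk]

theorem mon_inj (h : ι) : Function.Injective (mon (α := α) h) := by
  intro U V hUV
  have := congrFun hUV h
  simpa [mon] using this

theorem mon_of (h : ι) (u : ι → Finset α) (hu : ∀ k, k ≠ h → u k = ∅) : mon h (u h) = u := by
  funext k
  by_cases hk : k = h
  · subst hk
    exact mon_self _ _
  · rw [mon_ne h k hk, hu k hk]

theorem supp_mon [Fintype ι] (h : ι) (U : Finset α) : supp (mon h U) = U := by
  ext x
  simp only [supp, mem_biUnion, mem_univ, true_and]
  constructor
  · rintro ⟨k, hk⟩
    by_cases hkh : k = h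
    · subst hkh
      rwa [mon_self] at hk
    · rw [mon_ne h k hkh] at hk
      simp at hk
  · intro hx
    exact ⟨h, by rwa [mon_self]⟩

theorem mon_le (h : ι) (U : Finset α) (t : ι → Finset α) :
    (∀ k, mon h U k ⊆ t k) ↔ U ⊆ t h := by
  constructor
  · intro H
    have := H h
    rwa [mon_self] at this
  · intro H k
    by_cases hk : k = h
    · subst hk
      rwa [mon_self]
    · rw [mon_ne h k hk]
      exact empty_subset _

end EXO

open EXO in
open Classical in
theorem p_EXO : Stmt_EXO := by
  intro α ι _ _ _ _ r a A D h hA ha hD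
  set c : (ι → Finset α) → ℝ := fun u => if (∀ k, k ≠ h → u k = ∅) then a (u h) else 0 with hc
  have hcm : ∀ U, c (mon h U) = a U := by
    intro U
    simp only [hc]
    rw [if_pos (fun k hk => mon_ne h k hk U), mon_self]
  have hc0 : ∀ u, u ∉ Set.range (mon (α := α) h) → c u = 0 := by
    intro u hu
    simp only [hc]
    rw [if_neg]
    intro H
    exact hu ⟨u h, mon_of h u H⟩
  refine ⟨c, fun t => ?_, fun V => ?_, fun u hu => ?_⟩
  · unfold val
    rw [← Fintype.sum_of_injective (mon (α := α) h) (mon_inj h)
      (fun U => if U ∈ (t h).powerset then a U else 0) _ ?_ ?_]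
    · rw [sum_ite_mem, univ_inter]
    · intro u hu
      rw [hc0 u hu, ite_self]
    · intro U
      rw [hcm]
      simp only [mem_powerset, mon_le]
  · rw [one_pow, mul_one]
    rw [← Fintype.sum_of_injective (mon (α := α) h) (mon_inj h)
      (fun U => if U = V then |a U| else 0) _ ?_ ?_]
    · rw [sum_ite_eq' univ V (fun U => |a U|)]
      simp only [mem_univ, if_true]
      exact ha V
    · intro u hu
      rw [hc0 u hu, abs_zero, ite_self]
    · intro U
      rw [hcm, supp_mon]
  · have hr : u ∈ Set.range (mon (α := α) h) := by
      by_contra H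
      exact hu (hc0 u H)
    obtain ⟨U, rfl⟩ := hr
    rw [supp_mon]
    rw [hcm] at hu
    exact hD U hu

end Pool.PP
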