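import Pool.Agent.Work.MP_b0c12c_pp.Transfer

/-! # Isolated primes: block EXP (helper63) -/

set_option autoImplicit false

namespace Pool.PP

open Finset Filter

theorem p_EXP (h1 : Stmt_EXM) (h2 : Stmt_EXC) : Stmt_EXP := by
  intro α ι _ _ _ _ r B Ψ K D hr
  induction B using Finset.induction_on with
  | empty =>
    intro _ _ _
    have h := (h2 α ι r).1 1 1 1 zero_le_one le_rfl
    simpa using h
  | insert a B ha ih =>
    intro hK hD hE
    have hK' : ∀ h ∈ B, 0 ≤ K h := fun h hh => hK h (Finset.mem_insert_of_mem hh)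
    have hD' : ∀ h ∈ B, 1 ≤ D h := fun h hh => hD h (Finset.mem_insert_of_mem hh)
    have hE' : ∀ h ∈ B, Ex r (Ψ h) (K h) 1 (D h) :=
      fun h hh => hE h (Finset.mem_insert_of_mem hh)
    have hB := ih hK' hD' hE'
    have ha1 := hE a (Finset.mem_insert_self a B)
    have hKa := hK a (Finset.mem_insert_self a B)
    have hDa := hD a (Finset.mem_insert_self a B)
    have hKB : 0 ≤ ∏ h ∈ B, K h := Finset.prod_nonneg hK'
    have hDB : 0 ≤ ∏ h ∈ B, D h :=
      Finset.prod_nonneg fun h hh => zero_le_one.trans (hD' h hh)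
    have h4 : (0 : ℝ) ≤ 4 ^ B.card := by positivity
    have hm := h1 α ι r (Ψ a) (fun t => ∏ h ∈ B, Ψ h t) (K a) (∏ h ∈ B, K h) 1 (4 ^ B.card)
      (D a) (∏ h ∈ B, D h) hr hKa hKB zero_le_one h4 (zero_le_one.trans hDa) hDB ha1 hB
    have hone : (1 : ℝ) ≤ 4 ^ B.card := one_le_pow₀ (by norm_num)
    have hle : ((1 : ℝ) + 1) * (1 + 4 ^ B.card) ≤ 4 ^ (insert a B).card := by
      rw [Finset.card_insert_of_notMem ha, pow_succ]
      linarith
    have hfin := (h2 α ι r).2 _ _ _ _ _ _ _ (mul_nonneg hKa hKB) le_rfl (by positivity) hle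
      le_rfl hm
    simpa only [Finset.prod_insert ha] using hfin

end Pool.PP
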