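import Pool.Agent.Work.MP_b0c12c_pp.Arith

set_option autoImplicit false

namespace Pool.PP

open Finset Filter

theorem p_FIP (hCGE : Stmt_CGE) (hLDP : Stmt_LDP) (hPLB : Stmt_PLB) : Stmt_FIP := by
  classical
  intro lam eps hlam heps heps1
  obtain ⟨N, c, hc, hcge⟩ := hCGE (lam / eps) (by positivity)
  obtain ⟨C, hC, hldp⟩ := hLDP N (N + 2)
  obtain ⟨c1, hc1, hplb⟩ := hPLB
  have t1 : Tendsto (fun X : ℕ => Real.log (X : ℝ)) atTop atTop :=
    Real.tendsto_log_atTop.comp tendsto_natCast_atTop_atTop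
  have t2 : Tendsto (fun X : ℕ => eps * Real.log (X : ℝ)) atTop atTop :=
    Tendsto.const_mul_atTop heps t1
  refine ⟨c * c1, by positivity, ?_⟩
  filter_upwards [t2.eventually hcge, hldp, hplb, t1.eventually_ge_atTop (C / c1 + 1),
    t1.eventually_ge_atTop 1, eventually_ge_atTop 3] with X a1 a2 a3 a4 a5 a6
  have hX : (3 : ℝ) ≤ X := by exact_mod_cast a6
  have hX0 : (0 : ℝ) < X := by linarith
  have hL : 0 < Real.log X := by linarith
  have hexp : ∀ t : ℝ, Real.exp (eps * Real.log X / t) = (X : ℝ) ^ (eps / t) := by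
    intro t
    rw [Real.rpow_def_of_pos hX0]
    congr 1
    ring
  set NN : Finset ℕ := (Ioc X (2 * X)).filter Nat.Prime with hNN
  set B : Finset ℤ := (Icc (-⌊lam * Real.log X⌋) ⌊lam * Real.log X⌋).erase 0 with hB
  have hM : 0 < (NN.card : ℝ) := lt_of_lt_of_le (by positivity) a3
  have b1 : ∀ h ∈ B, |(h : ℝ)| ≤ lam / eps * (eps * Real.log X) := by
    intro h hh
    rw [hB, Finset.mem_erase, Finset.mem_Icc] at hh
    have h1 : |h| ≤ ⌊lam * Real.log X⌋ := abs_le.2 hh.2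
    have h2 : ((|h| : ℤ) : ℝ) ≤ lam * Real.log X :=
      (Int.cast_le.2 h1).trans (Int.floor_le _)
    rw [Int.cast_abs] at h2
    have h3 : lam / eps * (eps * Real.log X) = lam * Real.log X := by
      field_simp
    rw [h3]
    exact h2
  have b2 : (1 : ℕ) = 1 → (0 : ℤ) ∉ B := fun _ => by simp [hB]
  have b3 : (1 : ℕ) = 1 → ∀ n ∈ NN, ∀ p : ℕ, p.Prime →
      (p : ℝ) ≤ Real.exp (eps * Real.log X / 1024) → ¬ p ∣ n := by
    intro _ n hn p hp hpX hpn
    rw [hNN, Finset.mem_filter, Finset.mem_Ioc] at hn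
    have h1 : p = n := (Nat.prime_dvd_prime_iff_eq hp hn.2).1 hpn
    have h2 : (X : ℝ) ^ (eps / 1024) ≤ (X : ℝ) ^ (1 : ℝ) :=
      Real.rpow_le_rpow_of_exponent_le (by linarith) (by linarith)
    rw [Real.rpow_one] at h2
    rw [hexp] at hpX
    have h3 : (X : ℝ) < n := by exact_mod_cast hn.1.1
    rw [h1] at hpX
    linarith
  have b4 : ∀ (VV : Finset (Finset ℕ)),
      (∀ V ∈ VV, (∀ p ∈ V, p.Prime) ∧ ∏ p ∈ V, (p : ℝ) ≤ Real.exp (eps * Real.log X / 8)) →
      ∀ a : Finset ℕ → ℕ → ℕ, (∀ V p, p.Prime → a V p ∈ Ico 1 p) →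
      ∑ V ∈ VV, (2 ^ N : ℝ) ^ V.card *
        err (fun p : ℕ => p) (fun p => Ico 1 p) NN (NN.card : ℝ) (a V) V ≤
          (NN.card : ℝ) / (eps * Real.log X) ^ N := by
    intro VV hVV a ha
    have h1 := a2 VV (fun V hV => ⟨(hVV V hV).1, by
      refine (hVV V hV).2.trans ?_
      rw [hexp]
      exact Real.rpow_le_rpow_of_exponent_le (by linarith) (by linarith)⟩) a ha
    refine h1.trans ?_
    have h2 : C ≤ c1 * Real.log X := by
      have : C / c1 ≤ Real.log X := by linarith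
      rw [div_le_iff₀ hc1] at this
      linarith
    calc C * (X / Real.log X ^ (N + 2)) ≤ c1 * Real.log X * (X / Real.log X ^ (N + 2)) := by
          gcongr
      _ = c1 * (X / Real.log X) / Real.log X ^ N := by
          field_simp
          ring
      _ ≤ (NN.card : ℝ) / Real.log X ^ N := by gcongr
      _ ≤ (NN.card : ℝ) / (eps * Real.log X) ^ N := by
          have h4 : eps * Real.log X ≤ Real.log X := by nlinarith
          have h5 : 0 < eps * Real.log X := by positivity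
          gcongr
  have key := a1 1 le_rfl B b1 b2 NN (NN.card : ℝ) hM b3 b4
  have hsub : (NN.filter (fun n : ℕ => ∀ h ∈ B, ∃ p : ℕ, p.Prime ∧
      (p : ℝ) ≤ Real.exp (eps * Real.log X / 1024) ∧ (p : ℤ) ∣ (n : ℤ) + h)) ⊆
        isoD lam eps X := by
    intro n hn
    rw [Finset.mem_filter] at hn
    unfold isoD
    rw [Finset.mem_filter]
    refine ⟨hn.1, fun h h0 hh => ?_⟩
    have hhB : h ∈ B := by
      rw [hB, Finset.mem_erase, Finset.mem_Icc]
      refine ⟨h0, abs_le.1 (Int.le_floor.2 ?_)⟩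
      rw [Int.cast_abs]
      exact hh
    obtain ⟨p, hp, hpX, hpd⟩ := hn.2 h hhB
    refine ⟨p, hp, hpX.trans ?_, hpd⟩
    rw [hexp]
    exact Real.rpow_le_rpow_of_exponent_le (by linarith) (by linarith)
  have hcard : ((NN.filter (fun n : ℕ => ∀ h ∈ B, ∃ p : ℕ, p.Prime ∧
      (p : ℝ) ≤ Real.exp (eps * Real.log X / 1024) ∧ (p : ℤ) ∣ (n : ℤ) + h)).card : ℝ) ≤
        ((isoD lam eps X).card : ℝ) := by
    exact_mod_cast Finset.card_le_card hsub
  calc c * c1 * (X / Real.log X) = c * (c1 * (X / Real.log X)) := by ring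
    _ ≤ c * NN.card := by gcongr
    _ ≤ _ := key
    _ ≤ _ := hcard

end Pool.PP
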