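import Pool.Agent.Work.MP_b0c12c_pp.Transfer

set_option autoImplicit false

namespace Pool.PP

open Finset Filter

theorem p_GEN (hE : Stmt_EXA) (hT : Stmt_TRA) (hMo : Stmt_MOD) (hCS : Stmt_CSW)
    (hPW : Stmt_PWI) : Stmt_GEN := by
  intro J A hJ hA
  obtain ⟨N, hEN⟩ := hE J A hA
  refine ⟨N, ?_⟩
  intro σ π ι _ _ _ _ _ _ ps pl Rs Rl sh b I a aρ D M K C NN hRs hRs' hRl hRl' hlab hdist
    hNs hNl hD ha haρ haD haρD hgs hrho hmt hM hC hSw hloc herr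
  have hpl1 : ∀ x, 1 ≤ pl x := fun x => by
    obtain ⟨r, hr⟩ := hRl x
    have := hRl' x r hr
    omega
  obtain ⟨hEx1, hEx2⟩ := hEN σ π ι pl (fun x => 1 / ((Rl x).card : ℝ)) b I a aρ D hJ hpl1 hD ha
    haρ haD haρD hgs hrho
  have hRne : ∀ x : σ ⊕ π, (Sum.elim Rs Rl x).Nonempty := by
    rintro (x | x)
    exacts [hRs x, hRl x]
  have hRlt : ∀ x : σ ⊕ π, ∀ r ∈ Sum.elim Rs Rl x, r < Sum.elim ps pl x := by
    rintro (x | x)
    exacts [hRs' x, hRl' x]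
  have hNN : ∀ n ∈ NN, ∀ x : σ ⊕ π, n % Sum.elim ps pl x ∈ Sum.elim Rs Rl x := by
    rintro n hn (x | x)
    exacts [hNs n hn x, hNl n hn x]
  have hm : (0 : ℝ) < (2 + (Fintype.card ι : ℝ)) ^ N := by positivity
  have hKδ : (2 + (Fintype.card ι : ℝ)) ^ N * (M / (4 * (2 + (Fintype.card ι : ℝ)) ^ N)) =
      M / 4 := by
    field_simp
  have t1 := hT (σ ⊕ π) ι (Sum.elim ps pl) (Sum.elim Rs Rl) sh (rr pl)
    (fun t => Psi (fun x => 1 / ((Rl x).card : ℝ)) b I J (Sset t) (lg t))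
    ((2 + (Fintype.card ι : ℝ)) ^ N) (2 ^ N) (D ^ 8) NN M
    (M / (4 * (2 + (Fintype.card ι : ℝ)) ^ N)) hRne hRlt hNN hm.le (by positivity) hEx1 herr
  have t2 := hT (σ ⊕ π) ι (Sum.elim ps pl) (Sum.elim Rs Rl) sh (rr pl)
    (fun t => FF (fun x => 1 / ((Rl x).card : ℝ)) b I J (Sset t) (lg t) ^ 4)
    ((2 + (Fintype.card ι : ℝ)) ^ N) (2 ^ N) (D ^ 8) NN M
    (M / (4 * (2 + (Fintype.card ι : ℝ)) ^ N)) hRne hRlt hNN hm.le (by positivity) hEx2 herr
  rw [hKδ] at t1 t2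
  have m1 := hMo σ π ι ps pl Rs Rl sh
    (fun S t => Psi (fun x => 1 / ((Rl x).card : ℝ)) b I J S t) hRs hRl hRl' hlab hdist
  have m2 := hMo σ π ι ps pl Rs Rl sh
    (fun S t => FF (fun x => 1 / ((Rl x).card : ℝ)) b I J S t ^ 4) hRs hRl hRl' hlab hdist
  have hprod : (0 : ℝ) < ∏ y, ((Rs y).card : ℝ) :=
    Finset.prod_pos (fun y _ => by exact_mod_cast (hRs y).card_pos)
  have hcard : ((Fintype.piFinset Rs).card : ℝ) = ∏ y, ((Rs y).card : ℝ) := by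
    rw [Fintype.card_piFinset]
    push_cast
    rfl
  have b1 : 1 / 2 ≤ EW (Sum.elim ps pl) (Sum.elim Rs Rl) sh
      (fun t => Psi (fun x => 1 / ((Rl x).card : ℝ)) b I J (Sset t) (lg t)) := by
    refine le_of_le_of_eq ?_ m1.symm
    rw [le_div_iff₀ hprod]
    calc 1 / 2 * ∏ y, ((Rs y).card : ℝ) = ∑ ω ∈ Fintype.piFinset Rs, (1 / 2 : ℝ) := by
          rw [Finset.sum_const, nsmul_eq_mul, hcard, mul_comm]
      _ ≤ _ := Finset.sum_le_sum (fun ω hω => (hloc _ (hSw ω hω)).1)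
  have b2 : EW (Sum.elim ps pl) (Sum.elim Rs Rl) sh
      (fun t => FF (fun x => 1 / ((Rl x).card : ℝ)) b I J (Sset t) (lg t) ^ 4) ≤ C := by
    refine le_of_eq_of_le m2 ?_
    rw [div_le_iff₀ hprod]
    calc _ ≤ ∑ ω ∈ Fintype.piFinset Rs, C :=
          Finset.sum_le_sum (fun ω hω => (hloc _ (hSw ω hω)).2)
      _ = C * ∏ y, ((Rs y).card : ℝ) := by
          rw [Finset.sum_const, nsmul_eq_mul, hcard, mul_comm]
  have hfin := hCS NN (NN.filter (fun n : ℕ => ∀ h, ∃ x : σ ⊕ π,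
        ((Sum.elim ps pl x : ℕ) : ℤ) ∣ (n : ℤ) + sh h))
    (fun n => Psi (fun x => 1 / ((Rl x).card : ℝ)) b I J (Sset (tb (Sum.elim ps pl) sh n))
      (lg (tb (Sum.elim ps pl) sh n)))
    (fun n => FF (fun x => 1 / ((Rl x).card : ℝ)) b I J (Sset (tb (Sum.elim ps pl) sh n))
      (lg (tb (Sum.elim ps pl) sh n))) M (C + 1) (Finset.filter_subset _ _) hM (by linarith)
    (fun n _ => (hPW π ι _ b I J _ _ hJ hmt).1)
    (fun n hn hnG => by
      refine (hPW π ι _ b I J _ _ hJ hmt).2 ?_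
      have h1 : ¬ ∀ h, ∃ x : σ ⊕ π, ((Sum.elim ps pl x : ℕ) : ℤ) ∣ (n : ℤ) + sh h := by
        intro hall
        exact hnG (Finset.mem_filter.mpr ⟨hn, hall⟩)
      push Not at h1
      obtain ⟨h, hh⟩ := h1
      refine ⟨h, ?_, ?_⟩
      · simp only [Sset, tb, Finset.mem_filter, Finset.mem_univ, true_and]
        intro y
        exact hh (Sum.inl y)
      · simp only [lg, tb, Finset.mem_filter, Finset.mem_univ, true_and]
        refine Finset.filter_eq_empty_iff.mpr ?_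
        intro y _
        exact hh (Sum.inr y))
    (by
      have h1 := (abs_le.mp t1).1
      have h2 := mul_le_mul_of_nonneg_left b1 hM.le
      linarith)
    (by
      have h1 := (abs_le.mp t2).2
      have h2 := mul_le_mul_of_nonneg_left b2 hM.le
      nlinarith)
  have h16 : M / (16 * (C + 2)) = M / (16 * (C + 1 + 1)) := by ring_nf
  rw [h16]
  exact hfin

end Pool.PP
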