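import Pool.Agent.Work.MP_b0c12c_pp.Arith
import Pool.Agent.Work.MP_b0c12c_gaps.B_CHB

set_option autoImplicit false

namespace Pool.PP

open Finset Filter

theorem p_GPS (hF : Stmt_FIP) : Stmt_GPS := by
  unfold Stmt_GPS
  classical
  intro lam hlam
  obtain ⟨c, hc, hFc⟩ := hF (3 * lam) (1 / 2) (by positivity) (by norm_num) (by norm_num)
  obtain ⟨Cc, hCc, hch⟩ := Pool.LGP.p_CHB
  have hY : Tendsto (fun X : ℕ => X / 4) atTop atTop := by
    refine tendsto_atTop.mpr (fun b => ?_)
    filter_upwards [eventually_ge_atTop (4 * b)] with X hX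
    omega
  have hlog : ∀ᶠ Y : ℕ in atTop, 2 * lam * Real.log Y ≤ (Y : ℝ) / 4 := by
    have h1 := (Real.isLittleO_log_id_atTop.bound
      (show (0 : ℝ) < 1 / (8 * lam) by positivity))
    have h2 := tendsto_natCast_atTop_atTop (R := ℝ) |>.eventually h1
    filter_upwards [h2, eventually_ge_atTop 1] with Y hY1 hY2
    have hY3 : (1 : ℝ) ≤ Y := by exact_mod_cast hY2
    rw [Real.norm_of_nonneg (Real.log_nonneg hY3), id, Real.norm_of_nonneg (by linarith)] at hY1
    calc 2 * lam * Real.log Y ≤ 2 * lam * (1 / (8 * lam) * Y) :=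
          mul_le_mul_of_nonneg_left hY1 (by positivity)
      _ = (Y : ℝ) / 4 := by field_simp; norm_num
  refine ⟨c / (8 * Cc), by positivity, ?_⟩
  filter_upwards [hY.eventually hFc, hY.eventually hlog, hY.eventually (eventually_ge_atTop 16)]
    with X h1 h2 h3
  set Y : ℕ := X / 4 with hYdef
  have hYX : 4 * Y ≤ X := by omega
  have hXY : X ≤ 8 * Y := by omega
  have hYr : (16 : ℝ) ≤ Y := by exact_mod_cast h3
  have hY0 : (0 : ℝ) < Y := by linarith
  have hXr : (X : ℝ) ≤ 8 * Y := by exact_mod_cast hXY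
  have hYXr : 4 * (Y : ℝ) ≤ X := by exact_mod_cast hYX
  have hX0 : (0 : ℝ) < X := by linarith
  have hlogY : 0 < Real.log Y := Real.log_pos (by linarith)
  have hlogXY : Real.log X ≤ 2 * Real.log Y := by
    have h4 : Real.log X ≤ Real.log ((Y : ℝ) ^ 2) :=
      Real.log_le_log hX0 (by nlinarith)
    rwa [Real.log_pow] at h4
  have hlogYX : Real.log Y ≤ Real.log X := Real.log_le_log hY0 (by linarith)
  have hsq : (Y : ℝ) ^ (1 / 2 : ℝ) ≤ (Y : ℝ) / 4 := by
    rw [← Real.sqrt_eq_rpow]
    rw [Real.sqrt_le_left (by positivity)]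
    nlinarith
  -- isolated primes have no prime neighbour
  have hiso : ∀ p ∈ isoD (3 * lam) (1 / 2) Y, ∀ n : ℕ, n.Prime → n ≠ p →
      lam * Real.log X ≤ |(n : ℝ) - p| := by
    intro p hp n hn hnp
    by_contra hcon
    push Not at hcon
    unfold isoD at hp
    rw [Finset.mem_filter, Finset.mem_filter, Finset.mem_Ioc] at hp
    obtain ⟨⟨⟨hp1, hp2⟩, hpp⟩, hp3⟩ := hp
    have hp1r : (Y : ℝ) < p := by exact_mod_cast hp1
    obtain ⟨r, hr, hr1, hr2⟩ := hp3 ((n : ℤ) - p) (by
      intro h0
      apply hnp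
      have : (n : ℤ) = p := by linarith
      exact_mod_cast this) (by
      push_cast
      refine hcon.le.trans ?_
      nlinarith)
    have hdvd : r ∣ n := by
      have h5 : (p : ℤ) + ((n : ℤ) - p) = n := by ring
      rw [h5] at hr2
      exact_mod_cast hr2
    have hrn : r = n := (Nat.prime_dvd_prime_iff_eq hr hn).1 hdvd
    rw [hrn] at hr1
    have h6 := (abs_lt.mp hcon).1
    have h7 : lam * Real.log X ≤ 2 * lam * Real.log Y := by nlinarith
    linarith
  have hcard : ((isoD (3 * lam) (1 / 2) Y).card : ℝ) ≤ (((range X).filter (fun k : ℕ =>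
      Nat.nth Nat.Prime (k + 2) ≤ X ∧
      lam * Real.log X ≤ (Nat.nth Nat.Prime (k + 1) : ℝ) - Nat.nth Nat.Prime k ∧
      lam * Real.log X ≤
        (Nat.nth Nat.Prime (k + 2) : ℝ) - Nat.nth Nat.Prime (k + 1))).card : ℝ) := by
    have key : ∀ p ∈ isoD (3 * lam) (1 / 2) Y, p.Prime ∧ Y < p ∧ p ≤ 2 * Y ∧
        1 ≤ Nat.count Nat.Prime p := by
      intro p hp
      unfold isoD at hp
      rw [Finset.mem_filter, Finset.mem_filter, Finset.mem_Ioc] at hp
      obtain ⟨⟨⟨hp1, hp2⟩, hpp⟩, hp3⟩ := hp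
      refine ⟨hpp, hp1, hp2, ?_⟩
      have h8 : Nat.count Nat.Prime 3 ≤ Nat.count Nat.Prime p :=
        Nat.count_monotone _ (by omega)
      have h9 : Nat.count Nat.Prime 3 = 1 := by decide
      omega
    refine Nat.cast_le.mpr ?_
    refine Finset.card_le_card_of_injOn (fun p => Nat.count Nat.Prime p - 1) ?_ ?_
    · intro p hp
      have hp' := Finset.mem_coe.mp hp
      obtain ⟨hpp, hp1, hp2, hcnt⟩ := key p hp'
      have hk : Nat.count Nat.Prime p - 1 + 1 = Nat.count Nat.Prime p := by omega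
      have hk2 : Nat.count Nat.Prime p - 1 + 2 = Nat.count Nat.Prime p + 1 := by omega
      have hnth : Nat.nth Nat.Prime (Nat.count Nat.Prime p) = p := Nat.nth_count hpp
      have hle : Nat.count Nat.Prime p ≤ p := Nat.count_le _
      have hmono := Nat.nth_strictMono Nat.infinite_setOfPred_prime
      have hlt1 : Nat.nth Nat.Prime (Nat.count Nat.Prime p - 1) < p := by
        conv_rhs => rw [← hnth]
        exact hmono (by omega)
      have hlt2 : p < Nat.nth Nat.Prime (Nat.count Nat.Prime p + 1) := by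
        conv_lhs => rw [← hnth]
        exact hmono (by omega)
      simp only [Finset.coe_filter, Finset.mem_range, Set.mem_ofPred_eq]
      rw [hk, hk2, hnth]
      refine ⟨by omega, ?_, ?_, ?_⟩
      · obtain ⟨q, hq, hq1, hq2⟩ := Nat.exists_prime_lt_and_le_two_mul p hpp.ne_zero
        have hcq : Nat.count Nat.Prime p + 1 ≤ Nat.count Nat.Prime q := by
          have h10 : Nat.count Nat.Prime (p + 1) ≤ Nat.count Nat.Prime q :=
            Nat.count_monotone _ (by omega)
          rw [Nat.count_succ, if_pos hpp] at h10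
          exact h10
        have h11 : Nat.nth Nat.Prime (Nat.count Nat.Prime p + 1) ≤ q := by
          conv_rhs => rw [← Nat.nth_count hq]
          exact hmono.monotone hcq
        omega
      · have h12 := hiso p hp' _ (Nat.prime_nth_prime _) hlt1.ne
        have h13 : ((Nat.nth Nat.Prime (Nat.count Nat.Prime p - 1) : ℕ) : ℝ) < p := by
          exact_mod_cast hlt1
        rw [abs_of_neg (by linarith)] at h12
        linarith
      · have h12 := hiso p hp' _ (Nat.prime_nth_prime _) hlt2.ne'
        have h13 : (p : ℝ) < ((Nat.nth Nat.Prime (Nat.count Nat.Prime p + 1) : ℕ) : ℝ) := by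
          exact_mod_cast hlt2
        rw [abs_of_pos (by linarith)] at h12
        linarith
    · intro p hp p' hp' heq
      obtain ⟨hpp, _, _, hcnt⟩ := key p (Finset.mem_coe.mp hp)
      obtain ⟨hpp', _, _, hcnt'⟩ := key p' (Finset.mem_coe.mp hp')
      have heq' : Nat.count Nat.Prime p - 1 = Nat.count Nat.Prime p' - 1 := heq
      have h14 : Nat.count Nat.Prime p = Nat.count Nat.Prime p' := by omega
      rw [← Nat.nth_count hpp, ← Nat.nth_count hpp', h14]
  refine le_trans ?_ hcard
  refine le_trans ?_ h1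
  have h15 := hch X (by linarith)
  rw [Nat.floor_natCast] at h15
  calc c / (8 * Cc) * (Nat.primeCounting X : ℝ) ≤ c / (8 * Cc) * (Cc * (X / Real.log X)) :=
        mul_le_mul_of_nonneg_left h15 (by positivity)
    _ = c * (X / 8 / Real.log X) := by
        field_simp
    _ ≤ c * (Y / Real.log Y) := by
        refine mul_le_mul_of_nonneg_left ?_ hc.le
        exact div_le_div₀ hY0.le (by linarith) hlogY hlogYX

end Pool.PP
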