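import Pool.Agent.Work.MP_b0c12c_pp.Arith

/-! # Isolated primes: block INT (helper63) -/

set_option autoImplicit false

namespace Pool.PP

open Finset Filter

theorem INT_log_small (lam : ℝ) (hlam : 0 < lam) :
    ∀ᶠ X : ℕ in atTop, lam * Real.log X ≤ X / 2 := by
  have h := Real.isLittleO_log_id_atTop.bound (show (0 : ℝ) < 1 / (2 * lam) by positivity)
  have h' := (tendsto_natCast_atTop_atTop (R := ℝ)).eventually h
  filter_upwards [h'] with X hX
  simp only [id, Real.norm_eq_abs] at hX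
  have h0 : (0 : ℝ) ≤ X := Nat.cast_nonneg _
  rw [abs_of_nonneg h0] at hX
  have h1 := le_abs_self (Real.log X)
  calc lam * Real.log X ≤ lam * (1 / (2 * lam) * X) :=
        mul_le_mul_of_nonneg_left (h1.trans hX) hlam.le
    _ = X / 2 := by field_simp

theorem INT_log_quarter (lam : ℝ) (hlam : 0 < lam) :
    ∀ᶠ X : ℕ in atTop, 2 * lam * Real.log X ≤ 3 * lam * Real.log ((X / 4 : ℕ) : ℝ) := by
  have h := (Real.tendsto_log_atTop.comp (tendsto_natCast_atTop_atTop (R := ℝ))).eventually_ge_atTop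
    (3 * Real.log 5)
  filter_upwards [h, eventually_ge_atTop 15] with X hX hX15
  have h1 : X ≤ 5 * (X / 4) := by omega
  have h2 : (X : ℝ) / 5 ≤ ((X / 4 : ℕ) : ℝ) := by
    have : (X : ℝ) ≤ 5 * ((X / 4 : ℕ) : ℝ) := by exact_mod_cast h1
    linarith
  have hXpos : (0 : ℝ) < X := by
    have : 0 < X := by omega
    exact_mod_cast this
  have h3 : Real.log X - Real.log 5 ≤ Real.log ((X / 4 : ℕ) : ℝ) := by
    rw [← Real.log_div hXpos.ne' (by norm_num)]
    exact Real.log_le_log (by positivity) h2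
  have h4 : 3 * Real.log 5 ≤ Real.log X := hX
  have h5 : 2 * Real.log X ≤ 3 * Real.log ((X / 4 : ℕ) : ℝ) := by linarith
  have h6 := mul_le_mul_of_nonneg_left h5 hlam.le
  linarith

theorem p_INT (h1 : Stmt_FIP) : Stmt_INT := by
  classical
  intro lam eps hlam heps
  obtain ⟨c, hc, hev⟩ := h1 (3 * lam) (min eps 1) (by positivity) (lt_min heps one_pos)
    (min_le_right _ _)
  refine ⟨c * lam / 5, by positivity, ?_⟩
  have hdiv : Tendsto (fun X : ℕ => X / 4) atTop atTop :=
    Nat.tendsto_div_const_atTop (by norm_num)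
  filter_upwards [hdiv.eventually hev, INT_log_quarter lam hlam, INT_log_small lam hlam,
    eventually_ge_atTop 20] with X hiso hq hs hX20
  set Y := X / 4 with hY
  set k := ⌊lam * Real.log X⌋₊ with hk
  have hY5 : X ≤ 5 * Y := by omega
  have hY2 : 2 * Y ≤ X / 2 := by omega
  have hY1 : 2 ≤ Y := by omega
  have hYr : (2 : ℝ) ≤ Y := by exact_mod_cast hY1
  have hXr : (20 : ℝ) ≤ X := by exact_mod_cast hX20
  have hYX : (Y : ℝ) ≤ X := by
    have : Y ≤ X := by omega
    exact_mod_cast this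
  have hlogY : 0 < Real.log Y := Real.log_pos (by linarith)
  have hlogX : 0 < Real.log X := Real.log_pos (by linarith)
  have hlogYX : Real.log Y ≤ Real.log X := Real.log_le_log (by linarith) hYX
  have hkle : (k : ℝ) ≤ lam * Real.log X := Nat.floor_le (by positivity)
  have hklt : lam * Real.log X < k + 1 := Nat.lt_floor_add_one _
  have hrY : (Y : ℝ) ^ (min eps 1) ≤ Y := by
    calc (Y : ℝ) ^ (min eps 1) ≤ (Y : ℝ) ^ (1 : ℝ) :=
          Real.rpow_le_rpow_of_exponent_le (by linarith) (min_le_right _ _)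
      _ = Y := Real.rpow_one _
  -- elements of the isolated set
  have hmem : ∀ p ∈ isoD (3 * lam) (min eps 1) Y, p.Prime ∧ Y < p ∧ p ≤ 2 * Y ∧
      ∀ h : ℤ, h ≠ 0 → |(h : ℝ)| ≤ 3 * lam * Real.log Y →
        ∃ r : ℕ, r.Prime ∧ (r : ℝ) ≤ (Y : ℝ) ^ (min eps 1) ∧ (r : ℤ) ∣ (p : ℤ) + h := by
    intro p hp
    unfold isoD at hp
    rw [Finset.mem_filter, Finset.mem_filter, Finset.mem_Ioc] at hp
    exact ⟨hp.1.2, hp.1.1.1, hp.1.1.2, hp.2⟩
  -- separation
  have hsep : ∀ p ∈ isoD (3 * lam) (min eps 1) Y, ∀ p' ∈ isoD (3 * lam) (min eps 1) Y,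
      p < p' → p + k < p' := by
    intro p hp p' hp' hlt
    by_contra hcon
    have hle : p' ≤ p + k := not_lt.1 hcon
    obtain ⟨hpp, _, _, hfor⟩ := hmem p hp
    obtain ⟨hpp', hYp', _, _⟩ := hmem p' hp'
    have hne : ((p' : ℤ) - p) ≠ 0 := by omega
    have habs : |(((p' : ℤ) - p : ℤ) : ℝ)| ≤ 3 * lam * Real.log Y := by
      have h0 : (0 : ℝ) ≤ (((p' : ℤ) - p : ℤ) : ℝ) := by
        have : (0 : ℤ) ≤ (p' : ℤ) - p := by omega
        exact_mod_cast this
      rw [abs_of_nonneg h0]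
      push_cast
      have h2 : (p' : ℝ) ≤ p + k := by exact_mod_cast hle
      have h3 : lam * Real.log X ≤ 2 * lam * Real.log X := by
        have : 0 < lam * Real.log X := by positivity
        linarith
      linarith
    obtain ⟨r, hr, hrle, hrd⟩ := hfor _ hne habs
    have e1 : (p : ℤ) + ((p' : ℤ) - p) = (p' : ℤ) := by ring
    rw [e1] at hrd
    have hrd' : r ∣ p' := by exact_mod_cast hrd
    have hrp : r = p' := (Nat.prime_dvd_prime_iff_eq hr hpp').1 hrd'
    have h4 : (p' : ℝ) ≤ Y := by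
      rw [← hrp]
      exact hrle.trans hrY
    have h5 : p' ≤ Y := by exact_mod_cast h4
    omega
  -- the injection
  have hcard : (isoD (3 * lam) (min eps 1) Y ×ˢ range (k + 1)).card ≤
      ((Icc 1 X).filter (fun n : ℕ => ∀ m : ℕ, n < m →
      (m : ℝ) ≤ n + lam * Real.log X → ∃ r : ℕ, r.Prime ∧ (r : ℝ) ≤ (n : ℝ) ^ eps ∧
        r ∣ m)).card := by
    apply Finset.card_le_card_of_injOn (fun z : ℕ × ℕ => z.1 + z.2)
    · intro z hz
      rw [Finset.mem_coe, Finset.mem_product, Finset.mem_range] at hz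
      obtain ⟨hz1, hz2⟩ := hz
      obtain ⟨_, hp1, hp2, hfor⟩ := hmem z.1 hz1
      rw [Finset.mem_coe, Finset.mem_filter, Finset.mem_Icc]
      beta_reduce
      have hz2r : (z.2 : ℝ) ≤ k := by
        have : z.2 ≤ k := by omega
        exact_mod_cast this
      refine ⟨⟨by omega, ?_⟩, ?_⟩
      · have h2 : (z.1 : ℝ) ≤ X / 2 := by
          have h3 : 2 * z.1 ≤ X := by omega
          have h4 : 2 * (z.1 : ℝ) ≤ X := by exact_mod_cast h3
          linarith
        have h5 : ((z.1 + z.2 : ℕ) : ℝ) ≤ X := by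
          push_cast
          linarith
        exact_mod_cast h5
      · intro m hm1 hm2
        have hne : ((m : ℤ) - z.1) ≠ 0 := by omega
        have habs : |(((m : ℤ) - z.1 : ℤ) : ℝ)| ≤ 3 * lam * Real.log Y := by
          have h0 : (0 : ℝ) ≤ (((m : ℤ) - z.1 : ℤ) : ℝ) := by
            have : (0 : ℤ) ≤ (m : ℤ) - z.1 := by omega
            exact_mod_cast this
          rw [abs_of_nonneg h0]
          push_cast at hm2 ⊢
          linarith
        obtain ⟨r, hr, hrle, hrd⟩ := hfor _ hne habs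
        have e1 : (z.1 : ℤ) + ((m : ℤ) - z.1) = (m : ℤ) := by ring
        rw [e1] at hrd
        refine ⟨r, hr, ?_, by exact_mod_cast hrd⟩
        have hYn : (Y : ℝ) ≤ ((z.1 + z.2 : ℕ) : ℝ) := by
          have : Y ≤ z.1 + z.2 := by omega
          exact_mod_cast this
        calc (r : ℝ) ≤ (Y : ℝ) ^ (min eps 1) := hrle
          _ ≤ (Y : ℝ) ^ eps :=
              Real.rpow_le_rpow_of_exponent_le (by linarith) (min_le_left _ _)
          _ ≤ ((z.1 + z.2 : ℕ) : ℝ) ^ eps :=
              Real.rpow_le_rpow (by linarith) hYn heps.le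
    · intro z hz z' hz' heq
      rw [Finset.mem_coe, Finset.mem_product, Finset.mem_range] at hz hz'
      have heq' : z.1 + z.2 = z'.1 + z'.2 := heq
      rcases lt_trichotomy z.1 z'.1 with h | h | h
      · have := hsep z.1 hz.1 z'.1 hz'.1 h
        omega
      · exact Prod.ext h (by omega)
      · have := hsep z'.1 hz'.1 z.1 hz.1 h
        omega
  rw [Finset.card_product, Finset.card_range] at hcard
  have hcard' : ((isoD (3 * lam) (min eps 1) Y).card : ℝ) * ((k : ℝ) + 1) ≤
      (((Icc 1 X).filter (fun n : ℕ => ∀ m : ℕ, n < m →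
      (m : ℝ) ≤ n + lam * Real.log X → ∃ r : ℕ, r.Prime ∧ (r : ℝ) ≤ (n : ℝ) ^ eps ∧
        r ∣ m)).card : ℝ) := by exact_mod_cast hcard
  have hYdiv : (X : ℝ) / 5 ≤ Y := by
    have : (X : ℝ) ≤ 5 * Y := by exact_mod_cast hY5
    linarith
  have hfin : c * lam / 5 * X ≤
      ((isoD (3 * lam) (min eps 1) Y).card : ℝ) * ((k : ℝ) + 1) := by
    calc c * lam / 5 * X = c * lam * (X / 5) := by ring
      _ ≤ c * lam * Y := mul_le_mul_of_nonneg_left hYdiv (by positivity)
      _ = c * (Y / Real.log Y) * (lam * Real.log Y) := by field_simp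
      _ ≤ c * (Y / Real.log Y) * (lam * Real.log X) := by
          apply mul_le_mul_of_nonneg_left _ (by positivity)
          exact mul_le_mul_of_nonneg_left hlogYX hlam.le
      _ ≤ ((isoD (3 * lam) (min eps 1) Y).card : ℝ) * ((k : ℝ) + 1) :=
          mul_le_mul hiso hklt.le (by positivity) (Nat.cast_nonneg _)
  refine hfin.trans (hcard'.trans (le_of_eq ?_))
  congr!

end Pool.PP
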