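import Pool.Agent.Work.MP_b0c12c_pp.Arith
import Pool.Agent.Work.MP_b0c12c_gaps.B_CHB

/-! # Isolated primes: block ISO, a positive proportion of the primes is isolated -/

set_option autoImplicit false

namespace Pool.PP

open Finset Filter

theorem p_ISO (hFIP : Stmt_FIP) : Stmt_ISO := by
  classical
  intro lam eps hlam heps
  obtain ⟨C, hC, hCHB⟩ := Pool.LGP.p_CHB
  have he : 0 < min eps 1 := lt_min heps one_pos
  obtain ⟨c, hc, hF⟩ := hFIP (2 * lam) (min eps 1) (by linarith) he (min_le_right _ _)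
  refine ⟨c / (4 * C), by positivity, ?_⟩
  have hdiv : Tendsto (fun X : ℕ => X / 2) atTop atTop :=
    Nat.tendsto_div_const_atTop (by norm_num)
  filter_upwards [hdiv.eventually hF, eventually_ge_atTop 16] with X hX h16
  have hY : 2 ≤ X / 2 := by omega
  have hYR : (2 : ℝ) ≤ ((X / 2 : ℕ) : ℝ) := by exact_mod_cast hY
  have hXR : (16 : ℝ) ≤ (X : ℝ) := by exact_mod_cast h16
  have hYX : ((X / 2 : ℕ) : ℝ) ≤ (X : ℝ) := by exact_mod_cast Nat.div_le_self X 2
  have hY4 : (X : ℝ) / 4 ≤ ((X / 2 : ℕ) : ℝ) := by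
    have h : X ≤ 4 * (X / 2) := by omega
    have h' : (X : ℝ) ≤ 4 * ((X / 2 : ℕ) : ℝ) := by exact_mod_cast h
    linarith
  have hlogY : 0 < Real.log ((X / 2 : ℕ) : ℝ) := Real.log_pos (by linarith)
  have hlogX : 0 < Real.log (X : ℝ) := Real.log_pos (by linarith)
  have hlogle : Real.log ((X / 2 : ℕ) : ℝ) ≤ Real.log (X : ℝ) :=
    Real.log_le_log (by linarith) hYX
  have hpi : (Nat.primeCounting X : ℝ) ≤ C * (X / Real.log X) := by
    have := hCHB (X : ℝ) (by linarith)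
    rwa [Nat.floor_natCast] at this
  have hcount : c / (4 * C) * (Nat.primeCounting X : ℝ) ≤ c * (((X / 2 : ℕ) : ℝ) /
      Real.log ((X / 2 : ℕ) : ℝ)) := by
    calc c / (4 * C) * (Nat.primeCounting X : ℝ) ≤ c / (4 * C) * (C * (X / Real.log X)) := by
          gcongr
      _ = c * ((X / 4) / Real.log X) := by
          field_simp
      _ ≤ c * (((X / 2 : ℕ) : ℝ) / Real.log ((X / 2 : ℕ) : ℝ)) := by
          gcongr
  refine hcount.trans (hX.trans (Nat.cast_le.2 (card_le_card ?_)))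
  intro p hp
  rw [isoD, mem_filter, mem_filter, mem_Ioc] at hp
  obtain ⟨⟨⟨hp1, hp2⟩, hpp⟩, hp3⟩ := hp
  have hp2' : p ≤ X := by omega
  rw [mem_filter, mem_Icc]
  refine ⟨⟨hpp.one_lt.le, hp2'⟩, hpp, ?_⟩
  intro n hn hnp
  have hp1R : ((X / 2 : ℕ) : ℝ) ≤ (p : ℝ) := by exact_mod_cast hp1.le
  have hp2R : (p : ℝ) ≤ 2 * ((X / 2 : ℕ) : ℝ) := by exact_mod_cast hp2
  have hp0 : (0 : ℝ) < p := by linarith
  have hlogp : Real.log p ≤ 2 * Real.log ((X / 2 : ℕ) : ℝ) := by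
    calc Real.log p ≤ Real.log (2 * ((X / 2 : ℕ) : ℝ)) := Real.log_le_log hp0 hp2R
      _ = Real.log 2 + Real.log ((X / 2 : ℕ) : ℝ) := Real.log_mul (by norm_num) (by linarith)
      _ ≤ Real.log ((X / 2 : ℕ) : ℝ) + Real.log ((X / 2 : ℕ) : ℝ) := by
          gcongr
      _ = 2 * Real.log ((X / 2 : ℕ) : ℝ) := by ring
  obtain ⟨r, hr, hr1, hr2⟩ := hp3 ((n : ℤ) - p) (by
      intro h
      apply hn
      have : (n : ℤ) = p := by linarith
      exact_mod_cast this) (by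
      push_cast
      refine hnp.trans ?_
      calc lam * Real.log p ≤ lam * (2 * Real.log ((X / 2 : ℕ) : ℝ)) := by gcongr
        _ = 2 * lam * Real.log ((X / 2 : ℕ) : ℝ) := by ring)
  refine ⟨r, hr, ?_, ?_⟩
  · have h1 : ((X / 2 : ℕ) : ℝ) ^ (min eps 1) ≤ (p : ℝ) ^ (min eps 1) := by
      gcongr
    have h2 : (p : ℝ) ^ (min eps 1) ≤ (p : ℝ) ^ eps :=
      Real.rpow_le_rpow_of_exponent_le (by linarith) (min_le_left _ _)
    exact hr1.trans (h1.trans h2)
  · have : (p : ℤ) + ((n : ℤ) - p) = n := by ring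
    rw [this] at hr2
    exact_mod_cast hr2

end Pool.PP
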