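import Pool.Agent.Work.MP_b0c12c_pp.Arith
import Pool.Agent.Work.BV.Main

/-! # Isolated primes, block LDP: the level of distribution of the primes (helper33) -/

set_option autoImplicit false

namespace Pool.PP

open Finset Filter

namespace LDP

/-- Divisors of a product of distinct primes. -/
theorem card_div (V : Finset ℕ) (hV : ∀ p ∈ V, p.Prime) :
    (∏ p ∈ V, p).divisors.card = 2 ^ V.card := by
  induction V using Finset.induction_on with
  | empty => simp
  | insert q V hq ih =>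
    have hqp : q.Prime := hV q (mem_insert_self _ _)
    have hV' : ∀ p ∈ V, p.Prime := fun p hp => hV p (mem_insert_of_mem hp)
    have hco : q.Coprime (∏ p ∈ V, p) := by
      refine Nat.Coprime.prod_right fun p hp => ?_
      rw [Nat.coprime_primes hqp (hV' p hp)]
      rintro rfl
      exact hq hp
    rw [prod_insert hq, Nat.Coprime.card_divisors_mul hco, ih hV', card_insert_of_notMem hq,
      hqp.divisors, card_pair hqp.one_lt.ne, pow_succ, mul_comm]

/-- Totient of a product of distinct primes. -/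
theorem tot (V : Finset ℕ) (hV : ∀ p ∈ V, p.Prime) :
    (∏ p ∈ V, p).totient = ∏ p ∈ V, (Ico 1 p).card := by
  induction V using Finset.induction_on with
  | empty => simp
  | insert q V hq ih =>
    have hqp : q.Prime := hV q (mem_insert_self _ _)
    have hV' : ∀ p ∈ V, p.Prime := fun p hp => hV p (mem_insert_of_mem hp)
    have hco : q.Coprime (∏ p ∈ V, p) := by
      refine Nat.Coprime.prod_right fun p hp => ?_
      rw [Nat.coprime_primes hqp (hV' p hp)]
      rintro rfl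
      exact hq hp
    rw [prod_insert hq, Nat.totient_mul hco, ih hV', prod_insert hq, Nat.totient_prime hqp,
      Nat.card_Ico]

/-- A simultaneous solution. -/
theorem crt (V : Finset ℕ) (hV : ∀ p ∈ V, p.Prime) (a : ℕ → ℕ) :
    ∃ k : ℕ, ∀ p ∈ V, k ≡ a p [MOD p] := by
  obtain ⟨k, hk⟩ := Nat.chineseRemainderOfFinset a (fun p => p) V
    (fun p hp => (hV p hp).ne_zero) (by
      intro p hp q hq hpq
      exact (Nat.coprime_primes (hV p hp) (hV q hq)).2 hpq)
  exact ⟨k, hk⟩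

/-- The class modulo the product. -/
theorem cls (V : Finset ℕ) (hV : ∀ p ∈ V, p.Prime) (a : ℕ → ℕ) (ha : ∀ p ∈ V, a p < p) (k : ℕ)
    (hk : ∀ p ∈ V, k ≡ a p [MOD p]) (n : ℕ) :
    (n : ZMod (∏ p ∈ V, p)) = (k : ZMod (∏ p ∈ V, p)) ↔ ∀ p ∈ V, n % p = a p := by
  rw [ZMod.natCast_eq_natCast_iff]
  constructor
  · intro h p hp
    have h1 : n ≡ k [MOD p] := h.of_dvd (dvd_prod_of_mem _ hp)
    have h2 : n ≡ a p [MOD p] := h1.trans (hk p hp)
    have h3 : n % p = a p % p := h2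
    rwa [Nat.mod_eq_of_lt (ha p hp)] at h3
  · intro h
    rw [← Int.natCast_modEq_iff, Int.modEq_iff_dvd]
    push_cast
    refine Finset.prod_dvd_of_coprime ?_ ?_
    · intro p hp q hq hpq
      exact Nat.isCoprime_iff_coprime.2 ((Nat.coprime_primes (hV p hp) (hV q hq)).2 hpq)
    · intro p hp
      have h1 : n ≡ k [MOD p] := by
        have h2 : n ≡ a p [MOD p] := by
          unfold Nat.ModEq
          rw [h p hp, Nat.mod_eq_of_lt (ha p hp)]
        exact h2.trans (hk p hp).symm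
      exact (Int.modEq_iff_dvd).1 ((Int.natCast_modEq_iff).2 h1)

/-- Counting in `(X, 2X]`. -/
theorem split (X : ℕ) (P : ℕ → Prop) [DecidablePred P] :
    (((Ioc X (2 * X)).filter P).card : ℝ) =
      (((Ioc 0 (2 * X)).filter P).card : ℝ) - (((Ioc 0 X).filter P).card : ℝ) := by
  have h : ((Ioc 0 X).filter P).card + ((Ioc X (2 * X)).filter P).card =
      ((Ioc 0 (2 * X)).filter P).card := by
    rw [← card_union_of_disjoint, ← filter_union, Ioc_union_Ioc_eq_Ioc (by omega) (by omega)]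
    refine disjoint_filter_filter ?_
    rw [Finset.disjoint_left]
    intro x hx hx'
    rw [mem_Ioc] at hx hx'
    omega
  rw [← h]
  push_cast
  ring

/-- The range of the moduli. -/
theorem range_ev (B : ℕ) : ∀ᶠ X : ℕ in atTop, 2 ≤ X ∧
    ((⌊(X : ℝ) ^ (1 / 4 : ℝ)⌋₊ : ℕ) : ℝ) ≤ √(2 * X) / (Real.log (2 * X)) ^ B := by
  have h1 : (fun x : ℝ => Real.log x ^ (B : ℝ)) =o[atTop] fun x : ℝ => x ^ (1 / 4 : ℝ) :=
    isLittleO_log_rpow_rpow_atTop (B : ℝ) (by norm_num)
  have h2 : ∀ᶠ x : ℝ in atTop, ‖Real.log x ^ (B : ℝ)‖ ≤ 1 * ‖x ^ (1 / 4 : ℝ)‖ :=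
    h1.bound one_pos
  have ht : Tendsto (fun X : ℕ => 2 * (X : ℝ)) atTop atTop :=
    Tendsto.const_mul_atTop (by norm_num) tendsto_natCast_atTop_atTop
  filter_upwards [ht.eventually h2, eventually_ge_atTop 2] with X hX hX2
  refine ⟨hX2, ?_⟩
  have hXr : (2 : ℝ) ≤ X := by exact_mod_cast hX2
  have hlog : 0 < Real.log (2 * X) := Real.log_pos (by linarith)
  rw [Real.rpow_natCast, one_mul, Real.norm_of_nonneg (by positivity),
    Real.norm_of_nonneg (by positivity)] at hX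
  have h3 : ((⌊(X : ℝ) ^ (1 / 4 : ℝ)⌋₊ : ℕ) : ℝ) ≤ (X : ℝ) ^ (1 / 4 : ℝ) :=
    Nat.floor_le (by positivity)
  rw [le_div_iff₀ (by positivity)]
  calc ((⌊(X : ℝ) ^ (1 / 4 : ℝ)⌋₊ : ℕ) : ℝ) * Real.log (2 * X) ^ B
      ≤ (X : ℝ) ^ (1 / 4 : ℝ) * (2 * (X : ℝ)) ^ (1 / 4 : ℝ) := by gcongr
    _ ≤ (2 * (X : ℝ)) ^ (1 / 4 : ℝ) * (2 * (X : ℝ)) ^ (1 / 4 : ℝ) := by
        gcongr
        linarith
    _ = √(2 * X) := by
        rw [← Real.rpow_add (by positivity), Real.sqrt_eq_rpow]
        norm_num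

end LDP

open LDP in
theorem p_LDP : Stmt_LDP := by
  intro N B
  obtain ⟨B', C, hC, hBV⟩ := Pool.Agent.BV.main_bvw B N
  refine ⟨4 * C, by positivity, ?_⟩
  filter_upwards [range_ev B'] with X hX VV hVV a ha
  obtain ⟨hX2, hQ⟩ := hX
  set Q := ⌊(X : ℝ) ^ (1 / 4 : ℝ)⌋₊ with hQdef
  have hXr : (2 : ℝ) ≤ X := by exact_mod_cast hX2
  -- the classes
  have hcrt : ∀ q : ℕ, ∃ k : ℕ, ∀ p ∈ q.primeFactors, k ≡ a q.primeFactors p [MOD p] :=
    fun q => crt _ (fun p hp => Nat.prime_of_mem_primeFactors hp) _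
  choose k hk using hcrt
  set a' : (q : ℕ) → ZMod q := fun q => if q = 0 then 1 else (k q : ZMod q) with ha'
  have hunit : ∀ q, IsUnit (a' q) := by
    intro q
    simp only [ha']
    split_ifs with h0
    · exact isUnit_one
    · rw [ZMod.isUnit_iff_coprime]
      by_contra hcop
      obtain ⟨p, hp, hpk, hpq⟩ := Nat.Prime.not_coprime_iff_dvd.1 hcop
      have hmem : p ∈ q.primeFactors := Nat.mem_primeFactors.2 ⟨hp, hpq, h0⟩
      have h1 := hk q p hmem
      have h2 := mem_Ico.1 (ha q.primeFactors p hp)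
      have h3 : p ∣ a q.primeFactors p := (h1.dvd_iff dvd_rfl).1 hpk
      have h4 := Nat.le_of_dvd (by omega) h3
      omega
  have hS : ∀ Y : ℕ, (Y : ℝ) ≤ 2 * X → ∑ q ∈ Ioc 0 Q, (q.divisors.card : ℝ) ^ N *
      |((((Ioc 0 Y).filter (fun n : ℕ => n.Prime ∧ (n : ZMod q) = a' q)).card : ℝ)
      - (((Ioc 0 Y).filter Nat.Prime).card : ℝ) / (q.totient : ℝ))|
      ≤ C * ((2 * X) / (Real.log (2 * X)) ^ B) := by
    intro Y hY
    exact hBV (2 * X) (by linarith) Q hQ (fun _ => Y) (fun _ => hY) a' hunit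
  have hS1 := hS (2 * X) (by push_cast; exact le_rfl)
  have hS2 := hS X (by linarith)
  set f1 : ℕ → ℝ := fun q => (q.divisors.card : ℝ) ^ N *
      |((((Ioc 0 (2 * X)).filter (fun n : ℕ => n.Prime ∧ (n : ZMod q) = a' q)).card : ℝ)
      - (((Ioc 0 (2 * X)).filter Nat.Prime).card : ℝ) / (q.totient : ℝ))| with hf1
  set f2 : ℕ → ℝ := fun q => (q.divisors.card : ℝ) ^ N *
      |((((Ioc 0 X).filter (fun n : ℕ => n.Prime ∧ (n : ZMod q) = a' q)).card : ℝ)
      - (((Ioc 0 X).filter Nat.Prime).card : ℝ) / (q.totient : ℝ))| with hf2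
  have hterm : ∀ V ∈ VV, (2 ^ N : ℝ) ^ V.card *
      err (fun p : ℕ => p) (fun p => Ico 1 p) ((Ioc X (2 * X)).filter Nat.Prime)
        (((Ioc X (2 * X)).filter Nat.Prime).card : ℝ) (a V) V ≤
      f1 (∏ p ∈ V, p) + f2 (∏ p ∈ V, p) := by
    intro V hV
    have hVp := (hVV V hV).1
    set q := ∏ p ∈ V, p with hq
    have hq0 : q ≠ 0 := prod_ne_zero_iff.2 fun p hp => (hVp p hp).ne_zero
    have hpf : q.primeFactors = V := Nat.primeFactors_prod hVp
    have hk' : ∀ p ∈ V, k q ≡ a V p [MOD p] := by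
      have := hk q
      rwa [hpf] at this
    have hcls : ∀ n : ℕ, ((n : ZMod q) = a' q ↔ ∀ p ∈ V, n % p = a V p) := by
      intro n
      simp only [ha', if_neg hq0]
      exact cls V hVp (a V) (fun p hp => (mem_Ico.1 (ha V p (hVp p hp))).2) (k q) hk' n
    have hd : ((q.divisors.card : ℕ) : ℝ) ^ N = (2 ^ N : ℝ) ^ V.card := by
      rw [hq, card_div V hVp]
      push_cast
      rw [← pow_mul, ← pow_mul, mul_comm]
    have ht : ((q.totient : ℕ) : ℝ) = ∏ p ∈ V, ((Ico 1 p).card : ℝ) := by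
      rw [hq, tot V hVp]
      push_cast
      rfl
    have hcard : ∀ A : Finset ℕ, (A.filter Nat.Prime).filter (fun n => ∀ p ∈ V, n % p = a V p) =
        A.filter (fun n : ℕ => n.Prime ∧ (n : ZMod q) = a' q) := by
      intro A
      rw [filter_filter]
      refine filter_congr fun n _ => ?_
      rw [hcls n]
    unfold err
    rw [hcard, ← ht]
    simp only [hf1, hf2]
    rw [hd, ← mul_add, split X (fun n : ℕ => n.Prime ∧ (n : ZMod q) = a' q), split X Nat.Prime]
    refine mul_le_mul_of_nonneg_left ?_ (by positivity)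
    refine le_trans (le_of_eq ?_) (abs_sub _ _)
    congr 1
    ring
  calc ∑ V ∈ VV, (2 ^ N : ℝ) ^ V.card *
      err (fun p : ℕ => p) (fun p => Ico 1 p) ((Ioc X (2 * X)).filter Nat.Prime)
        (((Ioc X (2 * X)).filter Nat.Prime).card : ℝ) (a V) V
      ≤ ∑ V ∈ VV, (f1 (∏ p ∈ V, p) + f2 (∏ p ∈ V, p)) := sum_le_sum hterm
    _ = ∑ q ∈ VV.image (fun V => ∏ p ∈ V, p), (f1 q + f2 q) := by
        rw [sum_image]
        intro V hV W hW hVW
        have h1 : (∏ p ∈ V, p).primeFactors = V := Nat.primeFactors_prod (hVV V hV).1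
        have h2 : (∏ p ∈ W, p).primeFactors = W := Nat.primeFactors_prod (hVV W hW).1
        rw [← h1, ← h2]
        exact congrArg _ hVW
    _ ≤ ∑ q ∈ Ioc 0 Q, (f1 q + f2 q) := by
        refine sum_le_sum_of_subset_of_nonneg ?_ ?_
        · intro q hq
          obtain ⟨V, hV, rfl⟩ := mem_image.1 hq
          rw [mem_Ioc]
          refine ⟨prod_pos fun p hp => ((hVV V hV).1 p hp).pos, Nat.le_floor ?_⟩
          push_cast
          exact (hVV V hV).2
        · intro q _ _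
          simp only [hf1, hf2]
          positivity
    _ = ∑ q ∈ Ioc 0 Q, f1 q + ∑ q ∈ Ioc 0 Q, f2 q := sum_add_distrib
    _ ≤ C * ((2 * X) / (Real.log (2 * X)) ^ B) + C * ((2 * X) / (Real.log (2 * X)) ^ B) :=
        add_le_add hS1 hS2
    _ = 4 * C * (X / (Real.log (2 * X)) ^ B) := by ring
    _ ≤ 4 * C * (X / Real.log X ^ B) := by
        have h1 : 0 < Real.log X := Real.log_pos (by linarith)
        have h2 : Real.log X ≤ Real.log (2 * X) :=
          Real.log_le_log (by linarith) (by linarith)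
        gcongr

end Pool.PP
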