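import Pool.Agent.Work.MP_b0c12c_pp.Transfer

/-! # Isolated primes: block MOD (helper60) -/

set_option autoImplicit false

namespace Pool.PP

open Finset Filter

theorem pMOD_Sset {σ π ι : Type} [Fintype σ] [DecidableEq σ] [Fintype π] [DecidableEq π]
    [Fintype ι] [DecidableEq ι] (ps : σ → ℕ) (pl : π → ℕ) (sh : ι → ℤ) (ω : σ ⊕ π → ℕ) :
    Sset (tw (Sum.elim ps pl) sh ω) = Sw ps sh (fun y => ω (Sum.inl y)) := by
  ext h
  simp [Sset, Sw, tw]

theorem pMOD_lg {σ π ι : Type} [Fintype σ] [DecidableEq σ] [Fintype π] [DecidableEq π]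
    [Fintype ι] [DecidableEq ι] (ps : σ → ℕ) (pl : π → ℕ) (sh : ι → ℤ) (ω : σ ⊕ π → ℕ) :
    lg (tw (Sum.elim ps pl) sh ω) = tw pl sh (fun x => ω (Sum.inr x)) := by
  funext h
  ext x
  simp [lg, tw]

theorem p_MOD (h1 : Stmt_MOL) : Stmt_MOD := by
  intro σ π ι _ _ _ _ _ _ ps pl Rs Rl sh Θ hRs hRl hlt hcon hdis
  have hmol : ∀ S : Finset ι, EN (fun x => 1 / ((Rl x).card : ℝ)) (Θ S) = EW pl Rl sh (Θ S) :=
    fun S => (h1 π ι pl Rl sh (Θ S) hRl hlt hcon hdis).symm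
  have hsum : ∑ ω ∈ Fintype.piFinset (Sum.elim Rs Rl),
      Θ (Sset (tw (Sum.elim ps pl) sh ω)) (lg (tw (Sum.elim ps pl) sh ω)) =
      ∑ ω₁ ∈ Fintype.piFinset Rs, ∑ ω₂ ∈ Fintype.piFinset Rl,
        Θ (Sw ps sh ω₁) (tw pl sh ω₂) := by
    rw [← Finset.sum_product']
    refine Finset.sum_bij' (fun ω _ => ((fun y => ω (Sum.inl y)), (fun x => ω (Sum.inr x))))
      (fun z _ => Sum.elim z.1 z.2) ?_ ?_ ?_ ?_ ?_
    · intro ω hω
      rw [Fintype.mem_piFinset] at hω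
      rw [Finset.mem_product, Fintype.mem_piFinset, Fintype.mem_piFinset]
      exact ⟨fun y => hω (Sum.inl y), fun x => hω (Sum.inr x)⟩
    · intro z hz
      rw [Finset.mem_product, Fintype.mem_piFinset, Fintype.mem_piFinset] at hz
      rw [Fintype.mem_piFinset]
      rintro (y | x)
      · exact hz.1 y
      · exact hz.2 x
    · intro ω _
      funext v
      cases v <;> rfl
    · intro z _
      rfl
    · intro ω _
      rw [pMOD_Sset, pMOD_lg]
  unfold EW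
  rw [hsum, Fintype.prod_sum_type]
  simp only [Sum.elim_inl, Sum.elim_inr]
  rw [mul_comm (∏ x, ((Rs x).card : ℝ)), ← div_div]
  congr 1
  rw [Finset.sum_div]
  apply Finset.sum_congr rfl
  intro ω₁ _
  rw [hmol (Sw ps sh ω₁)]
  rfl

end Pool.PP
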