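import Pool.Agent.Work.MP_b0c12c_pp.Transfer

/-! # Block MOL: for large primes the residues are the labels (helper86) -/

set_option autoImplicit false

namespace Pool.PP

open Finset

section

variable {π ι : Type}

/-- The label of a residue. -/
noncomputable def MOL_lab (pr : π → ℕ) (sh : ι → ℤ) (x : π) (r : ℕ) : Option ι :=
  open Classical in if H : ∃ h, (pr x : ℤ) ∣ (r : ℤ) + sh h then some H.choose else none

theorem MOL_lab_some (pr : π → ℕ) (sh : ι → ℤ)
    (hinj : ∀ x h h', h ≠ h' → ¬ (pr x : ℤ) ∣ sh h - sh h') (x : π) (r : ℕ) (h : ι) :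
    MOL_lab pr sh x r = some h ↔ (pr x : ℤ) ∣ (r : ℤ) + sh h := by
  unfold MOL_lab
  constructor
  · intro e
    split_ifs at e with H
    have h1 := H.choose_spec
    rw [Option.some.inj e] at h1
    exact h1
  · intro e
    rw [dif_pos ⟨h, e⟩]
    congr 1
    by_contra hne
    refine hinj x _ _ hne ?_
    have h1 := (⟨h, e⟩ : ∃ h, (pr x : ℤ) ∣ (r : ℤ) + sh h).choose_spec
    have h2 := dvd_sub h1 e
    have h3 : ((r : ℤ) + sh (⟨h, e⟩ : ∃ h, (pr x : ℤ) ∣ (r : ℤ) + sh h).choose) - ((r : ℤ) + sh h) =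
      sh (⟨h, e⟩ : ∃ h, (pr x : ℤ) ∣ (r : ℤ) + sh h).choose - sh h := by ring
    rwa [h3] at h2

variable [Fintype π] [DecidableEq π] [Fintype ι] [DecidableEq ι]

theorem MOL_tw_eq (pr : π → ℕ) (sh : ι → ℤ)
    (hinj : ∀ x h h', h ≠ h' → ¬ (pr x : ℤ) ∣ sh h - sh h') (ω : π → ℕ) :
    tw pr sh ω = fib (fun x => MOL_lab pr sh x (ω x)) := by
  funext h
  ext x
  simp only [tw, fib, mem_filter, mem_univ, true_and]
  exact (MOL_lab_some pr sh hinj x (ω x) h).symm

theorem MOL_card_some (pr : π → ℕ) (R : π → Finset ℕ) (sh : ι → ℤ)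
    (hlt : ∀ x, ∀ a ∈ R x, a < pr x) (hmem : ∀ x h, ((-sh h) % (pr x : ℤ)).toNat ∈ R x)
    (hinj : ∀ x h h', h ≠ h' → ¬ (pr x : ℤ) ∣ sh h - sh h') (x : π) (h : ι) :
    ((R x).filter (fun r => MOL_lab pr sh x r = some h)).card = 1 := by
  rw [card_eq_one]
  refine ⟨((-sh h) % (pr x : ℤ)).toNat, ?_⟩
  have hp : (0 : ℤ) < pr x := by
    have := hlt x _ (hmem x h)
    have h1 : 0 < pr x := by omega
    exact_mod_cast h1
  have h0 : 0 ≤ (-sh h) % (pr x : ℤ) := Int.emod_nonneg _ hp.ne'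
  ext r
  rw [mem_filter, mem_singleton, MOL_lab_some pr sh hinj]
  constructor
  · rintro ⟨hr, hd⟩
    have h2 : (r : ℤ) < pr x := by exact_mod_cast hlt x r hr
    have h3 : (r : ℤ) % (pr x : ℤ) = (-sh h) % (pr x : ℤ) := by
      rw [Int.emod_eq_emod_iff_emod_sub_eq_zero, sub_neg_eq_add]
      exact Int.emod_eq_zero_of_dvd hd
    rw [Int.emod_eq_of_lt (by positivity) h2] at h3
    rw [← h3]
    simp
  · intro e
    refine ⟨e ▸ hmem x h, ?_⟩
    have h2 : (r : ℤ) = (-sh h) % (pr x : ℤ) := by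
      rw [e, Int.toNat_of_nonneg h0]
    rw [h2]
    have h3 := Int.emod_add_mul_ediv (-sh h) (pr x : ℤ)
    refine ⟨-((-sh h) / (pr x : ℤ)), ?_⟩
    linarith

theorem MOL_card_none (pr : π → ℕ) (R : π → Finset ℕ) (sh : ι → ℤ)
    (hlt : ∀ x, ∀ a ∈ R x, a < pr x) (hmem : ∀ x h, ((-sh h) % (pr x : ℤ)).toNat ∈ R x)
    (hinj : ∀ x h h', h ≠ h' → ¬ (pr x : ℤ) ∣ sh h - sh h') (x : π) :
    (((R x).filter (fun r => MOL_lab pr sh x r = none)).card : ℝ) =
      ((R x).card : ℝ) - Fintype.card ι := by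
  have h1 : (R x).card = ∑ o : Option ι, ((R x).filter (fun r => MOL_lab pr sh x r = o)).card :=
    card_eq_sum_card_fiberwise (fun _ _ => mem_coe.2 (mem_univ _))
  rw [Fintype.sum_option] at h1
  have h2 : ∑ h : ι, ((R x).filter (fun r => MOL_lab pr sh x r = some h)).card = Fintype.card ι := by
    rw [sum_congr rfl (fun h _ => MOL_card_some pr R sh hlt hmem hinj x h)]
    simp
  rw [h2] at h1
  rw [h1]
  push_cast
  ring

end

theorem p_MOL : Stmt_MOL := by
  intro π ι _ _ _ _ pr R sh Φ hne hlt hmem hinj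
  classical
  have hc : ∀ x, ((R x).card : ℝ) ≠ 0 := fun x =>
    Nat.cast_ne_zero.2 (card_ne_zero.2 (hne x))
  have key : ∑ ω ∈ Fintype.piFinset R, Φ (tw pr sh ω) = ∑ ω' : π → Option ι,
      (∏ x, (((R x).filter (fun r => MOL_lab pr sh x r = ω' x)).card : ℝ)) * Φ (fib ω') := by
    rw [← sum_fiberwise (Fintype.piFinset R) (fun ω x => MOL_lab pr sh x (ω x))
      (fun ω => Φ (tw pr sh ω))]
    refine sum_congr rfl fun ω' _ => ?_
    have hf : (Fintype.piFinset R).filter (fun ω => (fun x => MOL_lab pr sh x (ω x)) = ω') =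
        Fintype.piFinset (fun x => (R x).filter (fun r => MOL_lab pr sh x r = ω' x)) := by
      ext ω
      simp only [mem_filter, Fintype.mem_piFinset, funext_iff]
      exact forall_and.symm
    rw [hf]
    have h1 : ∀ ω ∈ Fintype.piFinset (fun x => (R x).filter (fun r => MOL_lab pr sh x r = ω' x)),
        Φ (tw pr sh ω) = Φ (fib ω') := by
      intro ω hω
      rw [MOL_tw_eq pr sh hinj ω]
      congr 1
      have h2 : (fun x => MOL_lab pr sh x (ω x)) = ω' := by
        funext x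
        exact (mem_filter.1 ((Fintype.mem_piFinset.1 hω) x)).2
      rw [h2]
    rw [sum_congr rfl h1, sum_const, Fintype.card_piFinset, nsmul_eq_mul]
    push_cast
    rfl
  unfold EW EN
  rw [key, sum_div]
  refine sum_congr rfl fun ω' _ => ?_
  rw [mul_div_right_comm, ← prod_div_distrib]
  congr 1
  unfold wl
  refine prod_congr rfl fun x _ => ?_
  cases ho : ω' x with
  | none =>
    rw [MOL_card_none pr R sh hlt hmem hinj x]
    simp only [Option.elim]
    have := hc x
    field_simp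
  | some h =>
    rw [MOL_card_some pr R sh hlt hmem hinj x h]
    simp

end Pool.PP
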