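import Pool.Agent.Work.MP_b0c12c_pp.Transfer

/-! # Block NUK: the number of choices of level at most `2` (helper36) -/

set_option autoImplicit false

namespace Pool.PP

open Finset Filter

namespace NUK_

theorem card_le {ι β : Type} [Fintype ι] [DecidableEq ι] [Fintype β] [DecidableEq β] (n : ℕ) :
    (univ.filter (fun κ : ι → Option β =>
      (univ.filter (fun h => κ h ≠ none)).card ≤ n)).card ≤
      (1 + Fintype.card ι * Fintype.card β) ^ n := by
  classical
  induction n with
  | zero =>
    rw [pow_zero, Finset.card_le_one]
    intro κ hκ κ' hκ'
    simp only [mem_filter, mem_univ, true_and, Nat.le_zero, Finset.card_eq_zero] at hκ hκ'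
    funext h
    have h1 : κ h = none := by
      by_contra hc
      have : h ∈ (univ.filter (fun h => κ h ≠ none)) := by simp [hc]
      rw [hκ] at this
      simp at this
    have h2 : κ' h = none := by
      by_contra hc
      have : h ∈ (univ.filter (fun h => κ' h ≠ none)) := by simp [hc]
      rw [hκ'] at this
      simp at this
    rw [h1, h2]
  | succ n ih =>
    set A := univ.filter (fun κ : ι → Option β => (univ.filter (fun h => κ h ≠ none)).card ≤ n)
      with hA
    set Φ : (ι → Option β) × Option (ι × β) → (ι → Option β) :=
      fun z => z.2.elim z.1 (fun w => Function.update z.1 w.1 (some w.2)) with hΦ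
    have hsub : (univ.filter (fun κ : ι → Option β =>
        (univ.filter (fun h => κ h ≠ none)).card ≤ n + 1)) ⊆
        (A ×ˢ (univ : Finset (Option (ι × β)))).image Φ := by
      intro κ hκ
      simp only [mem_filter, mem_univ, true_and] at hκ
      rw [Finset.mem_image]
      by_cases h0 : (univ.filter (fun h => κ h ≠ none)).card ≤ n
      · refine ⟨(κ, none), ?_, rfl⟩
        simp [hA, h0]
      · have hne : (univ.filter (fun h => κ h ≠ none)).Nonempty := by
          rw [← Finset.card_pos]
          omega
        obtain ⟨m, hm⟩ := hne
        simp only [mem_filter, mem_univ, true_and] at hm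
        obtain ⟨s, hs⟩ := Option.ne_none_iff_exists'.mp hm
        refine ⟨(Function.update κ m none, some (m, s)), ?_, ?_⟩
        · simp only [hA, mem_product, mem_filter, mem_univ, true_and, and_true]
          have hlt : (univ.filter (fun h => Function.update κ m none h ≠ none)).card <
              (univ.filter (fun h => κ h ≠ none)).card := by
            apply Finset.card_lt_card
            rw [Finset.ssubset_iff_of_subset]
            · refine ⟨m, by simp [hm], by simp⟩
            · intro h hh
              simp only [mem_filter, mem_univ, true_and] at hh ⊢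
              by_cases e : h = m
              · subst e
                simp at hh
              · rwa [Function.update_of_ne e] at hh
          omega
        · simp only [hΦ, Option.elim_some]
          rw [Function.update_idem]
          rw [← hs]
          exact Function.update_eq_self _ _
    calc (univ.filter (fun κ : ι → Option β =>
          (univ.filter (fun h => κ h ≠ none)).card ≤ n + 1)).card
        ≤ ((A ×ˢ (univ : Finset (Option (ι × β)))).image Φ).card := Finset.card_le_card hsub
      _ ≤ (A ×ˢ (univ : Finset (Option (ι × β)))).card := Finset.card_image_le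
      _ = A.card * (1 + Fintype.card ι * Fintype.card β) := by
          rw [Finset.card_product, Finset.card_univ, Fintype.card_option, Fintype.card_prod]
          ring
      _ ≤ (1 + Fintype.card ι * Fintype.card β) ^ n * (1 + Fintype.card ι * Fintype.card β) :=
          Nat.mul_le_mul_right _ ih
      _ = (1 + Fintype.card ι * Fintype.card β) ^ (n + 1) := (pow_succ _ _).symm

end NUK_

theorem p_NUK : Stmt_NUK := by
  classical
  intro ι _ _ J
  have key : ∀ κ : ι → Option (Fin J), lev κ ≤ 2 →
      (univ.filter (fun h => κ h ≠ none)).card ≤ 2 * 2 ^ J := by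
    intro κ hκ
    have h1 : ((univ.filter (fun h => κ h ≠ none)).card : ℝ) * (1 / 2 : ℝ) ^ J ≤ lev κ := by
      unfold lev
      calc ((univ.filter (fun h => κ h ≠ none)).card : ℝ) * (1 / 2 : ℝ) ^ J
          = ∑ h ∈ univ.filter (fun h => κ h ≠ none), (1 / 2 : ℝ) ^ J := by
            rw [Finset.sum_const, nsmul_eq_mul]
        _ ≤ ∑ h ∈ univ.filter (fun h => κ h ≠ none), lev1 (κ h) := by
            refine Finset.sum_le_sum fun h hh => ?_
            simp only [mem_filter, mem_univ, true_and] at hh
            obtain ⟨s, hs⟩ := Option.ne_none_iff_exists'.mp hh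
            rw [hs]
            simp only [lev1]
            exact pow_le_pow_of_le_one (by norm_num) (by norm_num) s.2.le
        _ ≤ ∑ h, lev1 (κ h) := by
            apply Finset.sum_le_univ_sum_of_nonneg
            intro h
            rcases κ h with _ | s
            · simp [lev1]
            · simp only [lev1]
              positivity
    have h2 : ((univ.filter (fun h => κ h ≠ none)).card : ℝ) ≤ 2 * 2 ^ J := by
      have h3 : ((univ.filter (fun h => κ h ≠ none)).card : ℝ) * (1 / 2 : ℝ) ^ J ≤ 2 :=
        h1.trans hκ
      have h4 : (1 / 2 : ℝ) ^ J * 2 ^ J = 1 := by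
        rw [← mul_pow]
        norm_num
      calc ((univ.filter (fun h => κ h ≠ none)).card : ℝ)
          = ((univ.filter (fun h => κ h ≠ none)).card : ℝ) * ((1 / 2 : ℝ) ^ J * 2 ^ J) := by
            rw [h4, mul_one]
        _ = ((univ.filter (fun h => κ h ≠ none)).card : ℝ) * (1 / 2 : ℝ) ^ J * 2 ^ J := by ring
        _ ≤ 2 * 2 ^ J := mul_le_mul_of_nonneg_right h3 (by positivity)
    exact_mod_cast h2
  refine ⟨key, ?_⟩
  have h1 := NUK_.card_le (ι := ι) (β := Fin J) (2 * 2 ^ J)
  rw [Fintype.card_fin] at h1
  have h2 : (univ.filter (fun κ : ι → Option (Fin J) => lev κ ≤ 2)).card ≤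
      (1 + Fintype.card ι * J) ^ (2 * 2 ^ J) := by
    refine le_trans (Finset.card_le_card ?_) h1
    intro κ hκ
    simp only [mem_filter, mem_univ, true_and] at hκ ⊢
    exact key κ hκ
  exact_mod_cast h2

end Pool.PP
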