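import Pool.Agent.Work.MP_b0c12c_pp.Arith
import Pool.Agent.Work.SW.PNT

set_option autoImplicit false

namespace Pool.PP

open Finset Filter

theorem theta_sub_two (x : ℕ) : Chebyshev.theta ((2 * x : ℕ) : ℝ) - Chebyshev.theta (x : ℝ) =
    ∑ p ∈ (Ioc x (2 * x)).filter Nat.Prime, Real.log p := by
  unfold Chebyshev.theta
  rw [Nat.floor_natCast, Nat.floor_natCast, Finset.sum_filter, Finset.sum_filter,
    Finset.sum_filter, sub_eq_iff_eq_add]
  have h1 := Finset.sum_Ioc_consecutive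
    (fun a : ℕ => if a.Prime then Real.log (a : ℝ) else 0) (Nat.zero_le x)
    (show x ≤ 2 * x by omega)
  rw [← h1]
  ring

theorem p_PLB : Stmt_PLB := by
  obtain ⟨C, hC, hpnt⟩ := Pool.Agent.SW.pnt 1
  have t1 : Tendsto (fun H : ℕ => Real.log (H : ℝ)) atTop atTop :=
    Real.tendsto_log_atTop.comp tendsto_natCast_atTop_atTop
  have e1 : ∀ᶠ H : ℕ in atTop, 12 * C ≤ Real.log (H : ℝ) := t1.eventually_ge_atTop _
  have t2 : Tendsto (fun H : ℕ => 2 * (H : ℝ)) atTop atTop :=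
    Tendsto.const_mul_atTop (by norm_num) tendsto_natCast_atTop_atTop
  have e2 : ∀ᶠ H : ℕ in atTop, ‖Real.log (2 * (H : ℝ))‖ ≤
      1 / 16 * ‖(2 * (H : ℝ)) ^ (1 / 2 : ℝ)‖ :=
    t2.eventually ((isLittleO_log_rpow_atTop (show (0 : ℝ) < 1 / 2 by norm_num)).def
      (by positivity))
  refine ⟨1 / 4, by norm_num, ?_⟩
  filter_upwards [e1, e2, eventually_ge_atTop 4] with X a1 a2 a3
  have hX : (4 : ℝ) ≤ X := by exact_mod_cast a3
  have hL : 0 < Real.log X := Real.log_pos (by linarith)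
  have hc2 : ((2 * X : ℕ) : ℝ) = 2 * X := by push_cast; ring
  have p1 := hpnt (X : ℝ) (by linarith)
  have p2 := hpnt ((2 * X : ℕ) : ℝ) (by rw [hc2]; linarith)
  rw [pow_one] at p1 p2
  have hlog2 : Real.log X ≤ Real.log ((2 * X : ℕ) : ℝ) := by
    apply Real.log_le_log (by linarith)
    rw [hc2]
    linarith
  have q2 : ((2 * X : ℕ) : ℝ) / Real.log ((2 * X : ℕ) : ℝ) ≤ 2 * X / Real.log X := by
    rw [hc2] at hlog2 ⊢
    gcongr
  have q3 : C * ((X : ℝ) / Real.log X) + C * (((2 * X : ℕ) : ℝ) / Real.log ((2 * X : ℕ) : ℝ)) ≤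
      X / 4 := by
    have h1 : C * ((X : ℝ) / Real.log X) + C * (((2 * X : ℕ) : ℝ) /
        Real.log ((2 * X : ℕ) : ℝ)) ≤ C * (X / Real.log X) + C * (2 * X / Real.log X) := by
      gcongr
    refine h1.trans ?_
    have h2 : C * ((X : ℝ) / Real.log X) + C * (2 * X / Real.log X) =
        3 * C * X / Real.log X := by ring
    rw [h2, div_le_div_iff₀ hL (by positivity)]
    nlinarith [mul_le_mul_of_nonneg_left a1 (show (0 : ℝ) ≤ X by linarith)]
  have r1 := abs_le.1 p1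
  have r2 := abs_le.1 p2
  have s1 : Chebyshev.theta (X : ℝ) ≤ Chebyshev.psi (X : ℝ) := Chebyshev.theta_le_psi _
  have s2 := abs_le.1 (Chebyshev.abs_psi_sub_theta_le_sqrt_mul_log
    (x := ((2 * X : ℕ) : ℝ)) (by rw [hc2]; linarith))
  have hpsi1 : Chebyshev.psi (X : ℝ) =
      ∑ n ∈ Ioc 0 ⌊(X : ℝ)⌋₊, ArithmeticFunction.vonMangoldt n := rfl
  have hpsi2 : Chebyshev.psi ((2 * X : ℕ) : ℝ) =
      ∑ n ∈ Ioc 0 ⌊((2 * X : ℕ) : ℝ)⌋₊, ArithmeticFunction.vonMangoldt n := rfl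
  rw [← hpsi1] at r1
  rw [← hpsi2] at r2
  have hL0 : 0 ≤ Real.log ((2 * X : ℕ) : ℝ) := hL.le.trans hlog2
  have s3 : 2 * √((2 * X : ℕ) : ℝ) * Real.log ((2 * X : ℕ) : ℝ) ≤ X / 4 := by
    have h5 : Real.log ((2 * X : ℕ) : ℝ) ≤ 1 / 16 * √((2 * X : ℕ) : ℝ) := by
      have := a2
      rw [← hc2, Real.norm_eq_abs, Real.norm_eq_abs, ← Real.sqrt_eq_rpow,
        abs_of_nonneg hL0, abs_of_nonneg (Real.sqrt_nonneg _)] at this
      exact this
    calc 2 * √((2 * X : ℕ) : ℝ) * Real.log ((2 * X : ℕ) : ℝ)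
        ≤ 2 * √((2 * X : ℕ) : ℝ) * (1 / 16 * √((2 * X : ℕ) : ℝ)) := by gcongr
      _ = 1 / 8 * (√((2 * X : ℕ) : ℝ) * √((2 * X : ℕ) : ℝ)) := by ring
      _ = 1 / 8 * ((2 * X : ℕ) : ℝ) := by rw [Real.mul_self_sqrt (by positivity)]
      _ = X / 4 := by
          rw [hc2]
          ring
  have s4 := theta_sub_two X
  have s5 : ∑ p ∈ (Ioc X (2 * X)).filter Nat.Prime, Real.log p ≤
      (((Ioc X (2 * X)).filter Nat.Prime).card : ℝ) * Real.log ((2 * X : ℕ) : ℝ) := by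
    rw [← nsmul_eq_mul]
    refine Finset.sum_le_card_nsmul _ _ _ fun p hp => ?_
    rw [Finset.mem_filter, Finset.mem_Ioc] at hp
    have h1 : (p : ℝ) ≤ ((2 * X : ℕ) : ℝ) := by exact_mod_cast hp.1.2
    have h2 : (0 : ℝ) < p := by exact_mod_cast hp.2.pos
    exact Real.log_le_log h2 h1
  have s6 : Real.log ((2 * X : ℕ) : ℝ) ≤ 2 * Real.log X := by
    rw [hc2, Real.log_mul (by norm_num) (by linarith)]
    have h1 : Real.log 2 ≤ Real.log X := Real.log_le_log (by norm_num) (by linarith)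
    linarith
  have s7 : (X : ℝ) / 2 ≤
      (((Ioc X (2 * X)).filter Nat.Prime).card : ℝ) * Real.log ((2 * X : ℕ) : ℝ) := by
    refine le_trans ?_ s5
    rw [← s4]
    rw [hc2] at r2 s2 s3 q3 ⊢
    linarith [r1.1, r1.2, r2.1, r2.2, s2.1, s2.2]
  have s8 : (X : ℝ) / 2 ≤
      (((Ioc X (2 * X)).filter Nat.Prime).card : ℝ) * (2 * Real.log X) :=
    s7.trans (mul_le_mul_of_nonneg_left s6 (by positivity))
  rw [mul_div_assoc', div_le_iff₀ hL]
  linarith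

end Pool.PP
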