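import Pool.Agent.Work.MP_b0c12c_pp.Arith
import Pool.Agent.Work.MP_0b7501_nt.BT

/-! # Block SVB: the upper bound sieve, one residue class for every small prime (helper36) -/

set_option autoImplicit false

namespace Pool.PP

open Finset Filter

namespace SVB_

theorem crt (R H : ℕ) (ω : ℕ → ℕ) :
    ∃ x : ℕ, ∀ p : ℕ, p.Prime → p ≤ R → x ≡ ω p + (p - 1) * (H + 1) [MOD p] := by
  have hs : ∀ p ∈ (Icc 1 R).filter Nat.Prime, (fun p : ℕ => p) p ≠ 0 := by
    intro p hp
    simp only [mem_filter, mem_Icc] at hp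
    exact hp.2.ne_zero
  have hpp : Set.Pairwise (↑((Icc 1 R).filter Nat.Prime) : Set ℕ)
      (Function.onFun Nat.Coprime (fun p : ℕ => p)) := by
    intro p hp q hq hpq
    simp only [coe_filter, mem_Icc, Set.mem_ofPred_eq] at hp hq
    exact (Nat.coprime_primes hp.2 hq.2).mpr hpq
  obtain ⟨x, hx⟩ := Nat.chineseRemainderOfFinset (fun p => ω p + (p - 1) * (H + 1))
    (fun p : ℕ => p) ((Icc 1 R).filter Nat.Prime) hs hpp
  refine ⟨x, fun p hp hpR => hx p ?_⟩
  simp only [mem_filter, mem_Icc]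
  exact ⟨⟨hp.one_lt.le, hpR⟩, hp⟩

theorem dvd_iff (p x w H : ℕ) (h : ℤ) (m : ℕ) (hp : 1 ≤ p)
    (hx : x ≡ w + (p - 1) * (H + 1) [MOD p]) (hm : (m : ℤ) = h + H + 1) (hd : p ∣ x + m) :
    (p : ℤ) ∣ (w : ℤ) + h := by
  have h1 : (p : ℤ) ∣ (x : ℤ) + m := by exact_mod_cast hd
  have h2 : (p : ℤ) ∣ ((w + (p - 1) * (H + 1) : ℕ) : ℤ) - x := (Nat.modEq_iff_dvd.mp hx)
  have h3 : (((w + (p - 1) * (H + 1) : ℕ) : ℤ)) = (w : ℤ) + ((p : ℤ) - 1) * (H + 1) := by
    push_cast [Nat.cast_sub hp]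
    ring
  rw [h3] at h2
  have h4 : (w : ℤ) + h = ((x : ℤ) + m) + ((w : ℤ) + ((p : ℤ) - 1) * (H + 1) - x) -
      (p : ℤ) * (H + 1) := by
    rw [hm]
    ring
  rw [h4]
  exact dvd_sub (dvd_add h1 h2) (Dvd.intro _ rfl)

end SVB_

theorem p_SVB : Stmt_SVB := by
  classical
  intro C2 hC2
  refine ⟨64 * (2 * C2 + 4), by positivity, ?_⟩
  filter_upwards [eventually_ge_atTop (10000 : ℝ)] with L hL ω B hB hB2
  have hL0 : 0 < L := by linarith
  set H := ⌈C2 * L⌉₊ with hH
  set R := ⌊√L⌋₊ with hR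
  have hsq : √L * √L = L := Real.mul_self_sqrt hL0.le
  have hs100 : 100 ≤ √L := by
    rw [show (100 : ℝ) = √(100 ^ 2) by rw [Real.sqrt_sq (by norm_num)]]
    exact Real.sqrt_le_sqrt (by norm_num; linarith)
  have hRle : (R : ℝ) ≤ √L := Nat.floor_le (Real.sqrt_nonneg _)
  have hR1 : 1 ≤ R := by
    rw [hR]
    apply Nat.le_floor
    push_cast
    linarith
  have hRL : √L ≤ L / 100 := by nlinarith
  obtain ⟨x, hx⟩ := SVB_.crt R H ω
  have hsb := Pool.Agent.Work.MP_0b7501_nt.sieve_bound x (2 * H + 1) R hR1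
  set T := (Icc 1 (2 * H + 1)).filter (fun m => ∀ q, 0 < q → q ≤ R → Nat.Coprime q (x + m))
    with hT
  have hHle : C2 * L ≤ H := Nat.le_ceil _
  have hHlt : (H : ℝ) < C2 * L + 1 := Nat.ceil_lt_add_one (by positivity)
  have habs : ∀ h ∈ B, -(H : ℤ) ≤ h ∧ h ≤ H := by
    intro h hh
    have h1 := hB h hh
    rw [abs_le] at h1
    constructor
    · have : -(H : ℝ) ≤ (h : ℝ) := by linarith
      exact_mod_cast this
    · have : (h : ℝ) ≤ (H : ℝ) := by linarith
      exact_mod_cast this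
  have hcard : B.card ≤ T.card := by
    refine Finset.card_le_card_of_injOn (fun h : ℤ => (h + H + 1).toNat) ?_ ?_
    · intro h hh
      have hh' : h ∈ B := hh
      obtain ⟨a1, a2⟩ := habs h hh'
      have hm : (((h + H + 1).toNat : ℕ) : ℤ) = h + H + 1 := Int.toNat_of_nonneg (by omega)
      simp only [hT, coe_filter, mem_Icc, Set.mem_ofPred_eq]
      refine ⟨⟨by omega, by omega⟩, ?_⟩
      intro q hq0 hqR
      by_contra hcop
      obtain ⟨p, hp, hpq, hpx⟩ := Nat.Prime.not_coprime_iff_dvd.mp hcop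
      have hpR : p ≤ R := (Nat.le_of_dvd hq0 hpq).trans hqR
      have hpL : (p : ℝ) ≤ L / 100 := by
        have : (p : ℝ) ≤ R := by exact_mod_cast hpR
        linarith
      exact hB2 h hh' p hp hpL
        (SVB_.dvd_iff p x (ω p) H h _ hp.one_lt.le (hx p hp hpR) hm hpx)
    · intro h hh h' hh' heq
      obtain ⟨a1, a2⟩ := habs h hh
      obtain ⟨b1, b2⟩ := habs h' hh'
      simp only at heq
      omega
  have hlogL : 0 < Real.log L := Real.log_pos (by linarith)
  have hlogR : Real.log L / 2 ≤ Real.log (R + 1) := by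
    have h1 : √L ≤ (R : ℝ) + 1 := (Nat.lt_floor_add_one _).le
    have h2 := Real.log_le_log (by linarith) h1
    rwa [Real.log_sqrt hL0.le] at h2
  have hmax : ((max (2 * H + 1) (R ^ 2) : ℕ) : ℝ) ≤ (2 * C2 + 4) * L := by
    rw [Nat.cast_max, max_le_iff]
    constructor
    · push_cast
      nlinarith
    · push_cast
      have : (R : ℝ) ^ 2 ≤ L := by
        rw [← hsq]
        nlinarith
      nlinarith
  have hT0 : (B.card : ℝ) ≤ T.card := by exact_mod_cast hcard
  have hfin : (B.card : ℝ) * Real.log L ≤ 64 * (2 * C2 + 4) * L := by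
    have h1 : (B.card : ℝ) * (Real.log L / 4) ≤ (T.card : ℝ) * (Real.log (R + 1) / 2) := by
      apply mul_le_mul hT0 (by linarith) (by positivity) (by positivity)
    have h2 : (T.card : ℝ) * (Real.log (R + 1) / 2) ≤ 16 * ((2 * C2 + 4) * L) := by
      refine le_trans ?_ (mul_le_mul_of_nonneg_left hmax (by norm_num : (0 : ℝ) ≤ 16))
      exact_mod_cast hsb
    nlinarith
  calc (B.card : ℝ) = (B.card : ℝ) * Real.log L / Real.log L := by
        field_simp
    _ ≤ 64 * (2 * C2 + 4) * L / Real.log L :=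
        div_le_div_of_nonneg_right hfin hlogL.le
    _ = 64 * (2 * C2 + 4) * (L / Real.log L) := by ring

end Pool.PP
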