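import Pool.Agent.Work.MP_b0c12c_pp.Transfer

/-! # Block TRA: the transfer (helper36) -/

set_option autoImplicit false

namespace Pool.PP

open Finset Filter

theorem p_TRA (hT : Stmt_TRM) : Stmt_TRA := by
  classical
  intro α ι _ _ _ _ pr R sh r Ψ K κ D NN M δ hne hlt hmod hK hκ hEx hδ
  obtain ⟨c, hval, hnorm, hsize⟩ := hEx
  have hA : ∀ u : ι → Finset α, ∃ a : α → ℕ, (∀ x, a x ∈ R x) ∧
      |∑ n ∈ NN, (if (∀ h, u h ⊆ tb pr sh n h) then (1 : ℝ) else 0) -
        M * EW pr R sh (fun t => if (∀ h, u h ⊆ t h) then (1 : ℝ) else 0)| ≤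
      err pr R NN M a (supp u) := fun u => hT α ι pr R sh NN M u hne hlt hmod
  choose A hAR hAe using hA
  -- the worst classes
  have hB : ∀ V : Finset α, ∃ a : α → ℕ, (∀ x, a x ∈ R x) ∧
      ∀ u, supp u = V → err pr R NN M (A u) V ≤ err pr R NN M a V := by
    intro V
    by_cases hV : (univ.filter (fun u : ι → Finset α => supp u = V)).Nonempty
    · obtain ⟨u, _, hmax⟩ := Finset.exists_max_image _ (fun u => err pr R NN M (A u) V) hV
      refine ⟨A u, hAR u, fun u' hu' => hmax u' ?_⟩
      simp [hu']
    · refine ⟨fun x => (hne x).choose, fun x => (hne x).choose_spec, fun u hu => ?_⟩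
      exact absurd ⟨u, by simp [hu]⟩ hV
  choose B hBR hBe using hB
  -- linearity
  have e1 : ∑ n ∈ NN, Ψ (tb pr sh n) = ∑ u : ι → Finset α, c u *
      ∑ n ∈ NN, (if (∀ h, u h ⊆ tb pr sh n h) then (1 : ℝ) else 0) := by
    simp only [hval, val]
    rw [Finset.sum_comm]
    refine Finset.sum_congr rfl fun u _ => ?_
    rw [Finset.mul_sum]
    refine Finset.sum_congr rfl fun n _ => ?_
    split_ifs <;> simp
  have e2 : EW pr R sh Ψ = ∑ u : ι → Finset α, c u *
      EW pr R sh (fun t => if (∀ h, u h ⊆ t h) then (1 : ℝ) else 0) := by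
    unfold EW
    simp only [hval, val]
    rw [Finset.sum_comm, Finset.sum_div]
    refine Finset.sum_congr rfl fun u _ => ?_
    rw [← mul_div_assoc, Finset.mul_sum]
    congr 1
    refine Finset.sum_congr rfl fun n _ => ?_
    split_ifs <;> simp
  have e3 : ∑ n ∈ NN, Ψ (tb pr sh n) - M * EW pr R sh Ψ = ∑ u : ι → Finset α, c u *
      (∑ n ∈ NN, (if (∀ h, u h ⊆ tb pr sh n h) then (1 : ℝ) else 0) -
        M * EW pr R sh (fun t => if (∀ h, u h ⊆ t h) then (1 : ℝ) else 0)) := by
    rw [e1, e2, Finset.mul_sum, ← Finset.sum_sub_distrib]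
    exact Finset.sum_congr rfl fun u _ => by ring
  have herr : ∀ a V, 0 ≤ err pr R NN M a V := fun a V => abs_nonneg _
  rw [e3]
  calc |∑ u : ι → Finset α, c u *
        (∑ n ∈ NN, (if (∀ h, u h ⊆ tb pr sh n h) then (1 : ℝ) else 0) -
          M * EW pr R sh (fun t => if (∀ h, u h ⊆ t h) then (1 : ℝ) else 0))|
      ≤ ∑ u : ι → Finset α, |c u| * err pr R NN M (A u) (supp u) := by
        refine (Finset.abs_sum_le_sum_abs _ _).trans (Finset.sum_le_sum fun u _ => ?_)
        rw [abs_mul]
        exact mul_le_mul_of_nonneg_left (hAe u) (abs_nonneg _)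
    _ = ∑ u : ι → Finset α, ∑ V : Finset α,
          (if supp u = V then |c u| * err pr R NN M (A u) V else 0) := by
        refine Finset.sum_congr rfl fun u _ => ?_
        rw [Finset.sum_ite_eq]
        simp
    _ = ∑ V : Finset α, ∑ u : ι → Finset α,
          (if supp u = V then |c u| * err pr R NN M (A u) V else 0) := Finset.sum_comm
    _ = ∑ V ∈ univ.filter (fun V : Finset α => ∏ x ∈ V, r x ≤ D), ∑ u : ι → Finset α,
          (if supp u = V then |c u| * err pr R NN M (A u) V else 0) := by
        symm
        apply Finset.sum_subset (Finset.filter_subset _ _)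
        intro V _ hV
        simp only [mem_filter, mem_univ, true_and] at hV
        refine Finset.sum_eq_zero fun u _ => ?_
        by_cases hu : supp u = V
        · rw [if_pos hu]
          have hc : c u = 0 := by
            by_contra h0
            apply hV
            have := hsize u h0
            rwa [hu] at this
          rw [hc, abs_zero, zero_mul]
        · rw [if_neg hu]
    _ ≤ ∑ V ∈ univ.filter (fun V : Finset α => ∏ x ∈ V, r x ≤ D),
          K * (κ ^ V.card * err pr R NN M (B V) V) := by
        refine Finset.sum_le_sum fun V _ => ?_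
        calc ∑ u : ι → Finset α, (if supp u = V then |c u| * err pr R NN M (A u) V else 0)
            ≤ ∑ u : ι → Finset α, (if supp u = V then |c u| else 0) *
                err pr R NN M (B V) V := by
              refine Finset.sum_le_sum fun u _ => ?_
              by_cases hu : supp u = V
              · rw [if_pos hu, if_pos hu]
                exact mul_le_mul_of_nonneg_left (hBe V u hu) (abs_nonneg _)
              · rw [if_neg hu, if_neg hu, zero_mul]
          _ = (∑ u : ι → Finset α, (if supp u = V then |c u| else 0)) *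
                err pr R NN M (B V) V := (Finset.sum_mul _ _ _).symm
          _ ≤ K * κ ^ V.card * err pr R NN M (B V) V :=
              mul_le_mul_of_nonneg_right (hnorm V) (herr _ _)
          _ = K * (κ ^ V.card * err pr R NN M (B V) V) := by ring
    _ = K * ∑ V ∈ univ.filter (fun V : Finset α => ∏ x ∈ V, r x ≤ D),
          κ ^ V.card * err pr R NN M (B V) V := (Finset.mul_sum _ _ _).symm
    _ ≤ K * δ := mul_le_mul_of_nonneg_left (hδ B hBR) hK

end Pool.PP
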