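import Pool.Agent.Work.MP_b0c12c_pp.Transfer

/-! # Isolated primes, block TRM: the transfer for one monomial (helper33) -/

set_option autoImplicit false

namespace Pool.PP

open Finset Filter

namespace TRM

variable {α ι : Type} [Fintype α] [DecidableEq α] [Fintype ι]

/-- The value `m` is compatible with the monomial at the prime `x`. -/
def cmp (pr : α → ℕ) (sh : ι → ℤ) (u : ι → Finset α) (x : α) (m : ℕ) : Prop :=
  ∀ h, x ∈ u h → (pr x : ℤ) ∣ (m : ℤ) + sh h

theorem tb_iff (pr : α → ℕ) (sh : ι → ℤ) (u : ι → Finset α) (n : ℕ) :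
    (∀ h, u h ⊆ tb pr sh n h) ↔ ∀ x ∈ supp u, cmp pr sh u x n := by
  constructor
  · intro H x _ h hx
    have := H h hx
    simpa [tb] using this
  · intro H h x hx
    have hs : x ∈ supp u := by
      simp only [supp, mem_biUnion, mem_univ, true_and]
      exact ⟨h, hx⟩
    have := H x hs h hx
    simpa [tb] using this

theorem tw_iff (pr : α → ℕ) (sh : ι → ℤ) (u : ι → Finset α) (ω : α → ℕ) :
    (∀ h, u h ⊆ tw pr sh ω h) ↔ ∀ x ∈ supp u, cmp pr sh u x (ω x) := by
  constructor
  · intro H x _ h hx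
    have := H h hx
    simpa [tw] using this
  · intro H h x hx
    have hs : x ∈ supp u := by
      simp only [supp, mem_biUnion, mem_univ, true_and]
      exact ⟨h, hx⟩
    have := H x hs h hx
    simpa [tw] using this

omit [Fintype α] [DecidableEq α] [Fintype ι] in
theorem cmp_mod (pr : α → ℕ) (sh : ι → ℤ) (u : ι → Finset α) (x : α) (n : ℕ) :
    cmp pr sh u x n ↔ cmp pr sh u x (n % pr x) := by
  have key : ((n % pr x : ℕ) : ℤ) ≡ (n : ℤ) [ZMOD (pr x : ℤ)] := by
    push_cast
    exact Int.mod_modEq _ _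
  constructor
  · intro H h hx
    have h1 := H h hx
    have h2 : ((n % pr x : ℕ) : ℤ) + sh h ≡ (n : ℤ) + sh h [ZMOD (pr x : ℤ)] :=
      key.add_right _
    exact h2.dvd_iff.2 h1
  · intro H h hx
    have h1 := H h hx
    have h2 : ((n % pr x : ℕ) : ℤ) + sh h ≡ (n : ℤ) + sh h [ZMOD (pr x : ℤ)] :=
      key.add_right _
    exact h2.dvd_iff.1 h1

omit [Fintype α] in
theorem cmp_unique (pr : α → ℕ) (sh : ι → ℤ) (u : ι → Finset α) (x : α) (hx : x ∈ supp u)
    (m m' : ℕ) (hm : m < pr x) (hm' : m' < pr x) (h : cmp pr sh u x m) (h' : cmp pr sh u x m') :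
    m = m' := by
  simp only [supp, mem_biUnion, mem_univ, true_and] at hx
  obtain ⟨k, hk⟩ := hx
  have h1 := h k hk
  have h2 := h' k hk
  have h3 : (pr x : ℤ) ∣ (m : ℤ) - m' := by
    have := dvd_sub h1 h2
    have e : (m : ℤ) + sh k - ((m' : ℤ) + sh k) = m - m' := by ring
    rwa [e] at this
  have h4 : (m : ℤ) ≡ m' [ZMOD (pr x : ℤ)] := by
    exact (Int.modEq_iff_dvd.2 (by
      have := (dvd_neg (α := ℤ)).2 h3
      have e : -((m : ℤ) - m') = (m' : ℤ) - m := by ring
      rwa [e] at this))
  have h5 : m ≡ m' [MOD pr x] := (Int.natCast_modEq_iff).1 h4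
  have h6 : m % pr x = m' % pr x := h5
  rwa [Nat.mod_eq_of_lt hm, Nat.mod_eq_of_lt hm'] at h6

theorem card_pi (R : α → Finset ℕ) (a : α → ℕ) (ha : ∀ x, a x ∈ R x) (V : Finset α) :
    (((Fintype.piFinset R).filter (fun ω => ∀ x ∈ V, ω x = a x)).card : ℝ) *
      ∏ x ∈ V, ((R x).card : ℝ) = ∏ x, ((R x).card : ℝ) := by
  have e : (Fintype.piFinset R).filter (fun ω => ∀ x ∈ V, ω x = a x) =
      Fintype.piFinset (fun x => if x ∈ V then {a x} else R x) := by
    ext ω
    simp only [mem_filter, Fintype.mem_piFinset]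
    constructor
    · rintro ⟨h1, h2⟩ x
      split_ifs with hx
      · exact mem_singleton.2 (h2 x hx)
      · exact h1 x
    · intro H
      constructor
      · intro x
        have := H x
        split_ifs at this with hx
        · rw [mem_singleton.1 this]
          exact ha x
        · exact this
      · intro x hx
        have := H x
        rw [if_pos hx] at this
        exact mem_singleton.1 this
  rw [e, Fintype.card_piFinset]
  push_cast
  have e2 : ∏ x ∈ V, ((R x).card : ℝ) = ∏ x, (if x ∈ V then ((R x).card : ℝ) else 1) := by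
    rw [prod_ite_mem, univ_inter]
  rw [e2, ← prod_mul_distrib]
  refine prod_congr rfl fun x _ => ?_
  split_ifs <;> simp

end TRM

open TRM in
open Classical in
theorem p_TRM : Stmt_TRM := by
  intro α ι _ _ _ _ pr R sh NN M u hne hlt hNN
  by_cases hc : ∀ x ∈ supp u, ∃ a ∈ R x, cmp pr sh u x a
  · -- the compatible case
    have hsel : ∀ x, ∃ a, a ∈ R x ∧ (x ∈ supp u → cmp pr sh u x a) := by
      intro x
      by_cases hx : x ∈ supp u
      · obtain ⟨a, ha, ha'⟩ := hc x hx
        exact ⟨a, ha, fun _ => ha'⟩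
      · obtain ⟨a, ha⟩ := hne x
        exact ⟨a, ha, fun h => absurd h hx⟩
    choose a ha ha' using hsel
    refine ⟨a, ha, le_of_eq ?_⟩
    unfold err
    have key : ∀ (x : α), x ∈ supp u → ∀ m ∈ R x, (cmp pr sh u x m ↔ m = a x) := by
      intro x hx m hm
      constructor
      · intro h
        exact cmp_unique pr sh u x hx m (a x) (hlt x m hm) (hlt x _ (ha x)) h (ha' x hx)
      · rintro rfl
        exact ha' x hx
    have e1 : ∑ n ∈ NN, (if (∀ h, u h ⊆ tb pr sh n h) then (1 : ℝ) else 0) =
        ((NN.filter (fun n => ∀ x ∈ supp u, n % pr x = a x)).card : ℝ) := by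
      rw [card_filter]
      push_cast
      refine sum_congr rfl fun n hn => ?_
      have : (∀ h, u h ⊆ tb pr sh n h) ↔ ∀ x ∈ supp u, n % pr x = a x := by
        rw [tb_iff]
        refine forall₂_congr fun x hx => ?_
        rw [cmp_mod]
        exact key x hx _ (hNN n hn x)
      simp only [this]
    have e2 : ∑ ω ∈ Fintype.piFinset R,
        (if (∀ h, u h ⊆ tw pr sh ω h) then (1 : ℝ) else 0) =
        (((Fintype.piFinset R).filter (fun ω => ∀ x ∈ supp u, ω x = a x)).card : ℝ) := by
      rw [card_filter]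
      push_cast
      refine sum_congr rfl fun ω hω => ?_
      have : (∀ h, u h ⊆ tw pr sh ω h) ↔ ∀ x ∈ supp u, ω x = a x := by
        rw [tw_iff]
        refine forall₂_congr fun x hx => ?_
        exact key x hx _ (Fintype.mem_piFinset.1 hω x)
      simp only [this]
    have hpos : ∀ V : Finset α, (0 : ℝ) < ∏ x ∈ V, ((R x).card : ℝ) := fun V =>
      prod_pos fun x _ => by exact_mod_cast (hne x).card_pos
    have e3 : M * EW pr R sh
        (fun t => if (∀ h, u h ⊆ t h) then (1 : ℝ) else 0) =
        M / ∏ x ∈ supp u, ((R x).card : ℝ) := by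
      unfold EW
      rw [e2]
      have h1 := card_pi R a ha (supp u)
      have h2 := hpos univ
      have h3 := hpos (supp u)
      rw [← h1]
      rw [div_eq_mul_inv, div_eq_mul_inv]
      have h4 : (((Fintype.piFinset R).filter (fun ω => ∀ x ∈ supp u, ω x = a x)).card : ℝ) ≠ 0 := by
        intro h0
        rw [h0, zero_mul] at h1
        exact h2.ne' h1.symm
      field_simp
    rw [e1, e3]
    congr!
  · -- the incompatible case
    push Not at hc
    obtain ⟨x₀, hx₀, hno⟩ := hc
    choose a ha using hne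
    refine ⟨a, ha, ?_⟩
    have e1 : ∑ n ∈ NN, (if (∀ h, u h ⊆ tb pr sh n h) then (1 : ℝ) else 0) = 0 := by
      refine sum_eq_zero fun n hn => ?_
      rw [if_neg]
      intro H
      rw [tb_iff] at H
      exact hno _ (hNN n hn x₀) ((cmp_mod pr sh u x₀ n).1 (H x₀ hx₀))
    have e2 : ∑ ω ∈ Fintype.piFinset R,
        (if (∀ h, u h ⊆ tw pr sh ω h) then (1 : ℝ) else 0) = 0 := by
      refine sum_eq_zero fun ω hω => ?_
      rw [if_neg]
      intro H
      rw [tw_iff] at H
      exact hno _ (Fintype.mem_piFinset.1 hω x₀) (H x₀ hx₀)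
    have e3 : M * EW pr R sh
        (fun t => if (∀ h, u h ⊆ t h) then (1 : ℝ) else 0) = 0 := by
      unfold EW
      rw [e2, zero_div, mul_zero]
    rw [e1, e3, sub_zero, abs_zero]
    exact abs_nonneg _

end Pool.PP
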