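import Pool.Agent.Work.MP_b0c12c_pp.PartL
import Pool.Agent.Work.MP_b0c12c_pp.B_CGE
import Pool.Agent.Work.MP_b0c12c_pp.B_CSW
import Pool.Agent.Work.MP_b0c12c_pp.B_EXA
import Pool.Agent.Work.MP_b0c12c_pp.B_EXC
import Pool.Agent.Work.MP_b0c12c_pp.B_EXF
import Pool.Agent.Work.MP_b0c12c_pp.B_EXI
import Pool.Agent.Work.MP_b0c12c_pp.B_EXM
import Pool.Agent.Work.MP_b0c12c_pp.B_EXO
import Pool.Agent.Work.MP_b0c12c_pp.B_EXP
import Pool.Agent.Work.MP_b0c12c_pp.B_EXS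
import Pool.Agent.Work.MP_b0c12c_pp.B_FIP
import Pool.Agent.Work.MP_b0c12c_pp.B_GEN
import Pool.Agent.Work.MP_b0c12c_pp.B_GPS
import Pool.Agent.Work.MP_b0c12c_pp.B_INT
import Pool.Agent.Work.MP_b0c12c_pp.B_ISO
import Pool.Agent.Work.MP_b0c12c_pp.B_LDP
import Pool.Agent.Work.MP_b0c12c_pp.B_MOD
import Pool.Agent.Work.MP_b0c12c_pp.B_MOL
import Pool.Agent.Work.MP_b0c12c_pp.B_NUK
import Pool.Agent.Work.MP_b0c12c_pp.B_PLB
import Pool.Agent.Work.MP_b0c12c_pp.B_PWI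
import Pool.Agent.Work.MP_b0c12c_pp.B_SVB
import Pool.Agent.Work.MP_b0c12c_pp.B_TRA
import Pool.Agent.Work.MP_b0c12c_pp.B_TRM

/-! # Isolated primes: assembly -/

set_option autoImplicit false

namespace Pool.PP

theorem all_EXI : Stmt_EXI := p_EXI p_EXO

theorem all_EXP : Stmt_EXP := p_EXP p_EXM p_EXC

theorem all_EXF : Stmt_EXF := p_EXF all_EXI all_EXP p_EXS p_EXC p_NUK

theorem all_EXA : Stmt_EXA := p_EXA p_EXM p_EXS p_EXC all_EXI all_EXF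

theorem all_TRA : Stmt_TRA := p_TRA p_TRM

theorem all_MOD : Stmt_MOD := p_MOD p_MOL

theorem all_GEN : Stmt_GEN := p_GEN all_EXA all_TRA all_MOD p_CSW p_PWI

theorem all_CGE : Stmt_CGE :=
  p_CGE all_GEN p_SVB LOCP_green BMR_holds COE_green p_SIZ EBJ_green

theorem all_FIP : Stmt_FIP := p_FIP all_CGE p_LDP p_PLB

theorem all_ISO : Stmt_ISO := p_ISO all_FIP

theorem all_GPS : Stmt_GPS := p_GPS all_FIP

theorem all_INT : Stmt_INT := p_INT all_FIP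

end Pool.PP
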