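import Pool.Agent.Work.MP_b0c12c_pp.Transfer

/-! # Isolated primes: arithmetic and final statements (helper69)

Block `X` lives in `B_X.lean` (import this file, namespace `Pool.PP`), same format as in
`Transfer.lean`. -/

set_option autoImplicit false

namespace Pool.PP

open Finset Filter

/-- The small primes. -/
def SP (w : ℕ) : Finset ℕ := (Icc 1 w).filter Nat.Prime

/-- The large primes. -/
def LP (z I : ℕ) : Finset ℕ := (Ioc z (z ^ 2 ^ I)).filter Nat.Prime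

/-- SVB: the upper bound sieve, one residue class for every small prime. -/
def Stmt_SVB : Prop :=
  ∀ C2 : ℝ, 0 < C2 → ∃ C1 : ℝ, 0 < C1 ∧ ∀ᶠ L : ℝ in atTop, ∀ (ω : ℕ → ℕ) (B : Finset ℤ),
    (∀ h ∈ B, |(h : ℝ)| ≤ C2 * L) →
    (∀ h ∈ B, ∀ p : ℕ, p.Prime → (p : ℝ) ≤ L / 100 → ¬ (p : ℤ) ∣ (ω p : ℤ) + h) →
    (B.card : ℝ) ≤ C1 * (L / Real.log L)

/-- PLB: many primes between `X` and `2X`. -/
def Stmt_PLB : Prop :=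
  ∃ c : ℝ, 0 < c ∧ ∀ᶠ X : ℕ in atTop,
    c * (X / Real.log X) ≤ (((Ioc X (2 * X)).filter Nat.Prime).card : ℝ)

/-- LDP: the primes of `(X, 2X]` are equidistributed in residue classes modulo squarefree numbers
up to `X ^ (1/4)`, with weights (Bombieri and Vinogradov). -/
def Stmt_LDP : Prop :=
  ∀ N B : ℕ, ∃ C : ℝ, 0 < C ∧ ∀ᶠ X : ℕ in atTop, ∀ (VV : Finset (Finset ℕ)),
    (∀ V ∈ VV, (∀ p ∈ V, p.Prime) ∧ ∏ p ∈ V, (p : ℝ) ≤ (X : ℝ) ^ (1 / 4 : ℝ)) →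
    ∀ a : Finset ℕ → ℕ → ℕ, (∀ V p, p.Prime → a V p ∈ Ico 1 p) →
    ∑ V ∈ VV, (2 ^ N : ℝ) ^ V.card *
      err (fun p : ℕ => p) (fun p => Ico 1 p) ((Ioc X (2 * X)).filter Nat.Prime)
        (((Ioc X (2 * X)).filter Nat.Prime).card : ℝ) (a V) V ≤ C * (X / Real.log X ^ B)

/-- LDA: the integers of an interval are equidistributed. -/
def Stmt_LDA : Prop :=
  ∀ N B : ℕ, ∀ᶠ L : ℝ in atTop, ∀ (x Y : ℕ), Real.exp (L / 2) ≤ Y →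
    ∀ (VV : Finset (Finset ℕ)),
    (∀ V ∈ VV, (∀ p ∈ V, p.Prime) ∧ ∏ p ∈ V, (p : ℝ) ≤ Real.exp (L / 8)) →
    ∀ a : Finset ℕ → ℕ → ℕ, (∀ V p, p.Prime → a V p ∈ Ico 0 p) →
    ∑ V ∈ VV, (2 ^ N : ℝ) ^ V.card *
      err (fun p : ℕ => p) (fun p => Ico 0 p) (Ioc x (x + Y)) Y (a V) V ≤ Y / L ^ B

/-- CGE: the general theorem for a sequence `NN` with a level of distribution. `u = 0`: all residue
classes are allowed, `u = 1`: the reduced residue classes. -/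
def Stmt_CGE : Prop :=
  open Classical in
  ∀ C2 : ℝ, 0 < C2 → ∃ (N : ℕ) (c : ℝ), 0 < c ∧ ∀ᶠ L : ℝ in atTop, ∀ (u : ℕ), u ≤ 1 →
    ∀ (B : Finset ℤ), (∀ h ∈ B, |(h : ℝ)| ≤ C2 * L) → (u = 1 → (0 : ℤ) ∉ B) →
    ∀ (NN : Finset ℕ) (M : ℝ), 0 < M →
    (u = 1 → ∀ n ∈ NN, ∀ p : ℕ, p.Prime → (p : ℝ) ≤ Real.exp (L / 1024) → ¬ p ∣ n) →
    (∀ (VV : Finset (Finset ℕ)),
      (∀ V ∈ VV, (∀ p ∈ V, p.Prime) ∧ ∏ p ∈ V, (p : ℝ) ≤ Real.exp (L / 8)) →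
      ∀ a : Finset ℕ → ℕ → ℕ, (∀ V p, p.Prime → a V p ∈ Ico u p) →
      ∑ V ∈ VV, (2 ^ N : ℝ) ^ V.card *
        err (fun p : ℕ => p) (fun p => Ico u p) NN M (a V) V ≤ M / L ^ N) →
    c * M ≤ ((NN.filter (fun n : ℕ => ∀ h ∈ B, ∃ p : ℕ, p.Prime ∧
      (p : ℝ) ≤ Real.exp (L / 1024) ∧ (p : ℤ) ∣ (n : ℤ) + h)).card : ℝ)

/-- The isolated primes of `(X, 2X]`. -/
noncomputable def isoD (lam eps : ℝ) (X : ℕ) : Finset ℕ :=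
  open Classical in ((Ioc X (2 * X)).filter Nat.Prime).filter
    (fun p : ℕ => ∀ h : ℤ, h ≠ 0 → |(h : ℝ)| ≤ lam * Real.log X →
      ∃ r : ℕ, r.Prime ∧ (r : ℝ) ≤ (X : ℝ) ^ eps ∧ (r : ℤ) ∣ (p : ℤ) + h)

/-- FIP: a positive proportion of the primes of `(X, 2X]` is isolated. -/
def Stmt_FIP : Prop :=
  ∀ lam eps : ℝ, 0 < lam → 0 < eps → eps ≤ 1 → ∃ c : ℝ, 0 < c ∧ ∀ᶠ X : ℕ in atTop,
    c * (X / Real.log X) ≤ ((isoD lam eps X).card : ℝ)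

/-- ISO: a positive proportion of the primes is isolated. -/
def Stmt_ISO : Prop :=
  open Classical in
  ∀ lam eps : ℝ, 0 < lam → 0 < eps → ∃ c : ℝ, 0 < c ∧ ∀ᶠ X : ℕ in atTop,
    c * Nat.primeCounting X ≤ (((Icc 1 X).filter (fun p : ℕ => p.Prime ∧
      ∀ n : ℕ, n ≠ p → |(n : ℝ) - p| ≤ lam * Real.log p →
        ∃ r : ℕ, r.Prime ∧ (r : ℝ) ≤ (p : ℝ) ^ eps ∧ r ∣ n)).card : ℝ)

/-- GPS: a positive proportion of the pairs of consecutive prime gaps. -/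
def Stmt_GPS : Prop :=
  open Classical in
  ∀ lam : ℝ, 0 < lam → ∃ c : ℝ, 0 < c ∧ ∀ᶠ X : ℕ in atTop,
    c * Nat.primeCounting X ≤ (((range X).filter (fun k : ℕ =>
      Nat.nth Nat.Prime (k + 2) ≤ X ∧
      lam * Real.log X ≤ (Nat.nth Nat.Prime (k + 1) : ℝ) - Nat.nth Nat.Prime k ∧
      lam * Real.log X ≤ (Nat.nth Nat.Prime (k + 2) : ℝ) - Nat.nth Nat.Prime (k + 1))).card : ℝ)

/-- INT: a positive proportion of the integers. -/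
def Stmt_INT : Prop :=
  open Classical in
  ∀ lam eps : ℝ, 0 < lam → 0 < eps → ∃ c : ℝ, 0 < c ∧ ∀ᶠ X : ℕ in atTop,
    c * X ≤ (((Icc 1 X).filter (fun n : ℕ => ∀ m : ℕ, n < m →
      (m : ℝ) ≤ n + lam * Real.log X → ∃ r : ℕ, r.Prime ∧ (r : ℝ) ≤ (n : ℝ) ^ eps ∧
        r ∣ m)).card : ℝ)

end Pool.PP
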