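import Pool.Agent.Work.MP_b0c12c_pp.Loc

set_option autoImplicit false

/-! Isolated primes, block BLM: moments of one block. -/

namespace Pool.PP

open Finset

theorem p_BLM (hT : Stmt_TAU) (hG : Stmt_GNF) (hW : Stmt_W1S) : Stmt_BLM := by
  intro π _ _ q b i d r hq0 hq1 hr
  have hw := (hW π q).2 hq0 hq1
  have h1 : E1 q (fun T => tau (2 * d) (om b T i) ^ r) ≤
      E1 q (fun T => (if om b T i = 0 then (1 : ℝ) else 0) +
        (1 / 4 : ℝ) ^ d * 2 ^ ((r + 1) * om b T i)) := by
    unfold E1
    apply Finset.sum_le_sum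
    intro T _
    exact mul_le_mul_of_nonneg_left (((hT.2 d (om b T i)).2) r hr) (hw T)
  have h2 : E1 q (fun T => (if om b T i = 0 then (1 : ℝ) else 0) +
        (1 / 4 : ℝ) ^ d * 2 ^ ((r + 1) * om b T i)) =
      E1 q (fun T => ∏ x ∈ T, (if b x = i then (0 : ℝ) else 1)) +
      (1 / 4 : ℝ) ^ d * E1 q (fun T => ∏ x ∈ T, (if b x = i then (2 : ℝ) ^ (r + 1) else 1)) := by
    unfold E1
    rw [Finset.mul_sum, ← Finset.sum_add_distrib]
    apply Finset.sum_congr rfl
    intro T _
    have e1 : (∏ x ∈ T, (if b x = i then (0 : ℝ) else 1)) = if om b T i = 0 then (1 : ℝ) else 0 := by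
      rw [Finset.prod_ite, Finset.prod_const, Finset.prod_const_one, mul_one]
      unfold om
      by_cases h : (T.filter (fun x => b x = i)).card = 0
      · rw [if_pos h, h, pow_zero]
      · rw [if_neg h, zero_pow h]
    have e2 : (∏ x ∈ T, (if b x = i then (2 : ℝ) ^ (r + 1) else 1)) =
        2 ^ ((r + 1) * om b T i) := by
      rw [Finset.prod_ite, Finset.prod_const, Finset.prod_const_one, mul_one]
      unfold om
      rw [pow_mul]
    beta_reduce
    rw [e1, e2]
    ring
  have h3 : (∏ x, (1 - q x + q x * (if b x = i then (0 : ℝ) else 1))) =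
      ∏ x ∈ univ.filter (fun x => b x = i), (1 - q x) := by
    rw [Finset.prod_filter]
    apply Finset.prod_congr rfl
    intro x _
    split_ifs <;> ring
  have h4 : (∏ x, (1 - q x + q x * (if b x = i then (2 : ℝ) ^ (r + 1) else 1))) ≤
      Real.exp (2 ^ (r + 1) * bs q b i) := by
    unfold bs
    rw [Finset.mul_sum, Finset.sum_filter, Real.exp_sum]
    apply Finset.prod_le_prod
    · intro x _
      have h5 : (0 : ℝ) ≤ (if b x = i then (2 : ℝ) ^ (r + 1) else 1) := by
        split_ifs <;> positivity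
      have := mul_nonneg (hq0 x) h5
      linarith [hq1 x]
    · intro x _
      split_ifs
      · have := Real.add_one_le_exp (2 ^ (r + 1) * q x)
        linarith [hq0 x]
      · rw [Real.exp_zero]
        linarith
  rw [h2, hG, hG, h3] at h1
  refine h1.trans ?_
  have := mul_le_mul_of_nonneg_left h4 (by positivity : (0 : ℝ) ≤ (1 / 4 : ℝ) ^ d)
  linarith

end Pool.PP
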