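import Pool.Agent.Work.MP_b0c12c_pp.Loc
import Pool.Agent.Work.MP_b0c12c_nt_helper41.Mert

/-! # Isolated primes, local part: block BMR (helper60) -/

set_option autoImplicit false

namespace Pool.PP

open Finset

theorem BMR_tel (z N : ℕ) (hz : 1 ≤ z) (hN : z ≤ N) :
    ∑ n ∈ Ioc z N, 1 / ((n : ℝ) * ((n : ℝ) - 1)) = 1 / (z : ℝ) - 1 / (N : ℝ) := by
  induction N, hN using Nat.le_induction with
  | base => simp
  | succ N hN ih =>
    have h0 : (0 : ℝ) < N := by exact_mod_cast (by omega : 0 < N)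
    rw [Finset.sum_Ioc_succ_top hN, ih]
    push_cast
    have h1 : (N : ℝ) + 1 - 1 = N := by ring
    rw [h1]
    field_simp
    ring

theorem BMR_tel_le (z : ℕ) (hz : 1 ≤ z) (T : Finset ℕ) (hT : ∀ n ∈ T, z < n) :
    ∑ n ∈ T, 1 / ((n : ℝ) * ((n : ℝ) - 1)) ≤ 1 / (z : ℝ) := by
  set N := max z (T.sup id) with hN
  have hsub : T ⊆ Ioc z N := by
    intro n hn
    rw [Finset.mem_Ioc]
    exact ⟨hT n hn, le_max_of_le_right (Finset.le_sup (f := id) hn)⟩
  calc ∑ n ∈ T, 1 / ((n : ℝ) * ((n : ℝ) - 1)) ≤ ∑ n ∈ Ioc z N, 1 / ((n : ℝ) * ((n : ℝ) - 1)) := by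
        apply Finset.sum_le_sum_of_subset_of_nonneg hsub
        intro n hn _
        have h1 : (1 : ℝ) ≤ n := by
          exact_mod_cast (by have := (Finset.mem_Ioc.mp hn).1; omega : 1 ≤ n)
        apply div_nonneg zero_le_one
        apply mul_nonneg (by linarith) (by linarith)
    _ = 1 / (z : ℝ) - 1 / (N : ℝ) := BMR_tel z N hz (le_max_left _ _)
    _ ≤ 1 / (z : ℝ) := by
        have : (0 : ℝ) ≤ 1 / (N : ℝ) := by positivity
        linarith

theorem BMR_pow_lt {z a b : ℕ} (hz : 2 ≤ z) (h : z ^ (2 ^ a) < z ^ (2 ^ b)) : a < b := by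
  by_contra hcon
  have h1 : 2 ^ b ≤ 2 ^ a := Nat.pow_le_pow_right (by norm_num) (not_lt.mp hcon)
  have h2 : z ^ (2 ^ b) ≤ z ^ (2 ^ a) := Nat.pow_le_pow_right (by omega) h1
  omega

theorem BMR_loglog {z : ℕ} (hz : 2 ≤ z) (i : ℕ) :
    Real.log (Real.log ((z ^ (2 ^ i) : ℕ) : ℝ)) = i * Real.log 2 + Real.log (Real.log z) := by
  have hlz : 0 < Real.log z := Real.log_pos (by exact_mod_cast (by omega : 1 < z))
  push_cast
  rw [Real.log_pow]
  push_cast
  rw [Real.log_mul (by positivity) hlz.ne', Real.log_pow]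

theorem BMR_holds : Stmt_BMR := by
  obtain ⟨C, hC, hM⟩ := Pool.Agent.Work.MP_b0c12c_nt_helper41.mertens2
  refine ⟨3, max 10 ⌈Real.exp (C / 0.19)⌉₊, by omega, ?_⟩
  intro z I hz π _ _ pr b hP c hc
  classical
  have hz10 : 10 ≤ z := le_trans (le_max_left _ _) hz
  have hz1 : 1 ≤ z := by omega
  have hz2 : 2 ≤ z := by omega
  have hzR : (10 : ℝ) ≤ z := by exact_mod_cast hz10
  have hlz : 0 < Real.log z := Real.log_pos (by linarith)
  have hClog : C / Real.log z ≤ 0.19 := by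
    have e1 : Real.exp (C / 0.19) ≤ z := by
      have := le_trans (Nat.le_ceil (Real.exp (C / 0.19)))
        (by exact_mod_cast le_trans (le_max_right 10 _) hz : ((⌈Real.exp (C / 0.19)⌉₊ : ℕ) : ℝ) ≤ z)
      exact this
    have e2 : C / 0.19 ≤ Real.log z := by
      rw [Real.le_log_iff_exp_le (by linarith)]
      exact e1
    rw [div_le_iff₀ hlz]
    rw [div_le_iff₀ (by norm_num)] at e2
    linarith
  -- facts on `pr`
  have hprz : ∀ x, z < pr x := fun x => ((hP.range (pr x)).mp ⟨x, rfl⟩).2.1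
  have hprI : ∀ x, pr x ≤ z ^ (2 ^ I) := fun x => ((hP.range (pr x)).mp ⟨x, rfl⟩).2.2
  have hprp : ∀ x, (pr x).Prime := fun x => ((hP.range (pr x)).mp ⟨x, rfl⟩).1
  have hcR : (c : ℝ) ≤ 1 := by exact_mod_cast hc
  have hc0 : (0 : ℝ) ≤ c := Nat.cast_nonneg _
  have hprR : ∀ x, (z : ℝ) + 1 ≤ pr x := by
    intro x
    exact_mod_cast hprz x
  have hq_lo : ∀ x, 1 / (pr x : ℝ) ≤ qc c pr x := by
    intro x
    have := hprR x
    unfold qc
    apply one_div_le_one_div_of_le (by linarith)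
    linarith
  have hq_hi : ∀ x, qc c pr x ≤ 1 / ((pr x : ℝ) - 1) := by
    intro x
    have := hprR x
    unfold qc
    apply one_div_le_one_div_of_le (by linarith)
    linarith
  have hq_diff : ∀ x, qc c pr x ≤ 1 / (pr x : ℝ) + 1 / ((pr x : ℝ) * ((pr x : ℝ) - 1)) := by
    intro x
    have h1 := hprR x
    have h2 : (0 : ℝ) < (pr x : ℝ) - 1 := by linarith
    have h3 : (0 : ℝ) < (pr x : ℝ) := by linarith
    refine le_trans (hq_hi x) (le_of_eq ?_)
    field_simp
    ring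
  have hq0 : ∀ x, 0 ≤ qc c pr x := by
    intro x
    have := hprR x
    refine le_trans ?_ (hq_lo x)
    positivity
  have htel : ∀ A : Finset π, ∑ x ∈ A, 1 / ((pr x : ℝ) * ((pr x : ℝ) - 1)) ≤ 1 / (z : ℝ) := by
    intro A
    have e1 : ∑ x ∈ A, 1 / ((pr x : ℝ) * ((pr x : ℝ) - 1)) =
        ∑ n ∈ A.image pr, 1 / ((n : ℝ) * ((n : ℝ) - 1)) := by
      rw [Finset.sum_image (fun x _ y _ h => hP.inj h)]
    rw [e1]
    apply BMR_tel_le z hz1
    intro n hn
    obtain ⟨x, -, rfl⟩ := Finset.mem_image.mp hn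
    exact hprz x
  -- the blocks
  have himg : ∀ i, i < I → (univ.filter (fun x => b x = i)).image pr =
      (Ioc (z ^ (2 ^ i)) (z ^ (2 ^ (i + 1)))).filter Nat.Prime := by
    intro i hi
    ext p
    rw [Finset.mem_image, Finset.mem_filter, Finset.mem_Ioc]
    constructor
    · rintro ⟨x, hx, rfl⟩
      have hbx : b x = i := (Finset.mem_filter.mp hx).2
      have h1 := hP.blo x
      have h2 := hP.bhi x
      rw [hbx] at h1 h2
      exact ⟨⟨h1, h2⟩, hprp x⟩
    · rintro ⟨⟨h1, h2⟩, h3⟩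
      have h4 : z < p := by
        refine lt_of_le_of_lt ?_ h1
        calc z = z ^ 1 := (pow_one z).symm
          _ ≤ z ^ (2 ^ i) := Nat.pow_le_pow_right hz1 Nat.one_le_two_pow
      have h5 : p ≤ z ^ (2 ^ I) := by
        refine le_trans h2 (Nat.pow_le_pow_right hz1 (Nat.pow_le_pow_right (by norm_num) ?_))
        omega
      obtain ⟨x, hx⟩ := (hP.range p).mpr ⟨h3, h4, h5⟩
      refine ⟨x, Finset.mem_filter.mpr ⟨Finset.mem_univ x, ?_⟩, hx⟩
      have h6 := hP.blo x
      have h7 := hP.bhi x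
      rw [hx] at h6 h7
      have h8 : b x < i + 1 := BMR_pow_lt hz2 (lt_of_lt_of_le h6 h2)
      have h9 : i < b x + 1 := BMR_pow_lt hz2 (lt_of_lt_of_le h1 h7)
      omega
  have hblock : ∀ i, i < I → |∑ x ∈ univ.filter (fun x => b x = i), 1 / (pr x : ℝ) -
      Real.log 2| ≤ C / Real.log z := by
    intro i hi
    have e1 : ∑ x ∈ univ.filter (fun x => b x = i), 1 / (pr x : ℝ) =
        ∑ p ∈ (Ioc (z ^ (2 ^ i)) (z ^ (2 ^ (i + 1)))).filter Nat.Prime, 1 / (p : ℝ) := by
      rw [← himg i hi, Finset.sum_image (fun x _ y _ h => hP.inj h)]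
    have hzi : z ≤ z ^ (2 ^ i) := by
      calc z = z ^ 1 := (pow_one z).symm
        _ ≤ z ^ (2 ^ i) := Nat.pow_le_pow_right hz1 Nat.one_le_two_pow
    have h1 := hM (z ^ (2 ^ i)) (z ^ (2 ^ (i + 1))) (le_trans hz2 hzi)
      (Nat.pow_le_pow_right hz1 (Nat.pow_le_pow_right (by norm_num) (Nat.le_succ i)))
    rw [BMR_loglog hz2, BMR_loglog hz2] at h1
    have e2 : ((i + 1 : ℕ) : ℝ) * Real.log 2 + Real.log (Real.log z) -
        ((i : ℝ) * Real.log 2 + Real.log (Real.log z)) = Real.log 2 := by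
      push_cast
      ring
    rw [e2] at h1
    rw [e1]
    refine le_trans h1 ?_
    apply div_le_div_of_nonneg_left hC.le hlz
    apply Real.log_le_log (by linarith)
    exact_mod_cast hzi
  have hlog2lo := Real.log_two_gt_d9
  have hlog2hi := Real.log_two_lt_d9
  have hblk : Blk (qc c pr) b I := by
    refine ⟨hq0, ?_, ?_, ?_, ?_⟩
    · intro x
      have := hprR x
      refine le_trans (hq_hi x) ?_
      rw [div_le_div_iff₀ (by linarith) (by norm_num)]
      linarith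
    · intro x
      exact BMR_pow_lt hz2 (lt_of_lt_of_le (hP.blo x) (hprI x))
    · intro i hi
      have h1 := (abs_le.mp (hblock i hi)).1
      have h2 : ∑ x ∈ univ.filter (fun x => b x = i), 1 / (pr x : ℝ) ≤ bs (qc c pr) b i :=
        Finset.sum_le_sum (fun x _ => hq_lo x)
      linarith
    · intro i hi
      have h1 := (abs_le.mp (hblock i hi)).2
      have h2 : bs (qc c pr) b i ≤ ∑ x ∈ univ.filter (fun x => b x = i),
          (1 / (pr x : ℝ) + 1 / ((pr x : ℝ) * ((pr x : ℝ) - 1))) :=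
        Finset.sum_le_sum (fun x _ => hq_diff x)
      rw [Finset.sum_add_distrib] at h2
      have h3 := htel (univ.filter (fun x => b x = i))
      have h4 : 1 / (z : ℝ) ≤ 0.1 := by
        rw [div_le_iff₀ (by linarith)]
        linarith
      linarith
  refine ⟨hblk, ?_, ?_⟩
  · intro j hj
    have himg2 : (Ioc z (z ^ (2 ^ j))).filter Nat.Prime ⊆
        (univ.filter (fun x => b x < j)).image pr := by
      intro p hp
      rw [Finset.mem_filter, Finset.mem_Ioc] at hp
      obtain ⟨⟨h1, h2⟩, h3⟩ := hp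
      have h5 : p ≤ z ^ (2 ^ I) :=
        le_trans h2 (Nat.pow_le_pow_right hz1 (Nat.pow_le_pow_right (by norm_num) hj))
      obtain ⟨x, hx⟩ := (hP.range p).mpr ⟨h3, h1, h5⟩
      rw [Finset.mem_image]
      refine ⟨x, Finset.mem_filter.mpr ⟨Finset.mem_univ x, ?_⟩, hx⟩
      have h6 := hP.blo x
      rw [hx] at h6
      exact BMR_pow_lt hz2 (lt_of_lt_of_le h6 h2)
    have hzj : z ≤ z ^ (2 ^ j) := by
      calc z = z ^ 1 := (pow_one z).symm
        _ ≤ z ^ (2 ^ j) := Nat.pow_le_pow_right hz1 Nat.one_le_two_pow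
    have h1 := (abs_le.mp (hM z (z ^ (2 ^ j)) hz2 hzj)).1
    rw [BMR_loglog hz2] at h1
    have h2 : ∑ p ∈ (Ioc z (z ^ (2 ^ j))).filter Nat.Prime, 1 / (p : ℝ) ≤
        ∑ x ∈ univ.filter (fun x => b x < j), qc c pr x := by
      calc ∑ p ∈ (Ioc z (z ^ (2 ^ j))).filter Nat.Prime, 1 / (p : ℝ)
          ≤ ∑ p ∈ (univ.filter (fun x => b x < j)).image pr, 1 / (p : ℝ) :=
            Finset.sum_le_sum_of_subset_of_nonneg himg2 (fun p _ _ => by positivity)
        _ = ∑ x ∈ univ.filter (fun x => b x < j), 1 / (pr x : ℝ) :=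
            Finset.sum_image (fun x _ y _ h => hP.inj h)
        _ ≤ _ := Finset.sum_le_sum (fun x _ => hq_lo x)
    have h3 : fr (qc c pr) b j ≤ Real.exp (-∑ x ∈ univ.filter (fun x => b x < j), qc c pr x) := by
      unfold fr
      rw [← Finset.sum_neg_distrib, Real.exp_sum]
      apply Finset.prod_le_prod
      · intro x _
        have := hblk.half x
        linarith
      · intro x _
        have := Real.add_one_le_exp (-(qc c pr x))
        linarith
    have h4 : -∑ x ∈ univ.filter (fun x => b x < j), qc c pr x ≤ -(j * Real.log 2) + 0.19 := by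
      linarith
    have h5 : Real.exp (-(j * Real.log 2) + 0.19) ≤ 3 * (1 / 2 : ℝ) ^ j := by
      rw [Real.exp_add]
      have e1 : Real.exp (-(j * Real.log 2)) = (1 / 2 : ℝ) ^ j := by
        rw [Real.exp_neg, mul_comm, Real.exp_mul, Real.exp_log (by norm_num), Real.rpow_natCast]
        rw [one_div, inv_pow]
      have e2 : Real.exp (0.19 : ℝ) ≤ 3 := by
        have : Real.exp (0.19 : ℝ) ≤ Real.exp 1 := Real.exp_le_exp.mpr (by norm_num)
        have h6 := Real.exp_one_lt_d9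
        linarith
      rw [e1, mul_comm]
      exact mul_le_mul_of_nonneg_right e2 (by positivity)
    exact le_trans h3 (le_trans (Real.exp_le_exp.mpr h4) h5)
  · unfold q2
    have h1 : ∀ x, qc c pr x ^ 2 ≤ 2 * (1 / ((pr x : ℝ) * ((pr x : ℝ) - 1))) := by
      intro x
      have h2 := hprR x
      have h3 : (0 : ℝ) < (pr x : ℝ) - 1 := by linarith
      have h4 : (0 : ℝ) < (pr x : ℝ) := by linarith
      calc qc c pr x ^ 2 ≤ (1 / ((pr x : ℝ) - 1)) ^ 2 := pow_le_pow_left₀ (hq0 x) (hq_hi x) 2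
        _ ≤ 2 * (1 / ((pr x : ℝ) * ((pr x : ℝ) - 1))) := by
          rw [div_pow, one_pow, mul_one_div, div_le_div_iff₀ (by positivity) (by positivity)]
          nlinarith
    calc ∑ x, qc c pr x ^ 2 ≤ ∑ x, 2 * (1 / ((pr x : ℝ) * ((pr x : ℝ) - 1))) :=
          Finset.sum_le_sum (fun x _ => h1 x)
      _ = 2 * ∑ x, 1 / ((pr x : ℝ) * ((pr x : ℝ) - 1)) := by rw [Finset.mul_sum]
      _ ≤ 2 * (1 / (z : ℝ)) := mul_le_mul_of_nonneg_left (htel univ) (by norm_num)
      _ ≤ 4 / z := by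
          rw [mul_one_div]
          exact div_le_div_of_nonneg_right (by norm_num) (by linarith)

end Pool.PP
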