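import Pool.Agent.Work.MP_b0c12c_pp.Loc

/-! # Block BRK: the bracket (helper7) -/

set_option autoImplicit false

namespace Pool.PP

open Finset

theorem brk_lev {ι : Type} [Fintype ι] [DecidableEq ι] {J : ℕ} (κ : ι → Option (Fin J))
    (m : ι) (s : Fin J) (hm : κ m = none) :
    lev (Function.update κ m (some s)) = lev κ + (1 / 2 : ℝ) ^ (s : ℕ) := by
  unfold lev
  rw [← Finset.add_sum_erase univ _ (Finset.mem_univ m),
    ← Finset.add_sum_erase univ (fun h => lev1 (κ h)) (Finset.mem_univ m)]
  have h1 : ∑ x ∈ univ.erase m, lev1 (Function.update κ m (some s) x) =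
      ∑ x ∈ univ.erase m, lev1 (κ x) := by
    apply Finset.sum_congr rfl
    intro x hx
    rw [Function.update_of_ne (Finset.ne_of_mem_erase hx)]
  have h2 : lev1 (some s) = (1 / 2 : ℝ) ^ (s : ℕ) := rfl
  have h3 : lev1 (none : Option (Fin J)) = 0 := rfl
  rw [h1, Function.update_self, hm, h2, h3]
  ring

theorem brk_cT {ι : Type} [Fintype ι] {J : ℕ} (Θ : ℝ) (κ : ι → Option (Fin J)) :
    0 ≤ cT Θ κ ∧ cT Θ κ ≤ 1 := by
  unfold cT
  split_ifs
  · exact ⟨zero_le_one, le_refl _⟩
  · exact ⟨le_refl _, zero_le_one⟩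

theorem p_BRK : Stmt_BRK := by
  intro ι _ _ J Θ m κ hJ
  have hJ' : (0 : ℝ) < J := by exact_mod_cast hJ
  by_cases hm : κ m = none
  · have hc : cM (cT Θ) m κ =
        cT Θ κ - (1 / J : ℝ) * ∑ s : Fin J, cT Θ (Function.update κ m (some s)) := by
      unfold cM
      rw [if_pos hm]
    by_cases hl : lev κ ≤ Θ
    · have h1 : cT Θ κ = 1 := by
        unfold cT
        rw [if_pos hl]
      have h2 : 0 ≤ ∑ s : Fin J, cT Θ (Function.update κ m (some s)) :=
        Finset.sum_nonneg fun s _ => (brk_cT Θ _).1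
      have h3 : ∑ s : Fin J, cT Θ (Function.update κ m (some s)) ≤ J := by
        calc ∑ s : Fin J, cT Θ (Function.update κ m (some s)) ≤ ∑ _s : Fin J, (1 : ℝ) :=
              Finset.sum_le_sum fun s _ => (brk_cT Θ _).2
          _ = J := by simp
      have h4 : 0 ≤ (1 / J : ℝ) * ∑ s : Fin J, cT Θ (Function.update κ m (some s)) := by
        positivity
      have h5 : (1 / J : ℝ) * ∑ s : Fin J, cT Θ (Function.update κ m (some s)) ≤ 1 := by
        rw [one_div, inv_mul_le_iff₀ hJ', mul_one]
        exact h3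
      refine ⟨by rw [hc, h1]; linarith, by rw [hc, h1]; linarith, ?_⟩
      intro h6
      refine ⟨hm, ?_, hl⟩
      by_contra h7
      rw [not_lt] at h7
      apply h6
      have h8 : ∀ s : Fin J, cT Θ (Function.update κ m (some s)) = 1 := by
        intro s
        have h9 : (1 / 2 : ℝ) ^ (s : ℕ) ≤ 1 := pow_le_one₀ (by norm_num) (by norm_num)
        unfold cT
        rw [brk_lev κ m s hm, if_pos (by linarith)]
      rw [hc, h1, Finset.sum_congr rfl (fun s _ => h8 s)]
      simp only [Finset.sum_const, Finset.card_univ, Fintype.card_fin, nsmul_eq_mul, mul_one]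
      field_simp
      ring
    · have h1 : cT Θ κ = 0 := by
        unfold cT
        rw [if_neg hl]
      have h8 : ∀ s : Fin J, cT Θ (Function.update κ m (some s)) = 0 := by
        intro s
        have h9 : 0 ≤ (1 / 2 : ℝ) ^ (s : ℕ) := by positivity
        unfold cT
        rw [brk_lev κ m s hm, if_neg]
        intro h10
        exact hl (by linarith)
      have h11 : cM (cT Θ) m κ = 0 := by
        rw [hc, h1, Finset.sum_congr rfl (fun s _ => h8 s)]
        simp
      rw [h11]
      exact ⟨le_refl _, zero_le_one, fun h => absurd rfl h⟩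
  · have hc : cM (cT Θ) m κ = 0 := by
      unfold cM
      rw [if_neg hm]
    rw [hc]
    exact ⟨le_refl _, zero_le_one, fun h => absurd rfl h⟩

end Pool.PP
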