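import Pool.Agent.Work.MP_b0c12c_pp.Defs

/-! # Isolated primes, local part: definitions and interface (helper10)

The final statement of this part is `Stmt_LOCP`: the local inequality and the fourth moment in
the label model, for the primes of `(z, z ^ (2 ^ I)]`. Every `Stmt_*` is a block. -/

set_option autoImplicit false

namespace Pool.PP

open Finset

/-! ## Definitions -/

section defs

variable {π ι : Type}

/-- The table of general site functions `f s`, restricted to the shifts of `S`. -/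
noncomputable def tab [DecidableEq ι] {J : ℕ} (f : Fin J → Finset π → ℝ) (S : Finset ι)
    (t : ι → Finset π) : ι → Fin J → ℝ :=
  fun h s => if h ∈ S then f s (t h) else 0

/-- Coefficients of level at most `Θ`. -/
noncomputable def cT [Fintype ι] {J : ℕ} (Θ : ℝ) (κ : ι → Option (Fin J)) : ℝ :=
  open Classical in if lev κ ≤ Θ then 1 else 0

/-- The coefficients of the function obtained from `c` when the site `m` is free. -/
noncomputable def cM [DecidableEq ι] {J : ℕ} (c : (ι → Option (Fin J)) → ℝ) (m : ι)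
    (κ : ι → Option (Fin J)) : ℝ :=
  if κ m = none then c κ - (1 / J : ℝ) * ∑ s : Fin J, c (Function.update κ m (some s)) else 0

/-- Mass of a label. -/
noncomputable def yy [DecidableEq ι] {J : ℕ} (x : Fin J → ℝ) (S : Finset ι) (h : ι) :
    Option (Fin J) → ℝ
  | none => 1
  | some s => if h ∈ S then x s else 0

/-- Mass of a family of labels. -/
noncomputable def ym [Fintype ι] [DecidableEq ι] {J : ℕ} (x : Fin J → ℝ) (S : Finset ι)
    (κ : ι → Option (Fin J)) : ℝ := ∏ h, yy x S h (κ h)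

/-- Total mass. -/
noncomputable def yT [Fintype ι] [DecidableEq ι] {J : ℕ} (x : Fin J → ℝ) (S : Finset ι) : ℝ :=
  ∑ κ : ι → Option (Fin J), ym x S κ

variable [Fintype π] [DecidableEq π]

/-- The site functions are centred and orthogonal. -/
structure Orth (q : π → ℝ) {J : ℕ} (f : Fin J → Finset π → ℝ) : Prop where
  mean : ∀ s, E1 q (f s) = 0
  orth : ∀ s t, s ≠ t → E1 q (fun T => f s T * f t T) = 0

/-- The normalised second moments. -/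
noncomputable def xs (q : π → ℝ) {J : ℕ} (f : Fin J → Finset π → ℝ) (s : Fin J) : ℝ :=
  E1 q (fun T => f s T ^ 2) / (J : ℝ) ^ 2

/-- Sum of `q x ^ 2`. -/
noncomputable def q2 (q : π → ℝ) : ℝ := ∑ x, q x ^ 2

/-- Sum of `q` over the block `i`. -/
noncomputable def bs (q : π → ℝ) (b : π → ℕ) (i : ℕ) : ℝ :=
  ∑ x ∈ univ.filter (fun x => b x = i), q x

/-- The probability that a random set has no element in the blocks below `j`. -/
noncomputable def fr (q : π → ℝ) (b : π → ℕ) (j : ℕ) : ℝ :=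
  ∏ x ∈ univ.filter (fun x => b x < j), (1 - q x)

/-- The block data. -/
structure Blk (q : π → ℝ) (b : π → ℕ) (I : ℕ) : Prop where
  nonneg : ∀ x, 0 ≤ q x
  half : ∀ x, q x ≤ 1 / 2
  lt : ∀ x, b x < I
  lo : ∀ i < I, 1 / 2 ≤ bs q b i
  hi : ∀ i < I, bs q b i ≤ 1

end defs

/-- `pr` enumerates the primes in `(z, z ^ (2 ^ I)]`, and block `i` is
`(z ^ (2 ^ i), z ^ (2 ^ (i + 1))]`. -/
structure PB {π : Type} (z I : ℕ) (pr : π → ℕ) (b : π → ℕ) : Prop where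
  inj : Function.Injective pr
  range : ∀ p, (∃ x, pr x = p) ↔ (p.Prime ∧ z < p ∧ p ≤ z ^ (2 ^ I))
  blo : ∀ x, z ^ (2 ^ (b x)) < pr x
  bhi : ∀ x, pr x ≤ z ^ (2 ^ (b x + 1))

/-- `1 / (p - c)`: `c = 0` for integers, `c = 1` for primes. -/
noncomputable def qc {π : Type} (c : ℕ) (pr : π → ℕ) (x : π) : ℝ := 1 / ((pr x : ℝ) - c)

/-! ## Independent sites -/

/-- (W1S) `w1 q` has total mass one, and it is nonnegative. -/
def Stmt_W1S : Prop :=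
  ∀ (π : Type) [Fintype π] [DecidableEq π] (q : π → ℝ), ∑ T, w1 q T = 1 ∧
    ((∀ x, 0 ≤ q x) → (∀ x, q x ≤ 1) → ∀ T, 0 ≤ w1 q T)

/-- (PMU) Independence of the sites. -/
def Stmt_PMU : Prop :=
  ∀ (π ι : Type) [Fintype π] [DecidableEq π] [Fintype ι] [DecidableEq ι] (q : π → ℝ)
    (f : ι → Finset π → ℝ), EM q (fun t : ι → Finset π => ∏ h, f h (t h)) = ∏ h, E1 q (f h)

/-- (IND) A function that does not see the site `m` is independent of it. -/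
def Stmt_IND : Prop :=
  ∀ (π ι : Type) [Fintype π] [DecidableEq π] [Fintype ι] [DecidableEq ι] (q : π → ℝ)
    (A : (ι → Finset π) → ℝ) (r : Finset π → ℝ) (m : ι),
    (∀ t a, A (Function.update t m a) = A t) →
    EM q (fun t => A t * r (t m)) = EM q A * E1 q r

/-- (SQM) Second moments are exact. -/
def Stmt_SQM : Prop :=
  ∀ (π ι : Type) [Fintype π] [DecidableEq π] [Fintype ι] [DecidableEq ι] (q : π → ℝ) (J : ℕ)
    (f : Fin J → Finset π → ℝ) (S : Finset ι) (c : (ι → Option (Fin J)) → ℝ), Orth q f →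
    EM q (fun t => PF c (tab f S t) ^ 2) = ∑ κ, c κ ^ 2 * ym (xs q f) S κ

/-- (FMU) If `c` lives on `κ m = none` then the function does not see the site `m`. -/
def Stmt_FMU : Prop :=
  ∀ (π ι : Type) [Fintype π] [DecidableEq π] [Fintype ι] [DecidableEq ι] (J : ℕ)
    (f : Fin J → Finset π → ℝ) (S : Finset ι) (c : (ι → Option (Fin J)) → ℝ) (m : ι)
    (t : ι → Finset π) (a : Finset π), (∀ κ, κ m ≠ none → c κ = 0) →
    PF c (tab f S (Function.update t m a)) = PF c (tab f S t)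

/-- (RID) If the site `m` is free then `F = F_m`. -/
def Stmt_RID : Prop :=
  ∀ (ι : Type) [Fintype ι] [DecidableEq ι] (J : ℕ) (c : (ι → Option (Fin J)) → ℝ) (m : ι)
    (G : ι → Fin J → ℝ), (∀ s, G m s = 1) → PF c G = PF (cM c m) G

/-- (BRK) The bracket. -/
def Stmt_BRK : Prop :=
  ∀ (ι : Type) [Fintype ι] [DecidableEq ι] (J : ℕ) (Θ : ℝ) (m : ι) (κ : ι → Option (Fin J)),
    0 < J → 0 ≤ cM (cT Θ) m κ ∧ cM (cT Θ) m κ ≤ 1 ∧
      (cM (cT Θ) m κ ≠ 0 → κ m = none ∧ Θ - 1 < lev κ ∧ lev κ ≤ Θ)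

/-- (MKT) Markov bound for the level, and `1 ≤` total mass. -/
def Stmt_MKT : Prop :=
  ∀ (ι : Type) [Fintype ι] [DecidableEq ι] (J : ℕ) (S : Finset ι) (x : Fin J → ℝ),
    (∀ s, 0 ≤ x s) → 1 ≤ yT x S ∧ ∀ R : ℝ, 0 < R →
    (∑ κ : ι → Option (Fin J), open Classical in if R < lev κ then ym x S κ else 0)
      ≤ ((S.card : ℝ) * ∑ s : Fin J, (1 / 2 : ℝ) ^ (s : ℕ) * x s) / R * yT x S

/-- (MOM) Moments of order `r`. -/
def Stmt_MOM : Prop :=
  ∀ (π ι : Type) [Fintype π] [DecidableEq π] [Fintype ι] [DecidableEq ι] (q : π → ℝ) (J : ℕ)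
    (f : Fin J → Finset π → ℝ) (S : Finset ι) (c : (ι → Option (Fin J)) → ℝ) (A : ℝ) (r : ℕ),
    (∀ x, 0 ≤ q x) → (∀ x, q x ≤ 1) → 0 ≤ A → 1 ≤ r → (∀ κ, |c κ| ≤ 1) →
    (∀ s, E1 q (fun T => |f s T|) ≤ A) → (∀ s, E1 q (fun T => |f s T| ^ r) ≤ A) →
    EM q (fun t => |PF c (tab f S t)| ^ r) ≤ Real.exp (2 ^ (r + 1) * A * S.card)

/-- (LOCM) The local inequality for independent sites. -/
def Stmt_LOCM : Prop :=
  ∀ (π ι : Type) [Fintype π] [DecidableEq π] [Fintype ι] [DecidableEq ι] (q : π → ℝ) (J : ℕ)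
    (f : Fin J → Finset π → ℝ) (r : Finset π → ℝ) (S : Finset ι) (V R : ℝ),
    (∀ x, 0 ≤ q x) → (∀ x, q x ≤ 1) → Orth q f → 0 < J → 0 ≤ V →
    (∀ s, E1 q (fun T => f s T ^ 2) ≤ V * 2 ^ (s : ℕ)) → (∀ T, 0 ≤ r T) → E1 q r ≤ V →
    (S.card : ℝ) * V ≤ R → 4 * R ≤ J → 8 * R ^ 2 ≤ J →
    3 / 4 ≤ EM q (fun t : ι → Finset π =>
      PF c0 (tab f S t) ^ 2 - ∑ m ∈ S, PF (cm m) (tab f S t) ^ 2 * r (t m))

/-! ## The label model -/

/-- (CMP) Comparison of the label model with independent sites. -/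
def Stmt_CMP : Prop :=
  ∀ (π ι : Type) [Fintype π] [DecidableEq π] [Fintype ι] [DecidableEq ι] (q : π → ℝ)
    (Φ : (ι → Finset π) → ℝ), (∀ x, 0 ≤ q x) → (∀ x, q x ≤ 1 / 2) →
    (∀ x, (Fintype.card ι : ℝ) * q x ≤ 1 / 10) → (Fintype.card ι : ℝ) ^ 2 * q2 q ≤ 1 / 2 →
    (EN q Φ - EM q Φ) ^ 2 ≤
      4 * (Fintype.card ι : ℝ) ^ 2 * q2 q * EM q (fun t => Φ t ^ 2)

/-! ## One site: independent primes in blocks -/

/-- (GNF) Generating function. -/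
def Stmt_GNF : Prop :=
  ∀ (π : Type) [Fintype π] [DecidableEq π] (q c : π → ℝ),
    E1 q (fun T => ∏ x ∈ T, c x) = ∏ x, (1 - q x + q x * c x)

/-- (PRB) Independence of the blocks. -/
def Stmt_PRB : Prop :=
  ∀ (π : Type) [Fintype π] [DecidableEq π] (q : π → ℝ) (b : π → ℕ) (s : Finset ℕ)
    (f : ℕ → ℕ → ℝ),
    E1 q (fun T => ∏ i ∈ s, f i (om b T i)) = ∏ i ∈ s, E1 q (fun T => f i (om b T i))

/-- (TAU) Bonferroni. -/
def Stmt_TAU : Prop :=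
  (∀ e, tau e 0 = 1) ∧ ∀ d n : ℕ, 0 ≤ tau (2 * d) n ∧ ∀ r : ℕ, 1 ≤ r →
    tau (2 * d) n ^ r ≤ (if n = 0 then 1 else 0) + (1 / 4 : ℝ) ^ d * 2 ^ ((r + 1) * n)

/-- (BLM) Moments of one block. -/
def Stmt_BLM : Prop :=
  ∀ (π : Type) [Fintype π] [DecidableEq π] (q : π → ℝ) (b : π → ℕ) (i d r : ℕ),
    (∀ x, 0 ≤ q x) → (∀ x, q x ≤ 1) → 1 ≤ r →
    E1 q (fun T => tau (2 * d) (om b T i) ^ r) ≤
      ∏ x ∈ univ.filter (fun x => b x = i), (1 - q x) +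
        (1 / 4 : ℝ) ^ d * Real.exp (2 ^ (r + 1) * bs q b i)

/-- (EBJ) The mean of `tau 2` on one block. -/
def Stmt_EBJ : Prop :=
  ∀ (π : Type) [Fintype π] [DecidableEq π] (q : π → ℝ) (b : π → ℕ) (j : ℕ),
    (∀ x, 0 ≤ q x) → (∀ x, q x ≤ 1) → 1 / 2 ≤ bs q b j → bs q b j ≤ 1 →
    0 ≤ mt q b j ∧ mt q b j ≤ 5 / 8

/-- (ORT) The site functions are centred and orthogonal. -/
def Stmt_ORT : Prop :=
  ∀ (π : Type) [Fintype π] [DecidableEq π] (q : π → ℝ) (b : π → ℕ) (I J : ℕ),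
    Blk q b I → J ≤ I → Orth q (fun s : Fin J => gs q b I s)

/-- (FRE) Values at a free site. -/
def Stmt_FRE : Prop :=
  ∀ (π : Type) [Fintype π] [DecidableEq π] (q : π → ℝ) (b : π → ℕ) (I : ℕ), Blk q b I →
    (∀ s < I, gs q b I s ∅ = 1) ∧ rho b I ∅ = 1 ∧ ∀ T, 0 ≤ rho b I T

/-- (GMO) Moments of the site functions, with an absolute constant. -/
def Stmt_GMO : Prop :=
  ∃ C : ℝ, 0 < C ∧ ∀ (π : Type) [Fintype π] [DecidableEq π] (q : π → ℝ) (b : π → ℕ)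
    (I : ℕ), Blk q b I → ∀ r : ℕ, 1 ≤ r → r ≤ 8 →
    (∀ j < I, E1 q (fun T => |gj q b j T| ^ r) ≤ C * fr q b j) ∧
    E1 q (fun T => rho b I T ^ r) ≤ C * fr q b I

/-- (LOC) The local inequality and the fourth moment in the label model. -/
def Stmt_LOC : Prop :=
  ∀ C R : ℝ, ∃ (J : ℕ) (B ε : ℝ), 0 < J ∧ 0 < ε ∧
    ∀ (π ι : Type) [Fintype π] [DecidableEq π] [Fintype ι] [DecidableEq ι] (q : π → ℝ)
      (b : π → ℕ) (I : ℕ) (S : Finset ι), Blk q b I →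
      (∀ j ≤ I, fr q b j ≤ C * (1 / 2 : ℝ) ^ j) → J ≤ I →
      (S.card : ℝ) * (1 / 2 : ℝ) ^ I ≤ R → (Fintype.card ι : ℝ) ^ 3 * q2 q ≤ ε →
      1 / 2 ≤ EN q (Psi q b I J S) ∧ EN q (fun t => FF q b I J S t ^ 4) ≤ B

/-! ## The primes -/

/-- (BMR) Mertens for the blocks. -/
def Stmt_BMR : Prop :=
  ∃ (C : ℝ) (z0 : ℕ), 2 ≤ z0 ∧ ∀ z I : ℕ, z0 ≤ z →
    ∀ (π : Type) [Fintype π] [DecidableEq π] (pr b : π → ℕ), PB z I pr b → ∀ c : ℕ, c ≤ 1 →
      Blk (qc c pr) b I ∧ (∀ j ≤ I, fr (qc c pr) b j ≤ C * (1 / 2 : ℝ) ^ j) ∧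
        q2 (qc c pr) ≤ 4 / z

/-- (LOCP) The local inequality for the primes in `(z, z ^ (2 ^ I)]`. -/
def Stmt_LOCP : Prop :=
  ∀ R : ℝ, ∃ (J z0 : ℕ) (B : ℝ), 0 < J ∧ 2 ≤ z0 ∧
    ∀ (z I c : ℕ) (π ι : Type) [Fintype π] [DecidableEq π] [Fintype ι] [DecidableEq ι]
      (pr b : π → ℕ) (S : Finset ι), z0 ≤ z → J ≤ I → c ≤ 1 → PB z I pr b →
      (S.card : ℝ) * (1 / 2 : ℝ) ^ I ≤ R → Fintype.card ι ^ 3 * z0 ≤ z →
      1 / 2 ≤ EN (qc c pr) (Psi (qc c pr) b I J S) ∧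
        EN (qc c pr) (fun t => FF (qc c pr) b I J S t ^ 4) ≤ B

/-! ## For the transfer: the site functions as polynomials -/

/-- (COE) Coefficients of the site functions in the basis `1[U ⊆ T]`. -/
def Stmt_COE : Prop :=
  ∀ (π : Type) [Fintype π] [DecidableEq π] (q : π → ℝ) (b : π → ℕ) (I : ℕ), Blk q b I →
    (∀ j < I, ∃ c : Finset π → ℝ, (∀ T, gj q b j T = ∑ U ∈ T.powerset, c U) ∧ ∀ U, |c U| ≤ 3 ∧
      (c U ≠ 0 → (∀ x ∈ U, b x ≤ j) ∧ ∀ i ≤ j, om b U i ≤ 2 * (j - i + 1))) ∧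
    (∃ c : Finset π → ℝ, (∀ T, rho b I T = ∑ U ∈ T.powerset, c U) ∧ ∀ U, |c U| ≤ 1 ∧
      (c U ≠ 0 → ∀ i < I, om b U i ≤ 2 * (I - i)))

/-- (SIZ) Size of the sets in the support. -/
def Stmt_SIZ : Prop :=
  ∀ (π : Type) [Fintype π] [DecidableEq π] (z I : ℕ) (pr b : π → ℕ), 2 ≤ z → PB z I pr b →
    (∀ j < I, ∀ U : Finset π, (∀ x ∈ U, b x ≤ j) →
      (∀ i ≤ j, om b U i ≤ 2 * (j - i + 1)) → ∏ x ∈ U, pr x ≤ z ^ (2 ^ (j + 4))) ∧
    (∀ U : Finset π, (∀ i < I, om b U i ≤ 2 * (I - i)) → ∏ x ∈ U, pr x ≤ z ^ (2 ^ (I + 3)))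

end Pool.PP
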