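import Pool.Agent.Work.MP_b0c12c_pp.Arith
import Pool.Agent.Work.MP_b0c12c_pp.Loc

/-! # Block CGE, part a (helper98): elementary lemmas for the assembly -/

set_option autoImplicit false

namespace Pool.PP

open Finset Filter

/-- The number of blocks. -/
theorem CGE_I (z : ℕ) (L : ℝ) (hz : 2 ≤ z) (hL0 : 0 < L) (hL : (z : ℝ) ≤ Real.exp (L / 1024))
    (hlog : Real.log z ≤ 7 * Real.log L) :
    ∃ I : ℕ, ((z ^ 2 ^ I : ℕ) : ℝ) ≤ Real.exp (L / 1024) ∧
      (1 / 2 : ℝ) ^ I ≤ 14336 * (Real.log L / L) := by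
  have hz1 : (1 : ℝ) < z := by exact_mod_cast hz
  have hz0 : (0 : ℝ) < z := by linarith
  have hlz : 0 < Real.log z := Real.log_pos hz1
  set X : ℝ := L / (1024 * Real.log z) with hX
  have hX1 : 1 ≤ X := by
    rw [hX, le_div_iff₀ (by positivity)]
    have := (Real.log_le_iff_le_exp hz0).2 hL
    linarith
  have hX0 : 0 < X := by linarith
  set m : ℕ := ⌊X⌋₊ with hm
  have hm1 : 1 ≤ m := by
    rw [hm, Nat.one_le_floor_iff]
    exact hX1
  have hmX : (m : ℝ) ≤ X := Nat.floor_le (by linarith)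
  have hXm : X < m + 1 := Nat.lt_floor_add_one X
  refine ⟨Nat.log 2 m, ?_, ?_⟩
  · have h1 : 2 ^ Nat.log 2 m ≤ m := Nat.pow_log_le_self 2 (by omega)
    have h2 : ((2 ^ Nat.log 2 m : ℕ) : ℝ) ≤ X := le_trans (by exact_mod_cast h1) hmX
    have h3 : ((2 ^ Nat.log 2 m : ℕ) : ℝ) * Real.log z ≤ L / 1024 := by
      have h4 : ((2 ^ Nat.log 2 m : ℕ) : ℝ) * Real.log z ≤ X * Real.log z := by gcongr
      have h5 : X * Real.log z = L / 1024 := by
        rw [hX]; field_simp
      linarith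
    calc ((z ^ 2 ^ Nat.log 2 m : ℕ) : ℝ) = (z : ℝ) ^ (2 ^ Nat.log 2 m) := by push_cast; rfl
      _ = Real.exp (((2 ^ Nat.log 2 m : ℕ) : ℝ) * Real.log z) := by
          rw [Real.exp_nat_mul, Real.exp_log hz0]
      _ ≤ Real.exp (L / 1024) := Real.exp_le_exp.2 h3
  · have h1 : m < 2 ^ (Nat.log 2 m + 1) := Nat.lt_pow_succ_log_self (by norm_num) m
    have h2 : (m : ℝ) + 1 ≤ (2 : ℝ) ^ (Nat.log 2 m + 1) := by exact_mod_cast h1
    have h3 : X ≤ 2 * (2 : ℝ) ^ Nat.log 2 m := by
      rw [pow_succ] at h2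
      linarith
    have h4 : (1 / 2 : ℝ) ^ Nat.log 2 m = 1 / 2 ^ Nat.log 2 m := by
      rw [div_pow, one_pow]
    have h5 : 0 < (2 : ℝ) ^ Nat.log 2 m := by positivity
    rw [h4]
    have h6 : 1 / (2 : ℝ) ^ Nat.log 2 m ≤ 2 / X := by
      rw [div_le_div_iff₀ h5 hX0]
      linarith
    refine h6.trans ?_
    have h7 : 2 / X = 2048 * (Real.log z / L) := by
      rw [hX]; field_simp; ring
    rw [h7]
    calc 2048 * (Real.log z / L) ≤ 2048 * (7 * Real.log L / L) := by gcongr
      _ = 14336 * (Real.log L / L) := by ring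

/-- The block index. -/
theorem CGE_b (z I : ℕ) (hz : 2 ≤ z) :
    ∃ b : LP z I → ℕ, PB z I (fun x : LP z I => (x : ℕ)) b := by
  have hmem : ∀ x : LP z I, (x : ℕ).Prime ∧ z < (x : ℕ) ∧ (x : ℕ) ≤ z ^ 2 ^ I := by
    intro x
    have := x.2
    unfold LP at this
    rw [Finset.mem_filter, Finset.mem_Ioc] at this
    exact ⟨this.2, this.1⟩
  have hex : ∀ x : LP z I, ∃ i : ℕ, (x : ℕ) ≤ z ^ 2 ^ (i + 1) := by
    intro x
    refine ⟨I, (hmem x).2.2.trans ?_⟩
    exact Nat.pow_le_pow_right (by omega) (Nat.pow_le_pow_right (by norm_num) (by omega))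
  refine ⟨fun x => Nat.find (hex x), ?_, ?_, ?_, ?_⟩
  · exact fun x y h => Subtype.ext h
  · intro p
    constructor
    · rintro ⟨x, rfl⟩
      exact hmem x
    · rintro ⟨h1, h2, h3⟩
      refine ⟨⟨p, ?_⟩, rfl⟩
      unfold LP
      rw [Finset.mem_filter, Finset.mem_Ioc]
      exact ⟨⟨h2, h3⟩, h1⟩
  · intro x
    rcases Nat.eq_zero_or_pos (Nat.find (hex x)) with h | h
    · rw [h]
      simpa using (hmem x).2.1
    · obtain ⟨i, hi⟩ : ∃ i, Nat.find (hex x) = i + 1 := ⟨Nat.find (hex x) - 1, by omega⟩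
      have := Nat.find_min (hex x) (m := i) (by omega)
      rw [hi]
      exact not_le.1 this
  · intro x
    exact Nat.find_spec (hex x)

/-- The product of some small primes. -/
theorem CGE_small (w : ℕ) (A : Finset (SP w)) :
    ∏ y ∈ A, (((y : ℕ) : ℝ)) ≤ 4 ^ w := by
  have h1 : ∏ y ∈ A, ((y : ℕ)) ≤ primorial w := by
    have h2 : ∏ y ∈ A, ((y : ℕ)) = ∏ p ∈ A.map (Function.Embedding.subtype _), p := by
      rw [Finset.prod_map]; rfl
    rw [h2]
    unfold primorial
    apply Finset.prod_le_prod_of_subset_of_one_le'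
    · intro p hp
      rw [Finset.mem_map] at hp
      obtain ⟨y, _, rfl⟩ := hp
      have := y.2
      unfold SP at this
      rw [Finset.mem_filter, Finset.mem_Icc] at this
      rw [Finset.mem_filter, Finset.mem_range]
      exact ⟨Nat.lt_succ_of_le this.1.2, this.2⟩
    · intro p hp _
      rw [Finset.mem_filter] at hp
      exact hp.2.one_lt.le
  have h3 : ∏ y ∈ A, ((y : ℕ)) ≤ 4 ^ w := h1.trans (primorial_le_four_pow w)
  exact_mod_cast h3

/-- Two filters with arbitrary decidability. -/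
theorem CGE_filter {P Q : ℕ → Prop} {hd : DecidablePred P} {hd' : DecidablePred Q}
    (NN : Finset ℕ) (h : ∀ n, P n ↔ Q n) :
    (@Finset.filter ℕ P hd NN).card = (@Finset.filter ℕ Q hd' NN).card := by
  congr 1
  ext n
  rw [Finset.mem_filter, Finset.mem_filter, h n]

/-- Transport of the errors to sets of natural numbers. -/
theorem CGE_err {α : Type} [Fintype α] [DecidableEq α] (pr : α → ℕ)
    (hinj : Function.Injective pr) (hpr : ∀ x, (pr x).Prime) (u : ℕ) (hu : u ≤ 1) (NN : Finset ℕ)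
    (M X κ δ : ℝ)
    (H : ∀ (VV : Finset (Finset ℕ)),
      (∀ V ∈ VV, (∀ p ∈ V, p.Prime) ∧ ∏ p ∈ V, (p : ℝ) ≤ X) →
      ∀ a : Finset ℕ → ℕ → ℕ, (∀ V p, p.Prime → a V p ∈ Ico u p) →
      ∑ V ∈ VV, κ ^ V.card *
        err (fun p : ℕ => p) (fun p => Ico u p) NN M (a V) V ≤ δ)
    (F : Finset (Finset α)) (hF : ∀ V ∈ F, ∏ x ∈ V, (pr x : ℝ) ≤ X)
    (a' : Finset α → α → ℕ) (ha' : ∀ V x, a' V x ∈ Ico u (pr x)) :
    ∑ V ∈ F, κ ^ V.card * err pr (fun x => Ico u (pr x)) NN M (a' V) V ≤ δ := by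
  classical
  set emb : α ↪ ℕ := ⟨pr, hinj⟩ with hemb
  set a : Finset ℕ → ℕ → ℕ := fun V p =>
    if h : ∃ x : α, pr x = p then a' (univ.filter (fun x => pr x ∈ V)) h.choose else 1 with ha
  have haP : ∀ (V : Finset ℕ) (p : ℕ), p.Prime → a V p ∈ Ico u p := by
    intro V p hp
    by_cases h : ∃ x : α, pr x = p
    · rw [ha]
      simp only [dif_pos h]
      have := ha' (univ.filter (fun x => pr x ∈ V)) h.choose
      rwa [h.choose_spec] at this
    · rw [ha]
      simp only [dif_neg h]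
      rw [Finset.mem_Ico]
      exact ⟨hu, hp.one_lt⟩
  have hpre : ∀ V : Finset α, univ.filter (fun x => pr x ∈ V.map emb) = V := by
    intro V
    ext x
    simp only [Finset.mem_filter, Finset.mem_univ, true_and, Finset.mem_map]
    constructor
    · rintro ⟨y, hy, hxy⟩
      rwa [← hinj hxy]
    · intro hx
      exact ⟨x, hx, rfl⟩
  have haV : ∀ (V : Finset α) (x : α), a (V.map emb) (pr x) = a' V x := by
    intro V x
    have h : ∃ y : α, pr y = pr x := ⟨x, rfl⟩
    rw [ha]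
    simp only [dif_pos h]
    rw [hpre V, hinj h.choose_spec]
  have key := H (F.map ⟨fun V => V.map emb, Finset.map_injective emb⟩) (by
    intro V hV
    rw [Finset.mem_map] at hV
    obtain ⟨W, hW, rfl⟩ := hV
    refine ⟨?_, ?_⟩
    · intro p hp
      simp only [Function.Embedding.coeFn_mk, Finset.mem_map] at hp
      obtain ⟨x, _, rfl⟩ := hp
      exact hpr x
    · simp only [Function.Embedding.coeFn_mk, Finset.prod_map]
      exact hF W hW) a haP
  rw [Finset.sum_map] at key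
  refine le_trans (le_of_eq (Finset.sum_congr rfl fun V hV => ?_)) key
  simp only [Function.Embedding.coeFn_mk, Finset.card_map]
  congr 1
  unfold err
  refine congrArg abs (congrArg₂ (· - ·) (congrArg Nat.cast (CGE_filter NN fun n => ?_)) ?_)
  · constructor
    · intro h p hp
      rw [Finset.mem_map] at hp
      obtain ⟨x, hx, rfl⟩ := hp
      change n % pr x = a (V.map emb) (pr x)
      rw [haV]
      exact h x hx
    · intro h x hx
      have := h (pr x) (Finset.mem_map.2 ⟨x, hx, rfl⟩)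
      rwa [haV] at this
  · rw [Finset.prod_map]
    rfl

end Pool.PP
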