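import Pool.Agent.Work.MP_b0c12c_pp.Loc

set_option autoImplicit false

namespace Pool.PP

open Finset

namespace CMP

variable {π ι : Type} [Fintype π] [DecidableEq π] [Fintype ι] [DecidableEq ι]

/-- The number of shifts which contain `x`. -/
def nx (t : ι → Finset π) (x : π) : ℕ := (univ.filter (fun h => x ∈ t h)).card

/-- The weight of a site in the label model. -/
noncomputable def vx (k : ℕ) (q : ℝ) : ℕ → ℝ
  | 0 => 1 - (k : ℝ) * q
  | 1 => q
  | _ => 0

/-- The quotient of the weights. -/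
noncomputable def Wx (k : ℕ) (q : ℝ) : ℕ → ℝ
  | 0 => (1 - (k : ℝ) * q) / (1 - q) ^ k
  | 1 => 1 / (1 - q) ^ (k - 1)
  | _ => 0

lemma vx_eq (k : ℕ) (q : ℝ) (hq : 1 - q ≠ 0) (n : ℕ) :
    q ^ n * (1 - q) ^ (k - n) * Wx k q n = vx k q n := by
  match n with
  | 0 =>
    have h1 : (1 - q) ^ k ≠ 0 := pow_ne_zero _ hq
    simp only [Wx, vx, pow_zero, one_mul, Nat.sub_zero]
    field_simp
  | 1 =>
    have h1 : (1 - q) ^ (k - 1) ≠ 0 := pow_ne_zero _ hq
    simp only [Wx, vx, pow_one]
    field_simp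
  | n + 2 => simp [Wx, vx]

lemma w1_eq (q : π → ℝ) (T : Finset π) :
    w1 q T = ∏ x, (if x ∈ T then q x else 1 - q x) := by
  unfold w1
  rw [Finset.prod_ite]
  congr 1
  · apply Finset.prod_congr
    · ext x
      simp
    · intro x _
      rfl
  · apply Finset.prod_congr
    · ext x
      simp
    · intro x _
      rfl

omit [DecidableEq ι] in
lemma prod_w1 (q : π → ℝ) (t : ι → Finset π) :
    ∏ h, w1 q (t h) =
      ∏ x, (q x ^ nx t x * (1 - q x) ^ (Fintype.card ι - nx t x)) := by
  have h1 : ∏ h, w1 q (t h) = ∏ h, ∏ x, (if x ∈ t h then q x else 1 - q x) :=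
    Finset.prod_congr rfl fun h _ => w1_eq q (t h)
  rw [h1, Finset.prod_comm]
  apply Finset.prod_congr rfl
  intro x _
  rw [Finset.prod_ite, Finset.prod_const, Finset.prod_const]
  have h2 : (univ.filter (fun h : ι => ¬ x ∈ t h)).card = Fintype.card ι - nx t x := by
    have h3 := Finset.card_filter_add_card_filter_not (s := (univ : Finset ι))
      (fun h : ι => x ∈ t h)
    rw [Finset.card_univ] at h3
    unfold nx
    omega
  rw [h2]
  rfl

lemma nx_fib (ω : π → Option ι) (x : π) : nx (fib ω) x = (ω x).elim 0 (fun _ => 1) := by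
  unfold nx fib
  cases hω : ω x with
  | none =>
    simp [hω]
  | some i =>
    have h1 : (univ.filter (fun h : ι => x ∈ univ.filter (fun x => ω x = some h))) = {i} := by
      ext h
      simp only [mem_filter, mem_univ, true_and, mem_singleton, hω, Option.some_inj]
      exact eq_comm
    rw [h1, Finset.card_singleton]
    rfl

lemma EN_eq (q : π → ℝ) (Φ : (ι → Finset π) → ℝ) :
    EN q Φ = ∑ t : ι → Finset π, (∏ x, vx (Fintype.card ι) (q x) (nx t x)) * Φ t := by
  unfold EN
  apply Fintype.sum_of_injective (fib : (π → Option ι) → ι → Finset π)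
  · intro ω ω' h
    funext x
    apply Option.ext
    intro i
    have h1 := congrFun h i
    have h2 := Finset.ext_iff.1 h1 x
    simp only [fib, mem_filter, mem_univ, true_and] at h2
    exact h2
  · intro t ht
    have hex : ∃ x, 2 ≤ nx t x := by
      by_contra hne
      apply ht
      classical
      refine ⟨fun x => if h : ∃ i, x ∈ t i then some h.choose else none, ?_⟩
      funext i
      ext x
      simp only [fib, mem_filter, mem_univ, true_and]
      constructor
      · intro h
        split_ifs at h with hx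
        · have h3 := hx.choose_spec
          rw [Option.some_inj] at h
          rw [h] at h3
          exact h3
      · intro hx
        have hex : ∃ i, x ∈ t i := ⟨i, hx⟩
        rw [dif_pos hex]
        congr 1
        have hc : nx t x ≤ 1 := by
          by_contra h4
          exact hne ⟨x, by omega⟩
        unfold nx at hc
        refine Finset.card_le_one.1 hc _ ?_ _ ?_
        · rw [mem_filter]
          exact ⟨mem_univ _, hex.choose_spec⟩
        · rw [mem_filter]
          exact ⟨mem_univ _, hx⟩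
    obtain ⟨x, hx⟩ := hex
    have h0 : ∏ x, vx (Fintype.card ι) (q x) (nx t x) = 0 := by
      apply Finset.prod_eq_zero (mem_univ x)
      obtain ⟨m, hm⟩ := Nat.exists_eq_add_of_le hx
      rw [hm, add_comm]
      rfl
    rw [h0, zero_mul]
  · intro ω
    congr 1
    unfold wl
    apply Finset.prod_congr rfl
    intro x _
    rw [nx_fib]
    cases hω : ω x with
    | none => rfl
    | some i => rfl

/-- The density. -/
noncomputable def W (q : π → ℝ) (t : ι → Finset π) : ℝ :=
  ∏ x, Wx (Fintype.card ι) (q x) (nx t x)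

lemma EN_eq_EM (q : π → ℝ) (hq : ∀ x, 1 - q x ≠ 0) (Φ : (ι → Finset π) → ℝ) :
    EN q Φ = EM q (fun t => W q t * Φ t) := by
  rw [EN_eq]
  unfold EM
  apply Finset.sum_congr rfl
  intro t _
  rw [← mul_assoc]
  congr 1
  rw [prod_w1]
  unfold W
  rw [← Finset.prod_mul_distrib]
  apply Finset.prod_congr rfl
  intro x _
  rw [vx_eq _ _ (hq x)]

lemma EN_prod (q : π → ℝ) (g : π → ℕ → ℝ) :
    EN q (fun t : ι → Finset π => ∏ x, g x (nx t x)) =
      ∏ x, ((1 - (Fintype.card ι : ℝ) * q x) * g x 0 +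
        (Fintype.card ι : ℝ) * (q x * g x 1)) := by
  unfold EN
  have h1 : ∀ ω : π → Option ι, wl q ω * ∏ x, g x (nx (fib ω) x) =
      ∏ x, ((ω x).elim (1 - (Fintype.card ι : ℝ) * q x) (fun _ => q x) *
        g x ((ω x).elim 0 (fun _ => 1))) := by
    intro ω
    unfold wl
    rw [← Finset.prod_mul_distrib]
    apply Finset.prod_congr rfl
    intro x _
    rw [nx_fib]
  have h2 := Finset.prod_univ_sum (fun _ : π => (univ : Finset (Option ι)))
    (fun (x : π) (o : Option ι) => o.elim (1 - (Fintype.card ι : ℝ) * q x) (fun _ => q x) *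
        g x (o.elim 0 (fun _ => 1)))
  rw [Fintype.piFinset_univ] at h2
  rw [Finset.sum_congr rfl (fun ω _ => h1 ω), ← h2]
  apply Finset.prod_congr rfl
  intro x _
  rw [Fintype.sum_option]
  simp only [Option.elim]
  rw [Finset.sum_const, Finset.card_univ, nsmul_eq_mul]

lemma site_bound (k : ℕ) (q : ℝ) (h0 : 0 ≤ q) (h1 : q ≤ 1 / 2) (h2 : (k : ℝ) * q ≤ 1 / 10) :
    (1 - (k : ℝ) * q) * Wx k q 0 + (k : ℝ) * (q * Wx k q 1) ≤ 1 + 2 * ((k : ℝ) * q) ^ 2 := by
  set u := (k : ℝ) * q with hu
  have hu0 : 0 ≤ u := by positivity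
  have hb : 1 - u ≤ (1 - q) ^ k := by
    have h3 := one_add_mul_le_pow (a := -q) (by linarith) k
    have h4 : 1 + (k : ℝ) * -q = 1 - u := by rw [hu]; ring
    have h5 : (1 : ℝ) + -q = 1 - q := by ring
    rw [h4, h5] at h3
    exact h3
  have hb1 : (1 - q) ^ k ≤ (1 - q) ^ (k - 1) :=
    pow_le_pow_of_le_one (by linarith) (by linarith) (Nat.sub_le k 1)
  have hp : 0 < 1 - u := by linarith
  simp only [Wx]
  have e1 : (1 - u) * ((1 - u) / (1 - q) ^ k) ≤ 1 - u := by
    have h6 : (1 - u) / (1 - q) ^ k ≤ 1 := by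
      rw [div_le_one (lt_of_lt_of_le hp hb)]
      exact hb
    calc (1 - u) * ((1 - u) / (1 - q) ^ k) ≤ (1 - u) * 1 :=
          mul_le_mul_of_nonneg_left h6 hp.le
      _ = 1 - u := mul_one _
  have e2 : (k : ℝ) * (q * (1 / (1 - q) ^ (k - 1))) ≤ u / (1 - u) := by
    rw [← mul_assoc, ← hu, mul_one_div]
    exact div_le_div_of_nonneg_left hu0 hp (hb.trans hb1)
  have e3 : u / (1 - u) ≤ u + 2 * u ^ 2 := by
    rw [div_le_iff₀ hp]
    nlinarith [hu0, h2, mul_nonneg hu0 hu0, mul_nonneg (mul_nonneg hu0 hu0) (by linarith : (0:ℝ) ≤ 1 - 10 * u)]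
  linarith

lemma EM_sub (q : π → ℝ) (f g : (ι → Finset π) → ℝ) :
    EM q (fun t => f t - g t) = EM q f - EM q g := by
  unfold EM
  rw [← Finset.sum_sub_distrib]
  apply Finset.sum_congr rfl
  intro t _
  ring

lemma EM_cs (q : π → ℝ) (hw : ∀ T, 0 ≤ w1 q T) (f g : (ι → Finset π) → ℝ) :
    EM q (fun t => f t * g t) ^ 2 ≤ EM q (fun t => f t ^ 2) * EM q (fun t => g t ^ 2) := by
  unfold EM
  have hp : ∀ t : ι → Finset π, 0 ≤ ∏ h, w1 q (t h) := fun t =>
    Finset.prod_nonneg fun h _ => hw _
  have h1 := Finset.sum_mul_sq_le_sq_mul_sq (univ : Finset (ι → Finset π))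
    (fun t => Real.sqrt (∏ h, w1 q (t h)) * f t) (fun t => Real.sqrt (∏ h, w1 q (t h)) * g t)
  have e1 : ∀ t : ι → Finset π, (∏ h, w1 q (t h)) * (f t * g t) =
      (Real.sqrt (∏ h, w1 q (t h)) * f t) * (Real.sqrt (∏ h, w1 q (t h)) * g t) := by
    intro t
    have h2 := Real.mul_self_sqrt (hp t)
    calc (∏ h, w1 q (t h)) * (f t * g t)
        = (Real.sqrt (∏ h, w1 q (t h)) * Real.sqrt (∏ h, w1 q (t h))) * (f t * g t) := by rw [h2]
      _ = _ := by ring
  have e2 : ∀ f : (ι → Finset π) → ℝ, ∀ t : ι → Finset π, (∏ h, w1 q (t h)) * f t ^ 2 =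
      (Real.sqrt (∏ h, w1 q (t h)) * f t) ^ 2 := by
    intro f t
    rw [mul_pow, Real.sq_sqrt (hp t)]
  rw [Finset.sum_congr rfl (fun t _ => e1 t), Finset.sum_congr rfl (fun t _ => e2 f t),
    Finset.sum_congr rfl (fun t _ => e2 g t)]
  exact h1

end CMP

open CMP in
theorem p_CMP (hW : Stmt_W1S) : Stmt_CMP := by
  intro π ι _ _ _ _ q Φ h0 h1 h2 h3
  have hq : ∀ x, 1 - q x ≠ 0 := fun x => by
    have := h1 x
    have h4 : 0 < 1 - q x := by linarith
    exact h4.ne'
  have hw : ∀ T, 0 ≤ w1 q T := (hW π q).2 h0 fun x => by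
    have := h1 x
    linarith
  have hE1 : EM q (fun _ : ι → Finset π => (1 : ℝ)) = 1 := by
    unfold EM
    have h5 := Finset.prod_univ_sum (fun _ : ι => (univ : Finset (Finset π)))
      (fun (_ : ι) (T : Finset π) => w1 q T)
    rw [Fintype.piFinset_univ] at h5
    rw [Finset.sum_congr rfl (fun t _ => mul_one _), ← h5]
    apply Finset.prod_eq_one
    intro i _
    exact (hW π q).1
  have hEW : EM q (fun t : ι → Finset π => W q t) = 1 := by
    have h6 := EN_eq_EM (ι := ι) q hq (fun _ => 1)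
    simp only [mul_one] at h6
    rw [← h6]
    have h7 := EN_prod (ι := ι) q (fun _ _ => 1)
    simp only [Finset.prod_const_one, mul_one] at h7
    rw [h7]
    apply Finset.prod_eq_one
    intro x _
    ring
  have hEW2 : EM q (fun t : ι → Finset π => W q t ^ 2) ≤
      1 + 4 * (Fintype.card ι : ℝ) ^ 2 * q2 q := by
    have h8 := EN_eq_EM (ι := ι) q hq (fun t => W q t)
    have h9 : (fun t : ι → Finset π => W q t * W q t) = fun t => W q t ^ 2 := by
      funext t
      ring
    rw [h9] at h8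
    rw [← h8]
    have h10 := EN_prod (ι := ι) q (fun x n => Wx (Fintype.card ι) (q x) n)
    have h11 : EN q (fun t : ι → Finset π => W q t) =
        EN q (fun t : ι → Finset π => ∏ x, Wx (Fintype.card ι) (q x) (nx t x)) := rfl
    rw [h11, h10]
    have h12 : ∏ x, ((1 - (Fintype.card ι : ℝ) * q x) * Wx (Fintype.card ι) (q x) 0 +
        (Fintype.card ι : ℝ) * (q x * Wx (Fintype.card ι) (q x) 1)) ≤
        ∏ x, Real.exp (2 * ((Fintype.card ι : ℝ) * q x) ^ 2) := by
      apply Finset.prod_le_prod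
      · intro x _
        have hx1 : 0 < 1 - q x := by
          have := h1 x
          linarith
        have hx2 : 0 ≤ 1 - (Fintype.card ι : ℝ) * q x := by
          have := h2 x
          linarith
        have hx3 := h0 x
        simp only [Wx]
        positivity
      · intro x _
        have h13 := site_bound (Fintype.card ι) (q x) (h0 x) (h1 x) (h2 x)
        have h14 := Real.add_one_le_exp (2 * ((Fintype.card ι : ℝ) * q x) ^ 2)
        linarith
    refine h12.trans ?_
    rw [← Real.exp_sum]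
    have h15 : ∑ x, 2 * ((Fintype.card ι : ℝ) * q x) ^ 2 =
        2 * (Fintype.card ι : ℝ) ^ 2 * q2 q := by
      unfold q2
      rw [Finset.mul_sum]
      apply Finset.sum_congr rfl
      intro x _
      ring
    rw [h15]
    set y := 2 * (Fintype.card ι : ℝ) ^ 2 * q2 q with hy
    have hq2 : 0 ≤ q2 q := Finset.sum_nonneg fun x _ => sq_nonneg _
    have hy0 : 0 ≤ y := by positivity
    have hy1 : y ≤ 1 := by
      rw [hy]
      linarith
    have h16 := Real.abs_exp_sub_one_sub_id_le (x := y) (by rw [abs_of_nonneg hy0]; exact hy1)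
    have h17 := (abs_le.1 h16).2
    have h18 : y ^ 2 ≤ y := by nlinarith
    have h19 : 1 + 4 * (Fintype.card ι : ℝ) ^ 2 * q2 q = 1 + 2 * y := by rw [hy]; ring
    rw [h19]
    linarith
  have hdiff : EN q Φ - EM q Φ = EM q (fun t => (W q t - 1) * Φ t) := by
    rw [EN_eq_EM q hq Φ, ← EM_sub]
    unfold EM
    apply Finset.sum_congr rfl
    intro t _
    ring
  have hvar : EM q (fun t : ι → Finset π => (W q t - 1) ^ 2) ≤
      4 * (Fintype.card ι : ℝ) ^ 2 * q2 q := by
    have h20 : EM q (fun t : ι → Finset π => (W q t - 1) ^ 2) =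
        EM q (fun t : ι → Finset π => W q t ^ 2) - 2 * EM q (fun t : ι → Finset π => W q t) +
          EM q (fun _ : ι → Finset π => (1 : ℝ)) := by
      unfold EM
      rw [Finset.mul_sum, ← Finset.sum_sub_distrib, ← Finset.sum_add_distrib]
      apply Finset.sum_congr rfl
      intro t _
      ring
    rw [h20, hEW, hE1]
    linarith
  rw [hdiff]
  refine (EM_cs q hw _ _).trans ?_
  apply mul_le_mul_of_nonneg_right hvar
  unfold EM
  apply Finset.sum_nonneg
  intro t _
  exact mul_nonneg (Finset.prod_nonneg fun h _ => hw _) (sq_nonneg _)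

end Pool.PP
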