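import Pool.Agent.Work.MP_b0c12c_pp.Loc

set_option autoImplicit false

namespace Pool.PP

open Finset

/-- Product over the blocks of `s` of sums over subsets. -/
theorem coe_prod {π : Type} [DecidableEq π] (b : π → ℕ) (a : ℕ → ℕ → ℝ) (s : Finset ℕ)
    (T : Finset π) :
    ∏ i ∈ s, (∑ V ∈ (T.filter (fun x => b x = i)).powerset, a i V.card)
      = ∑ U ∈ (T.filter (fun x => b x ∈ s)).powerset, ∏ i ∈ s, a i (om b U i) := by
  induction s using Finset.induction_on with
  | empty => simp
  | insert i s hi ih =>
    rw [Finset.prod_insert hi, ih, Finset.sum_mul_sum, ← Finset.sum_product']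
    refine Finset.sum_nbij' (fun p => p.1 ∪ p.2)
      (fun U => (U.filter (fun x => b x = i), U.filter (fun x => b x ∈ s))) ?_ ?_ ?_ ?_ ?_
    · intro p hp
      rw [Finset.mem_product, Finset.mem_powerset, Finset.mem_powerset] at hp
      rw [Finset.mem_powerset]
      intro x hx
      rw [Finset.mem_union] at hx
      rw [Finset.mem_filter, Finset.mem_insert]
      rcases hx with hx | hx
      · have := hp.1 hx
        rw [Finset.mem_filter] at this
        exact ⟨this.1, Or.inl this.2⟩
      · have := hp.2 hx
        rw [Finset.mem_filter] at this
        exact ⟨this.1, Or.inr this.2⟩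
    · intro U hU
      rw [Finset.mem_powerset] at hU
      rw [Finset.mem_product, Finset.mem_powerset, Finset.mem_powerset]
      constructor
      · intro x hx
        rw [Finset.mem_filter] at hx ⊢
        have := hU hx.1
        rw [Finset.mem_filter] at this
        exact ⟨this.1, hx.2⟩
      · intro x hx
        rw [Finset.mem_filter] at hx ⊢
        have := hU hx.1
        rw [Finset.mem_filter] at this
        exact ⟨this.1, hx.2⟩
    · rintro ⟨V, W⟩ hp
      rw [Finset.mem_product, Finset.mem_powerset, Finset.mem_powerset] at hp
      ext x
      · simp only [Finset.mem_filter, Finset.mem_union]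
        constructor
        · rintro ⟨hx | hx, hb⟩
          · exact hx
          · have := hp.2 hx
            rw [Finset.mem_filter] at this
            exact absurd (hb ▸ this.2) hi
        · intro hx
          have := hp.1 hx
          rw [Finset.mem_filter] at this
          exact ⟨Or.inl hx, this.2⟩
      · simp only [Finset.mem_filter, Finset.mem_union]
        constructor
        · rintro ⟨hx | hx, hb⟩
          · have := hp.1 hx
            rw [Finset.mem_filter] at this
            exact absurd (this.2 ▸ hb) hi
          · exact hx
        · intro hx
          have := hp.2 hx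
          rw [Finset.mem_filter] at this
          exact ⟨Or.inr hx, this.2⟩
    · intro U hU
      rw [Finset.mem_powerset] at hU
      ext x
      simp only [Finset.mem_filter, Finset.mem_union]
      constructor
      · rintro (hx | hx)
        · exact hx.1
        · exact hx.1
      · intro hx
        have := hU hx
        rw [Finset.mem_filter, Finset.mem_insert] at this
        rcases this.2 with h | h
        · exact Or.inl ⟨hx, h⟩
        · exact Or.inr ⟨hx, h⟩
    · rintro ⟨V, W⟩ hp
      rw [Finset.mem_product, Finset.mem_powerset, Finset.mem_powerset] at hp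
      simp only
      rw [Finset.prod_insert hi]
      congr 1
      · congr 1
        unfold om
        congr 1
        ext x
        simp only [Finset.mem_filter, Finset.mem_union]
        constructor
        · intro hx
          have := hp.1 hx
          rw [Finset.mem_filter] at this
          exact ⟨Or.inl hx, this.2⟩
        · rintro ⟨hx | hx, hb⟩
          · exact hx
          · have := hp.2 hx
            rw [Finset.mem_filter] at this
            exact absurd (hb ▸ this.2) hi
      · apply Finset.prod_congr rfl
        intro k hk
        congr 1
        unfold om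
        congr 1
        ext x
        simp only [Finset.mem_filter, Finset.mem_union]
        constructor
        · rintro ⟨hx, hb⟩
          exact ⟨Or.inr hx, hb⟩
        · rintro ⟨hx | hx, hb⟩
          · have := hp.1 hx
            rw [Finset.mem_filter] at this
            exact absurd (this.2 ▸ hb ▸ hk) hi
          · exact ⟨hx, hb⟩

/-- Bonferroni sum as a sum over subsets. -/
theorem coe_tau {π : Type} [DecidableEq π] (b : π → ℕ) (T : Finset π) (i e : ℕ) :
    tau e (om b T i) = ∑ V ∈ (T.filter (fun x => b x = i)).powerset,
      (if V.card ≤ e then (-1 : ℝ) ^ V.card else 0) := by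
  rw [Finset.sum_powerset_apply_card (fun m => if m ≤ e then (-1 : ℝ) ^ m else 0)]
  unfold tau om
  set w := (T.filter (fun x => b x = i)).card
  have e1 : ∑ s ∈ range (e + 1), (-1 : ℝ) ^ s * (w.choose s : ℝ)
      = ∑ s ∈ range (e + 1 + (w + 1)), (if s ≤ e then (-1 : ℝ) ^ s * (w.choose s : ℝ) else 0) := by
    rw [← Finset.sum_filter]
    apply Finset.sum_congr _ (fun _ _ => rfl)
    ext s
    simp only [Finset.mem_filter, Finset.mem_range]
    omega
  have e2 : ∑ m ∈ range (w + 1), w.choose m • (if m ≤ e then (-1 : ℝ) ^ m else 0)
      = ∑ s ∈ range (e + 1 + (w + 1)), (if s ≤ e then (-1 : ℝ) ^ s * (w.choose s : ℝ) else 0) := by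
    have hsub : range (w + 1) ⊆ range (e + 1 + (w + 1)) := by
      intro s
      simp only [Finset.mem_range]
      omega
    rw [← Finset.sum_subset hsub]
    · apply Finset.sum_congr rfl
      intro m _
      rw [nsmul_eq_mul]
      split_ifs <;> ring
    · intro s _ hs
      rw [Finset.mem_range, not_lt] at hs
      rw [Nat.choose_eq_zero_of_lt (by omega)]
      simp
  rw [e1, e2]

/-- The coefficient `a i m` for `tau (e i)`. -/
noncomputable def coe_a (e : ℕ → ℕ) (i m : ℕ) : ℝ := if m ≤ e i then (-1 : ℝ) ^ m else 0

theorem coe_a_abs (e : ℕ → ℕ) (i m : ℕ) : |coe_a e i m| ≤ 1 := by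
  unfold coe_a
  split_ifs
  · rw [abs_pow, abs_neg, abs_one, one_pow]
  · simp

theorem coe_a_ne (e : ℕ → ℕ) (i m : ℕ) (h : coe_a e i m ≠ 0) : m ≤ e i := by
  unfold coe_a at h
  by_contra hc
  rw [if_neg hc] at h
  exact h rfl

theorem coe_filt {π : Type} [DecidableEq π] (b : π → ℕ) (a : ℕ → ℕ → ℝ) (s : Finset ℕ)
    (T : Finset π) :
    ∑ U ∈ (T.filter (fun x => b x ∈ s)).powerset, ∏ i ∈ s, a i (om b U i)
      = ∑ U ∈ T.powerset, (if ∀ x ∈ U, b x ∈ s then ∏ i ∈ s, a i (om b U i) else 0) := by
  rw [← Finset.sum_filter]
  apply Finset.sum_congr _ (fun _ _ => rfl)
  ext U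
  simp only [Finset.mem_filter, Finset.mem_powerset]
  constructor
  · intro h
    exact ⟨fun x hx => (Finset.mem_filter.mp (h hx)).1, fun x hx => (Finset.mem_filter.mp (h hx)).2⟩
  · rintro ⟨h, h'⟩ x hx
    exact Finset.mem_filter.mpr ⟨h hx, h' x hx⟩

theorem tau_two (w : ℕ) : tau 2 w = 1 - w + (w.choose 2 : ℝ) := by
  unfold tau
  simp [Finset.sum_range_succ]
  ring

theorem p_COE (h1 : Stmt_EBJ) : Stmt_COE := by
  intro π _ _ q b I hB
  constructor
  · intro j hj
    obtain ⟨hm0, hm1⟩ := h1 π q b j hB.nonneg (fun x => le_trans (hB.half x) (by norm_num))
      (hB.lo j hj) (hB.hi j hj)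
    set μ := mt q b j with hμ
    have hpos : 0 < 1 - μ := by linarith
    -- the coefficients
    set a : ℕ → ℕ → ℝ := fun i m =>
      if i = j then (if m = 0 then 1 else if m ≤ 2 then (-1 : ℝ) ^ m / (1 - μ) else 0)
      else coe_a (fun i => 2 * (j - i + 1)) i m with ha
    have hane : ∀ i m, i ≤ j → a i m ≠ 0 → m ≤ 2 * (j - i + 1) := by
      intro i m hij h
      rw [ha] at h
      simp only at h
      by_cases hi : i = j
      · subst hi
        rw [if_pos rfl] at h
        by_contra hc
        have h3 : ¬ m = 0 := by omega
        have h4 : ¬ m ≤ 2 := by omega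
        rw [if_neg h3, if_neg h4] at h
        exact h rfl
      · rw [if_neg hi] at h
        exact coe_a_ne _ _ _ h
    refine ⟨fun U => if ∀ x ∈ U, b x ∈ range (j + 1) then ∏ i ∈ range (j + 1), a i (om b U i)
      else 0, ?_, ?_⟩
    · intro T
      beta_reduce
      trans ∑ U ∈ (T.filter (fun x => b x ∈ range (j + 1))).powerset,
        ∏ i ∈ range (j + 1), a i (om b U i)
      swap
      · rw [coe_filt]
        apply Finset.sum_congr rfl
        intro U _
        congr
      rw [← coe_prod, Finset.prod_range_succ]
      unfold gj low
      congr 1
      · apply Finset.prod_congr rfl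
        intro i hi
        rw [Finset.mem_range] at hi
        rw [coe_tau]
        apply Finset.sum_congr rfl
        intro V _
        have hij : ¬ i = j := by omega
        rw [ha]
        simp only
        rw [if_neg hij]
        rfl
      · rw [Finset.sum_powerset_apply_card (fun m => a j m)]
        have hw : (T.filter (fun x => b x = j)).card = om b T j := rfl
        rw [hw]
        set w := om b T j
        rw [tau_two]
        have e2 : ∑ m ∈ range (w + 1), w.choose m • a j m
            = ∑ m ∈ range 3, w.choose m • a j m := by
          have e3 : ∀ m, w < m → w.choose m • a j m = 0 := by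
            intro m hm
            rw [Nat.choose_eq_zero_of_lt hm]
            simp
          have e4 : ∀ m, 2 < m → w.choose m • a j m = 0 := by
            intro m hm
            have : a j m = 0 := by
              rw [ha]
              simp only [if_true]
              rw [if_neg (by omega), if_neg (by omega)]
            rw [this]
            simp
          have hs1 : range (w + 1) ⊆ range (w + 1 + 3) := by
            intro s
            simp only [Finset.mem_range]
            omega
          have hs2 : range 3 ⊆ range (w + 1 + 3) := by
            intro s
            simp only [Finset.mem_range]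
            omega
          rw [Finset.sum_subset hs1 (fun s _ hs => e3 s (by
            rw [Finset.mem_range, not_lt] at hs; omega)),
            Finset.sum_subset hs2 (fun s _ hs => e4 s (by
            rw [Finset.mem_range, not_lt] at hs; omega))]
        rw [e2]
        simp only [Finset.sum_range_succ, Finset.sum_range_zero, ha, if_true, Nat.choose_zero_right,
          Nat.choose_one_right, nsmul_eq_mul]
        rw [← hμ]
        have hne : 1 - μ ≠ 0 := hpos.ne'
        simp
        field_simp
        ring
    · intro U
      beta_reduce
      constructor
      · split_ifs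
        · rw [Finset.prod_range_succ, abs_mul, Finset.abs_prod]
          have hA : ∏ i ∈ range j, |a i (om b U i)| ≤ 1 := by
            apply Finset.prod_le_one (fun i _ => abs_nonneg _)
            intro i hi
            rw [Finset.mem_range] at hi
            have hij : ¬ i = j := by omega
            rw [ha]
            simp only
            rw [if_neg hij]
            exact coe_a_abs _ _ _
          have hC : |a j (om b U j)| ≤ 3 := by
            have hinv : 1 / (1 - μ) ≤ 3 := by
              rw [div_le_iff₀ hpos]
              linarith
            have hinv0 : 0 ≤ 1 / (1 - μ) := by positivity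
            rw [ha]
            simp only [if_true]
            split_ifs
            · norm_num
            · rw [abs_div, abs_pow, abs_neg, abs_one, one_pow, abs_of_pos hpos]
              exact hinv
            · norm_num
          have hA0 : 0 ≤ ∏ i ∈ range j, |a i (om b U i)| :=
            Finset.prod_nonneg (fun i _ => abs_nonneg _)
          nlinarith [abs_nonneg (a j (om b U j))]
        · norm_num
      · intro hne
        have hcond : ∀ x ∈ U, b x ∈ range (j + 1) := by
          by_contra hc
          rw [if_neg hc] at hne
          exact hne rfl
        rw [if_pos hcond] at hne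
        refine ⟨fun x hx => by
          have := hcond x hx
          rw [Finset.mem_range] at this
          omega, ?_⟩
        intro i hi
        apply hane i _ hi
        intro h0
        exact hne (Finset.prod_eq_zero (Finset.mem_range.mpr (by omega)) h0)
  · refine ⟨fun U => ∏ i ∈ range I, coe_a (fun i => 2 * (I - i)) i (om b U i), ?_, ?_⟩
    · intro T
      have hT : T.filter (fun x => b x ∈ range I) = T := by
        apply Finset.filter_true_of_mem
        intro x _
        exact Finset.mem_range.mpr (hB.lt x)
      have h2 := coe_prod b (coe_a (fun i => 2 * (I - i))) (range I) T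
      rw [hT] at h2
      rw [← h2]
      unfold rho
      apply Finset.prod_congr rfl
      intro i _
      rw [coe_tau]
      rfl
    · intro U
      constructor
      · rw [Finset.abs_prod]
        exact Finset.prod_le_one (fun i _ => abs_nonneg _) (fun i _ => coe_a_abs _ _ _)
      · intro hne i hi
        have h3 : coe_a (fun i => 2 * (I - i)) i (om b U i) ≠ 0 := by
          intro h0
          exact hne (Finset.prod_eq_zero (Finset.mem_range.mpr hi) h0)
        exact coe_a_ne (fun i => 2 * (I - i)) i _ h3

end Pool.PP
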