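import Pool.Agent.Work.MP_b0c12c_pp.Loc

/-! # Isolated primes: block EBJ (helper43) -/

set_option autoImplicit false

namespace Pool.PP

open Finset

section

variable {π : Type} [Fintype π] [DecidableEq π]

/-- Indicator. -/
def ebjI (x : π) (T : Finset π) : ℝ := if x ∈ T then 1 else 0

theorem EBJ_add (q : π → ℝ) (f g : Finset π → ℝ) :
    E1 q (fun T => f T + g T) = E1 q f + E1 q g := by
  unfold E1
  rw [← Finset.sum_add_distrib]
  exact Finset.sum_congr rfl (fun T _ => by ring)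

theorem EBJ_sub (q : π → ℝ) (f g : Finset π → ℝ) :
    E1 q (fun T => f T - g T) = E1 q f - E1 q g := by
  unfold E1
  rw [← Finset.sum_sub_distrib]
  exact Finset.sum_congr rfl (fun T _ => by ring)

theorem EBJ_smul (q : π → ℝ) (c : ℝ) (f : Finset π → ℝ) :
    E1 q (fun T => c * f T) = c * E1 q f := by
  unfold E1
  rw [Finset.mul_sum]
  exact Finset.sum_congr rfl (fun T _ => by ring)

theorem EBJ_sum {κ : Type} (q : π → ℝ) (s : Finset κ) (f : κ → Finset π → ℝ) :
    E1 q (fun T => ∑ i ∈ s, f i T) = ∑ i ∈ s, E1 q (f i) := by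
  unfold E1
  rw [Finset.sum_comm]
  exact Finset.sum_congr rfl (fun T _ => by rw [Finset.mul_sum])

theorem EBJ_one (hG : Stmt_GNF) (q : π → ℝ) : E1 q (fun _ => 1) = 1 := by
  have h := hG π q (fun _ => 1)
  simpa using h

theorem EBJ_nx (hG : Stmt_GNF) (q : π → ℝ) (x : π) :
    E1 q (fun T => 1 - ebjI x T) = 1 - q x := by
  have h := hG π q (fun z => if z = x then 0 else 1)
  have h1 : ∀ T : Finset π, (∏ z ∈ T, if z = x then (0 : ℝ) else 1) = 1 - ebjI x T := by
    intro T
    unfold ebjI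
    by_cases hx : x ∈ T
    · rw [if_pos hx, Finset.prod_eq_zero hx (by simp)]; norm_num
    · rw [if_neg hx, Finset.prod_eq_one]
      · norm_num
      · intro z hz
        rw [if_neg (fun h : z = x => hx (h ▸ hz))]
  simp only [h1] at h
  rw [h, Finset.prod_eq_single x]
  · simp
  · intro z _ hz
    simp [hz]
  · intro hx
    exact absurd (Finset.mem_univ x) hx

theorem EBJ_nxy (hG : Stmt_GNF) (q : π → ℝ) (x y : π) (hxy : x ≠ y) :
    E1 q (fun T => (1 - ebjI x T) * (1 - ebjI y T)) = (1 - q x) * (1 - q y) := by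
  have h := hG π q (fun z => if z = x ∨ z = y then 0 else 1)
  have h1 : ∀ T : Finset π, (∏ z ∈ T, if z = x ∨ z = y then (0 : ℝ) else 1) =
      (1 - ebjI x T) * (1 - ebjI y T) := by
    intro T
    unfold ebjI
    by_cases hx : x ∈ T
    · rw [if_pos hx, Finset.prod_eq_zero hx (by simp)]; norm_num
    · by_cases hy : y ∈ T
      · rw [if_pos hy, Finset.prod_eq_zero hy (by simp)]; norm_num
      · rw [if_neg hx, if_neg hy, Finset.prod_eq_one]
        · norm_num
        · intro z hz
          rw [if_neg]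
          rintro (h | h)
          · exact hx (h ▸ hz)
          · exact hy (h ▸ hz)
  simp only [h1] at h
  rw [h, Finset.prod_eq_mul x y hxy]
  · simp
  · intro z _ hz
    simp [hz.1, hz.2]
  · intro hx
    exact absurd (Finset.mem_univ x) hx
  · intro hx
    exact absurd (Finset.mem_univ y) hx

theorem EBJ_x (hG : Stmt_GNF) (q : π → ℝ) (x : π) : E1 q (ebjI x) = q x := by
  have h := EBJ_nx hG q x
  rw [EBJ_sub q (fun _ => 1) (ebjI x), EBJ_one hG] at h
  linarith

theorem EBJ_xy (hG : Stmt_GNF) (q : π → ℝ) (x y : π) (hxy : x ≠ y) :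
    E1 q (fun T => ebjI x T * ebjI y T) = q x * q y := by
  have h := EBJ_nxy hG q x y hxy
  have h1 : (fun T => (1 - ebjI x T) * (1 - ebjI y T)) =
      (fun T : Finset π => ((1 : ℝ) + ebjI x T * ebjI y T) - (ebjI x T + ebjI y T)) := by
    funext T; ring
  rw [h1, EBJ_sub q (fun T => (1 : ℝ) + ebjI x T * ebjI y T) (fun T => ebjI x T + ebjI y T),
    EBJ_add q (fun _ => 1) (fun T => ebjI x T * ebjI y T), EBJ_add q (ebjI x) (ebjI y),
    EBJ_one hG, EBJ_x hG, EBJ_x hG] at h
  linarith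

theorem EBJ_om (b : π → ℕ) (j : ℕ) (T : Finset π) :
    (om b T j : ℝ) = ∑ x ∈ univ.filter (fun x => b x = j), ebjI x T := by
  unfold om ebjI
  rw [Finset.sum_ite, Finset.sum_const_zero, add_zero, Finset.sum_const, nsmul_eq_mul, mul_one]
  congr 2
  ext x
  simp only [Finset.mem_filter, Finset.mem_univ, true_and]
  tauto

theorem EBJ_tau2 (n : ℕ) : tau 2 n = 1 - (n : ℝ) + ((n : ℝ) * n - n) / 2 := by
  unfold tau
  rw [Finset.sum_range_succ, Finset.sum_range_succ, Finset.sum_range_succ, Finset.sum_range_zero,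
    Nat.cast_choose_two]
  simp only [Nat.choose_zero_right, Nat.choose_one_right, Nat.cast_one]
  ring

end

theorem p_EBJ (hW : Stmt_W1S) (hG : Stmt_GNF) (hT : Stmt_TAU) : Stmt_EBJ := by
  intro π _ _ q b j h0 h1 hlo hhi
  constructor
  · unfold mt E1
    exact Finset.sum_nonneg (fun T _ => mul_nonneg ((hW π q).2 h0 h1 T) (hT.2 1 _).1)
  · set B := univ.filter (fun x => b x = j) with hB
    have e1 : mt q b j = 1 - bs q b j + (∑ x ∈ B, ∑ y ∈ B.erase x, q x * q y) / 2 := by
      unfold mt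
      have e2 : (fun T : Finset π => tau 2 (om b T j)) =
          (fun T => ((1 : ℝ) - ∑ x ∈ B, ebjI x T) +
            (1 / 2 : ℝ) * ∑ x ∈ B, ∑ y ∈ B.erase x, ebjI x T * ebjI y T) := by
        funext T
        rw [EBJ_tau2, EBJ_om]
        have e3 : (∑ x ∈ B, ebjI x T) * (∑ x ∈ B, ebjI x T) =
            ∑ x ∈ B, ebjI x T + ∑ x ∈ B, ∑ y ∈ B.erase x, ebjI x T * ebjI y T := by
          rw [Finset.sum_mul_sum, ← Finset.sum_add_distrib]
          refine Finset.sum_congr rfl (fun x hx => ?_)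
          rw [← Finset.add_sum_erase B _ hx]
          congr 1
          unfold ebjI
          split_ifs <;> norm_num
        rw [e3]
        ring
      rw [e2, EBJ_add q (fun T => (1 : ℝ) - ∑ x ∈ B, ebjI x T)
          (fun T => (1 / 2 : ℝ) * ∑ x ∈ B, ∑ y ∈ B.erase x, ebjI x T * ebjI y T),
        EBJ_sub q (fun _ => 1) (fun T => ∑ x ∈ B, ebjI x T), EBJ_one hG,
        EBJ_smul q (1 / 2) (fun T => ∑ x ∈ B, ∑ y ∈ B.erase x, ebjI x T * ebjI y T),
        EBJ_sum q B (fun x T => ebjI x T),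
        EBJ_sum q B (fun x T => ∑ y ∈ B.erase x, ebjI x T * ebjI y T)]
      have e4 : ∑ x ∈ B, E1 q (ebjI x) = bs q b j := by
        unfold bs
        exact Finset.sum_congr rfl (fun x _ => EBJ_x hG q x)
      have e5 : ∑ x ∈ B, E1 q (fun T => ∑ y ∈ B.erase x, ebjI x T * ebjI y T) =
          ∑ x ∈ B, ∑ y ∈ B.erase x, q x * q y := by
        refine Finset.sum_congr rfl (fun x _ => ?_)
        rw [EBJ_sum q (B.erase x) (fun y T => ebjI x T * ebjI y T)]
        exact Finset.sum_congr rfl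
          (fun y hy => EBJ_xy hG q x y (Finset.ne_of_mem_erase hy).symm)
      rw [e5]
      have e6 : ∑ x ∈ B, E1 q (fun T => ebjI x T) = bs q b j := e4
      rw [e6]
      ring
    have e7 : ∑ x ∈ B, ∑ y ∈ B.erase x, q x * q y ≤ bs q b j * bs q b j := by
      have e8 : bs q b j * bs q b j = ∑ x ∈ B, ∑ y ∈ B, q x * q y := by
        unfold bs
        rw [Finset.sum_mul_sum]
      rw [e8]
      refine Finset.sum_le_sum (fun x _ => ?_)
      exact Finset.sum_le_sum_of_subset_of_nonneg (Finset.erase_subset x B)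
        (fun y _ _ => mul_nonneg (h0 x) (h0 y))
    rw [e1]
    nlinarith [e7, mul_nonneg (sub_nonneg.2 hlo) (sub_nonneg.2 hhi)]

end Pool.PP
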