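import Pool.Agent.Work.MP_b0c12c_pp.Transfer

/-! # Block EXS: finite linear combinations of expansions (helper36) -/

set_option autoImplicit false

namespace Pool.PP

open Finset Filter

theorem p_EXS : Stmt_EXS := by
  classical
  intro α ι β _ _ _ _ r A a Ψ K κ D hκ h
  have hc : ∀ s : β, ∃ c : (ι → Finset α) → ℝ, s ∈ A → a s ≠ 0 →
      (∀ t, Ψ s t = val c t) ∧
      (∀ V : Finset α, ∑ u : ι → Finset α, (if supp u = V then |c u| else 0) ≤ K s * κ ^ V.card) ∧
      ∀ u, c u ≠ 0 → ∏ x ∈ supp u, r x ≤ D := by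
    intro s
    by_cases hs : s ∈ A ∧ a s ≠ 0
    · obtain ⟨c, h1, h2, h3⟩ := h s hs.1 hs.2
      exact ⟨c, fun _ _ => ⟨h1, h2, h3⟩⟩
    · exact ⟨0, fun h1 h2 => absurd ⟨h1, h2⟩ hs⟩
  choose c hc using hc
  refine ⟨fun u => ∑ s ∈ A, a s * c s u, ?_, ?_, ?_⟩
  · intro t
    have e1 : ∀ s ∈ A, a s * Ψ s t = a s * val (c s) t := by
      intro s hs
      by_cases h0 : a s = 0
      · rw [h0, zero_mul, zero_mul]
      · rw [(hc s hs h0).1 t]
    change ∑ s ∈ A, a s * Ψ s t = val (fun u => ∑ s ∈ A, a s * c s u) t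
    rw [Finset.sum_congr rfl e1]
    unfold val
    simp only [Finset.mul_sum]
    rw [Finset.sum_comm]
    refine Finset.sum_congr rfl fun u _ => ?_
    by_cases hu : ∀ h, u h ⊆ t h
    · simp only [if_pos hu]
    · simp only [if_neg hu, mul_zero, Finset.sum_const_zero]
  · intro V
    calc ∑ u : ι → Finset α, (if supp u = V then |∑ s ∈ A, a s * c s u| else 0)
        ≤ ∑ u : ι → Finset α, ∑ s ∈ A, |a s| * (if supp u = V then |c s u| else 0) := by
          refine Finset.sum_le_sum fun u _ => ?_
          by_cases hu : supp u = V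
          · simp only [if_pos hu]
            refine (Finset.abs_sum_le_sum_abs _ _).trans (le_of_eq ?_)
            exact Finset.sum_congr rfl fun s _ => abs_mul _ _
          · simp only [if_neg hu, mul_zero, Finset.sum_const_zero, le_refl]
      _ = ∑ s ∈ A, |a s| * ∑ u : ι → Finset α, (if supp u = V then |c s u| else 0) := by
          rw [Finset.sum_comm]
          exact Finset.sum_congr rfl fun s _ => (Finset.mul_sum _ _ _).symm
      _ ≤ ∑ s ∈ A, |a s| * (K s * κ ^ V.card) := by
          refine Finset.sum_le_sum fun s hs => ?_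
          by_cases h0 : a s = 0
          · rw [h0, abs_zero, zero_mul, zero_mul]
          · exact mul_le_mul_of_nonneg_left ((hc s hs h0).2.1 V) (abs_nonneg _)
      _ = (∑ s ∈ A, |a s| * K s) * κ ^ V.card := by
          rw [Finset.sum_mul]
          exact Finset.sum_congr rfl fun s _ => by ring
  · intro u hu
    obtain ⟨s, hs, hsu⟩ := Finset.exists_ne_zero_of_sum_ne_zero hu
    exact (hc s hs (left_ne_zero_of_mul hsu)).2.2 u (right_ne_zero_of_mul hsu)

end Pool.PP
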