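import Pool.Agent.Work.MP_b0c12c_pp.Loc

set_option autoImplicit false

namespace Pool.PP

open Finset

theorem p_FMU : Stmt_FMU := by
  intro π ι _ _ _ _ J f S c m t a hc
  unfold PF
  refine Finset.sum_congr rfl fun κ _ => ?_
  by_cases h0 : c κ = 0
  · rw [h0, zero_mul, zero_mul]
  have hm : κ m = none := by
    by_contra h
    exact h0 (hc κ h)
  refine congrArg (fun r => c κ * r) (Finset.prod_congr rfl fun h _ => ?_)
  by_cases hh : h = m
  · subst hh
    rw [hm]
    rfl
  · have e : tab f S (Function.update t m a) h = tab f S t h := by
      unfold tab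
      funext s
      rw [Function.update_of_ne hh]
    rw [e]

end Pool.PP
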