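import Pool.Agent.Work.MP_b0c12c_pp.Loc

/-! # Isolated primes: block FRE, values at a free site -/

set_option autoImplicit false

namespace Pool.PP

open Finset

theorem p_FRE (hEBJ : Stmt_EBJ) (hTAU : Stmt_TAU) : Stmt_FRE := by
  intro π _ _ q b I hB
  have hom : ∀ i, om b (∅ : Finset π) i = 0 := by
    intro i
    simp [om]
  refine ⟨?_, ?_, ?_⟩
  · intro s hs
    have hj : I - 1 - s < I := by omega
    have h1 := hEBJ π q b (I - 1 - s) hB.nonneg (fun x => (hB.half x).trans (by norm_num))
      (hB.lo _ hj) (hB.hi _ hj)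
    have h2 : (1 : ℝ) - mt q b (I - 1 - s) ≠ 0 := by
      have := h1.2
      intro h
      linarith
    have h3 : low b (I - 1 - s) (∅ : Finset π) = 1 := by
      unfold low
      refine prod_eq_one ?_
      intro i _
      rw [hom, hTAU.1]
    unfold gs gj
    rw [h3, hom, hTAU.1, div_self h2, mul_one]
  · unfold rho
    refine prod_eq_one ?_
    intro i _
    rw [hom, hTAU.1]
  · intro T
    unfold rho
    refine prod_nonneg ?_
    intro i _
    exact (hTAU.2 _ _).1

end Pool.PP
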