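import Pool.Agent.Work.MP_b0c12c_pp.Loc

/-! Block GMO: moments of the site functions with an absolute constant (helper22). -/

set_option autoImplicit false
set_option linter.unusedSectionVars false

namespace Pool.PP.BGMO

open Finset

variable {π : Type} [Fintype π] [DecidableEq π]

theorem w1_nonneg {q : π → ℝ} (h0 : ∀ x, 0 ≤ q x) (h1 : ∀ x, q x ≤ 1) (T : Finset π) :
    0 ≤ w1 q T :=
  mul_nonneg (prod_nonneg fun x _ => h0 x) (prod_nonneg fun x _ => sub_nonneg.mpr (h1 x))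

theorem E1_mono {q : π → ℝ} (h0 : ∀ x, 0 ≤ q x) (h1 : ∀ x, q x ≤ 1)
    {f g : Finset π → ℝ} (h : ∀ T, f T ≤ g T) : E1 q f ≤ E1 q g :=
  sum_le_sum fun T _ => mul_le_mul_of_nonneg_left (h T) (w1_nonneg h0 h1 T)

theorem E1_nonneg {q : π → ℝ} (h0 : ∀ x, 0 ≤ q x) (h1 : ∀ x, q x ≤ 1)
    {f : Finset π → ℝ} (h : ∀ T, 0 ≤ f T) : 0 ≤ E1 q f :=
  sum_nonneg fun T _ => mul_nonneg (w1_nonneg h0 h1 T) (h T)

theorem E1_one (hP : Stmt_PRB) (q : π → ℝ) : E1 q (fun _ => (1 : ℝ)) = 1 := by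
  have := hP π q (fun _ => 0) ∅ (fun _ _ => 1)
  simpa using this

/-- The probability that block `i` is empty. -/
noncomputable def ee (q : π → ℝ) (b : π → ℕ) (i : ℕ) : ℝ :=
  ∏ x ∈ univ.filter (fun x => b x = i), (1 - q x)

theorem exp_le' {q : ℝ} (h0 : 0 ≤ q) (h1 : q ≤ 1 / 2) : Real.exp (-(2 * q)) ≤ 1 - q := by
  have h2 := Real.add_one_le_exp (2 * q)
  have h3 : 1 ≤ (1 - q) * Real.exp (2 * q) := by nlinarith
  rw [Real.exp_neg]
  have h4 := Real.exp_pos (2 * q)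
  rw [inv_le_iff_one_le_mul₀ h4]
  linarith

theorem ee_ge {q : π → ℝ} {b : π → ℕ} {I : ℕ} (hB : Blk q b I) {i : ℕ} (hi : i < I) :
    Real.exp (-2) ≤ ee q b i := by
  calc Real.exp (-2) ≤ Real.exp (-(2 * bs q b i)) :=
        Real.exp_le_exp.mpr (by linarith [hB.hi i hi])
    _ = ∏ x ∈ univ.filter (fun x => b x = i), Real.exp (-(2 * q x)) := by
        rw [← Real.exp_sum]
        congr 1
        unfold bs
        rw [mul_sum, sum_neg_distrib]
    _ ≤ ee q b i := prod_le_prod (fun _ _ => (Real.exp_pos _).le)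
        (fun x _ => exp_le' (hB.nonneg x) (hB.half x))

theorem ee_le {q : π → ℝ} {b : π → ℕ} {I : ℕ} (hB : Blk q b I) (i : ℕ) : ee q b i ≤ 1 :=
  prod_le_one (fun x _ => by linarith [hB.half x]) (fun x _ => by linarith [hB.nonneg x])

theorem fr_eq (q : π → ℝ) (b : π → ℕ) (j : ℕ) : fr q b j = ∏ i ∈ range j, ee q b i := by
  unfold fr ee
  rw [← prod_fiberwise_of_maps_to (t := range j) (g := b)]
  · refine prod_congr rfl fun i hi => prod_congr ?_ fun _ _ => rfl
    ext x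
    simp only [mem_filter, mem_univ, true_and, and_iff_right_iff_imp]
    intro h
    rw [h]
    exact mem_range.mp hi
  · intro x hx
    simpa using hx

theorem bs_nonneg {q : π → ℝ} {b : π → ℕ} {I : ℕ} (hB : Blk q b I) (i : ℕ) : 0 ≤ bs q b i :=
  sum_nonneg fun x _ => hB.nonneg x

theorem blockbound (hBLM : Stmt_BLM) {q : π → ℝ} {b : π → ℕ} {I : ℕ} (hB : Blk q b I) {r : ℕ}
    (hr1 : 1 ≤ r) (hr8 : r ≤ 8) {i : ℕ} (hi : i < I) (d : ℕ) :
    E1 q (fun T => tau (2 * d) (om b T i) ^ r) ≤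
      ee q b i * Real.exp ((1 / 4 : ℝ) ^ d * (Real.exp 512 * Real.exp 2)) := by
  have h := hBLM π q b i d r hB.nonneg (fun x => by linarith [hB.half x]) hr1
  have hbs : Real.exp (2 ^ (r + 1) * bs q b i) ≤ Real.exp 512 := by
    apply Real.exp_le_exp.mpr
    have h1 : (2 : ℝ) ^ (r + 1) ≤ 2 ^ 9 := pow_le_pow_right₀ (by norm_num) (by omega)
    have h2 := hB.hi i hi
    have h3 := bs_nonneg hB i
    have h4 : (0 : ℝ) ≤ 2 ^ (r + 1) := by positivity
    nlinarith
  have hee := ee_ge hB hi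
  have h5 : 1 ≤ ee q b i * Real.exp 2 := by
    have h6 : Real.exp (-2) * Real.exp 2 = 1 := by rw [← Real.exp_add]; simp
    rw [← h6]
    exact mul_le_mul_of_nonneg_right hee (Real.exp_pos _).le
  have hd : (0 : ℝ) ≤ (1 / 4 : ℝ) ^ d := by positivity
  have he0 : 0 ≤ ee q b i := le_trans (Real.exp_pos _).le hee
  have h7 : (1 / 4 : ℝ) ^ d * Real.exp 512 ≤
      (1 / 4 : ℝ) ^ d * Real.exp 512 * (ee q b i * Real.exp 2) :=
    le_mul_of_one_le_right (mul_nonneg hd (Real.exp_pos _).le) h5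
  have h8 : (1 / 4 : ℝ) ^ d * Real.exp (2 ^ (r + 1) * bs q b i) ≤
      (1 / 4 : ℝ) ^ d * Real.exp 512 := mul_le_mul_of_nonneg_left hbs hd
  calc E1 q (fun T => tau (2 * d) (om b T i) ^ r)
      ≤ ee q b i + (1 / 4 : ℝ) ^ d * Real.exp (2 ^ (r + 1) * bs q b i) := h
    _ ≤ ee q b i * (1 + (1 / 4 : ℝ) ^ d * (Real.exp 512 * Real.exp 2)) := by
        have h9 : ee q b i * (1 + (1 / 4 : ℝ) ^ d * (Real.exp 512 * Real.exp 2)) =
          ee q b i + (1 / 4 : ℝ) ^ d * Real.exp 512 * (ee q b i * Real.exp 2) := by ring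
        rw [h9]
        linarith
    _ ≤ ee q b i * Real.exp ((1 / 4 : ℝ) ^ d * (Real.exp 512 * Real.exp 2)) := by
        refine mul_le_mul_of_nonneg_left ?_ he0
        linarith [Real.add_one_le_exp ((1 / 4 : ℝ) ^ d * (Real.exp 512 * Real.exp 2))]

theorem tau_pow_nonneg (hTAU : Stmt_TAU) (d n r : ℕ) : 0 ≤ tau (2 * d) n ^ r :=
  pow_nonneg (hTAU.2 d n).1 r

theorem prodbound (hTAU : Stmt_TAU) (hBLM : Stmt_BLM) {q : π → ℝ} {b : π → ℕ} {I : ℕ}
    (hB : Blk q b I) {r : ℕ} (hr1 : 1 ≤ r) (hr8 : r ≤ 8) {j : ℕ} (hj : j ≤ I) (d : ℕ → ℕ)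
    (hd : ∑ i ∈ range j, (1 / 4 : ℝ) ^ (d i) ≤ 1) :
    ∏ i ∈ range j, E1 q (fun T => tau (2 * d i) (om b T i) ^ r) ≤
      Real.exp (Real.exp 512 * Real.exp 2) * fr q b j := by
  have hq1 : ∀ x, q x ≤ 1 := fun x => by linarith [hB.half x]
  have hfr : 0 ≤ fr q b j := prod_nonneg fun x _ => by linarith [hB.half x]
  calc ∏ i ∈ range j, E1 q (fun T => tau (2 * d i) (om b T i) ^ r)
      ≤ ∏ i ∈ range j, (ee q b i *
          Real.exp ((1 / 4 : ℝ) ^ (d i) * (Real.exp 512 * Real.exp 2))) := by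
        refine prod_le_prod (fun i _ => ?_) (fun i hi => ?_)
        · exact E1_nonneg hB.nonneg hq1 fun T => tau_pow_nonneg hTAU _ _ _
        · exact blockbound hBLM hB hr1 hr8 (lt_of_lt_of_le (mem_range.mp hi) hj) (d i)
    _ = Real.exp ((∑ i ∈ range j, (1 / 4 : ℝ) ^ (d i)) * (Real.exp 512 * Real.exp 2)) *
          fr q b j := by
        rw [prod_mul_distrib, ← Real.exp_sum, ← sum_mul, ← fr_eq]
        ring
    _ ≤ Real.exp (Real.exp 512 * Real.exp 2) * fr q b j := by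
        refine mul_le_mul_of_nonneg_right (Real.exp_le_exp.mpr ?_) hfr
        have h1 : 0 < Real.exp 512 * Real.exp 2 := by positivity
        nlinarith

theorem geo (j : ℕ) : ∑ i ∈ range j, (1 / 4 : ℝ) ^ (j - i) ≤ 1 := by
  induction j with
  | zero => simp
  | succ j ih =>
    rw [sum_range_succ]
    have h1 : ∑ i ∈ range j, (1 / 4 : ℝ) ^ (j + 1 - i)
        = (1 / 4) * ∑ i ∈ range j, (1 / 4 : ℝ) ^ (j - i) := by
      rw [mul_sum]
      refine sum_congr rfl fun i hi => ?_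
      have h2 : j + 1 - i = (j - i) + 1 := by
        have := mem_range.mp hi
        omega
      rw [h2, pow_succ]
      ring
    rw [h1]
    have h3 : j + 1 - j = 1 := by omega
    rw [h3]
    linarith

theorem geo' (j : ℕ) : ∑ i ∈ range j, (1 / 4 : ℝ) ^ (j - i + 1) ≤ 1 := by
  refine le_trans (sum_le_sum fun i _ => ?_) (geo j)
  exact pow_le_pow_of_le_one (by norm_num) (by norm_num) (by omega)

/-- The factors of `|gj| ^ r`. -/
noncomputable def hh (q : π → ℝ) (b : π → ℕ) (j r : ℕ) (i n : ℕ) : ℝ :=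
  if i < j then tau (2 * (j - i + 1)) n ^ r
  else |(tau 2 n - mt q b j) / (1 - mt q b j)| ^ r

theorem gj_abs (hTAU : Stmt_TAU) (q : π → ℝ) (b : π → ℕ) (j r : ℕ) (T : Finset π) :
    |gj q b j T| ^ r = ∏ i ∈ range (j + 1), hh q b j r i (om b T i) := by
  rw [prod_range_succ]
  unfold gj
  rw [abs_mul, mul_pow]
  congr 1
  · have h1 : 0 ≤ low b j T := prod_nonneg fun i _ => (hTAU.2 _ _).1
    rw [abs_of_nonneg h1]
    unfold low
    rw [← prod_pow]
    refine prod_congr rfl fun i hi => ?_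
    simp [hh, mem_range.mp hi]
  · simp [hh]

theorem topbound (hPRB : Stmt_PRB) (hTAU : Stmt_TAU) (hBLM : Stmt_BLM) (hEBJ : Stmt_EBJ)
    {q : π → ℝ} {b : π → ℕ} {I : ℕ} (hB : Blk q b I) {r : ℕ} (hr1 : 1 ≤ r) (hr8 : r ≤ 8)
    {j : ℕ} (hj : j < I) :
    E1 q (fun T => |(tau 2 (om b T j) - mt q b j) / (1 - mt q b j)| ^ r) ≤
      (8 / 3 : ℝ) ^ 8 * (2 + Real.exp (Real.exp 512 * Real.exp 2)) := by
  have hq1 : ∀ x, q x ≤ 1 := fun x => by linarith [hB.half x]
  obtain ⟨hm0, hm1⟩ := hEBJ π q b j hB.nonneg hq1 (hB.lo j hj) (hB.hi j hj)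
  have hblk := blockbound hBLM hB hr1 hr8 hj 1
  have h1 : ∀ T, |(tau 2 (om b T j) - mt q b j) / (1 - mt q b j)| ^ r ≤
      (8 / 3 : ℝ) ^ 8 * (1 + tau (2 * 1) (om b T j) ^ r) := by
    intro T
    have ht : 0 ≤ tau (2 * 1) (om b T j) := (hTAU.2 1 (om b T j)).1
    have h2 : |(tau 2 (om b T j) - mt q b j) / (1 - mt q b j)| ≤
        (8 / 3) * max 1 (tau (2 * 1) (om b T j)) := by
      rw [abs_div, abs_of_pos (by linarith : (0 : ℝ) < 1 - mt q b j)]
      rw [div_le_iff₀ (by linarith)]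
      have h3 : |tau 2 (om b T j) - mt q b j| ≤ max 1 (tau (2 * 1) (om b T j)) := by
        rw [abs_le]
        constructor
        · have := le_max_left 1 (tau (2 * 1) (om b T j))
          have h4 : tau 2 (om b T j) = tau (2 * 1) (om b T j) := rfl
          rw [h4]
          linarith
        · have := le_max_right 1 (tau (2 * 1) (om b T j))
          have h4 : tau 2 (om b T j) = tau (2 * 1) (om b T j) := rfl
          rw [h4]
          linarith
      have h5 : 0 ≤ max 1 (tau (2 * 1) (om b T j)) :=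
        le_trans zero_le_one (le_max_left _ _)
      nlinarith
    calc |(tau 2 (om b T j) - mt q b j) / (1 - mt q b j)| ^ r
        ≤ ((8 / 3) * max 1 (tau (2 * 1) (om b T j))) ^ r :=
          pow_le_pow_left₀ (abs_nonneg _) h2 r
      _ = (8 / 3 : ℝ) ^ r * (max 1 (tau (2 * 1) (om b T j))) ^ r := mul_pow _ _ _
      _ ≤ (8 / 3 : ℝ) ^ 8 * (1 + tau (2 * 1) (om b T j) ^ r) := by
          refine mul_le_mul (pow_le_pow_right₀ (by norm_num) hr8) ?_ (by positivity)
            (by positivity)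
          rcases le_total 1 (tau (2 * 1) (om b T j)) with h | h
          · rw [max_eq_right h]
            linarith
          · rw [max_eq_left h, one_pow]
            linarith [tau_pow_nonneg hTAU 1 (om b T j) r]
  have h2 : E1 q (fun T => |(tau 2 (om b T j) - mt q b j) / (1 - mt q b j)| ^ r) ≤
      (8 / 3 : ℝ) ^ 8 * (E1 q (fun _ => (1 : ℝ)) + E1 q (fun T => tau (2 * 1) (om b T j) ^ r)) := by
    refine le_trans (E1_mono hB.nonneg hq1 h1) (le_of_eq ?_)
    unfold E1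
    rw [← sum_add_distrib, mul_sum]
    refine sum_congr rfl fun T _ => ?_
    ring
  rw [E1_one hPRB] at h2
  refine le_trans h2 (mul_le_mul_of_nonneg_left ?_ (by positivity))
  have h3 : ee q b j * Real.exp ((1 / 4 : ℝ) ^ 1 * (Real.exp 512 * Real.exp 2)) ≤
      1 * Real.exp (Real.exp 512 * Real.exp 2) := by
    refine mul_le_mul (ee_le hB j) (Real.exp_le_exp.mpr ?_) (Real.exp_pos _).le zero_le_one
    have h4 : 0 < Real.exp 512 * Real.exp 2 := by positivity
    linarith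
  linarith

end Pool.PP.BGMO

namespace Pool.PP

open Finset BGMO

/-- Block GMO. -/
theorem p_GMO (hPRB : Stmt_PRB) (hBLM : Stmt_BLM) (hEBJ : Stmt_EBJ) (hTAU : Stmt_TAU) :
    Stmt_GMO := by
  have hK : 0 < Real.exp (Real.exp 512 * Real.exp 2) := Real.exp_pos _
  refine ⟨(8 / 3 : ℝ) ^ 8 * (2 + Real.exp (Real.exp 512 * Real.exp 2)) *
    Real.exp (Real.exp 512 * Real.exp 2), by positivity, ?_⟩
  intro π _ _ q b I hB r hr1 hr8
  have hq1 : ∀ x, q x ≤ 1 := fun x => by linarith [hB.half x]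
  have hfr : ∀ j, 0 ≤ fr q b j := fun j => prod_nonneg fun x _ => by linarith [hB.half x]
  refine ⟨fun j hj => ?_, ?_⟩
  · have h1 : (fun T => |gj q b j T| ^ r) =
        fun T => ∏ i ∈ range (j + 1), hh q b j r i (om b T i) := funext (gj_abs hTAU q b j r)
    rw [h1, hPRB π q b (range (j + 1)) (hh q b j r), prod_range_succ]
    have h2 : ∏ i ∈ range j, E1 q (fun T => hh q b j r i (om b T i)) =
        ∏ i ∈ range j, E1 q (fun T => tau (2 * (j - i + 1)) (om b T i) ^ r) := by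
      refine prod_congr rfl fun i hi => ?_
      congr 1
      funext T
      simp [hh, mem_range.mp hi]
    have h3 : E1 q (fun T => hh q b j r j (om b T j)) =
        E1 q (fun T => |(tau 2 (om b T j) - mt q b j) / (1 - mt q b j)| ^ r) := by
      congr 1
      funext T
      simp [hh]
    rw [h2, h3]
    have h4 := prodbound hTAU hBLM hB hr1 hr8 hj.le (fun i => j - i + 1) (geo' j)
    have h5 := topbound hPRB hTAU hBLM hEBJ hB hr1 hr8 hj
    have h6 : 0 ≤ E1 q (fun T => |(tau 2 (om b T j) - mt q b j) / (1 - mt q b j)| ^ r) :=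
      E1_nonneg hB.nonneg hq1 fun T => by positivity
    calc _ ≤ (Real.exp (Real.exp 512 * Real.exp 2) * fr q b j) *
          ((8 / 3 : ℝ) ^ 8 * (2 + Real.exp (Real.exp 512 * Real.exp 2))) :=
          mul_le_mul h4 h5 h6 (mul_nonneg hK.le (hfr j))
      _ = _ := by ring
  · have h1 : (fun T => rho b I T ^ r) =
        fun T => ∏ i ∈ range I, (fun i n => tau (2 * (I - i)) n ^ r) i (om b T i) := by
      funext T
      unfold rho
      rw [← prod_pow]
    rw [h1, hPRB π q b (range I) (fun i n => tau (2 * (I - i)) n ^ r)]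
    have h4 := prodbound hTAU hBLM hB hr1 hr8 le_rfl (fun i => I - i) (geo I)
    refine le_trans h4 ?_
    have h5 : (1 : ℝ) ≤ (8 / 3 : ℝ) ^ 8 * (2 + Real.exp (Real.exp 512 * Real.exp 2)) := by
      have h6 : (1 : ℝ) ≤ (8 / 3 : ℝ) ^ 8 := by norm_num
      nlinarith
    have h7 : 0 ≤ Real.exp (Real.exp 512 * Real.exp 2) * fr q b I := mul_nonneg hK.le (hfr I)
    calc Real.exp (Real.exp 512 * Real.exp 2) * fr q b I
        ≤ ((8 / 3 : ℝ) ^ 8 * (2 + Real.exp (Real.exp 512 * Real.exp 2))) *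
          (Real.exp (Real.exp 512 * Real.exp 2) * fr q b I) := le_mul_of_one_le_left h7 h5
      _ = _ := by ring

end Pool.PP
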