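import Pool.Agent.Work.MP_b0c12c_pp.Loc

/-! # Isolated primes: block GNF (helper43) -/

set_option autoImplicit false

namespace Pool.PP

open Finset

theorem p_GNF : Stmt_GNF := by
  intro π _ _ q c
  unfold E1 w1
  have h := Finset.prod_add (fun x => q x * c x) (fun x => 1 - q x) (Finset.univ : Finset π)
  rw [Finset.powerset_univ] at h
  calc ∑ T : Finset π, (∏ x ∈ T, q x) * (∏ x ∈ Tᶜ, (1 - q x)) * ∏ x ∈ T, c x
      = ∑ T : Finset π, (∏ x ∈ T, q x * c x) * ∏ x ∈ univ \ T, (1 - q x) := by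
        refine Finset.sum_congr rfl (fun T _ => ?_)
        rw [Finset.prod_mul_distrib, Finset.compl_eq_univ_sdiff]; ring
    _ = ∏ x, (q x * c x + (1 - q x)) := h.symm
    _ = ∏ x, (1 - q x + q x * c x) := Finset.prod_congr rfl (fun x _ => by ring)

end Pool.PP
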