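import Pool.Agent.Work.MP_b0c12c_pp.Loc

/-! # Block IND: a function that does not see the site `m` is independent of it (helper36) -/

set_option autoImplicit false

namespace Pool.PP

open Finset

namespace IND_

theorem split {ι γ : Type} [Fintype ι] [DecidableEq ι] [Fintype γ] [DecidableEq γ] (m : ι)
    (a₀ : γ) (F : (ι → γ) → ℝ) :
    ∑ t : ι → γ, F t =
      ∑ t ∈ univ.filter (fun t : ι → γ => t m = a₀), ∑ a : γ, F (Function.update t m a) := by
  rw [← Finset.sum_product']
  refine Finset.sum_bij' (fun t _ => (Function.update t m a₀, t m))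
    (fun z _ => Function.update z.1 m z.2) ?_ ?_ ?_ ?_ ?_
  · intro t _
    simp
  · intro z _
    simp
  · intro t _
    simp
  · intro z hz
    simp only [mem_product, mem_filter, mem_univ, true_and, and_true] at hz
    obtain ⟨z1, z2⟩ := z
    simp only [Function.update_idem, Function.update_self, Prod.mk.injEq, and_true]
    simp only at hz
    rw [← hz]
    exact Function.update_eq_self _ _
  · intro t _
    simp

end IND_

theorem p_IND (hW : Stmt_W1S) (_ : Stmt_PMU) : Stmt_IND := by
  intro π ι _ _ _ _ q A r m hA
  have hP : ∀ (t : ι → Finset π) (a : Finset π),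
      ∏ h, w1 q (Function.update t m a h) = w1 q a * ∏ h ∈ univ.erase m, w1 q (t h) := by
    intro t a
    rw [← Finset.mul_prod_erase univ _ (mem_univ m), Function.update_self]
    congr 1
    refine Finset.prod_congr rfl fun h hh => ?_
    rw [Function.update_of_ne (Finset.ne_of_mem_erase hh)]
  set B : ℝ := ∑ t ∈ univ.filter (fun t : ι → Finset π => t m = ∅),
    (∏ h ∈ univ.erase m, w1 q (t h)) * A t with hB
  have e1 : EM q (fun t => A t * r (t m)) = B * E1 q r := by
    unfold EM E1
    rw [IND_.split m ∅, hB, Finset.sum_mul]
    refine Finset.sum_congr rfl fun t _ => ?_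
    rw [Finset.mul_sum]
    refine Finset.sum_congr rfl fun a _ => ?_
    change (∏ h, w1 q (Function.update t m a h)) *
      (A (Function.update t m a) * r (Function.update t m a m)) = _
    rw [hP, hA, Function.update_self]
    ring
  have e2 : EM q A = B := by
    unfold EM
    rw [IND_.split m ∅, hB]
    refine Finset.sum_congr rfl fun t _ => ?_
    calc ∑ a : Finset π, (∏ h, w1 q (Function.update t m a h)) * A (Function.update t m a)
        = ∑ a : Finset π, w1 q a * ((∏ h ∈ univ.erase m, w1 q (t h)) * A t) := by
          refine Finset.sum_congr rfl fun a _ => ?_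
          rw [hP, hA]
          ring
      _ = (∏ h ∈ univ.erase m, w1 q (t h)) * A t := by
          rw [← Finset.sum_mul, (hW π q).1, one_mul]
  rw [e1, e2]

end Pool.PP
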