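import Pool.Agent.Work.MP_b0c12c_pp.Arith

set_option autoImplicit false

namespace Pool.PP

open Finset Filter

namespace LDA

theorem class_count (x Y d c : ℕ) (hd : 0 < d) :
    |(((Ioc x (x + Y)).filter (fun n => n ≡ c [MOD d])).card : ℝ) - Y / d| ≤ 1 := by
  have h := Nat.Ioc_filter_modEq_card x (x + Y) hd c
  have hdq : (0 : ℚ) < d := by exact_mod_cast hd
  have hmono : ((x : ℚ) - c) / d ≤ (((x + Y : ℕ) : ℚ) - c) / d := by
    have : (x : ℚ) ≤ ((x + Y : ℕ) : ℚ) := by push_cast; linarith [show (0 : ℚ) ≤ Y from by positivity]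
    gcongr
  have hf := Int.floor_le_floor hmono
  rw [max_eq_left (by linarith)] at h
  have hR : (((Ioc x (x + Y)).filter (fun n => n ≡ c [MOD d])).card : ℚ) =
      ((⌊(((x + Y : ℕ) : ℚ) - c) / d⌋ : ℤ) : ℚ) - ((⌊((x : ℚ) - c) / d⌋ : ℤ) : ℚ) := by
    have := congrArg (fun z : ℤ => (z : ℚ)) h
    push_cast at this ⊢
    exact this
  have hQ : |(((Ioc x (x + Y)).filter (fun n => n ≡ c [MOD d])).card : ℚ) - Y / d| ≤ 1 := by
    rw [hR, abs_le]
    have e1 : (((x + Y : ℕ) : ℚ) - c) / d - ((x : ℚ) - c) / d = Y / d := by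
      push_cast; field_simp; ring
    have a1 := Int.floor_le ((((x + Y : ℕ) : ℚ) - c) / d)
    have a2 := Int.lt_floor_add_one ((((x + Y : ℕ) : ℚ) - c) / d)
    have a3 := Int.floor_le (((x : ℚ) - c) / d)
    have a4 := Int.lt_floor_add_one (((x : ℚ) - c) / d)
    constructor <;> linarith
  have := (Rat.cast_le (K := ℝ)).2 hQ
  push_cast at this
  exact_mod_cast this

theorem modEq_prod (V : Finset ℕ) (hV : ∀ p ∈ V, p.Prime) (n c : ℕ) :
    n ≡ c [MOD ∏ p ∈ V, p] ↔ ∀ p ∈ V, n ≡ c [MOD p] := by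
  constructor
  · intro h p hp
    exact h.of_dvd (Finset.dvd_prod_of_mem _ hp)
  · intro h
    rw [Nat.modEq_iff_dvd]
    push_cast
    apply Finset.prod_dvd_of_coprime
    · intro p hp q hq hpq
      exact Nat.isCoprime_iff_coprime.2 ((Nat.coprime_primes (hV p hp) (hV q hq)).2 hpq)
    · intro p hp
      exact (Nat.modEq_iff_dvd.1 (h p hp))

theorem err_le (x Y : ℕ) (V : Finset ℕ) (hV : ∀ p ∈ V, p.Prime) (a : ℕ → ℕ)
    (ha : ∀ p, p.Prime → a p ∈ Ico 0 p) :
    err (fun p : ℕ => p) (fun p => Ico 0 p) (Ioc x (x + Y)) (Y : ℝ) a V ≤ 1 := by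
  classical
  obtain ⟨c, hc⟩ := Nat.chineseRemainderOfFinset a (fun p => p) V
    (fun p hp => (hV p hp).ne_zero)
    (fun p hp q hq hpq => (Nat.coprime_primes (hV p hp) (hV q hq)).2 hpq)
  have hpos : 0 < ∏ p ∈ V, p := Finset.prod_pos fun p hp => (hV p hp).pos
  have hset : (Ioc x (x + Y)).filter (fun n => ∀ p ∈ V, n % p = a p) =
      (Ioc x (x + Y)).filter (fun n => n ≡ c [MOD ∏ p ∈ V, p]) := by
    ext n
    simp only [mem_filter]
    refine and_congr_right fun _ => ?_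
    rw [modEq_prod V hV]
    refine forall₂_congr fun p hp => ?_
    have h1 : c % p = a p % p := hc p hp
    have h2 : a p % p = a p := Nat.mod_eq_of_lt (mem_Ico.1 (ha p (hV p hp))).2
    rw [Nat.ModEq, h1, h2]
  unfold err
  rw [hset]
  have hprod : (∏ p ∈ V, ((Ico 0 p).card : ℝ)) = ((∏ p ∈ V, p : ℕ) : ℝ) := by
    push_cast
    simp
  rw [hprod]
  exact class_count x Y _ c hpos

theorem pow_card_le (N : ℕ) (V : Finset ℕ) (hV : ∀ p ∈ V, p.Prime) :
    (2 ^ N : ℝ) ^ V.card ≤ ((2 : ℝ) ^ N) ^ (2 ^ N) * ∏ p ∈ V, (p : ℝ) := by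
  classical
  have h1 : (2 ^ N : ℝ) ^ V.card ≤
      ∏ p ∈ V, ((if p ≤ 2 ^ N then (2 : ℝ) ^ N else 1) * p) := by
    rw [← Finset.prod_const]
    apply Finset.prod_le_prod
    · intro p _; positivity
    · intro p hp
      have hp1 : (1 : ℝ) ≤ p := by exact_mod_cast (hV p hp).one_le
      split_ifs with h
      · have : (0 : ℝ) < 2 ^ N := by positivity
        nlinarith
      · rw [one_mul]
        exact_mod_cast (not_le.1 h).le
  refine h1.trans ?_
  rw [Finset.prod_mul_distrib]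
  apply mul_le_mul_of_nonneg_right _ (by positivity)
  rw [Finset.prod_ite, Finset.prod_const, Finset.prod_const_one, mul_one]
  apply pow_le_pow_right₀ (by exact one_le_pow₀ (by norm_num))
  calc (V.filter (fun p => p ≤ 2 ^ N)).card ≤ (Icc 1 (2 ^ N)).card := by
        apply Finset.card_le_card
        intro p hp
        rw [mem_filter] at hp
        exact mem_Icc.2 ⟨(hV p hp.1).one_le, hp.2⟩
    _ = 2 ^ N := by simp

theorem card_VV (VV : Finset (Finset ℕ)) (z : ℝ) (hz : 0 ≤ z)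
    (h : ∀ V ∈ VV, (∀ p ∈ V, p.Prime) ∧ ∏ p ∈ V, (p : ℝ) ≤ z) : (VV.card : ℝ) ≤ z := by
  classical
  have h1 : VV.card ≤ (Icc 1 ⌊z⌋₊).card := by
    apply Finset.card_le_card_of_injOn (fun V => ∏ p ∈ V, p)
    · intro V hV
      have := h V hV
      simp only [coe_Icc, Set.mem_Icc]
      constructor
      · exact Finset.prod_pos fun p hp => (this.1 p hp).pos
      · apply Nat.le_floor
        push_cast
        exact this.2
    · intro V hV W hW hVW
      have e1 := Nat.primeFactors_prod (h V hV).1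
      have e2 := Nat.primeFactors_prod (h W hW).1
      simp only at hVW
      rw [← e1, hVW, e2]
  rw [Nat.card_Icc, Nat.add_sub_cancel] at h1
  calc (VV.card : ℝ) ≤ (⌊z⌋₊ : ℝ) := by exact_mod_cast h1
    _ ≤ z := Nat.floor_le hz

end LDA

theorem p_LDA : Stmt_LDA := by
  intro N B
  have hlim : ∀ᶠ L : ℝ in atTop, (((2 : ℝ) ^ N) ^ (2 ^ N)) * L ^ B ≤ Real.exp (L / 4) := by
    have h1 : Tendsto (fun L : ℝ => Real.exp (L / 4) / L ^ B) atTop atTop := by
      have h2 := (Real.tendsto_exp_div_pow_atTop B).comp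
        (tendsto_id.atTop_div_const (show (0 : ℝ) < 4 by norm_num))
      have h3 : Tendsto (fun L : ℝ => (1 / 4 ^ B : ℝ) * (Real.exp (L / 4) / (L / 4) ^ B)) atTop
          atTop := Tendsto.const_mul_atTop (by positivity) h2
      refine h3.congr' ?_
      filter_upwards [eventually_gt_atTop 0] with L hL
      rw [div_pow]
      field_simp
    filter_upwards [h1.eventually_ge_atTop (((2 : ℝ) ^ N) ^ (2 ^ N)), eventually_gt_atTop 0]
      with L h hL
    rwa [le_div_iff₀ (by positivity)] at h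
  filter_upwards [hlim, eventually_gt_atTop 0] with L hL hL0 x Y hY VV hVV a ha
  have hsum : ∑ V ∈ VV, (2 ^ N : ℝ) ^ V.card *
      err (fun p : ℕ => p) (fun p => Ico 0 p) (Ioc x (x + Y)) Y (a V) V ≤
      ∑ V ∈ VV, (((2 : ℝ) ^ N) ^ (2 ^ N)) * Real.exp (L / 8) := by
    apply Finset.sum_le_sum
    intro V hV
    have h1 := LDA.pow_card_le N V (hVV V hV).1
    have h2 := LDA.err_le x Y V (hVV V hV).1 (a V) (ha V)
    have h3 : (0 : ℝ) ≤ (2 ^ N : ℝ) ^ V.card := by positivity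
    calc _ ≤ (2 ^ N : ℝ) ^ V.card * 1 := mul_le_mul_of_nonneg_left h2 h3
      _ = (2 ^ N : ℝ) ^ V.card := mul_one _
      _ ≤ ((2 : ℝ) ^ N) ^ (2 ^ N) * ∏ p ∈ V, (p : ℝ) := h1
      _ ≤ _ := mul_le_mul_of_nonneg_left (hVV V hV).2 (by positivity)
  refine hsum.trans ?_
  rw [Finset.sum_const, nsmul_eq_mul]
  have h4 := LDA.card_VV VV (Real.exp (L / 8)) (by positivity) hVV
  rw [le_div_iff₀ (by positivity)]
  calc (VV.card : ℝ) * (((2 : ℝ) ^ N) ^ (2 ^ N) * Real.exp (L / 8)) * L ^ B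
      ≤ Real.exp (L / 8) * (((2 : ℝ) ^ N) ^ (2 ^ N) * Real.exp (L / 8)) * L ^ B := by gcongr
    _ = (((2 : ℝ) ^ N) ^ (2 ^ N) * L ^ B) * (Real.exp (L / 8) * Real.exp (L / 8)) := by ring
    _ ≤ Real.exp (L / 4) * (Real.exp (L / 8) * Real.exp (L / 8)) := by gcongr
    _ = Real.exp (L / 2) := by rw [← Real.exp_add, ← Real.exp_add]; congr 1; ring
    _ ≤ Y := hY

end Pool.PP
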