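import Pool.Agent.Work.MP_b0c12c_pp.Loc

/-! # Block LOC (helper10) -/

set_option autoImplicit false

namespace Pool.PP

open Finset

section
variable {π ι : Type} [Fintype π] [DecidableEq π] [Fintype ι] [DecidableEq ι]

omit [DecidableEq ι] in
lemma EM_w_nonneg (hW : Stmt_W1S) (q : π → ℝ) (h0 : ∀ x, 0 ≤ q x) (h1 : ∀ x, q x ≤ 1)
    (t : ι → Finset π) : 0 ≤ ∏ h, w1 q (t h) :=
  Finset.prod_nonneg fun h _ => (hW π q).2 h0 h1 (t h)

lemma EM_le (hW : Stmt_W1S) (q : π → ℝ) (h0 : ∀ x, 0 ≤ q x) (h1 : ∀ x, q x ≤ 1)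
    (Φ Φ' : (ι → Finset π) → ℝ) (h : ∀ t, Φ t ≤ Φ' t) : EM q Φ ≤ EM q Φ' :=
  Finset.sum_le_sum fun t _ => mul_le_mul_of_nonneg_left (h t) (EM_w_nonneg hW q h0 h1 t)

lemma EM_add' (q : π → ℝ) (Φ Φ' : (ι → Finset π) → ℝ) :
    EM q (fun t => Φ t + Φ' t) = EM q Φ + EM q Φ' := by
  unfold EM; rw [← Finset.sum_add_distrib]; exact Finset.sum_congr rfl fun t _ => by ring

lemma EM_mul' (q : π → ℝ) (a : ℝ) (Φ : (ι → Finset π) → ℝ) :
    EM q (fun t => a * Φ t) = a * EM q Φ := by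
  unfold EM; rw [Finset.mul_sum]; exact Finset.sum_congr rfl fun t _ => by ring

lemma EM_sum' {β : Type} (q : π → ℝ) (s : Finset β) (Φ : β → (ι → Finset π) → ℝ) :
    EM q (fun t => ∑ i ∈ s, Φ i t) = ∑ i ∈ s, EM q (Φ i) := by
  unfold EM
  rw [Finset.sum_comm]
  exact Finset.sum_congr rfl fun t _ => by rw [Finset.mul_sum]

end

theorem p_LOC (hW : Stmt_W1S) (hIND : Stmt_IND) (hFMU : Stmt_FMU) (hBRK : Stmt_BRK)
    (hMOM : Stmt_MOM) (hLOCM : Stmt_LOCM) (hCMP : Stmt_CMP) (hORT : Stmt_ORT) (hFRE : Stmt_FRE)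
    (hGMO : Stmt_GMO) : Stmt_LOC := by
  intro C R
  obtain ⟨C', hC', hG⟩ := hGMO
  obtain ⟨C1, hC1p, hC1C⟩ : ∃ C1 : ℝ, 1 ≤ C1 ∧ C ≤ C1 :=
    ⟨max C 1, le_max_right _ _, le_max_left _ _⟩
  obtain ⟨R1, hR1p, hR1R⟩ : ∃ R1 : ℝ, 0 ≤ R1 ∧ R ≤ R1 :=
    ⟨max R 0, le_max_right _ _, le_max_left _ _⟩
  obtain ⟨R', hR'⟩ : ∃ R' : ℝ, R' = 2 * C' * C1 * R1 := ⟨_, rfl⟩
  have hR'p : 0 ≤ R' := by rw [hR']; positivity
  obtain ⟨J, hJ0, hJ4, hJ8⟩ : ∃ J : ℕ, 0 < J ∧ 4 * R' ≤ (J : ℝ) ∧ 8 * R' ^ 2 ≤ (J : ℝ) := by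
    refine ⟨⌈max (4 * R') (8 * R' ^ 2)⌉₊ + 1, by omega, ?_, ?_⟩
    · push_cast
      exact (le_max_left _ _).trans ((Nat.le_ceil _).trans (by linarith))
    · push_cast
      exact (le_max_right _ _).trans ((Nat.le_ceil _).trans (by linarith))
  obtain ⟨M, hM⟩ : ∃ M : ℝ, M = C' * C1 * R1 * 2 ^ J := ⟨_, rfl⟩
  have hMp : 0 ≤ M := by rw [hM]; positivity
  obtain ⟨B0, hB0⟩ : ∃ B0 : ℝ, B0 = Real.exp (2 ^ 9 * M) := ⟨_, rfl⟩
  have hB0p : 0 < B0 := by rw [hB0]; exact Real.exp_pos _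
  obtain ⟨ε, hε⟩ : ∃ ε : ℝ, ε = min (1 / 100) (1 / (128 * B0 * (1 + R'))) := ⟨_, rfl⟩
  have hDp : 0 < 128 * B0 * (1 + R') := by positivity
  have hεp : 0 < ε := by rw [hε]; exact lt_min (by norm_num) (by positivity)
  refine ⟨J, B0 + 1, ε, hJ0, hεp, ?_⟩
  intro π ι _ _ _ _ q b I S hB hfr hJI hS hk
  have h0 : ∀ x, 0 ≤ q x := hB.nonneg
  have hh : ∀ x, q x ≤ 1 / 2 := hB.half
  have h1 : ∀ x, q x ≤ 1 := fun x => (hh x).trans (by norm_num)
  have hO : Orth q (fun s : Fin J => gs q b I s) := hORT π q b I J hB hJI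
  obtain ⟨-, -, hrn⟩ := hFRE π q b I hB
  obtain ⟨k, hkdef⟩ : ∃ k : ℝ, k = (Fintype.card ι : ℝ) := ⟨_, rfl⟩
  rw [← hkdef] at hk
  have hq2 : 0 ≤ q2 q := Finset.sum_nonneg fun x _ => sq_nonneg _
  have hk0 : 0 ≤ k := by rw [hkdef]; exact Nat.cast_nonneg _
  have hSk : (S.card : ℝ) ≤ k := by
    rw [hkdef]; exact_mod_cast Finset.card_le_univ S
  have hkk : k ^ 2 * q2 q ≤ k ^ 3 * q2 q := by
    rcases Nat.eq_zero_or_pos (Fintype.card ι) with h | h
    · have : k = 0 := by rw [hkdef, h]; simp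
      rw [this]; simp
    · have h1k : 1 ≤ k := by rw [hkdef]; exact_mod_cast h
      have : k ^ 2 ≤ k ^ 3 := pow_le_pow_right₀ h1k (by norm_num)
      exact mul_le_mul_of_nonneg_right this hq2
  have hε1 : ε ≤ 1 / 100 := by rw [hε]; exact min_le_left _ _
  have hε2 : ε * (128 * B0 * (1 + R')) ≤ 1 := by
    have := min_le_right (1 / 100 : ℝ) (1 / (128 * B0 * (1 + R')))
    rw [← hε] at this
    calc ε * (128 * B0 * (1 + R')) ≤ 1 / (128 * B0 * (1 + R')) * (128 * B0 * (1 + R')) :=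
          mul_le_mul_of_nonneg_right this hDp.le
      _ = 1 := by field_simp
  have hk2 : k ^ 2 * q2 q ≤ 1 / 100 := hkk.trans (hk.trans hε1)
  have hkq : ∀ x, k * q x ≤ 1 / 10 := by
    intro x
    have h2 : q x ^ 2 ≤ q2 q := Finset.single_le_sum (f := fun x => q x ^ 2)
      (fun y _ => sq_nonneg _) (Finset.mem_univ x)
    have : (k * q x) ^ 2 ≤ (1 / 10) ^ 2 := by
      calc (k * q x) ^ 2 = k ^ 2 * q x ^ 2 := by ring
        _ ≤ k ^ 2 * q2 q := mul_le_mul_of_nonneg_left h2 (sq_nonneg _)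
        _ ≤ 1 / 100 := hk2
        _ = (1 / 10) ^ 2 := by norm_num
    exact le_of_sq_le_sq this (by norm_num)
  -- decay
  have hdec : ∀ j ≤ I, fr q b j ≤ C1 * (1 / 2 : ℝ) ^ j := fun j hj =>
    (hfr j hj).trans (mul_le_mul_of_nonneg_right hC1C (by positivity))
  have hG1 : ∀ r : ℕ, 1 ≤ r → r ≤ 8 → ∀ s : Fin J,
      E1 q (fun T => |gs q b I s T| ^ r) ≤ C' * C1 * (1 / 2 : ℝ) ^ (I - 1 - (s : ℕ)) := by
    intro r hr hr8 s
    have hs := s.2
    have := (hG π q b I hB r hr hr8).1 (I - 1 - (s : ℕ)) (by omega)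
    refine this.trans ?_
    rw [mul_assoc]
    exact mul_le_mul_of_nonneg_left (hdec _ (by omega)) hC'.le
  obtain ⟨A, hA⟩ : ∃ A : ℝ, A = C' * C1 * (2 ^ J * (1 / 2 : ℝ) ^ I) := ⟨_, rfl⟩
  have hAp : 0 ≤ A := by rw [hA]; positivity
  have hpow : ∀ s : Fin J, (1 / 2 : ℝ) ^ (I - 1 - (s : ℕ)) ≤ 2 ^ J * (1 / 2 : ℝ) ^ I := by
    intro s
    have hs := s.2
    have e : (2 : ℝ) ^ J * (1 / 2 : ℝ) ^ I = (1 / 2 : ℝ) ^ (I - J) := by
      have h3 : (1 / 2 : ℝ) ^ I = (1 / 2 : ℝ) ^ (I - J) * (1 / 2 : ℝ) ^ J := by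
        rw [← pow_add]; congr 1; omega
      have h2 : (2 : ℝ) ^ J * (1 / 2 : ℝ) ^ J = 1 := by rw [← mul_pow]; norm_num
      rw [h3]
      calc (2 : ℝ) ^ J * ((1 / 2 : ℝ) ^ (I - J) * (1 / 2 : ℝ) ^ J)
          = (1 / 2 : ℝ) ^ (I - J) * ((2 : ℝ) ^ J * (1 / 2 : ℝ) ^ J) := by ring
        _ = (1 / 2 : ℝ) ^ (I - J) := by rw [h2, mul_one]
    rw [e]
    exact pow_le_pow_of_le_one (by norm_num) (by norm_num) (by omega)
  have hA1 : ∀ r : ℕ, 1 ≤ r → r ≤ 8 → ∀ s : Fin J, E1 q (fun T => |gs q b I s T| ^ r) ≤ A := by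
    intro r hr hr8 s
    refine (hG1 r hr hr8 s).trans ?_
    rw [hA]
    exact mul_le_mul_of_nonneg_left (hpow s) (by positivity)
  have hA1' : ∀ s : Fin J, E1 q (fun T => |gs q b I s T|) ≤ A := by
    intro s
    have := hA1 1 le_rfl (by norm_num) s
    simpa using this
  have hSA : A * S.card ≤ M := by
    calc A * S.card = C' * C1 * 2 ^ J * ((S.card : ℝ) * (1 / 2 : ℝ) ^ I) := by rw [hA]; ring
      _ ≤ C' * C1 * 2 ^ J * R1 := mul_le_mul_of_nonneg_left (hS.trans hR1R) (by positivity)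
      _ = M := by rw [hM]; ring
  -- moments
  have hmom : ∀ (c : (ι → Option (Fin J)) → ℝ) (r : ℕ), (∀ κ, |c κ| ≤ 1) → 1 ≤ r → r ≤ 8 →
      EM q (fun t => |PF c (tab (fun s : Fin J => gs q b I s) S t)| ^ r) ≤ B0 := by
    intro c r hc hr hr8
    refine (hMOM π ι q J (fun s : Fin J => gs q b I s) S c A r h0 h1 hAp hr hc hA1'
      (hA1 r hr hr8)).trans ?_
    rw [hB0]
    apply Real.exp_le_exp.mpr
    have h2 : (2 : ℝ) ^ (r + 1) ≤ 2 ^ 9 := pow_le_pow_right₀ (by norm_num) (by omega)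
    calc (2 : ℝ) ^ (r + 1) * A * S.card = 2 ^ (r + 1) * (A * S.card) := by ring
      _ ≤ 2 ^ 9 * (A * S.card) := mul_le_mul_of_nonneg_right h2 (by positivity)
      _ ≤ 2 ^ 9 * M := mul_le_mul_of_nonneg_left hSA (by positivity)
  have hcF : ∀ κ : ι → Option (Fin J), |c0 κ| ≤ 1 := by
    intro κ; unfold c0; split_ifs <;> simp
  have hcm : ∀ (m : ι) (κ : ι → Option (Fin J)), |cm m κ| ≤ 1 := by
    intro m κ
    have := hBRK ι J 2 m κ hJ0
    have e : cm m κ = cM (cT 2) m κ := rfl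
    rw [e, abs_of_nonneg this.1]; exact this.2.1
  have hFF : ∀ t : ι → Finset π, FF q b I J S t = PF c0 (tab (fun s : Fin J => gs q b I s) S t) :=
    fun _ => rfl
  have hFmm : ∀ (m : ι) (t : ι → Finset π),
      Fm q b I J S m t = PF (cm m) (tab (fun s : Fin J => gs q b I s) S t) := fun _ _ => rfl
  have hF4 : EM q (fun t => FF q b I J S t ^ 4) ≤ B0 := by
    have := hmom c0 4 hcF (by norm_num) (by norm_num)
    refine le_of_eq_of_le ?_ this
    congr 1; funext t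
    rw [hFF, Even.pow_abs (by decide)]
  have hF8 : EM q (fun t => (FF q b I J S t ^ 4) ^ 2) ≤ B0 := by
    have := hmom c0 8 hcF (by norm_num) (by norm_num)
    refine le_of_eq_of_le ?_ this
    congr 1; funext t
    rw [hFF, Even.pow_abs (by decide), ← pow_mul]
  have hFm4 : ∀ m, EM q (fun t => (Fm q b I J S m t ^ 2) ^ 2) ≤ B0 := by
    intro m
    have := hmom (cm m) 4 (hcm m) (by norm_num) (by norm_num)
    refine le_of_eq_of_le ?_ this
    congr 1; funext t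
    rw [hFmm, Even.pow_abs (by decide), ← pow_mul]
  -- V
  obtain ⟨V, hV⟩ : ∃ V : ℝ, V = 2 * C' * C1 * (1 / 2 : ℝ) ^ I := ⟨_, rfl⟩
  have hVp : 0 ≤ V := by rw [hV]; positivity
  have hSV : (S.card : ℝ) * V ≤ R' := by
    calc (S.card : ℝ) * V = 2 * C' * C1 * ((S.card : ℝ) * (1 / 2 : ℝ) ^ I) := by rw [hV]; ring
      _ ≤ 2 * C' * C1 * R1 := mul_le_mul_of_nonneg_left (hS.trans hR1R) (by positivity)
      _ = R' := by rw [hR']
  have hE2 : ∀ s : Fin J, E1 q (fun T => gs q b I s T ^ 2) ≤ V * 2 ^ (s : ℕ) := by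
    intro s
    have hs := s.2
    have := hG1 2 (by norm_num) (by norm_num) s
    have e : (1 / 2 : ℝ) ^ (I - 1 - (s : ℕ)) = 2 * 2 ^ (s : ℕ) * (1 / 2 : ℝ) ^ I := by
      have h3 : (1 / 2 : ℝ) ^ I = (1 / 2 : ℝ) ^ (I - 1 - (s : ℕ)) * (1 / 2 : ℝ) ^ ((s : ℕ) + 1) := by
        rw [← pow_add]; congr 1; omega
      rw [h3]
      have h2 : (2 : ℝ) * 2 ^ (s : ℕ) * (1 / 2 : ℝ) ^ ((s : ℕ) + 1) = 1 := by
        rw [mul_comm (2 : ℝ), ← pow_succ, ← mul_pow]; norm_num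
      calc (1 / 2 : ℝ) ^ (I - 1 - (s : ℕ)) = (1 / 2 : ℝ) ^ (I - 1 - (s : ℕ)) * 1 := by ring
        _ = (1 / 2 : ℝ) ^ (I - 1 - (s : ℕ)) * (2 * 2 ^ (s : ℕ) * (1 / 2 : ℝ) ^ ((s : ℕ) + 1)) := by
            rw [h2]
        _ = _ := by ring
    rw [e] at this
    calc E1 q (fun T => gs q b I s T ^ 2) = E1 q (fun T => |gs q b I s T| ^ 2) := by
          simp only [sq_abs]
      _ ≤ _ := this
      _ = V * 2 ^ (s : ℕ) := by rw [hV]; ring
  have hr1 : ∀ r : ℕ, 1 ≤ r → r ≤ 8 → E1 q (fun T => rho b I T ^ r) ≤ V := by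
    intro r hr hr8
    refine ((hG π q b I hB r hr hr8).2).trans ?_
    calc C' * fr q b I ≤ C' * (C1 * (1 / 2 : ℝ) ^ I) :=
          mul_le_mul_of_nonneg_left (hdec I le_rfl) hC'.le
      _ ≤ V := by rw [hV]; nlinarith [mul_nonneg (mul_nonneg hC'.le (by linarith : (0:ℝ) ≤ C1))
                    (by positivity : (0:ℝ) ≤ (1 / 2 : ℝ) ^ I)]
  -- lower bound in the independent model
  have hlow : 3 / 4 ≤ EM q (Psi q b I J S) := by
    have := hLOCM π ι q J (fun s : Fin J => gs q b I s) (rho b I) S V R' h0 h1 hO hJ0 hVp hE2 hrn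
      (by simpa using hr1 1 le_rfl (by norm_num)) hSV hJ4 hJ8
    exact this
  -- second moment of Psi
  have hPsi2 : EM q (fun t => Psi q b I J S t ^ 2) ≤ 2 * B0 + 2 * (k * (R' * B0)) := by
    have hpt : ∀ t : ι → Finset π, Psi q b I J S t ^ 2 ≤
        2 * (FF q b I J S t ^ 4) +
          2 * (S.card * ∑ m ∈ S, (Fm q b I J S m t ^ 2) ^ 2 * rho b I (t m) ^ 2) := by
      intro t
      have hcs : (∑ m ∈ S, Fm q b I J S m t ^ 2 * rho b I (t m)) ^ 2 ≤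
          S.card * ∑ m ∈ S, (Fm q b I J S m t ^ 2 * rho b I (t m)) ^ 2 :=
        sq_sum_le_card_mul_sum_sq
      have e : ∑ m ∈ S, (Fm q b I J S m t ^ 2 * rho b I (t m)) ^ 2 =
          ∑ m ∈ S, (Fm q b I J S m t ^ 2) ^ 2 * rho b I (t m) ^ 2 :=
        Finset.sum_congr rfl fun m _ => by ring
      rw [e] at hcs
      unfold Psi
      nlinarith [sq_nonneg (FF q b I J S t ^ 2 + ∑ m ∈ S, Fm q b I J S m t ^ 2 * rho b I (t m))]
    have hind : ∀ m, EM q (fun t => (Fm q b I J S m t ^ 2) ^ 2 * rho b I (t m) ^ 2) ≤ B0 * V := by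
      intro m
      have e := hIND π ι q (fun t => (Fm q b I J S m t ^ 2) ^ 2) (fun T => rho b I T ^ 2) m
        (by
          intro t a
          have : Fm q b I J S m (Function.update t m a) = Fm q b I J S m t := by
            rw [hFmm, hFmm]
            exact hFMU π ι J _ S (cm m) m t a (by
              intro κ hκ; unfold cm; rw [if_neg hκ])
          simp only [this])
      rw [e]
      exact mul_le_mul (hFm4 m) (hr1 2 (by norm_num) (by norm_num))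
        (Finset.sum_nonneg fun T _ => mul_nonneg ((hW π q).2 h0 h1 T) (sq_nonneg _)) hB0p.le
    calc EM q (fun t => Psi q b I J S t ^ 2)
        ≤ EM q (fun t : ι → Finset π => 2 * (FF q b I J S t ^ 4) +
          2 * (S.card * ∑ m ∈ S, (Fm q b I J S m t ^ 2) ^ 2 * rho b I (t m) ^ 2)) :=
          EM_le hW q h0 h1 _ _ hpt
      _ = 2 * EM q (fun t => FF q b I J S t ^ 4) + 2 * (S.card *
          ∑ m ∈ S, EM q (fun t => (Fm q b I J S m t ^ 2) ^ 2 * rho b I (t m) ^ 2)) := by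
          rw [EM_add', EM_mul', EM_mul', EM_mul', EM_sum']
      _ ≤ 2 * B0 + 2 * (S.card * ∑ m ∈ S, B0 * V) := by
          gcongr with m hm
          exact hind m
      _ = 2 * B0 + 2 * (S.card * ((S.card * V) * B0)) := by
          rw [Finset.sum_const, nsmul_eq_mul]; ring
      _ ≤ 2 * B0 + 2 * (k * (R' * B0)) := by
          gcongr
  have hk3 : k ^ 3 * q2 q ≤ ε := hk
  constructor
  · have hc := hCMP π ι q (Psi q b I J S) h0 hh (by rw [← hkdef]; exact hkq)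
      (by rw [← hkdef]; exact hk2.trans (by norm_num))
    rw [← hkdef] at hc
    have hb : (EN q (Psi q b I J S) - EM q (Psi q b I J S)) ^ 2 ≤ (1 / 4) ^ 2 := by
      refine hc.trans ?_
      have hkq2 : 0 ≤ 4 * k ^ 2 * q2 q := by positivity
      calc 4 * k ^ 2 * q2 q * EM q (fun t => Psi q b I J S t ^ 2)
          ≤ 4 * k ^ 2 * q2 q * (2 * B0 + 2 * (k * (R' * B0))) :=
            mul_le_mul_of_nonneg_left hPsi2 hkq2
        _ = 8 * B0 * (k ^ 2 * q2 q) + 8 * B0 * R' * (k ^ 3 * q2 q) := by ring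
        _ ≤ 8 * B0 * ε + 8 * B0 * R' * ε := by
            gcongr
            · exact hkk.trans hk3
        _ = (ε * (128 * B0 * (1 + R'))) / 16 := by ring
        _ ≤ 1 / 16 := by linarith
        _ = (1 / 4) ^ 2 := by norm_num
    have := abs_le.mp (abs_le_of_sq_le_sq hb (by norm_num))
    linarith [this.1]
  · have hc := hCMP π ι q (fun t => FF q b I J S t ^ 4) h0 hh (by rw [← hkdef]; exact hkq)
      (by rw [← hkdef]; exact hk2.trans (by norm_num))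
    rw [← hkdef] at hc
    have hb : (EN q (fun t : ι → Finset π => FF q b I J S t ^ 4) -
        EM q (fun t : ι → Finset π => FF q b I J S t ^ 4)) ^ 2 ≤ 1 ^ 2 := by
      refine hc.trans ?_
      calc 4 * k ^ 2 * q2 q * EM q (fun t => (FF q b I J S t ^ 4) ^ 2)
          ≤ 4 * k ^ 2 * q2 q * B0 := mul_le_mul_of_nonneg_left hF8 (by positivity)
        _ = 4 * B0 * (k ^ 2 * q2 q) := by ring
        _ ≤ 4 * B0 * ε := by
            gcongr
            exact hkk.trans hk3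
        _ ≤ ε * (128 * B0 * (1 + R')) := by nlinarith [mul_pos hεp hB0p, mul_nonneg (mul_pos hεp hB0p).le hR'p]
        _ ≤ 1 ^ 2 := by simpa using hε2
    have := abs_le.mp (abs_le_of_sq_le_sq hb (by norm_num))
    linarith [this.2]

end Pool.PP
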