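import Pool.Agent.Work.MP_b0c12c_pp.Loc

/-! # Isolated primes, local part: block LOCM (helper60) -/

set_option autoImplicit false

namespace Pool.PP

open Finset

theorem LOCM_EM_sub {π ι : Type} [Fintype π] [DecidableEq π] [Fintype ι] [DecidableEq ι]
    (q : π → ℝ) (A : (ι → Finset π) → ℝ) (S : Finset ι) (B : ι → (ι → Finset π) → ℝ) :
    EM q (fun t => A t - ∑ m ∈ S, B m t) = EM q A - ∑ m ∈ S, EM q (B m) := by
  unfold EM
  rw [Finset.sum_comm, ← Finset.sum_sub_distrib]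
  apply Finset.sum_congr rfl
  intro t _
  rw [mul_sub, Finset.mul_sum]

theorem LOCM_holds (hW : Stmt_W1S) (hS : Stmt_SQM) (hI : Stmt_IND) (hF : Stmt_FMU)
    (hB : Stmt_BRK) (hM : Stmt_MKT) : Stmt_LOCM := by
  intro π ι _ _ _ _ q J f r S V R hq0 hq1 hO hJ hV hf hr hrV hSV h4R h8R
  classical
  have hw : ∀ T, 0 ≤ w1 q T := (hW π q).2 hq0 hq1
  have hJr : (0 : ℝ) < J := by exact_mod_cast hJ
  have hJ1 : (1 : ℝ) ≤ J := by exact_mod_cast hJ
  have hR0 : 0 ≤ R := le_trans (by positivity) hSV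
  have hxs : ∀ s, 0 ≤ xs q f s := by
    intro s
    unfold xs E1
    apply div_nonneg _ (by positivity)
    exact Finset.sum_nonneg (fun T _ => mul_nonneg (hw T) (sq_nonneg _))
  obtain ⟨hyT, hmk⟩ := hM ι J S (xs q f) hxs
  set σ := ∑ s : Fin J, (1 / 2 : ℝ) ^ (s : ℕ) * xs q f s with hσ
  have hσ0 : 0 ≤ σ := Finset.sum_nonneg (fun s _ => mul_nonneg (by positivity) (hxs s))
  have hσV : σ ≤ V / J := by
    have e1 : ∀ s : Fin J, (1 / 2 : ℝ) ^ (s : ℕ) * xs q f s ≤ V / (J : ℝ) ^ 2 := by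
      intro s
      have e2 : xs q f s ≤ V * 2 ^ (s : ℕ) / (J : ℝ) ^ 2 := by
        unfold xs
        exact div_le_div_of_nonneg_right (hf s) (by positivity)
      have e3 : (1 / 2 : ℝ) ^ (s : ℕ) * (V * 2 ^ (s : ℕ) / (J : ℝ) ^ 2) = V / (J : ℝ) ^ 2 := by
        have e4 : (1 / 2 : ℝ) ^ (s : ℕ) * 2 ^ (s : ℕ) = 1 := by
          rw [← mul_pow]
          norm_num
        calc (1 / 2 : ℝ) ^ (s : ℕ) * (V * 2 ^ (s : ℕ) / (J : ℝ) ^ 2)
            = ((1 / 2 : ℝ) ^ (s : ℕ) * 2 ^ (s : ℕ)) * (V / (J : ℝ) ^ 2) := by ring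
          _ = V / (J : ℝ) ^ 2 := by rw [e4, one_mul]
      calc (1 / 2 : ℝ) ^ (s : ℕ) * xs q f s
          ≤ (1 / 2 : ℝ) ^ (s : ℕ) * (V * 2 ^ (s : ℕ) / (J : ℝ) ^ 2) :=
            mul_le_mul_of_nonneg_left e2 (by positivity)
        _ = V / (J : ℝ) ^ 2 := e3
    calc σ ≤ ∑ _s : Fin J, V / (J : ℝ) ^ 2 := Finset.sum_le_sum (fun s _ => e1 s)
      _ = J * (V / (J : ℝ) ^ 2) := by
          rw [Finset.sum_const, Finset.card_univ, Fintype.card_fin, nsmul_eq_mul]
      _ = V / J := by field_simp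
  have hyy : ∀ (h : ι) (o : Option (Fin J)), 0 ≤ yy (xs q f) S h o := by
    intro h o
    cases o with
    | none => exact zero_le_one
    | some s =>
      simp only [yy]
      split_ifs
      · exact hxs s
      · exact le_rfl
  have hym : ∀ κ : ι → Option (Fin J), 0 ≤ ym (xs q f) S κ := by
    intro κ
    unfold ym
    exact Finset.prod_nonneg (fun h _ => hyy h (κ h))
  have hSσ : (S.card : ℝ) * σ ≤ R / J := by
    calc (S.card : ℝ) * σ ≤ (S.card : ℝ) * (V / J) :=
          mul_le_mul_of_nonneg_left hσV (Nat.cast_nonneg _)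
      _ = (S.card : ℝ) * V / J := by ring
      _ ≤ R / J := div_le_div_of_nonneg_right hSV hJr.le
  -- the main term
  have hmain : yT (xs q f) S * (7 / 8) ≤ EM q (fun t => PF c0 (tab f S t) ^ 2) := by
    rw [hS π ι q J f S c0 hO]
    have e1 := hmk 2 (by norm_num)
    have e2 : ∑ κ : ι → Option (Fin J), c0 κ ^ 2 * ym (xs q f) S κ =
        yT (xs q f) S - ∑ κ : ι → Option (Fin J), (if 2 < lev κ then ym (xs q f) S κ else 0) := by
      unfold yT
      rw [← Finset.sum_sub_distrib]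
      apply Finset.sum_congr rfl
      intro κ _
      unfold c0
      by_cases h : lev κ ≤ 2
      · rw [if_pos h, if_neg (not_lt.mpr h)]
        ring
      · rw [if_neg h, if_pos (not_le.mp h)]
        ring
    rw [e2]
    have e3 : (S.card : ℝ) * σ / 2 * yT (xs q f) S ≤ 1 / 8 * yT (xs q f) S := by
      apply mul_le_mul_of_nonneg_right _ (by linarith)
      have e4 : R / J ≤ 1 / 4 := by
        rw [div_le_iff₀ hJr]
        linarith
      linarith
    linarith
  -- the error terms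
  have herr : ∀ m ∈ S, EM q (fun t => PF (cm m) (tab f S t) ^ 2 * r (t m)) ≤
      V * ((S.card : ℝ) * σ * yT (xs q f) S) := by
    intro m _
    have hcm : ∀ κ : ι → Option (Fin J), 0 ≤ cm m κ ∧ cm m κ ≤ 1 ∧
        (cm m κ ≠ 0 → κ m = none ∧ (2 : ℝ) - 1 < lev κ ∧ lev κ ≤ 2) :=
      fun κ => hB ι J 2 m κ hJ
    have e1 : EM q (fun t => PF (cm m) (tab f S t) ^ 2 * r (t m)) =
        EM q (fun t => PF (cm m) (tab f S t) ^ 2) * E1 q r := by
      apply hI π ι q (fun t => PF (cm m) (tab f S t) ^ 2) r m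
      intro t a
      rw [hF π ι J f S (cm m) m t a]
      intro κ hκ
      by_contra h0
      exact hκ ((hcm κ).2.2 h0).1
    have e2 : EM q (fun t => PF (cm m) (tab f S t) ^ 2) =
        ∑ κ, cm m κ ^ 2 * ym (xs q f) S κ := hS π ι q J f S (cm m) hO
    have e3 : 0 ≤ ∑ κ, cm m κ ^ 2 * ym (xs q f) S κ :=
      Finset.sum_nonneg (fun κ _ => mul_nonneg (sq_nonneg _) (hym κ))
    have e4 : ∑ κ, cm m κ ^ 2 * ym (xs q f) S κ ≤
        ∑ κ : ι → Option (Fin J), (if 1 < lev κ then ym (xs q f) S κ else 0) := by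
      apply Finset.sum_le_sum
      intro κ _
      obtain ⟨a1, a2, a3⟩ := hcm κ
      by_cases h : 1 < lev κ
      · rw [if_pos h]
        have : cm m κ ^ 2 ≤ 1 := by nlinarith
        calc cm m κ ^ 2 * ym (xs q f) S κ ≤ 1 * ym (xs q f) S κ :=
              mul_le_mul_of_nonneg_right this (hym κ)
          _ = ym (xs q f) S κ := one_mul _
      · rw [if_neg h]
        have h0 : cm m κ = 0 := by
          by_contra h0
          apply h
          have := (a3 h0).2.1
          linarith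
        rw [h0]
        simp
    have e5 := hmk 1 one_pos
    rw [e1, e2]
    calc (∑ κ, cm m κ ^ 2 * ym (xs q f) S κ) * E1 q r
        ≤ (∑ κ, cm m κ ^ 2 * ym (xs q f) S κ) * V := mul_le_mul_of_nonneg_left hrV e3
      _ ≤ ((S.card : ℝ) * σ / 1 * yT (xs q f) S) * V := by
          apply mul_le_mul_of_nonneg_right _ hV
          exact le_trans e4 e5
      _ = V * ((S.card : ℝ) * σ * yT (xs q f) S) := by ring
  have hsum : ∑ m ∈ S, EM q (fun t => PF (cm m) (tab f S t) ^ 2 * r (t m)) ≤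
      1 / 8 * yT (xs q f) S := by
    calc ∑ m ∈ S, EM q (fun t => PF (cm m) (tab f S t) ^ 2 * r (t m))
        ≤ ∑ _m ∈ S, V * ((S.card : ℝ) * σ * yT (xs q f) S) := Finset.sum_le_sum herr
      _ = ((S.card : ℝ) * V) * ((S.card : ℝ) * σ) * yT (xs q f) S := by
          rw [Finset.sum_const, nsmul_eq_mul]
          ring
      _ ≤ R * (R / J) * yT (xs q f) S := by
          apply mul_le_mul_of_nonneg_right _ (by linarith)
          apply mul_le_mul hSV hSσ (mul_nonneg (Nat.cast_nonneg _) hσ0) hR0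
      _ ≤ 1 / 8 * yT (xs q f) S := by
          apply mul_le_mul_of_nonneg_right _ (by linarith)
          have : R * (R / J) = R ^ 2 / J := by ring
          rw [this, div_le_iff₀ hJr]
          linarith
  rw [LOCM_EM_sub]
  linarith

end Pool.PP
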