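import Pool.Agent.Work.MP_b0c12c_pp.Loc

/-! # Isolated primes: block LOCP, the local inequality for the primes of `(z, z ^ (2 ^ I)]` -/

set_option autoImplicit false

namespace Pool.PP

open Finset

theorem p_LOCP (hLOC : Stmt_LOC) (hBMR : Stmt_BMR) : Stmt_LOCP := by
  obtain ⟨C, z1, hz1, hB⟩ := hBMR
  intro R
  obtain ⟨J, B, ε, hJ, hε, hL⟩ := hLOC C R
  refine ⟨J, max z1 ⌈4 / ε⌉₊, B, hJ, hz1.trans (le_max_left _ _), ?_⟩
  intro z I c π ι _ _ _ _ pr b S hz hJI hc hP hS hk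
  obtain ⟨h1, h2, h3⟩ := hB z I ((le_max_left _ _).trans hz) π pr b hP c hc
  refine hL π ι (qc c pr) b I S h1 h2 hJI hS ?_
  set K : ℝ := (Fintype.card ι : ℝ) ^ 3 with hK
  have hK0 : 0 ≤ K := by positivity
  have hz0 : (0 : ℝ) < z := by
    have : 0 < z := by omega
    exact_mod_cast this
  have h4 : K * ((max z1 ⌈4 / ε⌉₊ : ℕ) : ℝ) ≤ z := by
    rw [hK]
    exact_mod_cast hk
  have h5 : 4 / ε ≤ ((max z1 ⌈4 / ε⌉₊ : ℕ) : ℝ) :=
    (Nat.le_ceil _).trans (by exact_mod_cast le_max_right _ _)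
  have h6 : K * (4 / ε) ≤ z := (mul_le_mul_of_nonneg_left h5 hK0).trans h4
  calc K * q2 (qc c pr) ≤ K * (4 / z) := mul_le_mul_of_nonneg_left h3 hK0
    _ = (K * (4 / ε)) * ε / z := by
        field_simp
    _ ≤ z * ε / z := by
        gcongr
    _ = ε := by
        field_simp

end Pool.PP
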