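import Pool.Agent.Work.MP_b0c12c_pp.Loc

set_option autoImplicit false

namespace Pool.PP

open Finset

theorem p_MKT : Stmt_MKT := by
  intro ι _ _ J S x hx
  have hyy : ∀ h o, 0 ≤ yy x S h o := by
    intro h o
    cases o with
    | none => simp [yy]
    | some s =>
      simp only [yy]
      split_ifs
      · exact hx s
      · exact le_refl _
  have hym : ∀ κ : ι → Option (Fin J), 0 ≤ ym x S κ := fun κ => by
    unfold ym
    exact Finset.prod_nonneg (fun h _ => hyy h _)
  have hlev1 : ∀ o : Option (Fin J), 0 ≤ lev1 o := by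
    intro o
    cases o with
    | none => simp [lev1]
    | some s => simp only [lev1]; positivity
  have hlev : ∀ κ : ι → Option (Fin J), 0 ≤ lev κ := fun κ => by
    unfold lev
    exact Finset.sum_nonneg (fun h _ => hlev1 _)
  have h1 : 1 ≤ yT x S := by
    have e1 : ym x S (fun _ : ι => (none : Option (Fin J))) = 1 := by
      simp [ym, yy]
    calc (1 : ℝ) = ym x S (fun _ : ι => (none : Option (Fin J))) := e1.symm
      _ ≤ yT x S := by
        unfold yT
        exact Finset.single_le_sum (f := fun κ => ym x S κ) (fun κ _ => hym κ) (mem_univ _)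
  refine ⟨h1, ?_⟩
  intro R hR
  -- the factorised form
  have hfac : ∀ g : ι → Option (Fin J) → ℝ,
      ∑ κ : ι → Option (Fin J), ∏ h, g h (κ h) = ∏ h, ∑ o, g h o := by
    intro g
    rw [Finset.prod_univ_sum, Fintype.piFinset_univ]
  have hone : ∀ h, 1 ≤ ∑ o, yy x S h o := by
    intro h
    have : yy x S h none ≤ ∑ o, yy x S h o :=
      Finset.single_le_sum (f := fun o => yy x S h o) (fun o _ => hyy h o) (mem_univ _)
    simpa [yy] using this
  have hA : ∀ h, ∑ o : Option (Fin J), lev1 o * yy x S h o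
      = if h ∈ S then ∑ s : Fin J, (1 / 2 : ℝ) ^ (s : ℕ) * x s else 0 := by
    intro h
    rw [Fintype.sum_option]
    simp only [lev1, yy]
    split_ifs <;> simp
  have hsite : ∀ h, ∑ κ : ι → Option (Fin J), lev1 (κ h) * ym x S κ
      ≤ (if h ∈ S then ∑ s : Fin J, (1 / 2 : ℝ) ^ (s : ℕ) * x s else 0) * yT x S := by
    intro h
    have e1 : ∀ κ : ι → Option (Fin J), lev1 (κ h) * ym x S κ
        = ∏ h', ((if h' = h then lev1 (κ h') else 1) * yy x S h' (κ h')) := by
      intro κ
      simp only [ym]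
      rw [Finset.prod_mul_distrib]
      congr 1
      rw [Finset.prod_ite_eq' univ h (fun k => lev1 (κ k))]
      simp
    have e0 : ∑ κ : ι → Option (Fin J), lev1 (κ h) * ym x S κ
        = ∏ k, ∑ o, (if k = h then lev1 o else 1) * yy x S k o := by
      rw [Finset.sum_congr rfl (fun κ _ => e1 κ)]
      exact hfac (fun k o => (if k = h then lev1 o else 1) * yy x S k o)
    rw [e0]
    have e2 : yT x S = ∏ h, ∑ o, yy x S h o := by
      unfold yT ym
      exact hfac _
    rw [e2, ← Finset.mul_prod_erase univ _ (mem_univ h), ← Finset.mul_prod_erase univ (fun h' => ∑ o, yy x S h' o) (mem_univ h)]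
    have e3 : ∏ k ∈ univ.erase h, ∑ o, (if k = h then lev1 o else 1) * yy x S k o
        = ∏ k ∈ univ.erase h, ∑ o, yy x S k o := by
      apply Finset.prod_congr rfl
      intro k hk
      rw [Finset.mem_erase] at hk
      simp [hk.1]
    rw [e3]
    simp only [if_true]
    rw [hA h]
    have hB : 0 ≤ (if h ∈ S then ∑ s : Fin J, (1 / 2 : ℝ) ^ (s : ℕ) * x s else 0) := by
      split_ifs
      · exact Finset.sum_nonneg (fun s _ => mul_nonneg (by positivity) (hx s))
      · exact le_refl _
    have hP : 0 ≤ ∏ k ∈ univ.erase h, ∑ o, yy x S k o :=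
      Finset.prod_nonneg (fun k _ => le_trans zero_le_one (hone k))
    apply mul_le_mul_of_nonneg_left _ hB
    calc ∏ k ∈ univ.erase h, ∑ o, yy x S k o = 1 * ∏ k ∈ univ.erase h, ∑ o, yy x S k o := by ring
      _ ≤ _ := mul_le_mul_of_nonneg_right (hone h) hP
  have hsum : ∑ κ : ι → Option (Fin J), lev κ * ym x S κ
      ≤ ((S.card : ℝ) * ∑ s : Fin J, (1 / 2 : ℝ) ^ (s : ℕ) * x s) * yT x S := by
    calc ∑ κ : ι → Option (Fin J), lev κ * ym x S κ
        = ∑ h, ∑ κ : ι → Option (Fin J), lev1 (κ h) * ym x S κ := by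
          rw [Finset.sum_comm]
          apply Finset.sum_congr rfl
          intro κ _
          unfold lev
          rw [Finset.sum_mul]
      _ ≤ ∑ h, (if h ∈ S then ∑ s : Fin J, (1 / 2 : ℝ) ^ (s : ℕ) * x s else 0) * yT x S :=
          Finset.sum_le_sum (fun h _ => hsite h)
      _ = _ := by
          rw [← Finset.sum_mul, Finset.sum_ite_mem, Finset.univ_inter, Finset.sum_const,
            nsmul_eq_mul]
  have hterm : ∀ κ : ι → Option (Fin J),
      (open Classical in if R < lev κ then ym x S κ else 0) ≤ (lev κ * ym x S κ) / R := by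
    intro κ
    split_ifs with hc
    · rw [le_div_iff₀ hR]
      nlinarith [hym κ, hlev κ]
    · exact div_nonneg (mul_nonneg (hlev κ) (hym κ)) hR.le
  calc (∑ κ : ι → Option (Fin J), open Classical in if R < lev κ then ym x S κ else 0)
      ≤ ∑ κ : ι → Option (Fin J), (lev κ * ym x S κ) / R :=
        Finset.sum_le_sum (fun κ _ => hterm κ)
    _ = (∑ κ : ι → Option (Fin J), lev κ * ym x S κ) / R := by rw [Finset.sum_div]
    _ ≤ (((S.card : ℝ) * ∑ s : Fin J, (1 / 2 : ℝ) ^ (s : ℕ) * x s) * yT x S) / R := by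
        gcongr
    _ = _ := by ring

end Pool.PP
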