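import Pool.Agent.Work.MP_b0c12c_pp.Loc

/-! # Block MOM: moments of the weight (helper74) -/

set_option autoImplicit false
set_option linter.unusedSectionVars false

namespace Pool.PP

open Finset

section

variable {π : Type} [Fintype π] [DecidableEq π]

theorem MOM_w1_nonneg (q : π → ℝ) (h0 : ∀ x, 0 ≤ q x) (h1 : ∀ x, q x ≤ 1) (T : Finset π) :
    0 ≤ w1 q T :=
  mul_nonneg (Finset.prod_nonneg (fun x _ => h0 x))
    (Finset.prod_nonneg (fun x _ => by linarith [h1 x]))

theorem MOM_w1_sum (q : π → ℝ) : ∑ T, w1 q T = 1 := by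
  have h := Finset.prod_add q (fun x => 1 - q x) (univ : Finset π)
  have e1 : ∏ x : π, (q x + (1 - q x)) = 1 := by
    simp
  rw [e1] at h
  rw [h, Finset.powerset_univ]
  refine Finset.sum_congr rfl (fun T _ => ?_)
  unfold w1
  rw [Finset.compl_eq_univ_sdiff]

theorem MOM_E1_mono (q : π → ℝ) (h0 : ∀ x, 0 ≤ q x) (h1 : ∀ x, q x ≤ 1)
    (f g : Finset π → ℝ) (h : ∀ T, f T ≤ g T) : E1 q f ≤ E1 q g :=
  Finset.sum_le_sum (fun T _ => mul_le_mul_of_nonneg_left (h T) (MOM_w1_nonneg q h0 h1 T))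

theorem MOM_E1_one (q : π → ℝ) : E1 q (fun _ => (1 : ℝ)) = 1 := by
  unfold E1
  simp only [mul_one]
  exact MOM_w1_sum q

/-- The mean of a linear combination. -/
theorem MOM_E1_sum (q : π → ℝ) {β : Type} (s : Finset β) (a : β → ℝ) (f : β → Finset π → ℝ) :
    E1 q (fun T => ∑ i ∈ s, a i * f i T) = ∑ i ∈ s, a i * E1 q (f i) := by
  unfold E1
  simp only [Finset.mul_sum]
  rw [Finset.sum_comm]
  refine Finset.sum_congr rfl (fun i _ => Finset.sum_congr rfl (fun T _ => ?_))
  ring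

end

theorem MOM_pow (Z : ℝ) (hZ : 0 ≤ Z) (r : ℕ) (hr : 1 ≤ r) :
    (1 + Z) ^ r ≤ 1 + (2 ^ r - 1) * (Z + Z ^ r) := by
  have hb : ∀ i ∈ range r, Z ^ (i + 1) ≤ Z + Z ^ r := by
    intro i hi
    rw [mem_range] at hi
    rcases le_total Z 1 with h | h
    · have h2 : Z ^ (i + 1) ≤ Z ^ 1 := pow_le_pow_of_le_one hZ h (by omega)
      rw [pow_one] at h2
      have h3 : 0 ≤ Z ^ r := pow_nonneg hZ r
      linarith
    · have h2 : Z ^ (i + 1) ≤ Z ^ r := pow_le_pow_right₀ h (by omega)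
      linarith
  have e1 : (1 + Z) ^ r = 1 + ∑ i ∈ range r, Z ^ (i + 1) * (r.choose (i + 1) : ℝ) := by
    rw [add_comm (1 : ℝ) Z, add_pow]
    rw [Finset.sum_range_succ']
    simp only [one_pow, mul_one, pow_zero, Nat.choose_zero_right, Nat.cast_one]
    rw [add_comm]
  have e2 : (∑ i ∈ range r, (r.choose (i + 1) : ℝ)) = 2 ^ r - 1 := by
    have h5 := Nat.sum_range_choose r
    rw [Finset.sum_range_succ'] at h5
    simp only [Nat.choose_zero_right] at h5
    have h6 : ((∑ k ∈ range r, r.choose (k + 1) : ℕ) : ℝ) + 1 = 2 ^ r := by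
      exact_mod_cast h5
    push_cast at h6
    linarith
  rw [e1]
  have h7 : ∑ i ∈ range r, Z ^ (i + 1) * (r.choose (i + 1) : ℝ) ≤
      ∑ i ∈ range r, (Z + Z ^ r) * (r.choose (i + 1) : ℝ) :=
    Finset.sum_le_sum (fun i hi => mul_le_mul_of_nonneg_right (hb i hi) (by positivity))
  rw [← Finset.mul_sum, e2] at h7
  linarith

section

variable {ι : Type} [Fintype ι] [DecidableEq ι]

theorem MOM_fac {J : ℕ} (g : Fin J → ℝ) :
    ∑ k : Option (Fin J), |fac g k| = 1 + ∑ s, (1 / (J : ℝ)) * |g s| := by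
  rw [Fintype.sum_option]
  congr 1
  · simp [fac]
  · refine Finset.sum_congr rfl (fun s _ => ?_)
    simp only [fac]
    rw [abs_div, abs_neg, Nat.abs_cast]
    ring

theorem MOM_PF {J : ℕ} (c : (ι → Option (Fin J)) → ℝ) (hc : ∀ κ, |c κ| ≤ 1)
    (G : ι → Fin J → ℝ) : |PF c G| ≤ ∏ h, (1 + ∑ s, (1 / (J : ℝ)) * |G h s|) := by
  have e1 : ∏ h, (1 + ∑ s, (1 / (J : ℝ)) * |G h s|) =
      ∑ κ : ι → Option (Fin J), ∏ h, |fac (G h) (κ h)| := by
    have h := Finset.prod_univ_sum (fun _ : ι => (univ : Finset (Option (Fin J))))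
      (fun h k => |fac (G h) k|)
    simp only [MOM_fac] at h
    rw [h, Fintype.piFinset_univ]
  rw [e1]
  unfold PF
  refine (Finset.abs_sum_le_sum_abs _ _).trans (Finset.sum_le_sum (fun κ _ => ?_))
  rw [abs_mul, Finset.abs_prod]
  have : 0 ≤ ∏ h, |fac (G h) (κ h)| := Finset.prod_nonneg (fun _ _ => abs_nonneg _)
  nlinarith [hc κ]

end

theorem p_MOM (h1 : Stmt_PMU) : Stmt_MOM := by
  intro π ι _ _ _ _ q J f S c A r hq0 hq1 hA hr hc hf1 hfr
  classical
  set Z : Finset π → ℝ := fun T => ∑ s, (1 / (J : ℝ)) * |f s T| with hZ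
  have hZ0 : ∀ T, 0 ≤ Z T := fun T => Finset.sum_nonneg (fun s _ => by positivity)
  set F : ι → Finset π → ℝ := fun h T => if h ∈ S then (1 + Z T) ^ r else 1 with hF
  -- pointwise
  have hpt : ∀ t : ι → Finset π, |PF c (tab f S t)| ^ r ≤ ∏ h, F h (t h) := by
    intro t
    have h2 := pow_le_pow_left₀ (abs_nonneg _) (MOM_PF c hc (tab f S t)) r
    refine h2.trans (le_of_eq ?_)
    rw [← Finset.prod_pow]
    refine Finset.prod_congr rfl (fun h _ => ?_)
    by_cases hh : h ∈ S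
    · simp only [hF, hh, if_true, tab, hZ]
    · simp [hF, hh, tab]
  have hmean : EM q (fun t => |PF c (tab f S t)| ^ r) ≤ EM q (fun t => ∏ h, F h (t h)) := by
    refine Finset.sum_le_sum (fun t _ => mul_le_mul_of_nonneg_left (hpt t) ?_)
    exact Finset.prod_nonneg (fun h _ => MOM_w1_nonneg q hq0 hq1 (t h))
  refine hmean.trans ?_
  rw [h1 π ι q F]
  -- the mean for one site
  have hEZ : E1 q Z ≤ A := by
    have e1 : E1 q Z = ∑ s, (1 / (J : ℝ)) * E1 q (fun T => |f s T|) :=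
      MOM_E1_sum q univ (fun _ => 1 / (J : ℝ)) (fun s T => |f s T|)
    rw [e1]
    have h2 : ∑ s : Fin J, (1 / (J : ℝ)) * E1 q (fun T => |f s T|) ≤
        ∑ s : Fin J, (1 / (J : ℝ)) * A :=
      Finset.sum_le_sum (fun s _ => mul_le_mul_of_nonneg_left (hf1 s) (by positivity))
    refine h2.trans ?_
    rw [Finset.sum_const, Finset.card_univ, Fintype.card_fin, nsmul_eq_mul]
    rcases Nat.eq_zero_or_pos J with hJ | hJ
    · rw [hJ]; simpa using hA
    · have : (J : ℝ) ≠ 0 := by positivity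
      field_simp
      exact le_refl _
  have hEZr : E1 q (fun T => Z T ^ r) ≤ A := by
    rcases Nat.eq_zero_or_pos J with hJ | hJ
    · subst hJ
      have e0 : ∀ T, Z T = 0 := by intro T; rw [hZ]; simp
      have : E1 q (fun T => Z T ^ r) = 0 := by
        unfold E1
        simp only [e0, zero_pow (by omega : r ≠ 0), mul_zero, Finset.sum_const_zero]
      rw [this]; exact hA
    · have hJ' : (J : ℝ) ≠ 0 := by positivity
      have hjen : ∀ T, Z T ^ r ≤ ∑ s : Fin J, (1 / (J : ℝ)) * |f s T| ^ r := by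
        intro T
        have := Real.pow_arith_mean_le_arith_mean_pow (univ : Finset (Fin J))
          (fun _ => 1 / (J : ℝ)) (fun s => |f s T|) (fun _ _ => by positivity)
          (by rw [Finset.sum_const, Finset.card_univ, Fintype.card_fin, nsmul_eq_mul]; field_simp)
          (fun _ _ => abs_nonneg _) r
        exact this
      have h2 := MOM_E1_mono q hq0 hq1 _ _ hjen
      refine h2.trans ?_
      have e1 := MOM_E1_sum q (univ : Finset (Fin J)) (fun _ => 1 / (J : ℝ))
        (fun s T => |f s T| ^ r)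
      rw [e1]
      have h3 : ∑ s : Fin J, (1 / (J : ℝ)) * E1 q (fun T => |f s T| ^ r) ≤
          ∑ s : Fin J, (1 / (J : ℝ)) * A :=
        Finset.sum_le_sum (fun s _ => mul_le_mul_of_nonneg_left (hfr s) (by positivity))
      refine h3.trans ?_
      rw [Finset.sum_const, Finset.card_univ, Fintype.card_fin, nsmul_eq_mul]
      field_simp
      exact le_refl _
  have hsite : E1 q (fun T => (1 + Z T) ^ r) ≤ Real.exp (2 ^ (r + 1) * A) := by
    have h2 := MOM_E1_mono q hq0 hq1 _ _ (fun T => MOM_pow (Z T) (hZ0 T) r hr)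
    have e1 : E1 q (fun T => 1 + (2 ^ r - 1) * (Z T + Z T ^ r)) =
        1 + (2 ^ r - 1) * (E1 q Z + E1 q (fun T => Z T ^ r)) := by
      have e2 : (1 : ℝ) = ∑ T, w1 q T := (MOM_w1_sum q).symm
      unfold E1
      conv_rhs => rw [e2]
      rw [← Finset.sum_add_distrib, Finset.mul_sum, ← Finset.sum_add_distrib]
      refine Finset.sum_congr rfl (fun T _ => ?_)
      rw [← e2]
      ring
    rw [e1] at h2
    have h3 : (0 : ℝ) ≤ 2 ^ r - 1 := by
      have : (1 : ℝ) ≤ 2 ^ r := one_le_pow₀ (by norm_num)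
      linarith
    have h4 : (2 ^ r - 1) * (E1 q Z + E1 q (fun T => Z T ^ r)) ≤ (2 ^ r - 1) * (A + A) :=
      mul_le_mul_of_nonneg_left (add_le_add hEZ hEZr) h3
    have h5 : (2 ^ r - 1) * (A + A) ≤ 2 ^ (r + 1) * A := by
      rw [pow_succ]; nlinarith
    have h6 := Real.add_one_le_exp (2 ^ (r + 1) * A)
    linarith
  have hprod : ∏ h, E1 q (F h) ≤ ∏ h : ι, (if h ∈ S then Real.exp (2 ^ (r + 1) * A) else 1) := by
    refine Finset.prod_le_prod (fun h _ => ?_) (fun h _ => ?_)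
    · refine Finset.sum_nonneg (fun T _ => mul_nonneg (MOM_w1_nonneg q hq0 hq1 T) ?_)
      simp only [hF]
      split_ifs
      · exact pow_nonneg (by linarith [hZ0 T]) r
      · norm_num
    · by_cases hh : h ∈ S
      · simp only [hF, hh, if_true]
        exact hsite
      · simp only [hF, hh, if_false]
        rw [MOM_E1_one]
  refine hprod.trans (le_of_eq ?_)
  rw [Finset.prod_ite_mem, Finset.univ_inter, Finset.prod_const, ← Real.exp_nat_mul]
  congr 1
  ring

end Pool.PP
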