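import Pool.Agent.Work.MP_b0c12c_pp.Loc

/-! Block ORT: the site functions are centred and orthogonal (helper22). -/

set_option autoImplicit false

namespace Pool.PP.BORT

open Finset

variable {π : Type} [Fintype π] [DecidableEq π]

/-- The factors of `gj`. -/
noncomputable def ff (q : π → ℝ) (b : π → ℕ) (j : ℕ) (i n : ℕ) : ℝ :=
  if i < j then tau (2 * (j - i + 1)) n
  else if i = j then (tau 2 n - mt q b j) / (1 - mt q b j) else 1

theorem gj_eq (q : π → ℝ) (b : π → ℕ) (j : ℕ) (T : Finset π) :
    gj q b j T = ∏ i ∈ range (j + 1), ff q b j i (om b T i) := by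
  rw [prod_range_succ]
  unfold gj low
  congr 1
  · refine prod_congr rfl fun i hi => ?_
    simp [ff, mem_range.mp hi]
  · simp [ff]

theorem gj_eq' (q : π → ℝ) (b : π → ℕ) (j j' : ℕ) (h : j ≤ j') (T : Finset π) :
    gj q b j T = ∏ i ∈ range (j' + 1), ff q b j i (om b T i) := by
  rw [gj_eq]
  refine prod_subset (range_subset_range.mpr (by omega)) fun i _ hi => ?_
  have h1 : ¬ i < j + 1 := fun h2 => hi (mem_range.mpr h2)
  have h2 : ¬ i < j := by omega
  have h3 : i ≠ j := by omega
  simp [ff, h2, h3]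

theorem E1_one (hP : Stmt_PRB) (q : π → ℝ) : E1 q (fun _ => (1 : ℝ)) = 1 := by
  have := hP π q (fun _ => 0) ∅ (fun _ _ => 1)
  simpa using this

theorem E1_top (hP : Stmt_PRB) (q : π → ℝ) (b : π → ℕ) (j : ℕ) :
    E1 q (fun T => ff q b j j (om b T j)) = 0 := by
  have h1 := E1_one hP q
  have h2 : E1 q (fun T => ff q b j j (om b T j))
      = (E1 q (fun T => tau 2 (om b T j)) - mt q b j * E1 q (fun _ => (1 : ℝ)))
        / (1 - mt q b j) := by
    unfold E1
    rw [mul_sum, ← sum_sub_distrib, sum_div]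
    refine sum_congr rfl fun T _ => ?_
    simp only [ff, lt_irrefl, if_false, if_true]
    ring
  rw [h2, h1]
  have h3 : E1 q (fun T => tau 2 (om b T j)) = mt q b j := rfl
  rw [h3]
  simp

theorem mean_zero (hP : Stmt_PRB) (q : π → ℝ) (b : π → ℕ) (j : ℕ) :
    E1 q (gj q b j) = 0 := by
  have h1 : gj q b j = fun T => ∏ i ∈ range (j + 1), ff q b j i (om b T i) :=
    funext (gj_eq q b j)
  rw [h1, hP π q b (range (j + 1)) (ff q b j), prod_range_succ, E1_top hP, mul_zero]

theorem orth_zero (hP : Stmt_PRB) (q : π → ℝ) (b : π → ℕ) (j j' : ℕ) (h : j < j') :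
    E1 q (fun T => gj q b j T * gj q b j' T) = 0 := by
  have h1 : (fun T => gj q b j T * gj q b j' T)
      = fun T => ∏ i ∈ range (j' + 1), (fun i n => ff q b j i n * ff q b j' i n) i (om b T i) := by
    funext T
    rw [gj_eq' q b j j' h.le, gj_eq, ← prod_mul_distrib]
  rw [h1, hP π q b (range (j' + 1)) (fun i n => ff q b j i n * ff q b j' i n),
    prod_range_succ]
  have h2 : (fun T : Finset π => (fun i n => ff q b j i n * ff q b j' i n) j' (om b T j'))
      = fun T => ff q b j' j' (om b T j') := by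
    funext T
    have h3 : ¬ j' < j := by omega
    have h4 : j' ≠ j := by omega
    have h5 : ff q b j j' (om b T j') = 1 := by simp [ff, h3, h4]
    simp only [h5, one_mul]
  rw [h2, E1_top hP, mul_zero]

end Pool.PP.BORT

namespace Pool.PP

/-- Block ORT. -/
theorem p_ORT (hPRB : Stmt_PRB) : Stmt_ORT := by
  intro π _ _ q b I J _ hJ
  refine ⟨fun s => ?_, fun s t hst => ?_⟩
  · exact BORT.mean_zero hPRB q b (I - 1 - s)
  · have hs := s.2
    have ht := t.2
    have hne : (s : ℕ) ≠ t := fun h => hst (Fin.ext h)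
    rcases lt_or_gt_of_ne hne with h | h
    · have h1 := BORT.orth_zero hPRB q b (I - 1 - t) (I - 1 - s) (by omega)
      have h2 : (fun T => gs q b I s T * gs q b I t T)
          = fun T => gj q b (I - 1 - t) T * gj q b (I - 1 - s) T := by
        funext T; unfold gs; ring
      rw [h2]; exact h1
    · exact BORT.orth_zero hPRB q b (I - 1 - s) (I - 1 - t) (by omega)

end Pool.PP
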