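import Pool.Agent.Work.MP_b0c12c_pp.Loc

/-! # Block PMU: independence of the sites (helper36) -/

set_option autoImplicit false

namespace Pool.PP

open Finset

theorem p_PMU : Stmt_PMU := by
  intro π ι _ _ _ _ q f
  unfold EM E1
  rw [Finset.prod_univ_sum, Fintype.piFinset_univ]
  refine Finset.sum_congr rfl fun t _ => ?_
  rw [← Finset.prod_mul_distrib]

end Pool.PP
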