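import Pool.Agent.Work.MP_b0c12c_pp.Loc

/-! # Block PRB: independence of the blocks (helper65) -/

set_option autoImplicit false

namespace Pool.PP

open Finset

/-- Splitting a random set into its parts in `U` and outside `U`. -/
theorem PRB_split {π : Type} [Fintype π] [DecidableEq π] (q : π → ℝ) (U : Finset π)
    (g : Finset π → ℝ) :
    E1 q g = ∑ A ∈ U.powerset, ∑ B ∈ Uᶜ.powerset,
      ((∏ x ∈ A, q x) * ∏ x ∈ U \ A, (1 - q x)) * ((∏ x ∈ B, q x) * ∏ x ∈ Uᶜ \ B, (1 - q x)) *
        g (A ∪ B) := by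
  unfold E1
  rw [← sum_product']
  refine sum_nbij' (fun T => (T ∩ U, T ∩ Uᶜ)) (fun P => P.1 ∪ P.2) ?_ ?_ ?_ ?_ ?_
  · intro T _
    simp only [mem_product, mem_powerset]
    exact ⟨inter_subset_right, inter_subset_right⟩
  · intro P _; exact mem_univ _
  · intro T _
    show T ∩ U ∪ T ∩ Uᶜ = T
    ext x
    simp only [mem_union, mem_inter, mem_compl]
    tauto
  · rintro ⟨A, B⟩ h
    simp only [mem_product, mem_powerset] at h
    obtain ⟨hA, hB⟩ := h
    show ((A ∪ B) ∩ U, (A ∪ B) ∩ Uᶜ) = (A, B)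
    rw [Prod.mk.injEq]
    constructor
    · ext x
      have h1 := @hA x
      have h2 := @hB x
      rw [mem_compl] at h2
      simp only [mem_union, mem_inter]
      tauto
    · ext x
      have h1 := @hA x
      have h2 := @hB x
      rw [mem_compl] at h2
      simp only [mem_union, mem_inter, mem_compl]
      tauto
  · intro T _
    have e0 : T ∩ U ∪ T ∩ Uᶜ = T := by
      ext x
      simp only [mem_union, mem_inter, mem_compl]
      tauto
    have e1 : ∏ x ∈ T, q x = (∏ x ∈ T ∩ U, q x) * ∏ x ∈ T ∩ Uᶜ, q x := by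
      rw [← prod_union]
      · rw [e0]
      · rw [disjoint_left]
        intro x hx hx'
        simp only [mem_inter, mem_compl] at hx hx'
        exact hx'.2 hx.2
    have e2 : ∏ x ∈ Tᶜ, (1 - q x) = (∏ x ∈ U \ (T ∩ U), (1 - q x)) *
        ∏ x ∈ Uᶜ \ (T ∩ Uᶜ), (1 - q x) := by
      rw [← prod_union]
      · congr 1
        ext x
        simp only [mem_union, mem_inter, mem_compl, mem_sdiff]
        tauto
      · rw [disjoint_left]
        intro x hx hx'
        simp only [mem_sdiff, mem_compl] at hx hx'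
        exact hx'.1 hx.1
    show w1 q T * g T = _
    rw [e0]
    unfold w1
    rw [e1, e2]
    ring

/-- Total mass of the part in `V`. -/
theorem PRB_mass {π : Type} [DecidableEq π] (q : π → ℝ) (V : Finset π) :
    ∑ B ∈ V.powerset, (∏ x ∈ B, q x) * ∏ x ∈ V \ B, (1 - q x) = 1 := by
  rw [← prod_add]
  apply prod_eq_one
  intro x _
  ring

/-- Independence of the parts in `U` and outside `U`. -/
theorem PRB_indep {π : Type} [Fintype π] [DecidableEq π] (q : π → ℝ) (U : Finset π)
    (f g : Finset π → ℝ) (hf : ∀ A ⊆ U, ∀ B ⊆ Uᶜ, f (A ∪ B) = f A)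
    (hg : ∀ A ⊆ U, ∀ B ⊆ Uᶜ, g (A ∪ B) = g B) :
    E1 q (fun T => f T * g T) = E1 q f * E1 q g := by
  have e1 : E1 q f = ∑ A ∈ U.powerset, ((∏ x ∈ A, q x) * ∏ x ∈ U \ A, (1 - q x)) * f A := by
    rw [PRB_split q U f]
    refine sum_congr rfl fun A hA => ?_
    rw [mem_powerset] at hA
    have : ∀ B ∈ Uᶜ.powerset, ((∏ x ∈ A, q x) * ∏ x ∈ U \ A, (1 - q x)) *
        ((∏ x ∈ B, q x) * ∏ x ∈ Uᶜ \ B, (1 - q x)) * f (A ∪ B) =
        (((∏ x ∈ A, q x) * ∏ x ∈ U \ A, (1 - q x)) * f A) *
        ((∏ x ∈ B, q x) * ∏ x ∈ Uᶜ \ B, (1 - q x)) := by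
      intro B hB
      rw [mem_powerset] at hB
      rw [hf A hA B hB]
      ring
    rw [sum_congr rfl this, ← mul_sum, PRB_mass, mul_one]
  have e2 : E1 q g = ∑ B ∈ Uᶜ.powerset,
      ((∏ x ∈ B, q x) * ∏ x ∈ Uᶜ \ B, (1 - q x)) * g B := by
    rw [PRB_split q U g, sum_comm]
    refine sum_congr rfl fun B hB => ?_
    rw [mem_powerset] at hB
    have : ∀ A ∈ U.powerset, ((∏ x ∈ A, q x) * ∏ x ∈ U \ A, (1 - q x)) *
        ((∏ x ∈ B, q x) * ∏ x ∈ Uᶜ \ B, (1 - q x)) * g (A ∪ B) =
        (((∏ x ∈ B, q x) * ∏ x ∈ Uᶜ \ B, (1 - q x)) * g B) *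
        ((∏ x ∈ A, q x) * ∏ x ∈ U \ A, (1 - q x)) := by
      intro A hA
      rw [mem_powerset] at hA
      rw [hg A hA B hB]
      ring
    rw [sum_congr rfl this, ← mul_sum, PRB_mass, mul_one]
  rw [PRB_split q U, e1, e2, sum_mul_sum]
  refine sum_congr rfl fun A hA => sum_congr rfl fun B hB => ?_
  rw [mem_powerset] at hA hB
  rw [hf A hA B hB, hg A hA B hB]
  ring

theorem p_PRB (h1 : Stmt_W1S) (_h2 : Stmt_GNF) : Stmt_PRB := by
  intro π _ _ q b s f
  induction s using Finset.induction_on with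
  | empty =>
    simp only [prod_empty]
    unfold E1
    simp only [mul_one]
    exact (h1 π q).1
  | insert i s hi ih =>
    simp only [prod_insert hi]
    rw [← ih]
    refine PRB_indep q (univ.filter (fun x => b x = i)) (fun T => f i (om b T i))
      (fun T => ∏ j ∈ s, f j (om b T j)) ?_ ?_
    · intro A hA B hB
      have : (A ∪ B).filter (fun x => b x = i) = A.filter (fun x => b x = i) := by
        ext x
        have h3 := @hB x
        simp only [mem_compl, mem_filter, mem_univ, true_and] at h3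
        simp only [mem_filter, mem_union]
        tauto
      simp only [om, this]
    · intro A hA B hB
      refine prod_congr rfl fun j hj => ?_
      have hji : j ≠ i := fun h => hi (h ▸ hj)
      have : (A ∪ B).filter (fun x => b x = j) = B.filter (fun x => b x = j) := by
        ext x
        have h3 := @hA x
        simp only [mem_filter, mem_univ, true_and] at h3
        simp only [mem_filter, mem_union]
        constructor
        · rintro ⟨h4 | h4, h5⟩
          · exact absurd (h5.symm.trans (h3 h4)) hji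
          · exact ⟨h4, h5⟩
        · rintro ⟨h4, h5⟩
          exact ⟨Or.inr h4, h5⟩
      simp only [om, this]

end Pool.PP
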