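import Pool.Agent.Work.MP_b0c12c_pp.Transfer

/-! # Isolated primes: block PWI (helper60) -/

set_option autoImplicit false

namespace Pool.PP

open Finset Filter

theorem PWI_tau_zero (e : ℕ) : tau e 0 = 1 := by
  unfold tau
  rw [Finset.sum_range_succ']
  simp

theorem PWI_tau_succ (e w : ℕ) : tau e (w + 1) = (-1) ^ e * (w.choose e : ℝ) := by
  induction e with
  | zero => simp [tau]
  | succ e ih =>
    have h : tau (e + 1) (w + 1) =
        tau e (w + 1) + (-1 : ℝ) ^ (e + 1) * ((w + 1).choose (e + 1) : ℝ) := by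
      unfold tau
      rw [Finset.sum_range_succ (n := e + 1)]
    rw [h, ih, Nat.choose_succ_succ]
    push_cast
    ring

theorem PWI_tau_nonneg (k w : ℕ) : 0 ≤ tau (2 * k) w := by
  cases w with
  | zero => rw [PWI_tau_zero]; norm_num
  | succ w =>
    rw [PWI_tau_succ, pow_mul]
    norm_num

theorem PWI_om_empty {π : Type} (b : π → ℕ) (i : ℕ) : om b (∅ : Finset π) i = 0 := by
  simp [om]

theorem PWI_rho_nonneg {π : Type} (b : π → ℕ) (I : ℕ) (T : Finset π) : 0 ≤ rho b I T := by
  unfold rho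
  exact Finset.prod_nonneg (fun i _ => PWI_tau_nonneg _ _)

theorem PWI_rho_empty {π : Type} (b : π → ℕ) (I : ℕ) : rho b I (∅ : Finset π) = 1 := by
  unfold rho
  apply Finset.prod_eq_one
  intro i _
  rw [PWI_om_empty, PWI_tau_zero]

theorem PWI_gs_empty {π : Type} [Fintype π] [DecidableEq π] (q : π → ℝ) (b : π → ℕ) (I s : ℕ)
    (h : mt q b (I - 1 - s) ≠ 1) : gs q b I s (∅ : Finset π) = 1 := by
  unfold gs gj low
  rw [Finset.prod_eq_one (fun i _ => by rw [PWI_om_empty, PWI_tau_zero]), PWI_om_empty,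
    PWI_tau_zero, one_mul, div_self]
  intro h0
  exact h (by linarith)

theorem PWI_split {ι β : Type} [Fintype ι] [DecidableEq ι] [Fintype β] (m : ι)
    (F : (ι → β) → ℝ) :
    ∑ κ, F κ = ∑ κ' : ({j // j ≠ m} → β), ∑ o : β, F ((Equiv.funSplitAt m β).symm (o, κ')) := by
  rw [← (Equiv.funSplitAt m β).symm.sum_comp, Fintype.sum_prod_type, Finset.sum_comm]

theorem PWI_prod {ι β : Type} [Fintype ι] [DecidableEq ι] (m : ι) (g : ι → β → ℝ) (o o' : β)
    (κ' : {j // j ≠ m} → β) :
    ∏ h, g h ((Equiv.funSplitAt m β).symm (o, κ') h) =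
      g m o * ∏ h ∈ univ.erase m, g h ((Equiv.funSplitAt m β).symm (o', κ') h) := by
  rw [← Finset.mul_prod_erase univ _ (Finset.mem_univ m)]
  congr 1
  · congr 1
    simp [Equiv.funSplitAt, Equiv.piSplitAt]
  · apply Finset.prod_congr rfl
    intro h hh
    have hne : h ≠ m := Finset.ne_of_mem_erase hh
    congr 1
    simp [Equiv.funSplitAt, Equiv.piSplitAt, hne]

theorem PWI_PF {ι : Type} [Fintype ι] [DecidableEq ι] {J : ℕ} (m : ι) (G : ι → Fin J → ℝ)
    (hG : ∀ s, G m s = 1) : PF (cm m) G = PF c0 G := by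
  unfold PF
  rw [PWI_split m, PWI_split m]
  apply Finset.sum_congr rfl
  intro κ' _
  rw [Fintype.sum_option, Fintype.sum_option]
  have e1 : ∀ o : Option (Fin J), ∏ h, fac (G h) ((Equiv.funSplitAt m (Option (Fin J))).symm
      (o, κ') h) = fac (G m) o * ∏ h ∈ univ.erase m, fac (G h)
        ((Equiv.funSplitAt m (Option (Fin J))).symm (none, κ') h) :=
    fun o => PWI_prod m (fun h => fac (G h)) o none κ'
  set R := ∏ h ∈ univ.erase m, fac (G h)
        ((Equiv.funSplitAt m (Option (Fin J))).symm (none, κ') h) with hR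
  have hval : ∀ o : Option (Fin J),
      (Equiv.funSplitAt m (Option (Fin J))).symm (o, κ') m = o := by
    intro o
    simp [Equiv.funSplitAt, Equiv.piSplitAt]
  have hupd : ∀ s : Fin J, Function.update ((Equiv.funSplitAt m (Option (Fin J))).symm (none, κ'))
      m (some s) = (Equiv.funSplitAt m (Option (Fin J))).symm (some s, κ') := by
    intro s
    funext h
    by_cases hh : h = m
    · subst hh
      rw [Function.update_self, hval]
    · rw [Function.update_of_ne hh]
      simp [Equiv.funSplitAt, Equiv.piSplitAt, hh]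
  have hcm0 : ∀ s : Fin J, cm m ((Equiv.funSplitAt m (Option (Fin J))).symm (some s, κ')) = 0 := by
    intro s
    unfold cm
    rw [hval, if_neg (by simp)]
  have hcm : cm m ((Equiv.funSplitAt m (Option (Fin J))).symm (none, κ')) =
      c0 ((Equiv.funSplitAt m (Option (Fin J))).symm (none, κ')) -
        (1 / J : ℝ) * ∑ s : Fin J, c0 ((Equiv.funSplitAt m (Option (Fin J))).symm (some s, κ')) := by
    unfold cm
    rw [hval, if_pos rfl]
    simp_rw [hupd]
  simp only [hcm0, zero_mul, Finset.sum_const_zero, add_zero]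
  rw [hcm, e1 none]
  have e2 : ∀ s : Fin J, c0 ((Equiv.funSplitAt m (Option (Fin J))).symm (some s, κ')) *
      ∏ h, fac (G h) ((Equiv.funSplitAt m (Option (Fin J))).symm (some s, κ') h) =
      -(1 / J : ℝ) * R * c0 ((Equiv.funSplitAt m (Option (Fin J))).symm (some s, κ')) := by
    intro s
    rw [e1 (some s)]
    have : fac (G m) (some s) = -(1 / J : ℝ) := by
      simp only [fac, hG s]
      ring
    rw [this]
    ring
  rw [Finset.sum_congr rfl (fun s _ => e2 s), ← Finset.mul_sum]
  have e3 : fac (G m) none = 1 := rfl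
  rw [e3]
  ring

theorem p_PWI : Stmt_PWI := by
  intro π ι _ _ _ _ q b I J S t _ hmt
  have hnn : ∀ m ∈ S, 0 ≤ Fm q b I J S m t ^ 2 * rho b I (t m) :=
    fun m _ => mul_nonneg (sq_nonneg _) (PWI_rho_nonneg b I _)
  constructor
  · unfold Psi
    have := Finset.sum_nonneg hnn
    linarith
  · rintro ⟨m, hm, htm⟩
    have h1 : Fm q b I J S m t ^ 2 * rho b I (t m) ≤
        ∑ m ∈ S, Fm q b I J S m t ^ 2 * rho b I (t m) :=
      Finset.single_le_sum hnn hm
    have h2 : Fm q b I J S m t = FF q b I J S t := by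
      unfold Fm FF
      apply PWI_PF
      intro s
      unfold GG
      rw [if_pos hm, htm]
      exact PWI_gs_empty q b I s (hmt s)
    rw [htm, PWI_rho_empty, mul_one, h2] at h1
    unfold Psi
    linarith

end Pool.PP
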