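import Pool.Agent.Work.MP_b0c12c_pp.Loc

/-! # Block RID: if the site `m` is free then `F = F_m` (helper36) -/

set_option autoImplicit false

namespace Pool.PP

open Finset

namespace RID_

theorem split {ι γ : Type} [Fintype ι] [DecidableEq ι] [Fintype γ] [DecidableEq γ] (m : ι)
    (a₀ : γ) (F : (ι → γ) → ℝ) :
    ∑ t : ι → γ, F t =
      ∑ t ∈ univ.filter (fun t : ι → γ => t m = a₀), ∑ a : γ, F (Function.update t m a) := by
  rw [← Finset.sum_product']
  refine Finset.sum_bij' (fun t _ => (Function.update t m a₀, t m))
    (fun z _ => Function.update z.1 m z.2) ?_ ?_ ?_ ?_ ?_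
  · intro t _
    simp
  · intro z _
    simp
  · intro t _
    simp
  · intro z hz
    simp only [mem_product, mem_filter, mem_univ, true_and, and_true] at hz
    obtain ⟨z1, z2⟩ := z
    simp only [Function.update_idem, Function.update_self, Prod.mk.injEq, and_true]
    simp only at hz
    rw [← hz]
    exact Function.update_eq_self _ _
  · intro t _
    simp

end RID_

theorem p_RID : Stmt_RID := by
  intro ι _ _ J c m G hG
  have hP : ∀ (κ : ι → Option (Fin J)) (o : Option (Fin J)),
      ∏ h, fac (G h) (Function.update κ m o h) =
        fac (G m) o * ∏ h ∈ univ.erase m, fac (G h) (κ h) := by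
    intro κ o
    rw [← Finset.mul_prod_erase univ _ (mem_univ m), Function.update_self]
    congr 1
    refine Finset.prod_congr rfl fun h hh => ?_
    rw [Function.update_of_ne (Finset.ne_of_mem_erase hh)]
  unfold PF
  rw [RID_.split m none, RID_.split m none]
  refine Finset.sum_congr rfl fun κ hκ => ?_
  simp only [mem_filter, mem_univ, true_and] at hκ
  rw [Fintype.sum_option, Fintype.sum_option]
  have h1 : Function.update κ m none = κ := by
    rw [← hκ]
    exact Function.update_eq_self _ _
  have h2 : ∀ s : Fin J, cM c m (Function.update κ m (some s)) = 0 := by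
    intro s
    unfold cM
    rw [if_neg]
    simp
  have h3 : cM c m (Function.update κ m none) =
      c κ - (1 / J : ℝ) * ∑ s : Fin J, c (Function.update κ m (some s)) := by
    rw [h1]
    unfold cM
    rw [if_pos hκ]
  simp only [h2, h3, hP, zero_mul, Finset.sum_const_zero, add_zero]
  have h4 : fac (G m) none = 1 := rfl
  have h5 : ∀ s : Fin J, fac (G m) (some s) = -1 / (J : ℝ) := by
    intro s
    simp only [fac, hG s]
  simp only [h4, h5, h1]
  rw [sub_mul, Finset.mul_sum, Finset.sum_mul, sub_eq_add_neg, ← Finset.sum_neg_distrib]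
  congr 1
  refine Finset.sum_congr rfl fun s _ => ?_
  ring

end Pool.PP
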