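import Pool.Agent.Work.MP_b0c12c_pp.Loc

/-! # Block SIZ: size of the sets in the support (helper7) -/

set_option autoImplicit false

namespace Pool.PP

open Finset

theorem siz_aux (n : ℕ) :
    ∑ i ∈ range n, 2 * (n - i) * 2 ^ (i + 1) + 4 * n + 8 = 2 ^ (n + 3) := by
  induction n with
  | zero => simp
  | succ n ih =>
    have h1 : ∑ i ∈ range n, 2 * 2 ^ (i + 1) + 4 = 4 * 2 ^ n := by
      clear ih
      induction n with
      | zero => simp
      | succ n ih =>
        rw [Finset.sum_range_succ]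
        have : 4 * 2 ^ (n + 1) = 4 * 2 ^ n + 2 * 2 ^ (n + 1) := by ring
        rw [this, ← ih]
        ring
    have h2 : ∑ i ∈ range n, 2 * (n + 1 - i) * 2 ^ (i + 1) =
        ∑ i ∈ range n, 2 * (n - i) * 2 ^ (i + 1) + ∑ i ∈ range n, 2 * 2 ^ (i + 1) := by
      rw [← Finset.sum_add_distrib]
      apply Finset.sum_congr rfl
      intro i hi
      have h3 : n + 1 - i = (n - i) + 1 := by
        have := Finset.mem_range.mp hi
        omega
      rw [h3]
      ring
    rw [Finset.sum_range_succ, h2]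
    have h4 : n + 1 - n = 1 := by omega
    rw [h4]
    have h5 : 2 ^ (n + 1 + 3) = 2 ^ (n + 3) + 8 * 2 ^ n := by ring
    have h6 : 2 ^ (n + 1) = 2 * 2 ^ n := by ring
    rw [h5, ← ih, h6]
    omega

theorem siz_core {π : Type} [DecidableEq π] (z n : ℕ) (pr b : π → ℕ) (hz : 2 ≤ z)
    (hb : ∀ x, pr x ≤ z ^ (2 ^ (b x + 1))) (U : Finset π) (h1 : ∀ x ∈ U, b x < n)
    (h2 : ∀ i < n, om b U i ≤ 2 * (n - i)) : ∏ x ∈ U, pr x ≤ z ^ (2 ^ (n + 3)) := by
  calc ∏ x ∈ U, pr x ≤ ∏ x ∈ U, z ^ (2 ^ (b x + 1)) :=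
        Finset.prod_le_prod' fun x _ => hb x
    _ = z ^ (∑ x ∈ U, 2 ^ (b x + 1)) := Finset.prod_pow_eq_pow_sum _ _ _
    _ ≤ z ^ (2 ^ (n + 3)) := by
        apply Nat.pow_le_pow_right (by omega)
        have h3 : ∑ x ∈ U, 2 ^ (b x + 1) =
            ∑ i ∈ range n, ∑ x ∈ U.filter (fun x => b x = i), 2 ^ (b x + 1) := by
          rw [Finset.sum_fiberwise_of_maps_to]
          intro x hx
          exact Finset.mem_range.mpr (h1 x hx)
        rw [h3]
        calc ∑ i ∈ range n, ∑ x ∈ U.filter (fun x => b x = i), 2 ^ (b x + 1)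
            ≤ ∑ i ∈ range n, 2 * (n - i) * 2 ^ (i + 1) := by
              apply Finset.sum_le_sum
              intro i hi
              have h4 : ∑ x ∈ U.filter (fun x => b x = i), 2 ^ (b x + 1) =
                  om b U i * 2 ^ (i + 1) := by
                rw [om, Finset.card_eq_sum_ones, Finset.sum_mul]
                apply Finset.sum_congr rfl
                intro x hx
                rw [(Finset.mem_filter.mp hx).2, one_mul]
              rw [h4]
              exact Nat.mul_le_mul_right _ (h2 i (Finset.mem_range.mp hi))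
          _ ≤ 2 ^ (n + 3) := by
              have := siz_aux n
              omega

theorem p_SIZ : Stmt_SIZ := by
  intro π _ _ z I pr b hz hPB
  constructor
  · intro j _ U h1 h2
    have h3 := siz_core z (j + 1) pr b hz hPB.bhi U (fun x hx => Nat.lt_succ_of_le (h1 x hx))
      (fun i hi => by
        have h4 := h2 i (by omega)
        have h5 : j + 1 - i = j - i + 1 := by omega
        rw [h5]
        exact h4)
    exact h3
  · intro U h2
    apply siz_core z I pr b hz hPB.bhi U _ h2
    intro x _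
    have h6 := (hPB.range (pr x)).mp ⟨x, rfl⟩
    have h7 : z ^ (2 ^ (b x)) < z ^ (2 ^ I) := lt_of_lt_of_le (hPB.blo x) h6.2.2
    have h8 : 2 ^ (b x) < 2 ^ I := (Nat.pow_lt_pow_iff_right (by omega)).mp h7
    exact (Nat.pow_lt_pow_iff_right (by omega)).mp h8

end Pool.PP
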