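import Pool.Agent.Work.MP_b0c12c_pp.Loc

set_option autoImplicit false

namespace Pool.PP

open Finset

theorem p_SQM (hP : Stmt_PMU) (hW : Stmt_W1S) : Stmt_SQM := by
  intro π ι _ _ _ _ q J f S c hO
  classical
  have E1c : ∀ (a : ℝ) (g : Finset π → ℝ), E1 q (fun T => a * g T) = a * E1 q g := by
    intro a g
    unfold E1
    rw [Finset.mul_sum]
    exact Finset.sum_congr rfl (fun _ _ => by ring)
  have E10 : E1 q (fun _ => (0 : ℝ)) = 0 := by simp [E1]
  have E11 : E1 q (fun _ => (1 : ℝ)) = 1 := by
    have := (hW π q).1
    simpa [E1] using this
  have hsite : ∀ (h : ι) (k k' : Option (Fin J)),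
      E1 q (fun T => fac (fun s => if h ∈ S then f s T else 0) k *
        fac (fun s => if h ∈ S then f s T else 0) k') =
      if k = k' then yy (xs q f) S h k else 0 := by
    intro h k k'
    cases k with
    | none =>
      cases k' with
      | none => simpa [fac, yy] using E11
      | some s =>
        by_cases hS : h ∈ S
        · have h1 : (fun T => fac (fun s => if h ∈ S then f s T else 0) (none : Option (Fin J)) *
              fac (fun s => if h ∈ S then f s T else 0) (some s)) =
              fun T => (-(1 / (J : ℝ))) * f s T := by
            funext T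
            simp only [fac, hS, if_true]
            ring
          rw [h1, E1c, hO.mean s]
          simp
        · simpa [fac, hS] using E10
    | some s =>
      cases k' with
      | none =>
        by_cases hS : h ∈ S
        · have h1 : (fun T => fac (fun s => if h ∈ S then f s T else 0) (some s) *
              fac (fun s => if h ∈ S then f s T else 0) (none : Option (Fin J))) =
              fun T => (-(1 / (J : ℝ))) * f s T := by
            funext T
            simp only [fac, hS, if_true]
            ring
          rw [h1, E1c, hO.mean s]
          simp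
        · simpa [fac, hS] using E10
      | some s' =>
        by_cases hS : h ∈ S
        · have h1 : (fun T => fac (fun s => if h ∈ S then f s T else 0) (some s) *
              fac (fun s => if h ∈ S then f s T else 0) (some s')) =
              fun T => (1 / (J : ℝ) ^ 2) * (f s T * f s' T) := by
            funext T
            simp only [fac, hS, if_true]
            ring
          rw [h1, E1c]
          by_cases hss : s = s'
          · subst hss
            have h2 : (fun T => f s T * f s T) = fun T => f s T ^ 2 := by
              funext T
              ring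
            rw [h2]
            simp only [yy, hS, if_true, xs]
            ring
          · rw [hO.orth s s' hss]
            simp [hss]
        · have h1 : (fun T => fac (fun s => if h ∈ S then f s T else 0) (some s) *
              fac (fun s => if h ∈ S then f s T else 0) (some s')) = fun _ => (0 : ℝ) := by
            funext T
            simp [fac, hS]
          rw [h1, E10]
          simp [yy, hS]
  obtain ⟨φ, hφ⟩ : ∃ φ : (ι → Option (Fin J)) → (ι → Option (Fin J)) → ι → Finset π → ℝ,
      ∀ κ κ' h T, φ κ κ' h T = fac (fun s => if h ∈ S then f s T else 0) (κ h) *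
          fac (fun s => if h ∈ S then f s T else 0) (κ' h) := ⟨_, fun _ _ _ _ => rfl⟩
  have hexp : (fun t : ι → Finset π => PF c (tab f S t) ^ 2) = fun t =>
      ∑ κ : ι → Option (Fin J),
      ∑ κ' : ι → Option (Fin J), (c κ * c κ') * ∏ h, φ κ κ' h (t h) := by
    funext t
    unfold PF
    rw [sq, Finset.sum_mul_sum]
    refine Finset.sum_congr rfl (fun κ _ => Finset.sum_congr rfl (fun κ' _ => ?_))
    simp only [hφ]
    rw [Finset.prod_mul_distrib]
    unfold tab
    ring
  have hEM : EM q (fun t : ι → Finset π => PF c (tab f S t) ^ 2) =
      ∑ κ : ι → Option (Fin J), ∑ κ' : ι → Option (Fin J), (c κ * c κ') *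
        EM q (fun t : ι → Finset π => ∏ h, φ κ κ' h (t h)) := by
    rw [hexp]
    unfold EM
    simp only [Finset.mul_sum]
    rw [Finset.sum_comm]
    refine Finset.sum_congr rfl (fun κ _ => ?_)
    rw [Finset.sum_comm]
    refine Finset.sum_congr rfl (fun κ' _ => ?_)
    refine Finset.sum_congr rfl (fun t _ => ?_)
    ring
  have hφE : ∀ κ κ' h, E1 q (φ κ κ' h) = if κ h = κ' h then yy (xs q f) S h (κ h) else 0 := by
    intro κ κ' h
    rw [← hsite h (κ h) (κ' h)]
    congr 1
    funext T
    exact hφ κ κ' h T
  rw [hEM]
  refine Finset.sum_congr rfl (fun κ _ => ?_)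
  rw [Finset.sum_eq_single κ]
  · rw [hP π ι q (φ κ κ)]
    simp only [hφE, if_true]
    unfold ym
    ring
  · intro κ' _ hne
    rw [hP π ι q (φ κ κ')]
    have hex : ∃ h, κ h ≠ κ' h := by
      by_contra h0
      push Not at h0
      exact hne (funext (fun h => (h0 h).symm))
    obtain ⟨h, hh⟩ := hex
    rw [Finset.prod_eq_zero (Finset.mem_univ h), mul_zero]
    rw [hφE, if_neg hh]
  · intro h0
    exact absurd (Finset.mem_univ κ) h0

end Pool.PP
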