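import Pool.Agent.Work.MP_b0c12c_pp.Loc
import Pool.Agent.Work.MP_b0c12c_pp.B_PWI

/-! # Isolated primes: block TAU (helper43) -/

set_option autoImplicit false

namespace Pool.PP

open Finset

theorem p_TAU : Stmt_TAU := by
  refine ⟨PWI_tau_zero, fun d n => ⟨PWI_tau_nonneg d n, fun r hr => ?_⟩⟩
  have hpos : (0 : ℝ) ≤ (1 / 4 : ℝ) ^ d * 2 ^ ((r + 1) * n) := by positivity
  rcases n with _ | m
  · rw [PWI_tau_zero, one_pow, if_pos rfl]
    linarith
  · rw [if_neg (Nat.succ_ne_zero m), zero_add, PWI_tau_succ, pow_mul]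
    have h1 : ((-1 : ℝ) ^ 2) ^ d = 1 := by norm_num
    rw [h1, one_mul]
    by_cases hm : m < 2 * d
    · rw [Nat.choose_eq_zero_of_lt hm]
      rw [Nat.cast_zero, zero_pow (by omega)]
      exact hpos
    · push Not at hm
      have h2 : ((m.choose (2 * d) : ℕ) : ℝ) ≤ 2 ^ (m + 1) := by
        have h3 : m.choose (2 * d) ≤ 2 ^ m := Nat.choose_le_two_pow m (2 * d)
        have h4 : ((m.choose (2 * d) : ℕ) : ℝ) ≤ 2 ^ m := by exact_mod_cast h3
        have h5 : (2 : ℝ) ^ m ≤ 2 ^ (m + 1) := pow_le_pow_right₀ (by norm_num) (by omega)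
        linarith
      have h6 : ((m.choose (2 * d) : ℕ) : ℝ) ^ r ≤ (2 ^ (m + 1)) ^ r :=
        pow_le_pow_left₀ (by positivity) h2 r
      refine h6.trans ?_
      have h7 : (2 : ℝ) ^ ((r + 1) * (m + 1)) = (2 ^ (m + 1)) ^ r * 2 ^ (m + 1) := by
        rw [← pow_mul, ← pow_add]; congr 1; ring
      rw [h7]
      have h8 : (1 : ℝ) ≤ (1 / 4 : ℝ) ^ d * 2 ^ (m + 1) := by
        have h9 : (2 : ℝ) ^ (2 * d) ≤ 2 ^ (m + 1) := pow_le_pow_right₀ (by norm_num) (by omega)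
        have h10 : (1 / 4 : ℝ) ^ d * 2 ^ (2 * d) = 1 := by
          rw [pow_mul, ← mul_pow]; norm_num
        calc (1 : ℝ) = (1 / 4 : ℝ) ^ d * 2 ^ (2 * d) := h10.symm
          _ ≤ _ := mul_le_mul_of_nonneg_left h9 (by positivity)
      calc ((2 : ℝ) ^ (m + 1)) ^ r = (2 ^ (m + 1)) ^ r * 1 := (mul_one _).symm
        _ ≤ (2 ^ (m + 1)) ^ r * ((1 / 4 : ℝ) ^ d * 2 ^ (m + 1)) :=
          mul_le_mul_of_nonneg_left h8 (by positivity)
        _ = _ := by ring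

end Pool.PP
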