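import Pool.Agent.Work.MP_b0c12c_pp.Loc

set_option autoImplicit false

namespace Pool.PP

open Finset

theorem p_W1S : Stmt_W1S := by
  intro π _ _ q
  refine ⟨?_, ?_⟩
  · have h := Finset.prod_add (fun x => q x) (fun x => 1 - q x) (univ : Finset π)
    have h1 : ∏ x ∈ (univ : Finset π), (q x + (1 - q x)) = 1 := by
      apply Finset.prod_eq_one
      intro x _
      ring
    rw [h1] at h
    rw [h]
    rw [Finset.powerset_univ]
    apply Finset.sum_congr rfl
    intro T _
    unfold w1
    rw [Finset.compl_eq_univ_sdiff]
  · intro h0 h1 T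
    unfold w1
    apply mul_nonneg
    · exact Finset.prod_nonneg fun x _ => h0 x
    · exact Finset.prod_nonneg fun x _ => sub_nonneg.2 (h1 x)

end Pool.PP
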