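import Mathlib

/-! # Isolated primes, positive proportion: definitions (helper69, note 2767)

`π` indexes the large primes, `σ` the small primes, `ι` the shifts. A table `t : ι → Finset α`
says which primes divide `n + h`. -/

set_option autoImplicit false

namespace Pool.PP

open Finset

/-! ## One shift -/

section One

variable {π : Type} [Fintype π] [DecidableEq π]

/-- Probability of the set `T` if every `x` belongs to `T` with probability `q x`. -/
def w1 (q : π → ℝ) (T : Finset π) : ℝ := (∏ x ∈ T, q x) * ∏ x ∈ Tᶜ, (1 - q x)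

/-- Mean over one random set. -/
def E1 (q : π → ℝ) (f : Finset π → ℝ) : ℝ := ∑ T, w1 q T * f T

end One

/-- Bonferroni sum. -/
def tau (e w : ℕ) : ℝ := ∑ s ∈ range (e + 1), (-1 : ℝ) ^ s * (w.choose s : ℝ)

section Site

variable {π : Type}

/-- Number of elements of `T` in the block `i`. -/
def om (b : π → ℕ) (T : Finset π) (i : ℕ) : ℕ := (T.filter (fun x => b x = i)).card

/-- The factors of the blocks below `j`. -/
def low (b : π → ℕ) (j : ℕ) (T : Finset π) : ℝ :=
  ∏ i ∈ range j, tau (2 * (j - i + 1)) (om b T i)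

/-- `ρ`: the factors of the blocks `0, …, I - 1`. -/
def rho (b : π → ℕ) (I : ℕ) (T : Finset π) : ℝ :=
  ∏ i ∈ range I, tau (2 * (I - i)) (om b T i)

variable [Fintype π] [DecidableEq π]

/-- The mean of the top factor. -/
def mt (q : π → ℝ) (b : π → ℕ) (j : ℕ) : ℝ := E1 q (fun T => tau 2 (om b T j))

/-- The function with top block `j`. -/
noncomputable def gj (q : π → ℝ) (b : π → ℕ) (j : ℕ) (T : Finset π) : ℝ :=
  low b j T * ((tau 2 (om b T j) - mt q b j) / (1 - mt q b j))

/-- The function of the scale `s`: the top block is `I - 1 - s`. -/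
noncomputable def gs (q : π → ℝ) (b : π → ℕ) (I s : ℕ) (T : Finset π) : ℝ :=
  gj q b (I - 1 - s) T

end Site

/-! ## All shifts -/

section Many

variable {π ι : Type} [Fintype π] [DecidableEq π] [Fintype ι] [DecidableEq ι]

/-- Mean over independent random sets, one for every shift. -/
def EM (q : π → ℝ) (Φ : (ι → Finset π) → ℝ) : ℝ :=
  ∑ t : ι → Finset π, (∏ h, w1 q (t h)) * Φ t

/-- The set of primes with label `h`. -/
def fib (ω : π → Option ι) (h : ι) : Finset π := univ.filter (fun x => ω x = some h)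

/-- The weight of a labelling: every label has probability `q x`. -/
def wl (q : π → ℝ) (ω : π → Option ι) : ℝ :=
  ∏ x, (ω x).elim (1 - (Fintype.card ι : ℝ) * q x) (fun _ => q x)

/-- Mean over random labellings. -/
def EN (q : π → ℝ) (Φ : (ι → Finset π) → ℝ) : ℝ :=
  ∑ ω : π → Option ι, wl q ω * Φ (fib ω)

end Many

/-! ## The weight -/

section Weight

variable {ι : Type} [Fintype ι] [DecidableEq ι] {J : ℕ}

/-- The factor of one shift. -/
noncomputable def fac (G : Fin J → ℝ) : Option (Fin J) → ℝ
  | none => 1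
  | some s => -(G s) / J

/-- `∑ c(κ) ∏ factors`, `G h s` is the value of the function `s` at the shift `h`. -/
noncomputable def PF (c : (ι → Option (Fin J)) → ℝ) (G : ι → Fin J → ℝ) : ℝ :=
  ∑ κ : ι → Option (Fin J), c κ * ∏ h, fac (G h) (κ h)

/-- The level of one choice, the unit is the level of the top scale `s = 0`. -/
noncomputable def lev1 : Option (Fin J) → ℝ
  | none => 0
  | some s => (1 / 2 : ℝ) ^ (s : ℕ)

/-- The level. -/
noncomputable def lev (κ : ι → Option (Fin J)) : ℝ := ∑ h, lev1 (κ h)

/-- The coefficients of `F`: level at most `2`. -/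
noncomputable def c0 (κ : ι → Option (Fin J)) : ℝ :=
  open Classical in if lev κ ≤ 2 then 1 else 0

/-- The coefficients of `F_m`. -/
noncomputable def cm (m : ι) (κ : ι → Option (Fin J)) : ℝ :=
  if κ m = none then c0 κ - (1 / J : ℝ) * ∑ s : Fin J, c0 (Function.update κ m (some s)) else 0

end Weight

section Table

variable {π ι : Type} [Fintype π] [DecidableEq π] [Fintype ι] [DecidableEq ι]

/-- The values of the functions at all shifts, `0` at the shifts outside `S`. -/
noncomputable def GG (q : π → ℝ) (b : π → ℕ) (I J : ℕ) (S : Finset ι) (t : ι → Finset π) :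
    ι → Fin J → ℝ :=
  fun h s => if h ∈ S then gs q b I s (t h) else 0

/-- The weight `F`. -/
noncomputable def FF (q : π → ℝ) (b : π → ℕ) (I J : ℕ) (S : Finset ι) (t : ι → Finset π) : ℝ :=
  PF c0 (GG q b I J S t)

/-- The weight `F_m`. -/
noncomputable def Fm (q : π → ℝ) (b : π → ℕ) (I J : ℕ) (S : Finset ι) (m : ι)
    (t : ι → Finset π) : ℝ :=
  PF (cm m) (GG q b I J S t)

/-- The function `F ^ 2 - ∑ F_m ^ 2 ρ_m`. -/
noncomputable def Psi (q : π → ℝ) (b : π → ℕ) (I J : ℕ) (S : Finset ι) (t : ι → Finset π) : ℝ :=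
  FF q b I J S t ^ 2 - ∑ m ∈ S, Fm q b I J S m t ^ 2 * rho b I (t m)

end Table

/-! ## Expansions into monomials -/

section Expansion

variable {α ι : Type} [Fintype α] [DecidableEq α] [Fintype ι] [DecidableEq ι]

/-- The support of a monomial. -/
def supp (u : ι → Finset α) : Finset α := univ.biUnion u

/-- The function with the coefficients `c`. -/
noncomputable def val (c : (ι → Finset α) → ℝ) (t : ι → Finset α) : ℝ :=
  open Classical in ∑ u : ι → Finset α, if (∀ h, u h ⊆ t h) then c u else 0

/-- `Ψ` has an expansion with the coefficients of the support `V` bounded by `K κ ^ |V|` in sum,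
and with supports of size at most `D` (measured by `r`). -/
def Ex (r : α → ℝ) (Ψ : (ι → Finset α) → ℝ) (K κ D : ℝ) : Prop :=
  ∃ c : (ι → Finset α) → ℝ, (∀ t, Ψ t = val c t) ∧
    (∀ V : Finset α, ∑ u : ι → Finset α, (if supp u = V then |c u| else 0) ≤ K * κ ^ V.card) ∧
    ∀ u, c u ≠ 0 → ∏ x ∈ supp u, r x ≤ D

/-- The table of an integer `n`: `x` divides `n + h`. -/
def tb (pr : α → ℕ) (sh : ι → ℤ) (n : ℕ) (h : ι) : Finset α :=
  univ.filter (fun x => (pr x : ℤ) ∣ (n : ℤ) + sh h)

/-- The table of a family of residues. -/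
def tw (pr : α → ℕ) (sh : ι → ℤ) (ω : α → ℕ) (h : ι) : Finset α :=
  univ.filter (fun x => (pr x : ℤ) ∣ (ω x : ℤ) + sh h)

/-- Mean over independent uniform residues `ω x ∈ R x`. -/
noncomputable def EW (pr : α → ℕ) (R : α → Finset ℕ) (sh : ι → ℤ) (Ψ : (ι → Finset α) → ℝ) : ℝ :=
  (∑ ω ∈ Fintype.piFinset R, Ψ (tw pr sh ω)) / ∏ x, ((R x).card : ℝ)

end Expansion

/-! ## Small and large primes together -/

section Sum

variable {σ π ι : Type} [Fintype σ] [DecidableEq σ] [Fintype π] [DecidableEq π] [Fintype ι]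
  [DecidableEq ι]

/-- The shifts without small prime factor. -/
def Sset (t : ι → Finset (σ ⊕ π)) : Finset ι :=
  univ.filter (fun h => ∀ y : σ, Sum.inl y ∉ t h)

/-- The large primes of a table. -/
def lg (t : ι → Finset (σ ⊕ π)) (h : ι) : Finset π := univ.filter (fun x => Sum.inr x ∈ t h)

end Sum

end Pool.PP
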