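import Pool.Agent.Work.MP_b0c12c_pp.B_W1S
import Pool.Agent.Work.MP_b0c12c_pp.B_PMU
import Pool.Agent.Work.MP_b0c12c_pp.B_IND
import Pool.Agent.Work.MP_b0c12c_pp.B_SQM
import Pool.Agent.Work.MP_b0c12c_pp.B_FMU
import Pool.Agent.Work.MP_b0c12c_pp.B_BRK
import Pool.Agent.Work.MP_b0c12c_pp.B_MKT
import Pool.Agent.Work.MP_b0c12c_pp.B_MOM
import Pool.Agent.Work.MP_b0c12c_pp.B_LOCM
import Pool.Agent.Work.MP_b0c12c_pp.B_CMP
import Pool.Agent.Work.MP_b0c12c_pp.B_GNF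
import Pool.Agent.Work.MP_b0c12c_pp.B_PRB
import Pool.Agent.Work.MP_b0c12c_pp.B_TAU
import Pool.Agent.Work.MP_b0c12c_pp.B_BLM
import Pool.Agent.Work.MP_b0c12c_pp.B_EBJ
import Pool.Agent.Work.MP_b0c12c_pp.B_ORT
import Pool.Agent.Work.MP_b0c12c_pp.B_FRE
import Pool.Agent.Work.MP_b0c12c_pp.B_GMO
import Pool.Agent.Work.MP_b0c12c_pp.B_LOC
import Pool.Agent.Work.MP_b0c12c_pp.B_BMR
import Pool.Agent.Work.MP_b0c12c_pp.B_LOCP
import Pool.Agent.Work.MP_b0c12c_pp.B_COE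
import Pool.Agent.Work.MP_b0c12c_pp.B_SIZ

/-! # Assembly of the local part (helper10) -/

set_option autoImplicit false

namespace Pool.PP

theorem PRB_green : Stmt_PRB := p_PRB p_W1S p_GNF
theorem BLM_green : Stmt_BLM := p_BLM p_TAU p_GNF p_W1S
theorem EBJ_green : Stmt_EBJ := p_EBJ p_W1S p_GNF p_TAU
theorem ORT_green : Stmt_ORT := p_ORT PRB_green
theorem FRE_green : Stmt_FRE := p_FRE EBJ_green p_TAU
theorem GMO_green : Stmt_GMO := p_GMO PRB_green BLM_green EBJ_green p_TAU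
theorem IND_green : Stmt_IND := p_IND p_W1S p_PMU
theorem SQM_green : Stmt_SQM := p_SQM p_PMU p_W1S
theorem MOM_green : Stmt_MOM := p_MOM p_PMU
theorem LOCM_green : Stmt_LOCM := LOCM_holds p_W1S SQM_green IND_green p_FMU p_BRK p_MKT
theorem COE_green : Stmt_COE := p_COE EBJ_green

theorem CMP_green : Stmt_CMP := p_CMP p_W1S

theorem LOC_green : Stmt_LOC :=
  p_LOC p_W1S IND_green p_FMU p_BRK MOM_green LOCM_green CMP_green ORT_green FRE_green GMO_green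

theorem LOCP_green : Stmt_LOCP := p_LOCP LOC_green BMR_holds

end Pool.PP
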