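import Pool.Agent.Work.MP_b0c12c_pp.Defs

/-! # Isolated primes: the transfer half, statements of the blocks (helper69)

Block `X` lives in `B_X.lean` (import this file, namespace `Pool.PP`) and proves
`theorem p_X : Stmt_X` or `theorem p_X (h1 : Stmt_Y) ... : Stmt_X` with the statements of the
column `uses` as hypotheses, in that order. -/

set_option autoImplicit false

namespace Pool.PP

open Finset Filter

/-! ## Part X: expansions -/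

/-- EXM: products of expansions. -/
def Stmt_EXM : Prop :=
  ∀ (α ι : Type) [Fintype α] [DecidableEq α] [Fintype ι] [DecidableEq ι] (r : α → ℝ)
    (Ψ Ψ' : (ι → Finset α) → ℝ) (K K' κ κ' D D' : ℝ), (∀ x, 1 ≤ r x) → 0 ≤ K → 0 ≤ K' →
    0 ≤ κ → 0 ≤ κ' → 0 ≤ D → 0 ≤ D' → Ex r Ψ K κ D → Ex r Ψ' K' κ' D' →
    Ex r (fun t => Ψ t * Ψ' t) (K * K') ((1 + κ) * (1 + κ')) (D * D')

/-- EXS: finite linear combinations of expansions. -/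
def Stmt_EXS : Prop :=
  ∀ (α ι β : Type) [Fintype α] [DecidableEq α] [Fintype ι] [DecidableEq ι] (r : α → ℝ)
    (A : Finset β) (a : β → ℝ) (Ψ : β → (ι → Finset α) → ℝ) (K : β → ℝ) (κ D : ℝ), 0 ≤ κ →
    (∀ s ∈ A, a s ≠ 0 → Ex r (Ψ s) (K s) κ D) →
    Ex r (fun t => ∑ s ∈ A, a s * Ψ s t) (∑ s ∈ A, |a s| * K s) κ D

/-- EXC: constants and monotonicity. -/
def Stmt_EXC : Prop :=
  ∀ (α ι : Type) [Fintype α] [DecidableEq α] [Fintype ι] [DecidableEq ι] (r : α → ℝ),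
    (∀ (a κ D : ℝ), 0 ≤ κ → 1 ≤ D → Ex r (fun _ : ι → Finset α => a) |a| κ D) ∧
    ∀ (Ψ : (ι → Finset α) → ℝ) (K K' κ κ' D D' : ℝ), 0 ≤ K → K ≤ K' → 0 ≤ κ → κ ≤ κ' → D ≤ D' →
      Ex r Ψ K κ D → Ex r Ψ K' κ' D'

/-- EXO: functions of one shift. -/
def Stmt_EXO : Prop :=
  ∀ (α ι : Type) [Fintype α] [DecidableEq α] [Fintype ι] [DecidableEq ι] (r : α → ℝ)
    (a : Finset α → ℝ) (A D : ℝ) (h : ι), 0 ≤ A → (∀ U, |a U| ≤ A) →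
    (∀ U, a U ≠ 0 → ∏ x ∈ U, r x ≤ D) →
    Ex r (fun t : ι → Finset α => ∑ U ∈ (t h).powerset, a U) A 1 D

/-- The size function: small primes do not count. -/
noncomputable def rr {σ π : Type} (pr : π → ℕ) : σ ⊕ π → ℝ :=
  Sum.elim (fun _ => 1) (fun x => (pr x : ℝ))

/-- EXI: functions of one shift with the condition that no small prime divides `n + h`. -/
def Stmt_EXI : Prop :=
  ∀ (σ π ι : Type) [Fintype σ] [DecidableEq σ] [Fintype π] [DecidableEq π] [Fintype ι]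
    [DecidableEq ι] (pr : π → ℕ) (a : Finset π → ℝ) (A D : ℝ) (h : ι), 0 ≤ A → (∀ U, |a U| ≤ A) →
    (∀ U, a U ≠ 0 → ∏ x ∈ U, (pr x : ℝ) ≤ D) →
    Ex (rr (σ := σ) pr) (fun t : ι → Finset (σ ⊕ π) =>
      open Classical in if h ∈ Sset t then ∑ U ∈ (lg t h).powerset, a U else 0) A 1 D

/-- EXP: products over a set of shifts. -/
def Stmt_EXP : Prop :=
  ∀ (α ι : Type) [Fintype α] [DecidableEq α] [Fintype ι] [DecidableEq ι] (r : α → ℝ)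
    (B : Finset ι) (Ψ : ι → (ι → Finset α) → ℝ) (K D : ι → ℝ), (∀ x, 1 ≤ r x) →
    (∀ h ∈ B, 0 ≤ K h) → (∀ h ∈ B, 1 ≤ D h) → (∀ h ∈ B, Ex r (Ψ h) (K h) 1 (D h)) →
    Ex r (fun t => ∏ h ∈ B, Ψ h t) (∏ h ∈ B, K h) (4 ^ B.card) (∏ h ∈ B, D h)

/-- NUK: the number of `κ` of level at most `2`, and their number of active shifts. -/
def Stmt_NUK : Prop :=
  ∀ (ι : Type) [Fintype ι] [DecidableEq ι] (J : ℕ),
    (∀ κ : ι → Option (Fin J), lev κ ≤ 2 →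
      (univ.filter (fun h => κ h ≠ none)).card ≤ 2 * 2 ^ J) ∧
    open Classical in ((univ.filter (fun κ : ι → Option (Fin J) => lev κ ≤ 2)).card : ℝ) ≤
      (1 + (Fintype.card ι : ℝ) * J) ^ (2 * 2 ^ J)

/-- EXF: the functions `PF c` with coefficients of level at most `2`. The value of the scale `s` at
the shift `h` is the polynomial with the coefficients `a s`, whose level is `D ^ (2 ^ (-s))`. -/
def Stmt_EXF : Prop :=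
  ∀ (J : ℕ) (A : ℝ), 1 ≤ A → ∃ N : ℕ, ∀ (σ π ι : Type) [Fintype σ] [DecidableEq σ] [Fintype π]
    [DecidableEq π] [Fintype ι] [DecidableEq ι] (pr : π → ℕ) (a : Fin J → Finset π → ℝ) (D : ℝ)
    (c : (ι → Option (Fin J)) → ℝ), (∀ x, 1 ≤ pr x) → 1 ≤ D → (∀ s U, |a s U| ≤ A) →
    (∀ s U, a s U ≠ 0 → ∏ x ∈ U, (pr x : ℝ) ≤ D ^ ((1 / 2 : ℝ) ^ (s : ℕ))) →
    (∀ κ, |c κ| ≤ 1) → (∀ κ, c κ ≠ 0 → lev κ ≤ 2) →
    Ex (rr (σ := σ) pr) (fun t : ι → Finset (σ ⊕ π) =>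
      PF c (fun h s => open Classical in
        if h ∈ Sset t then ∑ U ∈ (lg t h).powerset, a s U else 0))
      ((2 + (Fintype.card ι : ℝ)) ^ N) (2 ^ N) (D ^ 2)

/-- EXA: the two functions of the main argument. `aρ` are the coefficients of `ρ`. -/
def Stmt_EXA : Prop :=
  ∀ (J : ℕ) (A : ℝ), 1 ≤ A → ∃ N : ℕ, ∀ (σ π ι : Type) [Fintype σ] [DecidableEq σ] [Fintype π]
    [DecidableEq π] [Fintype ι] [DecidableEq ι] (pr : π → ℕ) (q : π → ℝ) (b : π → ℕ) (I : ℕ)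
    (a : Fin J → Finset π → ℝ) (aρ : Finset π → ℝ) (D : ℝ),
    1 ≤ J → (∀ x, 1 ≤ pr x) → 1 ≤ D → (∀ s U, |a s U| ≤ A) → (∀ U, |aρ U| ≤ A) →
    (∀ s U, a s U ≠ 0 → ∏ x ∈ U, (pr x : ℝ) ≤ D ^ ((1 / 2 : ℝ) ^ (s : ℕ))) →
    (∀ U, aρ U ≠ 0 → ∏ x ∈ U, (pr x : ℝ) ≤ D) →
    (∀ (s : Fin J) T, gs q b I s T = ∑ U ∈ T.powerset, a s U) →
    (∀ T, rho b I T = ∑ U ∈ T.powerset, aρ U) →
    Ex (rr (σ := σ) pr) (fun t : ι → Finset (σ ⊕ π) => Psi q b I J (Sset t) (lg t))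
      ((2 + (Fintype.card ι : ℝ)) ^ N) (2 ^ N) (D ^ 8) ∧
    Ex (rr (σ := σ) pr) (fun t : ι → Finset (σ ⊕ π) => FF q b I J (Sset t) (lg t) ^ 4)
      ((2 + (Fintype.card ι : ℝ)) ^ N) (2 ^ N) (D ^ 8)

/-! ## Part T: transfer -/

/-- The error of the residue classes `a x`, `x ∈ V`. -/
noncomputable def err {α : Type} (pr : α → ℕ) (R : α → Finset ℕ) (NN : Finset ℕ) (M : ℝ)
    (a : α → ℕ) (V : Finset α) : ℝ :=
  |((NN.filter (fun n => ∀ x ∈ V, n % pr x = a x)).card : ℝ) - M / ∏ x ∈ V, ((R x).card : ℝ)|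

/-- TRM: one monomial. -/
def Stmt_TRM : Prop :=
  ∀ (α ι : Type) [Fintype α] [DecidableEq α] [Fintype ι] [DecidableEq ι] (pr : α → ℕ)
    (R : α → Finset ℕ) (sh : ι → ℤ) (NN : Finset ℕ) (M : ℝ) (u : ι → Finset α),
    (∀ x, (R x).Nonempty) → (∀ x, ∀ a ∈ R x, a < pr x) → (∀ n ∈ NN, ∀ x, n % pr x ∈ R x) →
    ∃ a : α → ℕ, (∀ x, a x ∈ R x) ∧
      |∑ n ∈ NN, (open Classical in if (∀ h, u h ⊆ tb pr sh n h) then (1 : ℝ) else 0) -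
        M * EW pr R sh (fun t => open Classical in if (∀ h, u h ⊆ t h) then (1 : ℝ) else 0)| ≤
      err pr R NN M a (supp u)

/-- TRA: the transfer. -/
def Stmt_TRA : Prop :=
  ∀ (α ι : Type) [Fintype α] [DecidableEq α] [Fintype ι] [DecidableEq ι] (pr : α → ℕ)
    (R : α → Finset ℕ) (sh : ι → ℤ) (r : α → ℝ) (Ψ : (ι → Finset α) → ℝ) (K κ D : ℝ)
    (NN : Finset ℕ) (M δ : ℝ), (∀ x, (R x).Nonempty) → (∀ x, ∀ a ∈ R x, a < pr x) →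
    (∀ n ∈ NN, ∀ x, n % pr x ∈ R x) → 0 ≤ K → 0 ≤ κ → Ex r Ψ K κ D →
    (∀ a : Finset α → α → ℕ, (∀ V x, a V x ∈ R x) →
      ∑ V ∈ univ.filter (fun V : Finset α => ∏ x ∈ V, r x ≤ D),
        κ ^ V.card * err pr R NN M (a V) V ≤ δ) →
    |∑ n ∈ NN, Ψ (tb pr sh n) - M * EW pr R sh Ψ| ≤ K * δ

/-- The shifts which survive the residues `ω` of the small primes. -/
def Sw {σ ι : Type} [Fintype σ] [Fintype ι] (pr : σ → ℕ) (sh : ι → ℤ) (ω : σ → ℕ) : Finset ι :=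
  univ.filter (fun h => ∀ y, ¬ (pr y : ℤ) ∣ (ω y : ℤ) + sh h)

/-- MOL: for large primes the residues are the labels. -/
def Stmt_MOL : Prop :=
  ∀ (π ι : Type) [Fintype π] [DecidableEq π] [Fintype ι] [DecidableEq ι] (pr : π → ℕ)
    (R : π → Finset ℕ) (sh : ι → ℤ) (Φ : (ι → Finset π) → ℝ), (∀ x, (R x).Nonempty) →
    (∀ x, ∀ a ∈ R x, a < pr x) → (∀ x h, ((-sh h) % (pr x : ℤ)).toNat ∈ R x) →
    (∀ x h h', h ≠ h' → ¬ (pr x : ℤ) ∣ sh h - sh h') →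
    EW pr R sh Φ = EN (fun x => 1 / ((R x).card : ℝ)) Φ

/-- MOD: the model mean is a mean over the residues of the small primes of label means. -/
def Stmt_MOD : Prop :=
  ∀ (σ π ι : Type) [Fintype σ] [DecidableEq σ] [Fintype π] [DecidableEq π] [Fintype ι]
    [DecidableEq ι] (ps : σ → ℕ) (pl : π → ℕ) (Rs : σ → Finset ℕ) (Rl : π → Finset ℕ)
    (sh : ι → ℤ) (Θ : Finset ι → (ι → Finset π) → ℝ), (∀ x, (Rs x).Nonempty) →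
    (∀ x, (Rl x).Nonempty) → (∀ x, ∀ a ∈ Rl x, a < pl x) →
    (∀ x h, ((-sh h) % (pl x : ℤ)).toNat ∈ Rl x) →
    (∀ x h h', h ≠ h' → ¬ (pl x : ℤ) ∣ sh h - sh h') →
    EW (Sum.elim ps pl) (Sum.elim Rs Rl) sh (fun t => Θ (Sset t) (lg t)) =
      (∑ ω ∈ Fintype.piFinset Rs, EN (fun x => 1 / ((Rl x).card : ℝ)) (Θ (Sw ps sh ω))) /
        ∏ y, ((Rs y).card : ℝ)

/-! ## Part C: the conclusion from the local statement -/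

/-- CSW: Cauchy and Schwarz. -/
def Stmt_CSW : Prop :=
  ∀ (NN G : Finset ℕ) (Θ F : ℕ → ℝ) (M C : ℝ), G ⊆ NN → 0 < M → 0 ≤ C →
    (∀ n ∈ NN, Θ n ≤ F n ^ 2) → (∀ n ∈ NN, n ∉ G → Θ n ≤ 0) →
    M / 4 ≤ ∑ n ∈ NN, Θ n → ∑ n ∈ NN, F n ^ 4 ≤ C * M → M / (16 * (C + 1)) ≤ G.card

/-- PWI: the pointwise inequality. -/
def Stmt_PWI : Prop :=
  ∀ (π ι : Type) [Fintype π] [DecidableEq π] [Fintype ι] [DecidableEq ι] (q : π → ℝ)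
    (b : π → ℕ) (I J : ℕ) (S : Finset ι) (t : ι → Finset π), 1 ≤ J →
    (∀ s : Fin J, mt q b (I - 1 - s) ≠ 1) →
    Psi q b I J S t ≤ FF q b I J S t ^ 2 ∧
    ((∃ m ∈ S, t m = ∅) → Psi q b I J S t ≤ 0)

/-- GEN: the general theorem. `Rs`, `Rl` are the residues of the sequence `NN`, small and large
primes. -/
def Stmt_GEN : Prop :=
  ∀ (J : ℕ) (A : ℝ), 1 ≤ J → 1 ≤ A → ∃ N : ℕ, ∀ (σ π ι : Type) [Fintype σ] [DecidableEq σ]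
    [Fintype π] [DecidableEq π] [Fintype ι] [DecidableEq ι] (ps : σ → ℕ) (pl : π → ℕ)
    (Rs : σ → Finset ℕ) (Rl : π → Finset ℕ) (sh : ι → ℤ) (b : π → ℕ) (I : ℕ)
    (a : Fin J → Finset π → ℝ) (aρ : Finset π → ℝ) (D M K C : ℝ) (NN : Finset ℕ),
    (∀ x, (Rs x).Nonempty) → (∀ x, ∀ r ∈ Rs x, r < ps x) →
    (∀ x, (Rl x).Nonempty) → (∀ x, ∀ r ∈ Rl x, r < pl x) →
    (∀ x h, ((-sh h) % (pl x : ℤ)).toNat ∈ Rl x) →
    (∀ x h h', h ≠ h' → ¬ (pl x : ℤ) ∣ sh h - sh h') →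
    (∀ n ∈ NN, ∀ x, n % ps x ∈ Rs x) → (∀ n ∈ NN, ∀ x, n % pl x ∈ Rl x) →
    1 ≤ D → (∀ s U, |a s U| ≤ A) → (∀ U, |aρ U| ≤ A) →
    (∀ s U, a s U ≠ 0 → ∏ x ∈ U, (pl x : ℝ) ≤ D ^ ((1 / 2 : ℝ) ^ (s : ℕ))) →
    (∀ U, aρ U ≠ 0 → ∏ x ∈ U, (pl x : ℝ) ≤ D) →
    (∀ (s : Fin J) T, gs (fun x => 1 / ((Rl x).card : ℝ)) b I s T = ∑ U ∈ T.powerset, a s U) →
    (∀ T, rho b I T = ∑ U ∈ T.powerset, aρ U) →
    (∀ s : Fin J, mt (fun x => 1 / ((Rl x).card : ℝ)) b (I - 1 - s) ≠ 1) → 0 < M → 0 ≤ C →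
    (∀ ω ∈ Fintype.piFinset Rs, ((Sw ps sh ω).card : ℝ) ≤ K) →
    (∀ S : Finset ι, (S.card : ℝ) ≤ K →
      1 / 2 ≤ EN (fun x => 1 / ((Rl x).card : ℝ)) (Psi (fun x => 1 / ((Rl x).card : ℝ)) b I J S) ∧
      EN (fun x => 1 / ((Rl x).card : ℝ))
        (fun t => FF (fun x => 1 / ((Rl x).card : ℝ)) b I J S t ^ 4) ≤ C) →
    (∀ a' : Finset (σ ⊕ π) → σ ⊕ π → ℕ, (∀ V x, a' V x ∈ Sum.elim Rs Rl x) →
      ∑ V ∈ univ.filter (fun V : Finset (σ ⊕ π) => ∏ x ∈ V, rr pl x ≤ D ^ 8),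
        (2 ^ N : ℝ) ^ V.card * err (Sum.elim ps pl) (Sum.elim Rs Rl) NN M (a' V) V ≤
          M / (4 * (2 + (Fintype.card ι : ℝ)) ^ N)) →
    M / (16 * (C + 2)) ≤
      ((NN.filter (fun n : ℕ => ∀ h, ∃ x : σ ⊕ π,
        ((Sum.elim ps pl x : ℕ) : ℤ) ∣ (n : ℤ) + sh h)).card : ℝ)

end Pool.PP
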